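import Pool.Agent.Lib.MP_b6786a_co.Zeil.Basic

/-!
# Task ALPHA: the symmetrised Gog kernel.
-/

set_option autoImplicit false

namespace Pool.Agent.Lib.MP_b6786a_co.Zeil

open Finset Function Polynomial

variable {F : Type*}

/-! ### Lucas polynomials -/

/-- `alphaLuc n` evaluated at `σ(1-σ)` is `(σ^n - (1-σ)^n)/(2σ-1)`. -/
noncomputable def alphaLuc (F : Type*) [Field F] : ℕ → F[X]
  | 0 => 0
  | 1 => 1
  | (n + 2) => alphaLuc F (n + 1) - X * alphaLuc F n

theorem alphaLuc_eval [Field F] (a b : F) (hab : a + b = 1) (n : ℕ) :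
    (a - b) * (alphaLuc F n).eval (a * b) = a ^ n - b ^ n := by
  induction n using Nat.twoStepInduction with
  | zero => simp [alphaLuc]
  | one => simp [alphaLuc]
  | more n ih1 ih2 =>
    simp only [alphaLuc, eval_sub, eval_mul, eval_X]
    have hb : b = 1 - a := by linear_combination hab
    have e1 : (a - b) * ((alphaLuc F (n + 1)).eval (a * b) - a * b * (alphaLuc F n).eval (a * b)) =
        (a - b) * (alphaLuc F (n + 1)).eval (a * b) -
          a * b * ((a - b) * (alphaLuc F n).eval (a * b)) := by ring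
    rw [e1, ih1, ih2]
    have : a ^ (n + 2) - b ^ (n + 2) = (a + b) * (a ^ (n + 1) - b ^ (n + 1)) - a * b * (a ^ n - b ^ n) := by
      ring
    rw [this, hab]
    ring

theorem alphaLuc_coeff [Field F] (n j : ℕ) (h : n ≤ 2 * j) : (alphaLuc F n).coeff j = 0 := by
  induction n using Nat.twoStepInduction generalizing j with
  | zero => simp [alphaLuc]
  | one =>
    simp only [alphaLuc, coeff_one]
    rw [if_neg]
    omega
  | more n ih1 ih2 =>
    simp only [alphaLuc, coeff_sub]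
    rw [ih2 j (by omega)]
    rcases j with _ | j
    · omega
    · rw [coeff_X_mul, ih1 j (by omega), sub_zero]

theorem alphaLuc_coeff_zero [Field F] (n : ℕ) : (alphaLuc F (n + 1)).coeff 0 = 1 := by
  induction n with
  | zero => simp [alphaLuc]
  | succ n ih =>
    rw [alphaLuc, coeff_sub, ih]
    simp

theorem alphaLuc_natDegree [Field F] (n : ℕ) : (alphaLuc F (n + 1)).natDegree ≤ n / 2 := by
  rw [natDegree_le_iff_coeff_eq_zero]
  intro j hj
  apply alphaLuc_coeff
  omega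

/-! ### The sequence of traces -/

noncomputable def alphaP (F : Type*) [Field F] : ℕ → F[X]
  | 0 => 0
  | 1 => 0
  | 2 => 1
  | (n + 3) => (3 - X) * alphaP F (n + 2) - 3 * alphaP F (n + 1) + alphaP F n

noncomputable def alphaN (F : Type*) [Field F] : ℕ → F[X]
  | 0 => 0
  | 1 => 1
  | 2 => 3
  | (n + 3) => alphaN F n + (X - 3) * alphaN F (n + 1) + 3 * alphaN F (n + 2)

theorem alphaP_coeff [Field F] (n j : ℕ) (h : n ≤ j + 1) : (alphaP F n).coeff j = 0 := by
  induction n using Nat.strong_induction_on generalizing j with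
  | _ n ih =>
    match n, h with
    | 0, _ => simp [alphaP]
    | 1, _ => simp [alphaP]
    | 2, h =>
      simp only [alphaP, coeff_one]
      rw [if_neg]
      omega
    | (n + 3), h =>
      obtain ⟨j, rfl⟩ : ∃ i, j = i + 1 := ⟨j - 1, by omega⟩
      have e : (alphaP F (n + 3)) = C 3 * alphaP F (n + 2) - X * alphaP F (n + 2) -
          C 3 * alphaP F (n + 1) + alphaP F n := by
        rw [alphaP]
        simp only [map_ofNat]
        ring
      rw [e]
      simp only [coeff_add, coeff_sub, coeff_C_mul, coeff_X_mul]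
      rw [ih (n + 2) (by omega) (j + 1) (by omega), ih (n + 2) (by omega) j (by omega),
        ih (n + 1) (by omega) (j + 1) (by omega), ih n (by omega) (j + 1) (by omega)]
      ring

theorem alphaN_coeff [Field F] (n j : ℕ) (h : n ≤ 2 * j) : (alphaN F n).coeff j = 0 := by
  induction n using Nat.strong_induction_on generalizing j with
  | _ n ih =>
    match n, h with
    | 0, _ => simp [alphaN]
    | 1, h =>
      simp only [alphaN, coeff_one]
      rw [if_neg]
      omega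
    | 2, h =>
      have : (alphaN F 2) = C 3 := by rw [alphaN, map_ofNat]
      rw [this, coeff_C, if_neg]
      omega
    | (n + 3), h =>
      obtain ⟨j, rfl⟩ : ∃ i, j = i + 1 := ⟨j - 1, by omega⟩
      have e : (alphaN F (n + 3)) = alphaN F n + X * alphaN F (n + 1) - C 3 * alphaN F (n + 1) +
          C 3 * alphaN F (n + 2) := by
        rw [alphaN]
        simp only [map_ofNat]
        ring
      rw [e]
      simp only [coeff_add, coeff_sub, coeff_C_mul, coeff_X_mul]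
      rw [ih n (by omega) (j + 1) (by omega), ih (n + 1) (by omega) j (by omega),
        ih (n + 1) (by omega) (j + 1) (by omega), ih (n + 2) (by omega) (j + 1) (by omega)]
      ring

theorem alphaN_coeff_top [Field F] (j : ℕ) : (alphaN F (2 * j + 1)).coeff j = 1 := by
  induction j with
  | zero => simp [alphaN]
  | succ j ih =>
    have e : (alphaN F (2 * (j + 1) + 1)) = alphaN F (2 * j) + X * alphaN F (2 * j + 1) -
        C 3 * alphaN F (2 * j + 1) + C 3 * alphaN F (2 * j + 2) := by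
      have : 2 * (j + 1) + 1 = 2 * j + 3 := by ring
      rw [this, alphaN]
      simp only [map_ofNat]
      ring
    rw [e]
    simp only [coeff_add, coeff_sub, coeff_C_mul, coeff_X_mul]
    rw [ih, alphaN_coeff _ _ (by omega), alphaN_coeff _ _ (by omega), alphaN_coeff _ _ (by omega)]
    ring

/-- the traces, all integer exponents -/
noncomputable def alphaA (F : Type*) [Field F] (n : ℤ) : F[X] :=
  if 0 ≤ n then alphaP F n.toNat else alphaN F (-n).toNat

theorem alphaA_eval [Field F] (J x y z w1 w2 w3 : F) (hx0 : x ≠ 0) (hy0 : y ≠ 0) (hz0 : z ≠ 0)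
    (hx : x ^ 3 = (3 - J) * x ^ 2 - 3 * x + 1) (hy : y ^ 3 = (3 - J) * y ^ 2 - 3 * y + 1)
    (hz : z ^ 3 = (3 - J) * z ^ 2 - 3 * z + 1) (h0 : w1 + w2 + w3 = 0)
    (h1 : w1 * x + w2 * y + w3 * z = 0) (h2 : w1 * x ^ 2 + w2 * y ^ 2 + w3 * z ^ 2 = 1) (n : ℤ) :
    (alphaA F n).eval J = w1 * x ^ n + w2 * y ^ n + w3 * z ^ n := by
  have hp : ∀ n : ℕ, (alphaP F n).eval J = w1 * x ^ n + w2 * y ^ n + w3 * z ^ n := by
    intro n
    induction n using Nat.strong_induction_on with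
    | _ n ih =>
      match n with
      | 0 => simp [alphaP, h0]
      | 1 => simp [alphaP, h1]
      | 2 => simp [alphaP, h2]
      | (n + 3) =>
        rw [alphaP]
        simp only [eval_add, eval_sub, eval_mul, eval_X, eval_ofNat]
        rw [ih (n + 2) (by omega), ih (n + 1) (by omega), ih n (by omega)]
        have ex : x ^ (n + 3) = x ^ n * ((3 - J) * x ^ 2 - 3 * x + 1) := by rw [pow_add, hx]
        have ey : y ^ (n + 3) = y ^ n * ((3 - J) * y ^ 2 - 3 * y + 1) := by rw [pow_add, hy]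
        have ez : z ^ (n + 3) = z ^ n * ((3 - J) * z ^ 2 - 3 * z + 1) := by rw [pow_add, hz]
        rw [ex, ey, ez]
        ring
  have hn : ∀ n : ℕ, (alphaN F n).eval J =
      w1 * x⁻¹ ^ n + w2 * y⁻¹ ^ n + w3 * z⁻¹ ^ n := by
    have ex : ∀ n : ℕ, x⁻¹ ^ n = x⁻¹ ^ (n + 3) * ((3 - J) * x ^ 2 - 3 * x + 1) := by
      intro n
      rw [← hx, pow_add, mul_assoc, ← mul_pow, inv_mul_cancel₀ hx0, one_pow, mul_one]
    have ey : ∀ n : ℕ, y⁻¹ ^ n = y⁻¹ ^ (n + 3) * ((3 - J) * y ^ 2 - 3 * y + 1) := by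
      intro n
      rw [← hy, pow_add, mul_assoc, ← mul_pow, inv_mul_cancel₀ hy0, one_pow, mul_one]
    have ez : ∀ n : ℕ, z⁻¹ ^ n = z⁻¹ ^ (n + 3) * ((3 - J) * z ^ 2 - 3 * z + 1) := by
      intro n
      rw [← hz, pow_add, mul_assoc, ← mul_pow, inv_mul_cancel₀ hz0, one_pow, mul_one]
    have fx : ∀ n : ℕ, x⁻¹ ^ (n + 1) * x = x⁻¹ ^ n := by
      intro n
      rw [pow_succ, mul_assoc, inv_mul_cancel₀ hx0, mul_one]
    have fy : ∀ n : ℕ, y⁻¹ ^ (n + 1) * y = y⁻¹ ^ n := by
      intro n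
      rw [pow_succ, mul_assoc, inv_mul_cancel₀ hy0, mul_one]
    have fz : ∀ n : ℕ, z⁻¹ ^ (n + 1) * z = z⁻¹ ^ n := by
      intro n
      rw [pow_succ, mul_assoc, inv_mul_cancel₀ hz0, mul_one]
    -- recurrence for the right-hand side
    have hrec : ∀ n : ℕ, w1 * x⁻¹ ^ (n + 3) + w2 * y⁻¹ ^ (n + 3) + w3 * z⁻¹ ^ (n + 3) =
        (w1 * x⁻¹ ^ n + w2 * y⁻¹ ^ n + w3 * z⁻¹ ^ n) +
        (J - 3) * (w1 * x⁻¹ ^ (n + 1) + w2 * y⁻¹ ^ (n + 1) + w3 * z⁻¹ ^ (n + 1)) +
        3 * (w1 * x⁻¹ ^ (n + 2) + w2 * y⁻¹ ^ (n + 2) + w3 * z⁻¹ ^ (n + 2)) := by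
      intro n
      have gx : x⁻¹ ^ (n + 3) = x⁻¹ ^ n + (J - 3) * x⁻¹ ^ (n + 1) + 3 * x⁻¹ ^ (n + 2) := by
        have h1 := ex n
        have h2 := fx n
        have h3 := fx (n + 1)
        have h4 := fx (n + 2)
        have h5 : x⁻¹ ^ (n + 3) * x ^ 2 = x⁻¹ ^ (n + 1) := by
          rw [pow_two, ← mul_assoc, h4, h3]
        have h6 : x⁻¹ ^ (n + 3) * ((3 - J) * x ^ 2 - 3 * x + 1) =
          (3 - J) * (x⁻¹ ^ (n + 3) * x ^ 2) - 3 * (x⁻¹ ^ (n + 3) * x) + x⁻¹ ^ (n + 3) := by ring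
        rw [h6, h5, h4] at h1
        rw [h1]
        ring
      have gy : y⁻¹ ^ (n + 3) = y⁻¹ ^ n + (J - 3) * y⁻¹ ^ (n + 1) + 3 * y⁻¹ ^ (n + 2) := by
        have h1 := ey n
        have h2 := fy n
        have h3 := fy (n + 1)
        have h4 := fy (n + 2)
        have h5 : y⁻¹ ^ (n + 3) * y ^ 2 = y⁻¹ ^ (n + 1) := by
          rw [pow_two, ← mul_assoc, h4, h3]
        have h6 : y⁻¹ ^ (n + 3) * ((3 - J) * y ^ 2 - 3 * y + 1) =
          (3 - J) * (y⁻¹ ^ (n + 3) * y ^ 2) - 3 * (y⁻¹ ^ (n + 3) * y) + y⁻¹ ^ (n + 3) := by ring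
        rw [h6, h5, h4] at h1
        rw [h1]
        ring
      have gz : z⁻¹ ^ (n + 3) = z⁻¹ ^ n + (J - 3) * z⁻¹ ^ (n + 1) + 3 * z⁻¹ ^ (n + 2) := by
        have h1 := ez n
        have h2 := fz n
        have h3 := fz (n + 1)
        have h4 := fz (n + 2)
        have h5 : z⁻¹ ^ (n + 3) * z ^ 2 = z⁻¹ ^ (n + 1) := by
          rw [pow_two, ← mul_assoc, h4, h3]
        have h6 : z⁻¹ ^ (n + 3) * ((3 - J) * z ^ 2 - 3 * z + 1) =
          (3 - J) * (z⁻¹ ^ (n + 3) * z ^ 2) - 3 * (z⁻¹ ^ (n + 3) * z) + z⁻¹ ^ (n + 3) := by ring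
        rw [h6, h5, h4] at h1
        rw [h1]
        ring
      rw [gx, gy, gz]
      ring
    -- inverse powers 1 and 2
    have b1 : w1 * x⁻¹ + w2 * y⁻¹ + w3 * z⁻¹ = 1 := by
      have qx : x⁻¹ = x ^ 2 + (J - 3) * x + 3 := by
        field_simp
        linear_combination -hx
      have qy : y⁻¹ = y ^ 2 + (J - 3) * y + 3 := by
        field_simp
        linear_combination -hy
      have qz : z⁻¹ = z ^ 2 + (J - 3) * z + 3 := by
        field_simp
        linear_combination -hz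
      rw [qx, qy, qz]
      linear_combination h2 + (J - 3) * h1 + 3 * h0
    have b2 : w1 * x⁻¹ ^ 2 + w2 * y⁻¹ ^ 2 + w3 * z⁻¹ ^ 2 = 3 := by
      have qx : x⁻¹ ^ 2 = x + (J - 3) + 3 * x⁻¹ := by
        field_simp
        linear_combination -hx
      have qy : y⁻¹ ^ 2 = y + (J - 3) + 3 * y⁻¹ := by
        field_simp
        linear_combination -hy
      have qz : z⁻¹ ^ 2 = z + (J - 3) + 3 * z⁻¹ := by
        field_simp
        linear_combination -hz
      rw [qx, qy, qz]
      linear_combination h1 + (J - 3) * h0 + 3 * b1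
    intro n
    induction n using Nat.strong_induction_on with
    | _ n ih =>
      match n with
      | 0 => simp [alphaN, h0]
      | 1 => simp [alphaN, b1]
      | 2 => simp only [alphaN, eval_ofNat]; rw [b2]
      | (n + 3) =>
        rw [alphaN, hrec]
        simp only [eval_add, eval_sub, eval_mul, eval_X, eval_ofNat]
        rw [ih (n + 2) (by omega), ih (n + 1) (by omega), ih n (by omega)]
  unfold alphaA
  split_ifs with hn0
  · lift n to ℕ using hn0
    rw [Int.toNat_natCast, hp]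
    simp only [zpow_natCast]
  · obtain ⟨m, rfl⟩ : ∃ m : ℕ, n = -(m : ℤ) := ⟨(-n).toNat, by omega⟩
    rw [neg_neg, Int.toNat_natCast, hn]
    simp only [zpow_neg, zpow_natCast, inv_pow]

/-! ### The functional `Λ_N` -/

/-- `Λ_N(p) = Σ_n p_n a_{n-N}` -/
noncomputable def alphaLam [Field F] (N : ℕ) (p : F[X]) : F[X] :=
  ∑ n ∈ range (p.natDegree + 1), C (p.coeff n) * alphaA F ((n : ℤ) - N)

theorem alphaLam_eval [Field F] (J x y z w1 w2 w3 : F) (hx0 : x ≠ 0) (hy0 : y ≠ 0) (hz0 : z ≠ 0)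
    (hx : x ^ 3 = (3 - J) * x ^ 2 - 3 * x + 1) (hy : y ^ 3 = (3 - J) * y ^ 2 - 3 * y + 1)
    (hz : z ^ 3 = (3 - J) * z ^ 2 - 3 * z + 1) (h0 : w1 + w2 + w3 = 0)
    (h1 : w1 * x + w2 * y + w3 * z = 0) (h2 : w1 * x ^ 2 + w2 * y ^ 2 + w3 * z ^ 2 = 1)
    (N : ℕ) (p : F[X]) :
    (alphaLam N p).eval J = w1 * (x⁻¹ ^ N * p.eval x) + w2 * (y⁻¹ ^ N * p.eval y) +
      w3 * (z⁻¹ ^ N * p.eval z) := by
  have e : ∀ (t : F), t ≠ 0 → ∀ n : ℕ, t ^ ((n : ℤ) - N) = t⁻¹ ^ N * t ^ n := by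
    intro t ht n
    rw [zpow_sub₀ ht, zpow_natCast, zpow_natCast, inv_pow]
    field_simp
  rw [alphaLam, eval_finsetSum, eval_eq_sum_range, eval_eq_sum_range, eval_eq_sum_range]
  simp only [mul_sum, ← sum_add_distrib]
  refine sum_congr rfl fun n _ => ?_
  rw [eval_mul, eval_C, alphaA_eval J x y z w1 w2 w3 hx0 hy0 hz0 hx hy hz h0 h1 h2, e x hx0,
    e y hy0, e z hz0]
  ring

theorem alphaLam_coeff_zero [Field F] (N : ℕ) (p : F[X]) (j : ℕ) (h1 : N ≤ 2 * j)
    (h2 : p.natDegree ≤ N + j + 1) : (alphaLam N p).coeff j = 0 := by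
  rw [alphaLam, finsetSum_coeff]
  refine sum_eq_zero fun n hn => ?_
  rw [mem_range] at hn
  rw [coeff_C_mul]
  have : (alphaA F ((n : ℤ) - N)).coeff j = 0 := by
    unfold alphaA
    split_ifs with h
    · apply alphaP_coeff
      omega
    · apply alphaN_coeff
      omega
  rw [this, mul_zero]

theorem alphaLam_coeff_top [Field F] (p : F[X]) (j : ℕ)
    (h2 : p.natDegree ≤ 3 * j + 2) : (alphaLam (2 * j + 1) p).coeff j = p.coeff 0 := by
  rw [alphaLam, finsetSum_coeff, sum_range_succ']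
  rw [sum_eq_zero, zero_add]
  · rw [coeff_C_mul]
    have : (alphaA F (((0 : ℕ) : ℤ) - ((2 * j + 1 : ℕ) : ℤ))).coeff j = 1 := by
      unfold alphaA
      rw [if_neg (by push_cast; omega)]
      have : (-(((0 : ℕ) : ℤ) - ((2 * j + 1 : ℕ) : ℤ))).toNat = 2 * j + 1 := by
        push_cast
        omega
      rw [this, alphaN_coeff_top]
    rw [this, mul_one]
  · intro n hn
    rw [mem_range] at hn
    rw [coeff_C_mul]
    have : (alphaA F (((n + 1 : ℕ) : ℤ) - ((2 * j + 1 : ℕ) : ℤ))).coeff j = 0 := by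
      unfold alphaA
      split_ifs with h
      · apply alphaP_coeff
        push_cast at h ⊢
        omega
      · apply alphaN_coeff
        push_cast at h ⊢
        omega
    rw [this, mul_zero]

/-! ### The bracket -/

theorem alpha_bracket [Field F] (s : F) (hs : s ≠ 0) (h2 : 2 - s ≠ 0) (k : ℕ) :
    uu s * (alphaLuc F (k + 4)).eval (-(1 - s) / s ^ 2) +
      (-(1 - s) / s ^ 2) * (alphaLuc F (k + 1)).eval (-(1 - s) / s ^ 2) =
    (-(1 - s) / s ^ 2) ^ (k + 1) * ((1 - s) * s ^ k * (1 - uu s)) := by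
  obtain ⟨a, ha⟩ : ∃ a, a = s⁻¹ := ⟨_, rfl⟩
  have ha0 : a ≠ 0 := by rw [ha]; exact inv_ne_zero hs
  have hsa : s = a⁻¹ := by rw [ha, inv_inv]
  have e1 : -(1 - s) / s ^ 2 = a * (1 - a) := by
    rw [hsa]
    field_simp
    ring
  have hd : a - (1 - a) ≠ 0 := by
    intro h
    apply h2
    rw [hsa]
    field_simp
    linear_combination h
  rw [e1]
  apply mul_left_cancel₀ hd
  have l1 := alphaLuc_eval a (1 - a) (by ring) (k + 4)
  have l2 := alphaLuc_eval a (1 - a) (by ring) (k + 1)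
  have e2 : (a - (1 - a)) * (uu s * (alphaLuc F (k + 4)).eval (a * (1 - a)) +
      a * (1 - a) * (alphaLuc F (k + 1)).eval (a * (1 - a))) =
      uu s * (a ^ (k + 4) - (1 - a) ^ (k + 4)) + a * (1 - a) * (a ^ (k + 1) - (1 - a) ^ (k + 1)) := by
    rw [← l1, ← l2]
    ring
  rw [e2]
  have e3 : uu s = -(1 - a) / a ^ 2 := by
    rw [uu, hsa]
    field_simp
    ring
  have e4 : (1 - s) * s ^ k * (1 - uu s) = -(1 - a) / a * a⁻¹ ^ k * ((a ^ 2 + (1 - a)) / a ^ 2) := by
    rw [e3, hsa]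
    have : (1 - a⁻¹) = -(1 - a) / a := by
      field_simp
      ring
    rw [this]
    have : 1 - -(1 - a) / a ^ 2 = ((a ^ 2 + (1 - a)) / a ^ 2) := by
      field_simp
      ring
    rw [this]
  rw [e4, e3]
  have e5 : a⁻¹ ^ k = 1 / a ^ k := by rw [inv_pow, one_div]
  rw [e5, mul_pow]
  field_simp
  ring

theorem alpha_lagrange [Field F] (x y z : F) (hxy : x - y ≠ 0) (hxz : x - z ≠ 0) (hyz : y - z ≠ 0) :
    1 / ((x - y) * (x - z)) + -1 / ((x - y) * (y - z)) + 1 / ((x - z) * (y - z)) = 0 ∧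
    1 / ((x - y) * (x - z)) * x + -1 / ((x - y) * (y - z)) * y + 1 / ((x - z) * (y - z)) * z = 0 ∧
    1 / ((x - y) * (x - z)) * x ^ 2 + -1 / ((x - y) * (y - z)) * y ^ 2 +
      1 / ((x - z) * (y - z)) * z ^ 2 = 1 := by
  refine ⟨?_, ?_, ?_⟩
  · field_simp
    ring
  · field_simp
    ring
  · field_simp
    ring

theorem alpha_core [Field F] {k : ℕ} (s : F) (h0 : s ≠ 0) (h1 : 1 - s ≠ 0) (h2 : 1 - 2 * s ≠ 0)
    (h3 : 1 - uu s ≠ 0) (h4 : 2 + uu s ≠ 0) (v : Fin k → F) :
    (s - (1 - s)) * (uu s ^ (k + 1) * (uu s *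
      (alphaLam (k + 1) (alphaLuc F (k + 4) * ((C (uu s) - X) * ∏ j, (C (v j) - X)))).eval
        ((1 - uu s) ^ 3 / uu s ^ 2) +
      (alphaLam k (alphaLuc F (k + 1) * ((C (uu s) - X) * ∏ j, (C (v j) - X)))).eval
        ((1 - uu s) ^ 3 / uu s ^ 2))) =
    uu s ^ 3 * (s ^ (k + 1) * ∏ j, (s + (1 - s) ^ 2 * v j) -
      (1 - s) ^ (k + 1) * ∏ j, ((1 - s) + s ^ 2 * v j)) := by
  have hu0 : uu s ≠ 0 := mul_ne_zero h0 h1
  have hf4 : (2 - s) * (1 + s) ≠ 0 := by
    have : (2 - s) * (1 + s) = 2 + uu s := by rw [uu]; ring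
    rw [this]; exact h4
  have h5 : 2 - s ≠ 0 := left_ne_zero_of_mul hf4
  have h6 : 1 + s ≠ 0 := right_ne_zero_of_mul hf4
  obtain ⟨t, ht⟩ : ∃ t, t = 1 - s := ⟨_, rfl⟩
  have ht0 : t ≠ 0 := by rw [ht]; exact h1
  have hst : s = 1 - t := by rw [ht]; ring
  set x := uu s with hx
  set y := -(1 - s) / s ^ 2 with hy
  set z := -s / (1 - s) ^ 2 with hz
  have hy0 : y ≠ 0 := div_ne_zero (neg_ne_zero.mpr h1) (pow_ne_zero _ h0)
  have hz0 : z ≠ 0 := div_ne_zero (neg_ne_zero.mpr h0) (pow_ne_zero _ h1)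
  have hxe : x = s * (1 - s) := rfl
  have hxy : x - y = (1 - s) * (1 + s) * (1 - x) / s ^ 2 := by
    rw [hy, hxe]
    field_simp
    ring
  have hxz : x - z = s * (2 - s) * (1 - x) / (1 - s) ^ 2 := by
    rw [hz, hxe]
    field_simp
    ring
  have hyz : y - z = (s - (1 - s)) * (1 - x) / x ^ 2 := by
    rw [hy, hz, hxe]
    field_simp
    ring
  have hs2 : s - (1 - s) ≠ 0 := by
    intro h
    apply h2
    linear_combination -h
  have hxy0 : x - y ≠ 0 := by
    rw [hxy]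
    exact div_ne_zero (mul_ne_zero (mul_ne_zero h1 h6) h3) (pow_ne_zero _ h0)
  have hxz0 : x - z ≠ 0 := by
    rw [hxz]
    exact div_ne_zero (mul_ne_zero (mul_ne_zero h0 h5) h3) (pow_ne_zero _ h1)
  have hyz0 : y - z ≠ 0 := by
    rw [hyz]
    exact div_ne_zero (mul_ne_zero hs2 h3) (pow_ne_zero _ hu0)
  set J := (1 - x) ^ 3 / x ^ 2 with hJ
  have cx : x ^ 3 = (3 - J) * x ^ 2 - 3 * x + 1 := by
    have : J * x ^ 2 = (1 - x) ^ 3 := by
      rw [hJ]
      field_simp
    linear_combination this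
  have cy : y ^ 3 = (3 - J) * y ^ 2 - 3 * y + 1 := by
    have h1y : 1 - y = (1 - x) / s ^ 2 := by
      rw [hy, hxe]
      field_simp
      ring
    have : J * y ^ 2 = (1 - y) ^ 3 := by
      rw [hJ, h1y, hy]
      have : x ^ 2 = s ^ 2 * (1 - s) ^ 2 := by rw [hxe]; ring
      rw [this]
      field_simp
    linear_combination this
  have cz : z ^ 3 = (3 - J) * z ^ 2 - 3 * z + 1 := by
    have h1z : 1 - z = (1 - x) / (1 - s) ^ 2 := by
      rw [hz, hxe]
      field_simp
      ring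
    have : J * z ^ 2 = (1 - z) ^ 3 := by
      rw [hJ, h1z, hz]
      have : x ^ 2 = s ^ 2 * (1 - s) ^ 2 := by rw [hxe]; ring
      rw [this]
      field_simp
    linear_combination this
  obtain ⟨l0, l1, l2⟩ := alpha_lagrange x y z hxy0 hxz0 hyz0
  rw [alphaLam_eval J x y z _ _ _ hu0 hy0 hz0 cx cy cz l0 l1 l2,
    alphaLam_eval J x y z _ _ _ hu0 hy0 hz0 cx cy cz l0 l1 l2]
  simp only [eval_mul, eval_sub, eval_C, eval_X, sub_self, zero_mul, mul_zero, zero_add]
  rw [eval_prod, eval_prod]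
  simp only [eval_sub, eval_C, eval_X]
  -- the two products
  have py : ∏ j, (v j - y) = (∏ j, ((1 - s) + s ^ 2 * v j)) / (s ^ 2) ^ k := by
    have : ∀ j, v j - y = ((1 - s) + s ^ 2 * v j) / s ^ 2 := by
      intro j
      rw [hy]
      field_simp
      ring
    rw [Finset.prod_congr rfl fun j _ => this j, Finset.prod_div_distrib]
    simp
  have pz : ∏ j, (v j - z) = (∏ j, (s + (1 - s) ^ 2 * v j)) / ((1 - s) ^ 2) ^ k := by
    have : ∀ j, v j - z = (s + (1 - s) ^ 2 * v j) / (1 - s) ^ 2 := by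
      intro j
      rw [hz]
      field_simp
      ring
    rw [Finset.prod_congr rfl fun j _ => this j, Finset.prod_div_distrib]
    simp
  have by_ := alpha_bracket s h0 h5 k
  have bz_ := alpha_bracket (1 - s) h1 (by
    have : 2 - (1 - s) = 1 + s := by ring
    rw [this]; exact h6) k
  have hus : uu (1 - s) = x := by rw [hxe, uu]; ring
  have hzs : -(1 - (1 - s)) / (1 - s) ^ 2 = z := by rw [hz]; congr 1; ring
  rw [hus, hzs] at bz_
  rw [← hy] at by_
  rw [← hx] at by_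
  rw [py, pz]
  generalize (∏ j, ((1 - s) + s ^ 2 * v j)) = PY at *
  generalize (∏ j, (s + (1 - s) ^ 2 * v j)) = PZ at *
  generalize hL1 : (alphaLuc F (k + 4)).eval y = L1 at *
  generalize hL2 : (alphaLuc F (k + 1)).eval y = L2 at *
  generalize hM1 : (alphaLuc F (k + 4)).eval z = M1 at *
  generalize hM2 : (alphaLuc F (k + 1)).eval z = M2 at *
  have yk : y⁻¹ ^ k = y⁻¹ ^ (k + 1) * y := by
    rw [pow_succ, mul_assoc, inv_mul_cancel₀ hy0, mul_one]
  have zk : z⁻¹ ^ k = z⁻¹ ^ (k + 1) * z := by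
    rw [pow_succ, mul_assoc, inv_mul_cancel₀ hz0, mul_one]
  have yk1 : y⁻¹ ^ (k + 1) * y ^ (k + 1) = 1 := by
    rw [← mul_pow, inv_mul_cancel₀ hy0, one_pow]
  have zk1 : z⁻¹ ^ (k + 1) * z ^ (k + 1) = 1 := by
    rw [← mul_pow, inv_mul_cancel₀ hz0, one_pow]
  have step1 : x * (-1 / ((x - y) * (y - z)) * (y⁻¹ ^ (k + 1) * (L1 * ((x - y) * (PY / (s ^ 2) ^ k)))) +
        1 / ((x - z) * (y - z)) * (z⁻¹ ^ (k + 1) * (M1 * ((x - z) * (PZ / ((1 - s) ^ 2) ^ k))))) +
      (-1 / ((x - y) * (y - z)) * (y⁻¹ ^ k * (L2 * ((x - y) * (PY / (s ^ 2) ^ k)))) +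
        1 / ((x - z) * (y - z)) * (z⁻¹ ^ k * (M2 * ((x - z) * (PZ / ((1 - s) ^ 2) ^ k))))) =
      (1 / (y - z)) * ((PZ / ((1 - s) ^ 2) ^ k) * (z⁻¹ ^ (k + 1) * (x * M1 + z * M2)) -
        (PY / (s ^ 2) ^ k) * (y⁻¹ ^ (k + 1) * (x * L1 + y * L2))) := by
    rw [yk, zk]
    field_simp
    ring
  rw [step1, by_, bz_]
  have step2 : z⁻¹ ^ (k + 1) * (z ^ (k + 1) * ((1 - (1 - s)) * (1 - s) ^ k * (1 - x))) =
      s * (1 - s) ^ k * (1 - x) := by
    rw [← mul_assoc, zk1]
    ring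
  have step3 : y⁻¹ ^ (k + 1) * (y ^ (k + 1) * ((1 - s) * s ^ k * (1 - x))) =
      (1 - s) * s ^ k * (1 - x) := by
    rw [← mul_assoc, yk1]
    ring
  rw [step2, step3, hyz, hxe]
  have h3' : 1 - s * (1 - s) ≠ 0 := h3
  rw [← pow_mul, ← pow_mul, mul_comm 2 k, pow_mul, pow_mul, mul_pow, mul_pow]
  rw [← ht] at *
  field_simp
  ring

/-! ### The determinant identity -/

theorem alpha_eval_range [Field F] (p : F[X]) (n : ℕ) (h : ∀ j, n ≤ j → p.coeff j = 0) (x : F) :
    p.eval x = ∑ a ∈ range n, p.coeff a * x ^ a := by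
  rcases n with _ | n
  · have : p = 0 := by
      ext j
      simpa using h j (Nat.zero_le _)
    simp [this]
  · apply eval_eq_sum_range'
    rw [Nat.lt_succ_iff, natDegree_le_iff_coeff_eq_zero]
    intro j hj
    exact h j hj

theorem alpha_split_sum [Field F] (α β : ℕ → F) (n : ℕ) :
    ∑ j ∈ range n, (if Even j then α (j / 2) else β (j / 2)) =
      ∑ a ∈ range ((n + 1) / 2), α a + ∑ a ∈ range (n / 2), β a := by
  induction n with
  | zero => simp
  | succ n ih =>
    rw [sum_range_succ, ih]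
    rcases Nat.even_or_odd' n with ⟨c, rfl | rfl⟩
    · have h1 : (2 * c + 1) / 2 = c := by omega
      have h2 : (2 * c + 1 + 1) / 2 = c + 1 := by omega
      have h3 : 2 * c / 2 = c := by omega
      rw [h1, h2, h3, if_pos (even_two_mul c), sum_range_succ]
      ring
    · have h1 : (2 * c + 1 + 1) / 2 = c + 1 := by omega
      have h2 : (2 * c + 1 + 1 + 1) / 2 = c + 1 := by omega
      have h3 : (2 * c + 1) / 2 = c := by omega
      rw [h1, h2, h3, if_neg (by simp), sum_range_succ (fun a => β a)]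
      ring

/-- the coefficients `c_j` -/
noncomputable def alphaC [Field F] (k : ℕ) (T : F[X]) (j : ℕ) : F :=
  if Even j then (alphaLam (k + 1) (alphaLuc F (k + 4) * T)).coeff (j / 2)
  else (alphaLam k (alphaLuc F (k + 1) * T)).coeff (j / 2)

theorem alphaC_sum [Field F] (k : ℕ) (T : F[X]) (hT : T.natDegree ≤ k + 1) (u : F) (hu : u ≠ 0) :
    u ^ 2 * ∑ j : Fin (k + 1), alphaC k T j * gg (k + 1) j u =
      u ^ (k + 1) * (u * (alphaLam (k + 1) (alphaLuc F (k + 4) * T)).eval ((1 - u) ^ 3 / u ^ 2) +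
        (alphaLam k (alphaLuc F (k + 1) * T)).eval ((1 - u) ^ 3 / u ^ 2)) := by
  have hA : ∀ j, (k + 2) / 2 ≤ j → (alphaLam (k + 1) (alphaLuc F (k + 4) * T)).coeff j = 0 := by
    intro j hj
    apply alphaLam_coeff_zero _ _ _ (by omega)
    refine (natDegree_mul_le).trans ?_
    have : (alphaLuc F (k + 4)).natDegree ≤ (k + 3) / 2 := alphaLuc_natDegree (F := F) (k + 3)
    omega
  have hB : ∀ j, (k + 1) / 2 ≤ j → (alphaLam k (alphaLuc F (k + 1) * T)).coeff j = 0 := by
    intro j hj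
    apply alphaLam_coeff_zero _ _ _ (by omega)
    refine (natDegree_mul_le).trans ?_
    have := alphaLuc_natDegree (F := F) k
    omega
  rw [alpha_eval_range _ _ hA, alpha_eval_range _ _ hB]
  have e : ∀ j : ℕ, alphaC k T j * gg (k + 1) j u =
      if Even j then (alphaLam (k + 1) (alphaLuc F (k + 4) * T)).coeff (j / 2) *
          gg (k + 1) (2 * (j / 2)) u
      else (alphaLam k (alphaLuc F (k + 1) * T)).coeff (j / 2) * gg (k + 1) (2 * (j / 2) + 1) u := by
    intro j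
    unfold alphaC
    split_ifs with h
    · rw [Nat.two_mul_div_two_of_even h]
    · rw [Nat.two_mul_div_two_add_one_of_odd (Nat.not_even_iff_odd.mp h)]
  rw [Fin.sum_univ_eq_sum_range (fun j => alphaC k T j * gg (k + 1) j u) (k + 1)]
  rw [sum_congr rfl fun j _ => e j]
  rw [alpha_split_sum (fun a => (alphaLam (k + 1) (alphaLuc F (k + 4) * T)).coeff a *
    gg (k + 1) (2 * a) u) (fun a => (alphaLam k (alphaLuc F (k + 1) * T)).coeff a *
    gg (k + 1) (2 * a + 1) u)]
  rw [mul_add, mul_add, mul_sum, mul_sum, mul_sum, mul_sum, mul_sum]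
  congr 1
  · refine sum_congr (by congr 1) fun a ha => ?_
    rw [mem_range] at ha
    have h1 : 2 * a / 2 = a := by omega
    have h2 : k + 1 - 1 - 2 * a = k - 2 * a := by omega
    have h3 : u ^ k = u ^ (k - 2 * a) * (u ^ 2) ^ a := by
      rw [← pow_mul, ← pow_add]
      congr 1
      omega
    rw [gg, h1, h2, pow_mul, div_pow]
    have hu2 : (u ^ 2) ^ a ≠ 0 := pow_ne_zero _ (pow_ne_zero _ hu)
    have h4 : u ^ (k + 1) = u ^ (k - 2 * a) * (u ^ 2) ^ a * u := by rw [pow_succ, h3]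
    rw [h4]
    field_simp
  · refine sum_congr rfl fun a ha => ?_
    rw [mem_range] at ha
    have h1 : (2 * a + 1) / 2 = a := by omega
    have h2 : k + 1 - 1 - (2 * a + 1) = k - 1 - 2 * a := by omega
    have h3 : u ^ (k + 1) = u ^ (k - 1 - 2 * a) * (u ^ 2) ^ a * u ^ 2 := by
      rw [← pow_mul, ← pow_add, ← pow_add]
      congr 1
      omega
    rw [gg, h1, h2, pow_mul, div_pow, h3]
    have hu2 : (u ^ 2) ^ a ≠ 0 := pow_ne_zero _ (pow_ne_zero _ hu)
    field_simp

theorem alphaC_top [Field F] (k : ℕ) (T : F[X]) (hT : T.natDegree ≤ k + 1) :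
    alphaC k T k = T.coeff 0 := by
  unfold alphaC
  rcases Nat.even_or_odd' k with ⟨c, rfl | rfl⟩
  · rw [if_pos (even_two_mul c)]
    have h1 : 2 * c / 2 = c := by omega
    rw [h1, alphaLam_coeff_top, mul_coeff_zero, alphaLuc_coeff_zero, one_mul]
    refine (natDegree_mul_le).trans ?_
    have : (alphaLuc F (2 * c + 4)).natDegree ≤ (2 * c + 3) / 2 :=
      alphaLuc_natDegree (F := F) (2 * c + 3)
    omega
  · rw [if_neg (by simp)]
    have h1 : (2 * c + 1) / 2 = c := by omega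
    rw [h1, alphaLam_coeff_top, mul_coeff_zero, alphaLuc_coeff_zero, one_mul]
    refine (natDegree_mul_le).trans ?_
    have := alphaLuc_natDegree (F := F) (2 * c + 1)
    omega

/-- the quotient `Q_i` -/
noncomputable def alphaQ [Field F] {k : ℕ} (s : Fin (k + 1) → F) (i : Fin (k + 1)) : F :=
  (s i ^ (k + 1) * ∏ j, (s i + (1 - s i) ^ 2 * uu (s (i.succAbove j))) -
    (1 - s i) ^ (k + 1) * ∏ j, ((1 - s i) + s i ^ 2 * uu (s (i.succAbove j)))) / (s i - (1 - s i))

theorem alpha_det [Field F] {k : ℕ} (s : Fin (k + 1) → F) (hs : Gen s) :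
    ∑ i : Fin (k + 1), (-1) ^ ((i : ℕ) + k) * alphaQ s i * DD (fun j => uu (s (i.succAbove j))) =
      DD (fun i => uu (s i)) := by
  set T : F[X] := ∏ j, (C (uu (s j)) - X) with hT
  have hTdeg : T.natDegree ≤ k + 1 := by
    rw [hT]
    refine (natDegree_prod_le _ _).trans ?_
    refine (sum_le_card_nsmul _ _ 1 fun j _ => ?_).trans ?_
    · refine (natDegree_sub_le _ _).trans ?_
      simp
    · simp
  have hT0 : T.coeff 0 = ∏ j, uu (s j) := by
    rw [coeff_zero_eq_eval_zero, hT, eval_prod]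
    simp
  have hu : ∀ i, uu (s i) ≠ 0 := fun i => mul_ne_zero (hs.h0 i) (hs.h1 i)
  have hs2 : ∀ i, s i - (1 - s i) ≠ 0 := by
    intro i h
    apply hs.h2 i
    linear_combination -h
  have hrow : ∀ i, ∑ j : Fin (k + 1), alphaC k T j * gg (k + 1) j (uu (s i)) =
      uu (s i) * alphaQ s i := by
    intro i
    have h1 := alphaC_sum k T hTdeg (uu (s i)) (hu i)
    have hTi : T = (C (uu (s i)) - X) * ∏ j, (C (uu (s (i.succAbove j))) - X) := by
      rw [hT, Fin.prod_univ_succAbove _ i]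
    have h2 := alpha_core (s i) (hs.h0 i) (hs.h1 i) (hs.h2 i) (hs.h3 i) (hs.h4 i)
      (fun j => uu (s (i.succAbove j)))
    rw [← hTi, ← h1] at h2
    have h3 : uu (s i) ^ 2 ≠ 0 := pow_ne_zero _ (hu i)
    apply mul_left_cancel₀ h3
    apply mul_left_cancel₀ (hs2 i)
    rw [h2, alphaQ]
    field_simp [hs2 i]
  set M : Matrix (Fin (k + 1)) (Fin (k + 1)) F :=
    Matrix.of fun i j => gg (k + 1) j (uu (s i)) with hM
  have d1 : (M.updateCol (Fin.last k) (fun i => ∑ j : Fin (k + 1), alphaC k T j • M i j)).det =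
      (∏ j, uu (s j)) * DD (fun i => uu (s i)) := by
    rw [Matrix.det_updateCol_sum, Fin.val_last, alphaC_top _ _ hTdeg, hT0]
    rfl
  set N : Matrix (Fin (k + 1)) (Fin (k + 1)) F :=
    Matrix.of fun i j => if (j : ℕ) < k then gg k j (uu (s i)) else alphaQ s i with hN
  have d2 : M.updateCol (Fin.last k) (fun i => ∑ j : Fin (k + 1), alphaC k T j • M i j) =
      Matrix.of fun i j => uu (s i) * N i j := by
    ext i j
    rw [Matrix.updateCol_apply]
    simp only [hN, Matrix.of_apply]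
    by_cases hj : (j : ℕ) < k
    · have : j ≠ Fin.last k := by
        intro h
        rw [h] at hj
        simp at hj
      rw [if_neg this, if_pos hj, hM]
      simp only [Matrix.of_apply, gg]
      have h2 : k + 1 - 1 - (j : ℕ) = 1 + (k - 1 - j) := by omega
      rw [h2, pow_add]
      ring
    · have : j = Fin.last k := by
        ext
        simp only [Fin.val_last]
        omega
      rw [if_pos this, if_neg hj, ← hrow i]
      simp only [hM, Matrix.of_apply, smul_eq_mul]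
  rw [d2, Matrix.det_mul_column] at d1
  have hprod : (∏ j, uu (s j)) ≠ 0 := Finset.prod_ne_zero_iff.mpr fun j _ => hu j
  have d3 := mul_left_cancel₀ hprod d1
  rw [← d3, Matrix.det_succ_column N (Fin.last k)]
  refine sum_congr rfl fun i _ => ?_
  have e1 : N i (Fin.last k) = alphaQ s i := by
    simp [hN]
  have e2 : (N.submatrix i.succAbove (Fin.last k).succAbove).det =
      DD (fun j => uu (s (i.succAbove j))) := by
    unfold DD
    congr 1
    ext a b
    simp [hN]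
  rw [e1, e2, Fin.val_last]

/-! ### The symmetrisation -/

theorem alpha_pairs [CommRing F] {k : ℕ} (f : Fin (k + 1) → Fin (k + 1) → F)
    (hf : ∀ i j, f i j = f j i) (i0 : Fin (k + 1)) :
    ∏ i, ∏ j ∈ Ioi i, f i j =
      (∏ j, f i0 (i0.succAbove j)) *
        ∏ i, ∏ j ∈ Ioi i, f (i0.succAbove i) (i0.succAbove j) := by
  have e1 : ∀ (n : ℕ) (g : Fin n → Fin n → F),
      ∏ i, ∏ j ∈ Ioi i, g i j = ∏ i, ∏ j, (if i < j then g i j else 1) := by
    intro n g
    refine prod_congr rfl fun i _ => ?_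
    rw [← prod_filter]
    congr 1
    ext j
    simp
  rw [e1, e1, Fin.prod_univ_succAbove _ i0]
  rw [Fin.prod_univ_succAbove (fun j => if i0 < j then f i0 j else 1) i0, if_neg (lt_irrefl i0),
    one_mul]
  have e2 : ∀ i : Fin k, ∏ j, (if i0.succAbove i < j then f (i0.succAbove i) j else 1) =
      (if i0.succAbove i < i0 then f (i0.succAbove i) i0 else 1) *
        ∏ j, (if i < j then f (i0.succAbove i) (i0.succAbove j) else 1) := by
    intro i
    rw [Fin.prod_univ_succAbove _ i0]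
    congr 1
    refine prod_congr rfl fun j _ => ?_
    simp only [Fin.succAbove_lt_succAbove_iff]
  rw [prod_congr rfl fun i _ => e2 i, prod_mul_distrib, ← mul_assoc, ← prod_mul_distrib]
  congr 1
  refine prod_congr rfl fun j _ => ?_
  rcases lt_or_gt_of_ne (Fin.succAbove_ne i0 j) with h | h
  · rw [if_neg (not_lt.mpr h.le), if_pos h, one_mul, hf]
  · rw [if_pos h, if_neg (not_lt.mpr h.le), mul_one]

/-- permutations with prescribed value at `0` -/
def alphaPerm {k : ℕ} (i : Fin (k + 1)) (σ : Equiv.Perm (Fin k)) : Equiv.Perm (Fin (k + 1)) :=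
  i.cycleRange.symm * Equiv.Perm.decomposeFin.symm (0, σ)

theorem alphaPerm_zero {k : ℕ} (i : Fin (k + 1)) (σ : Equiv.Perm (Fin k)) :
    alphaPerm i σ 0 = i := by
  rw [alphaPerm, Equiv.Perm.mul_apply, Equiv.Perm.decomposeFin_symm_apply_zero,
    Fin.cycleRange_symm_zero]

theorem alphaPerm_succ {k : ℕ} (i : Fin (k + 1)) (σ : Equiv.Perm (Fin k)) (d : Fin k) :
    alphaPerm i σ d.succ = i.succAbove (σ d) := by
  rw [alphaPerm, Equiv.Perm.mul_apply, Equiv.Perm.decomposeFin_symm_apply_succ, Equiv.swap_self,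
    Equiv.refl_apply, Fin.cycleRange_symm_succ]

theorem alphaPerm_sign {k : ℕ} (i : Fin (k + 1)) (σ : Equiv.Perm (Fin k)) :
    (Equiv.Perm.sign (alphaPerm i σ) : ℤ) = (-1) ^ (i : ℕ) * (Equiv.Perm.sign σ : ℤ) := by
  rw [alphaPerm, Equiv.Perm.sign_mul, Equiv.Perm.sign_symm, Fin.sign_cycleRange,
    Equiv.Perm.decomposeFin.symm_sign]
  simp

theorem alpha_perm_sum [Field F] {k : ℕ} (f : Equiv.Perm (Fin (k + 1)) → F) :
    ∑ π, f π = ∑ i : Fin (k + 1), ∑ σ : Equiv.Perm (Fin k), f (alphaPerm i σ) := by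
  rw [← Fintype.sum_prod_type']
  symm
  apply Fintype.sum_bijective (fun p : Fin (k + 1) × Equiv.Perm (Fin k) => alphaPerm p.1 p.2)
  · rw [Fintype.bijective_iff_injective_and_card]
    constructor
    · rintro ⟨i, σ⟩ ⟨i', σ'⟩ h
      simp only at h
      have h0 : i = i' := by
        rw [← alphaPerm_zero i σ, h, alphaPerm_zero]
      subst h0
      have h1 : σ = σ' := by
        ext d
        have := congrArg (fun π : Equiv.Perm (Fin (k + 1)) => π d.succ) h
        simp only [alphaPerm_succ] at this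
        exact congrArg Fin.val (Fin.succAbove_right_injective this)
      rw [h1]
    · rw [Fintype.card_prod, Fintype.card_perm, Fintype.card_perm, Fintype.card_fin,
        Fintype.card_fin, Nat.factorial_succ]
  · intro p
    rfl

theorem alpha_uu_sg [CommRing F] (b : Bool) (x : F) : uu (sg b x) = uu x := by
  unfold sg uu
  split_ifs <;> ring

theorem alpha_KG_succ [Field F] {k : ℕ} (y : Fin (k + 1) → F) :
    KG y = y 0 ^ (k + 1) / (∏ j : Fin k, (1 - y 0 + y 0 ^ 2 * uu (y j.succ))) *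
      KG (fun d => y d.succ) := by
  unfold KG
  rw [Fin.prod_univ_succ, Fin.prod_univ_succ (fun i => ∏ j ∈ Ioi i, (1 - y i + y i ^ 2 * uu (y j)))]
  rw [Fin.prod_Ioi_zero]
  simp only [Fin.prod_Ioi_succ]
  rw [div_mul_div_comm]
  congr 2
  refine prod_congr rfl fun d _ => ?_
  congr 1
  simp

/-- the left-hand side of `alpha` -/
noncomputable def alphaSym [Field F] {k : ℕ} (s : Fin k → F) : F :=
  ∑ π : Equiv.Perm (Fin k), ∑ ε : Fin k → Bool,
    ((Equiv.Perm.sign π : ℤ) : F) * ((sgε ε : ℤ) : F) * KG (fun d => sg (ε d) (s (π d)))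

theorem alphaSym_succ [Field F] {k : ℕ} (s : Fin (k + 1) → F) :
    alphaSym s = ∑ i : Fin (k + 1), (-1) ^ (i : ℕ) *
      (s i ^ (k + 1) / (∏ j : Fin k, (1 - s i + s i ^ 2 * uu (s (i.succAbove j)))) -
        (1 - s i) ^ (k + 1) /
          (∏ j : Fin k, (1 - (1 - s i) + (1 - s i) ^ 2 * uu (s (i.succAbove j))))) *
      alphaSym (fun j => s (i.succAbove j)) := by
  unfold alphaSym
  rw [alpha_perm_sum]
  refine sum_congr rfl fun i _ => ?_
  rw [mul_sum]
  refine sum_congr rfl fun σ _ => ?_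
  rw [← (Fin.consEquiv (fun _ : Fin (k + 1) => Bool)).sum_comp, Fintype.sum_prod_type, mul_sum]
  rw [Fintype.sum_bool, ← sum_add_distrib]
  refine sum_congr rfl fun ε _ => ?_
  have e1 : ∀ b : Bool, (((sgε ((Fin.consEquiv (fun _ : Fin (k + 1) => Bool)) (b, ε))) : ℤ) : F) =
      (if b then (-1) else 1) * ((sgε ε : ℤ) : F) := by
    intro b
    unfold sgε
    rw [Fin.prod_univ_succ]
    simp only [Fin.consEquiv_apply, Fin.cons_zero, Fin.cons_succ]
    cases b <;> simp
  have e2 : ∀ b : Bool, KG (fun d => sg ((Fin.consEquiv (fun _ : Fin (k + 1) => Bool)) (b, ε) d)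
      (s (alphaPerm i σ d))) =
      (sg b (s i)) ^ (k + 1) /
        (∏ j : Fin k, (1 - sg b (s i) + (sg b (s i)) ^ 2 * uu (s (i.succAbove j)))) *
        KG (fun d => sg (ε d) (s (i.succAbove (σ d)))) := by
    intro b
    rw [alpha_KG_succ]
    simp only [Fin.consEquiv_apply, Fin.cons_zero, Fin.cons_succ, alphaPerm_zero, alphaPerm_succ,
      alpha_uu_sg]
    congr 2
    exact Equiv.prod_comp σ (fun j => (1 - sg b (s i) + (sg b (s i)) ^ 2 * uu (s (i.succAbove j))))
  rw [e1, e1, e2, e2, alphaPerm_sign]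
  simp only [sg, if_true, Int.cast_mul, Int.cast_pow, Int.cast_neg, Int.cast_one]
  simp only [Bool.false_eq_true, if_false]
  ring

theorem alpha_gen_succAbove [Field F] {k : ℕ} (s : Fin (k + 1) → F) (hs : Gen s)
    (i : Fin (k + 1)) : Gen (fun j => s (i.succAbove j)) where
  h0 _ := hs.h0 _
  h1 _ := hs.h1 _
  h2 _ := hs.h2 _
  h3 _ := hs.h3 _
  h4 _ := hs.h4 _
  hu _ _ h := hs.hu _ _ (fun h' => h (Fin.succAbove_right_injective h'))
  hD _ _ h := hs.hD _ _ (fun h' => h (Fin.succAbove_right_injective h'))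

theorem alpha_D4_factor [CommRing F] (s v : F) :
    D4 (uu s) v = (1 - s + s ^ 2 * v) * (s + (1 - s) ^ 2 * v) := by
  unfold D4 uu
  ring

theorem alpha_aux [Field F] {k : ℕ} (s : Fin k → F) (hs : Gen s) :
    alphaSym s = (-1) ^ (k * (k + 1) / 2) * (∏ i, (1 - 2 * s i)) * DD (fun i => uu (s i)) /
      ∏ i, ∏ j ∈ Ioi i, D4 (uu (s i)) (uu (s j)) := by
  induction k with
  | zero => simp [alphaSym, sgε, KG, DD]
  | succ k ih =>
    rw [alphaSym_succ]
    have hs2 : ∀ i, s i - (1 - s i) ≠ 0 := by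
      intro i h
      apply hs.h2 i
      linear_combination -h
    have hP : (∏ i, ∏ j ∈ Ioi i, D4 (uu (s i)) (uu (s j))) ≠ 0 := by
      rw [Finset.prod_ne_zero_iff]
      intro i _
      rw [Finset.prod_ne_zero_iff]
      intro j hj
      exact hs.hD i j (ne_of_lt (mem_Ioi.mp hj))
    have key : ∀ i : Fin (k + 1), (-1) ^ (i : ℕ) *
      (s i ^ (k + 1) / (∏ j : Fin k, (1 - s i + s i ^ 2 * uu (s (i.succAbove j)))) -
        (1 - s i) ^ (k + 1) /
          (∏ j : Fin k, (1 - (1 - s i) + (1 - s i) ^ 2 * uu (s (i.succAbove j))))) *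
      alphaSym (fun j => s (i.succAbove j)) =
      ((-1) ^ ((k + 1) * (k + 1 + 1) / 2) * (∏ i, (1 - 2 * s i)) /
        ∏ i, ∏ j ∈ Ioi i, D4 (uu (s i)) (uu (s j))) *
      ((-1) ^ ((i : ℕ) + k) * alphaQ s i * DD (fun j => uu (s (i.succAbove j)))) := by
      intro i
      rw [ih _ (alpha_gen_succAbove s hs i)]
      rw [alpha_pairs (fun i j => D4 (uu (s i)) (uu (s j)))
        (fun i j => by unfold D4; ring) i]
      rw [Fin.prod_univ_succAbove (fun i => 1 - 2 * s i) i]
      have hj : ∀ j : Fin k, D4 (uu (s i)) (uu (s (i.succAbove j))) ≠ 0 :=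
        fun j => hs.hD _ _ (Fin.succAbove_ne i j).symm
      have f1 : ∏ j : Fin k, D4 (uu (s i)) (uu (s (i.succAbove j))) =
          (∏ j : Fin k, (1 - s i + s i ^ 2 * uu (s (i.succAbove j)))) *
          (∏ j : Fin k, (s i + (1 - s i) ^ 2 * uu (s (i.succAbove j)))) := by
        rw [← prod_mul_distrib]
        exact prod_congr rfl fun j _ => alpha_D4_factor _ _
      have f2 : (∏ j : Fin k, (1 - (1 - s i) + (1 - s i) ^ 2 * uu (s (i.succAbove j)))) =
          (∏ j : Fin k, (s i + (1 - s i) ^ 2 * uu (s (i.succAbove j)))) :=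
        prod_congr rfl fun j _ => by ring
      have f0 : ∏ j : Fin k, D4 (uu (s i)) (uu (s (i.succAbove j))) ≠ 0 :=
        Finset.prod_ne_zero_iff.mpr fun j _ => hj j
      have f3 : (∏ j : Fin k, (1 - s i + s i ^ 2 * uu (s (i.succAbove j)))) ≠ 0 := by
        intro h
        rw [f1, h, zero_mul] at f0
        exact f0 rfl
      have f4 : (∏ j : Fin k, (s i + (1 - s i) ^ 2 * uu (s (i.succAbove j)))) ≠ 0 := by
        intro h
        rw [f1, h, mul_zero] at f0
        exact f0 rfl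
      have f5 : (∏ i_1, ∏ j ∈ Ioi i_1,
          D4 (uu (s (i.succAbove i_1))) (uu (s (i.succAbove j)))) ≠ 0 := by
        rw [Finset.prod_ne_zero_iff]
        intro i' _
        rw [Finset.prod_ne_zero_iff]
        intro j hj
        exact hs.hD _ _ (fun h => (ne_of_lt (mem_Ioi.mp hj)) (Fin.succAbove_right_injective h))
      rw [f1, f2, alphaQ]
      have hsign : ((-1 : F)) ^ ((k + 1) * (k + 1 + 1) / 2) = (-1) ^ (k * (k + 1) / 2) * (-1) ^ (k + 1) := by
        rw [← pow_add]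
        congr 1
        have : (k + 1) * (k + 1 + 1) = k * (k + 1) + (k + 1) * 2 := by ring
        rw [this, Nat.add_mul_div_right _ _ (by norm_num)]
      have hk2 : ((-1 : F)) ^ (k + 1) * (-1) ^ ((i : ℕ) + k) = -(-1) ^ (i : ℕ) := by
        have : ((-1 : F)) ^ k * (-1) ^ k = 1 := by rw [← mul_pow]; simp
        rw [pow_succ, pow_add]
        linear_combination (-(-1) ^ (i : ℕ)) * this
      rw [hsign]
      generalize (∏ j : Fin k, (1 - s i + s i ^ 2 * uu (s (i.succAbove j)))) = P1 at *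
      generalize (∏ j : Fin k, (s i + (1 - s i) ^ 2 * uu (s (i.succAbove j)))) = P2 at *
      generalize (∏ i_1, ∏ j ∈ Ioi i_1,
          D4 (uu (s (i.succAbove i_1))) (uu (s (i.succAbove j)))) = P3 at *
      generalize (∏ j : Fin k, (1 - 2 * s (i.succAbove j))) = P4 at *
      generalize (DD fun j => uu (s (i.succAbove j))) = P5 at *
      generalize ((-1 : F)) ^ (k + 1) = b at *
      generalize ((-1 : F)) ^ ((i : ℕ) + k) = c at *
      generalize ((-1 : F)) ^ (i : ℕ) = e at *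
      generalize ((-1 : F)) ^ (k * (k + 1) / 2) = a at *
      have he : e = -(b * c) := by rw [hk2, neg_neg]
      have h12 : 1 - 2 * s i = -(s i - (1 - s i)) := by ring
      have h2i := hs2 i
      rw [he, h12]
      generalize s i - (1 - s i) = d at *
      field_simp
    rw [sum_congr rfl fun i _ => key i, ← mul_sum, alpha_det s hs]
    ring

theorem alpha [Field F] [CharZero F] {k : ℕ} (s : Fin k → F) (hs : Gen s) :
    ∑ π : Equiv.Perm (Fin k), ∑ ε : Fin k → Bool,
      ((Equiv.Perm.sign π : ℤ) : F) * ((sgε ε : ℤ) : F) * KG (fun d => sg (ε d) (s (π d))) =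
    (-1) ^ (k * (k + 1) / 2) * (∏ i, (1 - 2 * s i)) * DD (fun i => uu (s i)) /
      ∏ i, ∏ j ∈ Ioi i, D4 (uu (s i)) (uu (s j)) :=
  alpha_aux s hs

end Pool.Agent.Lib.MP_b6786a_co.Zeil
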