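import Mathlib

/-!
# Zeilberger's theorem for trapezoids: basic definitions

Everything is over a commutative ring or a field `F`; `Fin k` indexes the variables.
-/

set_option autoImplicit false

namespace Pool.Agent.Lib.MP_b6786a_co.Zeil

open Finset

variable {F : Type*}

/-- `u(x) = x (1 - x)`. -/
def uu [CommRing F] (x : F) : F := x * (1 - x)

/-- The polynomial `g_j` of size `k` (`j < k`), evaluated at `x`. -/
def gg [CommRing F] (k j : ℕ) (x : F) : F := (1 - x) ^ (3 * (j / 2)) * x ^ (k - 1 - j)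

/-- `D_k(v) = det [g_j(v_i)]`. -/
noncomputable def DD [CommRing F] {k : ℕ} (v : Fin k → F) : F :=
  (Matrix.of fun i j : Fin k => gg k j (v i)).det

/-- `D4(a,b) = a + b - 3ab + a²b²`; for `a = x(1-x)`, `b = y(1-y)` this is
`(1 - x + x² b) (x + (1-x)² b)`. -/
def D4 [CommRing F] (a b : F) : F := a + b - 3 * a * b + a ^ 2 * b ^ 2

/-- `V(v) = ∏_{i<j} (v_i - v_j)`. -/
def VV [CommRing F] {k : ℕ} (v : Fin k → F) : F := ∏ i, ∏ j ∈ Ioi i, (v i - v j)

/-- The Gog kernel. -/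
def KG [Field F] {k : ℕ} (y : Fin k → F) : F :=
  (∏ d, y d ^ (k - (d : ℕ))) / ∏ i, ∏ j ∈ Ioi i, (1 - y i + y i ^ 2 * uu (y j))

/-- The Magog kernel. -/
def KM [Field F] {k : ℕ} (x : Fin k → F) : F :=
  (∏ d, x d ^ 2) * (∏ i, ∏ j ∈ Ioi i, (x j - x i)) / ∏ i, ∏ j ∈ Ioi i, (1 - x i * x j)

/-- `sg ε x` is `x` or `1 - x`. -/
def sg [CommRing F] (ε : Bool) (x : F) : F := if ε then 1 - x else x

/-- sign of a vector of reflections -/
def sgε {k : ℕ} (ε : Fin k → Bool) : ℤ := ∏ i, (if ε i then (-1) else 1)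

/-- Genericity of a tuple of field elements. -/
structure Gen [Field F] {k : ℕ} (s : Fin k → F) : Prop where
  h0 : ∀ i, s i ≠ 0
  h1 : ∀ i, 1 - s i ≠ 0
  h2 : ∀ i, 1 - 2 * s i ≠ 0
  h3 : ∀ i, 1 - uu (s i) ≠ 0
  h4 : ∀ i, 2 + uu (s i) ≠ 0
  hu : ∀ i j, i ≠ j → uu (s i) ≠ uu (s j)
  hD : ∀ i j, i ≠ j → D4 (uu (s i)) (uu (s j)) ≠ 0

/-- The Gog integrand `Φ_G`. -/
noncomputable def PhiG [Field F] {k : ℕ} (N : ℕ) (y : Fin k → F) : F :=
  (∏ d, (1 - 2 * y d)) * DD (fun d => uu (y d)) * (∏ d, (uu (y d))⁻¹ ^ N) * KG y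

/-- The Magog integrand `Φ_M`. -/
def PhiM [Field F] {k : ℕ} (N : ℕ) (x : Fin k → F) : F :=
  (∏ d, (1 - 2 * x d)) * VV (fun d => uu (x d)) * (∏ d, (uu (x d))⁻¹ ^ N) * KM x

/-! ### power series -/

/-- The power series ring in `k` variables over `ℚ`. -/
abbrev PS (k : ℕ) := MvPowerSeries (Fin k) ℚ

/-- variables as power series -/
noncomputable abbrev XX (k : ℕ) (i : Fin k) : PS k := MvPowerSeries.X i

/-- The numerator-type power series of the Gog side. -/
noncomputable def WG (k N : ℕ) : PS k :=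
  (∏ i, (1 - 2 * XX k i)) * DD (fun i => uu (XX k i)) * ((∏ i, (1 - XX k i))⁻¹) ^ N *
    (∏ i, ∏ j ∈ Ioi i, (1 - XX k i + XX k i ^ 2 * uu (XX k j)))⁻¹

/-- The Magog power series. -/
noncomputable def WM (k N : ℕ) : PS k :=
  (∏ i, (1 - 2 * XX k i)) * VV (fun i => uu (XX k i)) * ((∏ i, (1 - XX k i))⁻¹) ^ N *
    (∏ i, ∏ j ∈ Ioi i, (XX k j - XX k i)) * (∏ i, ∏ j ∈ Ioi i, (1 - XX k i * XX k j))⁻¹

/-- The Littlewood power series `∏_{i<j}(X_j - X_i) / (∏ (1-X_i) ∏_{i<j} (1 - X_i X_j))`. -/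
noncomputable def LW (k : ℕ) : PS k :=
  (∏ i, ∏ j ∈ Ioi i, (XX k j - XX k i)) *
    ((∏ i, (1 - XX k i)) * ∏ i, ∏ j ∈ Ioi i, (1 - XX k i * XX k j))⁻¹

open Classical in
/-- coefficient of a power series at an integer exponent vector (`0` if some exponent is
negative) -/
noncomputable def cf {k : ℕ} (φ : PS k) (x : Fin k → ℤ) : ℚ :=
  if ∀ d, 0 ≤ x d then
    MvPowerSeries.coeff (Finsupp.equivFunOnFinite.symm fun d => (x d).toNat) φ else 0

/-! ### combinatorial recursions -/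

/-- One step of the Gog transfer: `l → l'`. -/
def stepG {k : ℕ} (l l' : Fin k → ℕ) : Prop :=
  Antitone l' ∧ (∀ d, l d ≤ l' d + 1) ∧ ∀ d e : Fin k, (d : ℕ) + 1 = e → l' e ≤ l d

open Classical in
/-- `cntG m l`: number of paths of length `m` from the state `l` to the state `0`. -/
noncomputable def cntG {k : ℕ} : ℕ → (Fin k → ℕ) → ℕ
  | 0, l => if l = 0 then 1 else 0
  | m + 1, l =>
      ∑ l' ∈ (Fintype.piFinset fun _ : Fin k => range (m + 1)).filter (stepG l), cntG m l'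

/-- `∏_d (1 - E_d)` applied to `f`, where `E_d` shifts the coordinate `d` by `+1`. -/
noncomputable def dF {k : ℕ} (f : (Fin k → ℤ) → ℚ) (x : Fin k → ℤ) : ℚ :=
  ∑ T : Finset (Fin k), (-1) ^ T.card * f (fun d => x d + if d ∈ T then 1 else 0)

/-- One step of the Magog recursion. -/
def stepM {k : ℕ} (p p' : Fin k → ℕ) : Prop :=
  (∀ d, p' d ≤ p d + 1) ∧ ∀ d e : Fin k, (d : ℕ) + 1 = e → p d + 2 ≤ p' e

open Classical in
/-- `cntM m p`: number of continuations of length `m` from the state `p`. -/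
noncomputable def cntM {k : ℕ} : ℕ → (Fin k → ℕ) → ℕ
  | 0, _ => 1
  | m + 1, p =>
      ∑ p' ∈ (Fintype.piFinset fun d : Fin k => range (p d + 2)).filter (stepM p), cntM m p'

/-! ### the iterated Laurent series field -/

/-- exponents, ordered lexicographically -/
abbrev Ex (k : ℕ) := Lex (Fin k → ℤ)

/-- The iterated Laurent series field. -/
abbrev LL (k : ℕ) := HahnSeries (Ex k) ℚ

/-- the exponent vector `e_i` -/
noncomputable def ee (k : ℕ) (i : Fin k) : Ex k := toLex (Pi.single i 1)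

/-- the variables of `LL k` -/
noncomputable def ss (k : ℕ) (i : Fin k) : LL k := HahnSeries.single (ee k i) 1

/-- The residue: coefficient of `∏ s_i⁻¹`. -/
noncomputable def res {k : ℕ} (x : LL k) : ℚ := x.coeff (toLex fun _ => -1)

end Pool.Agent.Lib.MP_b6786a_co.Zeil
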