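import Pool.Agent.Lib.MP_b6786a_co.Zeil.Hahn

/-!
# Definitions for the reflection theorems
-/

set_option autoImplicit false

namespace Pool.Agent.Lib.MP_b6786a_co.Zeil

open Finset Function

/-- the Gog factor of the unordered pair `{p, q}` -/
def kap {F : Type*} [CommRing F] {k : ℕ} (y : Fin k → F) (p q : Fin k) : F :=
  if p < q then 1 - y p + y p ^ 2 * uu (y q) else 1 - y q + y q ^ 2 * uu (y p)

/-- the signed permutation of the variables -/
noncomputable def yy {k : ℕ} (π : Equiv.Perm (Fin k)) (ε : Fin k → Bool) : Fin k → LL k :=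
  fun d => sg (ε d) (ss k (π d))

/-- `f` is a polynomial function of degree at most `D` with coefficients in the subfield `K`. -/
def IsPoly {L : Type*} [Field L] (K : Subfield L) (D : ℕ) (f : L → L) : Prop :=
  ∃ p : Polynomial K, p.natDegree ≤ D ∧ ∀ t, f t = Polynomial.aeval t p

end Pool.Agent.Lib.MP_b6786a_co.Zeil
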