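import Pool.Agent.Lib.MP_b6786a_co.Zeil.Basic2

/-!
# Embedding of power series in the iterated Laurent field
-/

set_option autoImplicit false

namespace Pool.Agent.Lib.MP_b6786a_co.Zeil

open Finset Function

section emb

variable {k : ℕ}

/-- the exponent of a monomial -/
noncomputable def embTT (σ : Equiv.Perm (Fin k)) (n : Fin k →₀ ℕ) : Ex k :=
  toLex fun j => (n (σ.symm j) : ℤ)

theorem ex_embTT (σ : Equiv.Perm (Fin k)) (n : Fin k →₀ ℕ) (d : Fin k) :
    ex (embTT σ n) (σ d) = n d := by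
  rw [embTT, ex_toLex, Equiv.symm_apply_apply]

theorem Ex_ext {e f : Ex k} (h : ∀ a, ex e a = ex f a) : e = f := by
  have : ofLex e = ofLex f := funext h
  exact ofLex.injective this

theorem embTT_add (σ : Equiv.Perm (Fin k)) (n m : Fin k →₀ ℕ) :
    embTT σ (n + m) = embTT σ n + embTT σ m := by
  apply Ex_ext
  intro a
  obtain ⟨d, rfl⟩ := σ.surjective a
  rw [ex_add, ex_embTT, ex_embTT, ex_embTT]
  simp

theorem embTT_inj (σ : Equiv.Perm (Fin k)) : Injective (embTT σ) := by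
  intro n m h
  ext d
  have h1 := ex_embTT σ n d
  rw [h, ex_embTT] at h1
  exact_mod_cast h1.symm

theorem embTT_mono (σ : Equiv.Perm (Fin k)) : Monotone (embTT σ) := by
  intro n m h
  apply Pi.toLex_monotone
  intro j
  change ((n (σ.symm j) : ℕ) : ℤ) ≤ ((m (σ.symm j) : ℕ) : ℤ)
  exact_mod_cast h (σ.symm j)

theorem exists_embTT (σ : Equiv.Perm (Fin k)) {e : Ex k} (h : ∀ d, 0 ≤ ex e (σ d)) :
    ∃ n, embTT σ n = e := by
  refine ⟨Finsupp.equivFunOnFinite.symm fun d => (ex e (σ d)).toNat, ?_⟩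
  apply Ex_ext
  intro a
  obtain ⟨d, rfl⟩ := σ.surjective a
  rw [ex_embTT]
  simp [h d]

theorem cf_embTT (σ : Equiv.Perm (Fin k)) (φ : PS k) (n : Fin k →₀ ℕ) :
    cf φ (fun d => ex (embTT σ n) (σ d)) = MvPowerSeries.coeff n φ := by
  rw [cf, if_pos]
  · congr 2
    ext d
    simp [ex_embTT]
  · intro d
    rw [ex_embTT]
    positivity

theorem cf_ne {φ : PS k} {x : Fin k → ℤ} (h : cf φ x ≠ 0) : ∀ d, 0 ≤ x d := by
  by_contra h1
  exact h (by rw [cf, if_neg h1])

/-- underlying function of `emb` -/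
noncomputable def embF (σ : Equiv.Perm (Fin k)) (φ : PS k) : LL k where
  coeff e := cf φ (fun d => ex e (σ d))
  isPWO_support' := by
    have h1 : (Set.univ : Set (Fin k →₀ ℕ)).IsPWO := Set.isPWO_of_wellQuasiOrderedLE _
    refine (h1.image_of_monotone (embTT_mono σ)).mono ?_
    intro e he
    obtain ⟨n, hn⟩ := exists_embTT σ (cf_ne he)
    exact ⟨n, trivial, hn⟩

theorem embF_coeff (σ : Equiv.Perm (Fin k)) (φ : PS k) (e : Ex k) :
    (embF σ φ).coeff e = cf φ (fun d => ex e (σ d)) := rfl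

theorem embF_embTT (σ : Equiv.Perm (Fin k)) (φ : PS k) (n : Fin k →₀ ℕ) :
    (embF σ φ).coeff (embTT σ n) = MvPowerSeries.coeff n φ := by
  rw [embF_coeff, cf_embTT]

theorem embF_ne (σ : Equiv.Perm (Fin k)) {φ : PS k} {e : Ex k} (h : (embF σ φ).coeff e ≠ 0) :
    ∃ n, embTT σ n = e :=
  exists_embTT σ (cf_ne h)

theorem embF_mul (σ : Equiv.Perm (Fin k)) (φ ψ : PS k) :
    embF σ (φ * ψ) = embF σ φ * embF σ ψ := by
  ext e
  by_cases he : ∃ n, embTT σ n = e
  · obtain ⟨n, rfl⟩ := he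
    rw [embF_embTT, MvPowerSeries.coeff_mul, HahnSeries.coeff_mul]
    refine Finset.sum_bij_ne_zero (fun p _ _ => (embTT σ p.1, embTT σ p.2)) ?_ ?_ ?_ ?_
    · intro p hp h0
      have h1 := left_ne_zero_of_mul h0
      have h2 := right_ne_zero_of_mul h0
      rw [Finset.mem_antidiagonal]
      refine ⟨?_, ?_, ?_⟩
      · rw [HahnSeries.mem_support, embF_embTT]; exact h1
      · rw [HahnSeries.mem_support, embF_embTT]; exact h2
      · rw [← embTT_add, Finset.HasAntidiagonal.mem_antidiagonal.mp hp]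
    · intro p hp _ q hq _ h
      have h1 := (Prod.mk.injEq _ _ _ _ ▸ h : _ ∧ _)
      exact Prod.ext (embTT_inj σ h1.1) (embTT_inj σ h1.2)
    · intro p hp h0
      have h1 := left_ne_zero_of_mul h0
      have h2 := right_ne_zero_of_mul h0
      obtain ⟨a, ha⟩ := embF_ne σ h1
      obtain ⟨b, hb⟩ := embF_ne σ h2
      rw [Finset.mem_antidiagonal] at hp
      refine ⟨(a, b), ?_, ?_, ?_⟩
      · rw [Finset.HasAntidiagonal.mem_antidiagonal]
        apply embTT_inj σ
        rw [embTT_add, ha, hb, hp.2.2]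
      · rw [← embF_embTT σ, ← embF_embTT σ, ha, hb]; exact h0
      · exact Prod.ext ha hb
    · intro p hp h0
      rw [embF_embTT, embF_embTT]
  · have h1 : (embF σ (φ * ψ)).coeff e = 0 := by
      by_contra h; exact he (embF_ne σ h)
    rw [h1]
    by_contra h
    obtain ⟨i, j, hi, hj, hij⟩ := mul_supp (Ne.symm h)
    obtain ⟨a, ha⟩ := embF_ne σ hi
    obtain ⟨b, hb⟩ := embF_ne σ hj
    exact he ⟨a + b, by rw [embTT_add, ha, hb, hij]⟩

theorem embF_add (σ : Equiv.Perm (Fin k)) (φ ψ : PS k) :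
    embF σ (φ + ψ) = embF σ φ + embF σ ψ := by
  ext e
  rw [HahnSeries.coeff_add, embF_coeff, embF_coeff, embF_coeff]
  unfold cf
  split_ifs
  · simp
  · simp

theorem embF_one (σ : Equiv.Perm (Fin k)) : embF σ 1 = 1 := by
  ext e
  by_cases he : ∃ n, embTT σ n = e
  · obtain ⟨n, rfl⟩ := he
    rw [embF_embTT, MvPowerSeries.coeff_one, HahnSeries.coeff_one]
    have h0 : embTT σ 0 = 0 := by
      apply Ex_ext
      intro a
      obtain ⟨d, rfl⟩ := σ.surjective a
      rw [ex_embTT]; simp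
    by_cases hn : n = 0
    · subst hn; simp [h0]
    · rw [if_neg hn, if_neg]
      intro h
      exact hn (embTT_inj σ (h.trans h0.symm))
  · have h1 : (embF σ 1).coeff e = 0 := by
      by_contra h; exact he (embF_ne σ h)
    rw [h1, HahnSeries.coeff_one, if_neg]
    rintro rfl
    apply he
    refine exists_embTT σ ?_
    intro d; simp

theorem embF_zero (σ : Equiv.Perm (Fin k)) : embF σ 0 = 0 := by
  ext e
  rw [embF_coeff, cf]
  split_ifs
  · simp
  · simp

/-- the ring homomorphism sending the variable `d` to `ss k (σ d)` -/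
noncomputable def emb (σ : Equiv.Perm (Fin k)) : PS k →+* LL k where
  toFun := embF σ
  map_one' := embF_one σ
  map_mul' := embF_mul σ
  map_zero' := embF_zero σ
  map_add' := embF_add σ

theorem emb_coeff (σ : Equiv.Perm (Fin k)) (φ : PS k) (e : Ex k) :
    (emb σ φ).coeff e = cf φ (fun d => ex e (σ d)) := rfl

theorem emb_X (σ : Equiv.Perm (Fin k)) (i : Fin k) : emb σ (XX k i) = ss k (σ i) := by
  change embF σ (XX k i) = _
  have hT : embTT σ (Finsupp.single i 1) = ee k (σ i) := by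
    apply Ex_ext
    intro a
    obtain ⟨d, rfl⟩ := σ.surjective a
    rw [ex_embTT, ex_ee, Finsupp.single_apply]
    by_cases h : i = d
    · subst h; simp
    · rw [if_neg h, if_neg (fun h1 => h (σ.injective h1).symm)]; simp
  ext e
  by_cases he : ∃ n, embTT σ n = e
  · obtain ⟨n, rfl⟩ := he
    rw [embF_embTT, XX, MvPowerSeries.coeff_X, ss]
    by_cases hn : n = Finsupp.single i 1
    · subst hn
      rw [if_pos rfl, hT, HahnSeries.coeff_single_same]
    · rw [if_neg hn, HahnSeries.coeff_single_of_ne]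
      intro h
      exact hn (embTT_inj σ (h.trans hT.symm))
  · have h1 : (embF σ (XX k i)).coeff e = 0 := by
      by_contra h; exact he (embF_ne σ h)
    rw [h1, ss, HahnSeries.coeff_single_of_ne]
    rintro rfl
    exact he ⟨_, hT⟩

theorem ss_zpow (a : Fin k) (m : ℤ) : (ss k a) ^ m = HahnSeries.single (m • ee k a) 1 := by
  rw [ss]
  cases m with
  | ofNat n =>
      rw [Int.ofNat_eq_natCast, zpow_natCast, HahnSeries.single_pow, one_pow, natCast_zsmul]
  | negSucc n =>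
      rw [zpow_negSucc, HahnSeries.single_pow, one_pow, HahnSeries.inv_single, inv_one,
        negSucc_zsmul]

theorem prod_single (s : Finset (Fin k)) (f : Fin k → Ex k) :
    ∏ d ∈ s, (HahnSeries.single (f d) (1 : ℚ)) = HahnSeries.single (∑ d ∈ s, f d) 1 := by
  classical
  induction s using Finset.induction_on with
  | empty => simp
  | insert i s hi ih =>
      rw [Finset.prod_insert hi, Finset.sum_insert hi, ih, HahnSeries.single_mul_single, one_mul]

theorem ex_sum {ι : Type*} (s : Finset ι) (f : ι → Ex k) (a : Fin k) :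
    ex (∑ d ∈ s, f d) a = ∑ d ∈ s, ex (f d) a := by
  classical
  induction s using Finset.induction_on with
  | empty => simp
  | insert i s hi ih => rw [Finset.sum_insert hi, Finset.sum_insert hi, ex_add, ih]

theorem ex_zsmul (m : ℤ) (e : Ex k) (a : Fin k) : ex (m • e) a = m * ex e a := by
  change (m • (ofLex e)) a = _
  simp [ex]

theorem res_emb (σ : Equiv.Perm (Fin k)) (φ : PS k) (m : Fin k → ℤ) :
    res (emb σ φ * ∏ d, (ss k (σ d)) ^ (- m d)) = cf φ (fun d => m d - 1) := by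
  simp only [ss_zpow]
  rw [prod_single, res, HahnSeries.coeff_mul_single, mul_one, emb_coeff]
  congr 1
  funext d
  rw [ex_sub, ex_toLex, ex_sum]
  have : ∑ x, ex (-m x • ee k (σ x)) (σ d) = - m d := by
    rw [Finset.sum_eq_single d]
    · rw [ex_zsmul, ex_ee, if_pos rfl, mul_one]
    · intro b _ hb
      rw [ex_zsmul, ex_ee, if_neg, mul_zero]
      intro h; exact hb (σ.injective h).symm
    · simp
  rw [this]
  ring

theorem emb_inv (σ : Equiv.Perm (Fin k)) (φ : PS k) (h : MvPowerSeries.constantCoeff φ ≠ 0) :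
    emb σ φ⁻¹ = (emb σ φ)⁻¹ := by
  have h1 : emb σ φ * emb σ φ⁻¹ = 1 := by
    rw [← map_mul, MvPowerSeries.mul_inv_cancel _ h, map_one]
  exact eq_inv_of_mul_eq_one_right h1

theorem emb_two (σ : Equiv.Perm (Fin k)) : emb σ 2 = 2 := by
  have h1 : (2 : PS k) = 1 + 1 := by norm_num
  have h2 : (2 : LL k) = 1 + 1 := by norm_num
  rw [h1, h2, map_add, map_one]

theorem emb_det {n : ℕ} (σ : Equiv.Perm (Fin k)) (v : Fin n → PS k) :
    emb σ (DD v) = DD fun i => emb σ (v i) := by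
  unfold DD
  rw [RingHom.map_det]
  congr 1
  ext i j
  simp [gg]

theorem resG (σ : Equiv.Perm (Fin k)) (n : ℕ) :
    res (PhiG (k + 1 + n) (fun d => ss k (σ d))) =
      cf (WG k (k + 1 + n)) (fun d => (n : ℤ) + (d : ℕ)) := by
  have key := res_emb σ (WG k (k + 1 + n)) (fun d => (n : ℤ) + (d : ℕ) + 1)
  have e1 : cf (WG k (k + 1 + n)) (fun d => (n : ℤ) + (d : ℕ)) =
      cf (WG k (k + 1 + n)) (fun d => (n : ℤ) + (d : ℕ) + 1 - 1) := by
    congr 1; funext d; ring
  rw [e1, ← key]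
  congr 1
  have hu : ∀ d, emb σ (uu (XX k d)) = uu (ss k (σ d)) := by
    intro d; unfold uu; rw [map_mul, map_sub, map_one, emb_X]
  have h2 : ∀ d, emb σ (1 - 2 * XX k d) = 1 - 2 * ss k (σ d) := by
    intro d; rw [map_sub, map_mul, map_one, emb_X, emb_two]
  have h3 : ∀ i j, emb σ (1 - XX k i + XX k i ^ 2 * uu (XX k j)) =
      1 - ss k (σ i) + ss k (σ i) ^ 2 * uu (ss k (σ j)) := by
    intro i j; rw [map_add, map_sub, map_mul, map_pow, map_one, emb_X, hu]
  have hc1 : MvPowerSeries.constantCoeff (∏ i, (1 - XX k i)) ≠ 0 := by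
    rw [map_prod]; simp
  have hc2 : MvPowerSeries.constantCoeff
      (∏ i, ∏ j ∈ Ioi i, (1 - XX k i + XX k i ^ 2 * uu (XX k j))) ≠ 0 := by
    rw [map_prod]
    simp only [map_prod]
    simp
  have hW : emb σ (WG k (k + 1 + n)) = (∏ d, (1 - 2 * ss k (σ d))) *
      DD (fun d => uu (ss k (σ d))) * ((∏ d, (1 - ss k (σ d)))⁻¹) ^ (k + 1 + n) *
      (∏ i, ∏ j ∈ Ioi i, (1 - ss k (σ i) + ss k (σ i) ^ 2 * uu (ss k (σ j))))⁻¹ := by
    unfold WG
    rw [map_mul, map_mul, map_mul, map_pow, emb_inv σ _ hc1, emb_inv σ _ hc2, emb_det, map_prod,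
      map_prod, map_prod]
    simp only [map_prod, h2, h3, hu, map_sub, map_one, emb_X]
  rw [hW]
  unfold PhiG KG
  have h5 : ∏ d, (ss k (σ d)) ^ (-((n : ℤ) + (d : ℕ) + 1)) =
      (∏ d, ss k (σ d) ^ (k - (d : ℕ))) * ∏ d, ((ss k (σ d))⁻¹) ^ (k + 1 + n) := by
    rw [← Finset.prod_mul_distrib]
    refine Finset.prod_congr rfl fun d _ => ?_
    have hs := ss_ne_zero (σ d)
    have hd : (d : ℕ) < k := d.isLt
    rw [← zpow_natCast, ← zpow_natCast, inv_zpow', ← zpow_add₀ hs]
    congr 1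
    push_cast [Nat.cast_sub hd.le]
    ring
  have h6 : (∏ d, (uu (ss k (σ d)))⁻¹ ^ (k + 1 + n)) =
      (∏ d, ((ss k (σ d))⁻¹) ^ (k + 1 + n)) * ((∏ d, (1 - ss k (σ d)))⁻¹) ^ (k + 1 + n) := by
    rw [← Finset.prod_inv_distrib, ← Finset.prod_pow, ← Finset.prod_mul_distrib]
    refine Finset.prod_congr rfl fun d _ => ?_
    unfold uu
    rw [mul_inv, mul_pow]
  rw [h5, h6, div_eq_mul_inv]
  ring

theorem resM (n : ℕ) :
    res (PhiM (n + k + 1) (ss k)) = cf (WM k (n + k + 1)) (fun _ => (n : ℤ) + k - 2) := by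
  have key := res_emb (1 : Equiv.Perm (Fin k)) (WM k (n + k + 1)) (fun _ => (n : ℤ) + k - 1)
  have e1 : cf (WM k (n + k + 1)) (fun _ => (n : ℤ) + k - 2) =
      cf (WM k (n + k + 1)) (fun _ => (n : ℤ) + k - 1 - 1) := by
    congr 1; funext d; ring
  rw [e1, ← key]
  congr 1
  have hX : ∀ d, emb 1 (XX k d) = ss k d := fun d => emb_X 1 d
  have hu : ∀ d, emb 1 (uu (XX k d)) = uu (ss k d) := by
    intro d; unfold uu; rw [map_mul, map_sub, map_one, hX]
  have h2 : ∀ d, emb 1 (1 - 2 * XX k d) = 1 - 2 * ss k d := by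
    intro d; rw [map_sub, map_mul, map_one, hX, emb_two]
  have hc1 : MvPowerSeries.constantCoeff (∏ i, (1 - XX k i)) ≠ 0 := by
    rw [map_prod]; simp
  have hc2 : MvPowerSeries.constantCoeff
      (∏ i, ∏ j ∈ Ioi i, (1 - XX k i * XX k j)) ≠ 0 := by
    rw [map_prod]
    simp only [map_prod]
    simp
  have hV : emb 1 (VV fun i => uu (XX k i)) = VV fun i => uu (ss k i) := by
    unfold VV
    simp only [map_prod, map_sub, hu]
  have hW : emb 1 (WM k (n + k + 1)) = (∏ d, (1 - 2 * ss k d)) *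
      VV (fun d => uu (ss k d)) * ((∏ d, (1 - ss k d))⁻¹) ^ (n + k + 1) *
      (∏ i, ∏ j ∈ Ioi i, (ss k j - ss k i)) *
      (∏ i, ∏ j ∈ Ioi i, (1 - ss k i * ss k j))⁻¹ := by
    unfold WM
    rw [map_mul, map_mul, map_mul, map_mul, map_pow, emb_inv 1 _ hc1, emb_inv 1 _ hc2, hV]
    simp only [map_prod, h2, map_sub, map_one, map_mul, hX]
  rw [hW]
  unfold PhiM KM
  have h5 : ∏ d, (ss k ((1 : Equiv.Perm (Fin k)) d)) ^ (-((n : ℤ) + k - 1)) =
      (∏ d, ss k d ^ 2) * ∏ d, ((ss k d)⁻¹) ^ (n + k + 1) := by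
    rw [← Finset.prod_mul_distrib]
    refine Finset.prod_congr rfl fun d _ => ?_
    have hs := ss_ne_zero d
    rw [Equiv.Perm.one_apply, ← zpow_natCast, ← zpow_natCast, inv_zpow', ← zpow_add₀ hs]
    congr 1
    push_cast
    ring
  have h6 : (∏ d, (uu (ss k d))⁻¹ ^ (n + k + 1)) =
      (∏ d, ((ss k d)⁻¹) ^ (n + k + 1)) * ((∏ d, (1 - ss k d))⁻¹) ^ (n + k + 1) := by
    rw [← Finset.prod_inv_distrib, ← Finset.prod_pow, ← Finset.prod_mul_distrib]
    refine Finset.prod_congr rfl fun d _ => ?_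
    unfold uu
    rw [mul_inv, mul_pow]
  rw [h5, h6, div_eq_mul_inv]
  ring

end emb

/-! ### genericity -/

section gen

variable {k : ℕ}

theorem eq_zero_of_PK {a : Fin k} {x : LL k} (h1 : Pge a 1 x) (h2 : x ∈ Kf {a}) : x = 0 := by
  by_contra h
  have h3 : x.coeff x.order ≠ 0 := by
    rw [Ne, HahnSeries.coeff_order_eq_zero]; exact h
  have h4 := h1 _ h3
  have h5 := h2 _ h3 a rfl
  omega

theorem Pge_one_sub_ss (a b : Fin k) : Pge b 0 (1 - ss k a) := Pge.one.sub (Pge_ss a b)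

theorem Pge_uu (a : Fin k) : Pge a 1 (uu (ss k a)) := by
  unfold uu
  simpa using (Pge_ss_self a).mul (Pge_one_sub_ss a a)

theorem uu_ss_ne (a : Fin k) : uu (ss k a) ≠ 0 :=
  mul_ne_zero (ss_ne_zero a) (one_sub_ss_ne a)

theorem uu_mem_Kf {a b : Fin k} (h : b ≠ a) : uu (ss k b) ∈ Kf ({a} : Set (Fin k)) := by
  have h1 : ss k b ∈ Kf ({a} : Set (Fin k)) := ss_mem_Kf (by simpa using h)
  unfold uu
  exact mul_mem h1 (sub_mem (one_mem _) h1)

theorem two_mem (a : Fin k) : (2 : LL k) ∈ Kf ({a} : Set (Fin k)) := by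
  have h : (2 : LL k) = 1 + 1 := by norm_num
  rw [h]; exact add_mem (one_mem _) (one_mem _)

theorem two_ne : (2 : LL k) ≠ 0 := by
  intro h
  have h1 : (2 : LL k) = 1 + 1 := by norm_num
  have h2 : (2 : LL k).coeff 0 = 0 := by rw [h]; simp
  rw [h1] at h2
  simp at h2

theorem gen_ss (k : ℕ) : Gen (ss k) where
  h0 := ss_ne_zero
  h1 := one_sub_ss_ne
  h2 := by
    intro i h
    have h1 : 2 * ss k i = 1 := (sub_eq_zero.mp h).symm
    have h2 : Pge i 1 (2 * ss k i) := by
      simpa using (Pge.of_Kf (two_mem i) rfl).mul (Pge_ss_self i)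
    rw [h1] at h2
    exact one_ne_zero (eq_zero_of_PK h2 (one_mem _))
  h3 := by
    intro i h
    have h1 : uu (ss k i) = 1 := (sub_eq_zero.mp h).symm
    have h2 := Pge_uu i
    rw [h1] at h2
    exact one_ne_zero (eq_zero_of_PK h2 (one_mem _))
  h4 := by
    intro i h
    have h1 : uu (ss k i) = -2 := by linear_combination h
    have h2 := Pge_uu i
    rw [h1] at h2
    have h3 := eq_zero_of_PK h2 (neg_mem (two_mem i))
    exact two_ne (neg_eq_zero.mp h3)
  hu := by
    intro i j hij h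
    have h2 := Pge_uu i
    rw [h] at h2
    exact uu_ss_ne j (eq_zero_of_PK h2 (uu_mem_Kf (Ne.symm hij)))
  hD := by
    intro i j hij h
    have h1 : D4 (uu (ss k i)) (uu (ss k j)) =
        (1 - ss k i + ss k i ^ 2 * uu (ss k j)) *
          (ss k i + (1 - ss k i) ^ 2 * uu (ss k j)) := by
      unfold D4 uu; ring
    rw [h1] at h
    have hi : ss k i ∈ Kf ({j} : Set (Fin k)) := ss_mem_Kf (by simpa using hij)
    rcases mul_eq_zero.mp h with h2 | h2
    · have h3 : ss k i ^ 2 * uu (ss k j) = -(1 - ss k i) := by linear_combination h2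
      have h4 : Pge j 1 (ss k i ^ 2 * uu (ss k j)) := by
        simpa using ((Pge_ss i j).pow0 2).mul (Pge_uu j)
      rw [h3] at h4
      have h5 := eq_zero_of_PK h4 (neg_mem (sub_mem (one_mem _) hi))
      exact one_sub_ss_ne i (neg_eq_zero.mp h5)
    · have h3 : (1 - ss k i) ^ 2 * uu (ss k j) = -(ss k i) := by linear_combination h2
      have h4 : Pge j 1 ((1 - ss k i) ^ 2 * uu (ss k j)) := by
        simpa using ((Pge_one_sub_ss i j).pow0 2).mul (Pge_uu j)
      rw [h3] at h4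
      have h5 := eq_zero_of_PK h4 (neg_mem hi)
      exact ss_ne_zero i (neg_eq_zero.mp h5)

end gen

end Pool.Agent.Lib.MP_b6786a_co.Zeil
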