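import Pool.Agent.Lib.MP_b6786a_co.Zeil.Basic
import Pool.Agent.Lib.MP_b6786a_co.Defs

/-!
# Right Gog trapezoids as paths

`gog_card`: the number of right Gog trapezoids is `cntG n 0`;
`gog_left_right`: left and right Gog trapezoids are equinumerous.
-/

set_option autoImplicit false

namespace Pool.Agent.Lib.MP_b6786a_co.Zeil

open Finset Function

namespace GogComb

/-! ### counting paths in general -/

namespace PathCount

variable {S : Type*}

/-- number of paths, abstractly -/
noncomputable def cntP (A : ℕ → S → Finset S) (E : S → Prop) : ℕ → S → ℕ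
  | 0, l => by classical exact if E l then 1 else 0
  | m + 1, l => ∑ l' ∈ A m l, cntP A E m l'

/-- the paths themselves -/
def pset (A : ℕ → S → Finset S) (E : S → Prop) (z : S) (m : ℕ) (l : S) : Set (ℕ → S) :=
  {L | L 0 = l ∧ (∀ i, i < m → L (i + 1) ∈ A (m - 1 - i) (L i)) ∧ E (L m) ∧ ∀ i, m < i → L i = z}

/-- prepend a state -/
def pre (l : S) (L : ℕ → S) : ℕ → S
  | 0 => l
  | i + 1 => L i

theorem pre_inj (l : S) : Injective (pre l) := by
  intro L L' h
  funext i
  exact congrFun h (i + 1)

theorem pset_finite_ncard (A : ℕ → S → Finset S) (E : S → Prop) (z : S) :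
    ∀ (m : ℕ) (l : S), (pset A E z m l).Finite ∧ (pset A E z m l).ncard = cntP A E m l
  | 0, l => by
      classical
      by_cases h : E l
      · have : pset A E z 0 l = {pre l (fun _ => z)} := by
          ext L
          simp only [pset, Set.mem_ofPred_eq, Set.mem_singleton_iff]
          constructor
          · rintro ⟨h0, -, -, h3⟩
            funext i
            cases i with
            | zero => exact h0
            | succ i => exact h3 (i + 1) (Nat.succ_pos i)
          · rintro rfl
            refine ⟨rfl, fun i hi => absurd hi (Nat.not_lt_zero i), h, ?_⟩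
            intro i hi
            cases i with
            | zero => exact absurd hi (lt_irrefl 0)
            | succ i => rfl
        rw [this]
        refine ⟨Set.finite_singleton _, ?_⟩
        rw [Set.ncard_singleton, cntP, if_pos h]
      · have : pset A E z 0 l = ∅ := by
          ext L
          simp only [pset, Set.mem_ofPred_eq, Set.mem_empty_iff_false, iff_false]
          rintro ⟨h0, -, h2, -⟩
          rw [h0] at h2
          exact h h2
        rw [this]
        refine ⟨Set.finite_empty, ?_⟩
        rw [Set.ncard_empty, cntP, if_neg h]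
  | m + 1, l => by
      classical
      have ih := pset_finite_ncard A E z m
      have hset : pset A E z (m + 1) l =
          ⋃ l' ∈ A m l, pre l '' (pset A E z m l') := by
        ext L
        simp only [Set.mem_iUnion, Set.mem_image]
        constructor
        · rintro ⟨h0, h1, h2, h3⟩
          refine ⟨L 1, ?_, fun i => L (i + 1), ⟨rfl, ?_, h2, ?_⟩, ?_⟩
          · have := h1 0 (Nat.succ_pos m)
            rw [h0] at this
            simpa using this
          · intro i hi
            have := h1 (i + 1) (by omega)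
            rwa [show m + 1 - 1 - (i + 1) = m - 1 - i by omega] at this
          · intro i hi
            exact h3 (i + 1) (by omega)
          · funext i
            cases i with
            | zero => exact h0.symm
            | succ i => rfl
        · rintro ⟨l', hl', L', ⟨h0, h1, h2, h3⟩, rfl⟩
          refine ⟨rfl, ?_, h2, ?_⟩
          · intro i hi
            cases i with
            | zero =>
                change L' 0 ∈ A (m + 1 - 1 - 0) l
                rw [h0]; simpa using hl'
            | succ i =>
                change L' (i + 1) ∈ A (m + 1 - 1 - (i + 1)) (L' i)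
                have := h1 i (by omega)
                rwa [show m + 1 - 1 - (i + 1) = m - 1 - i by omega]
          · intro i hi
            cases i with
            | zero => omega
            | succ i => exact h3 i (by omega)
      have hfin : ∀ l', (pre l '' (pset A E z m l')).Finite := fun l' => (ih l').1.image _
      have hcard : ∀ l', (pre l '' (pset A E z m l')).ncard = cntP A E m l' := fun l' => by
        rw [Set.ncard_image_of_injective _ (pre_inj l), (ih l').2]
      have hdisj : ∀ l₁ l₂, l₁ ≠ l₂ →
          Disjoint (pre l '' (pset A E z m l₁)) (pre l '' (pset A E z m l₂)) := by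
        intro l₁ l₂ hne
        rw [Set.disjoint_left]
        rintro L ⟨L₁, h₁, rfl⟩ ⟨L₂, h₂, h⟩
        have h3 := pre_inj l h
        apply hne
        rw [← h₁.1, ← h₂.1, h3]
      rw [hset]
      refine ⟨Set.Finite.biUnion (A m l).finite_toSet (fun l' _ => hfin l'), ?_⟩
      have key : ∀ T : Finset S,
          (⋃ l' ∈ T, pre l '' (pset A E z m l')).ncard = ∑ l' ∈ T, cntP A E m l' := by
        intro T
        induction T using Finset.induction_on with
        | empty => simp
        | insert a T ha ihT =>
            have hd : Disjoint (pre l '' (pset A E z m a))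
                (⋃ l' ∈ T, pre l '' (pset A E z m l')) := by
              rw [Set.disjoint_iUnion₂_right]
              intro b hb
              apply hdisj
              rintro rfl
              exact ha hb
            rw [Finset.set_biUnion_insert, Set.ncard_union_eq hd (hfin a)
              (Set.Finite.biUnion T.finite_toSet (fun l' _ => hfin l')), ihT, hcard,
              Finset.sum_insert ha]
      rw [key]
      rfl

end PathCount

open PathCount

/-! ### Gog -/

open Classical in
/-- successors for the Gog transfer -/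
noncomputable def AG {k : ℕ} (m : ℕ) (l : Fin k → ℕ) : Finset (Fin k → ℕ) :=
  (Fintype.piFinset fun _ : Fin k => range (m + 1)).filter (stepG l)

theorem mem_AG {k m : ℕ} {l l' : Fin k → ℕ} :
    l' ∈ AG m l ↔ (∀ d, l' d < m + 1) ∧ stepG l l' := by
  classical
  simp only [AG, Finset.mem_filter, Fintype.mem_piFinset, Finset.mem_range]

theorem cntG_eq_cntP {k : ℕ} : ∀ (m : ℕ) (l : Fin k → ℕ),
    cntG m l = cntP (AG (k := k)) (fun l => l = 0) m l
  | 0, l => by
      rw [cntG, cntP]
      split_ifs <;> rfl
  | m + 1, l => by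
      rw [cntG, cntP]
      exact Finset.sum_congr rfl fun l' _ => cntG_eq_cntP m l'

/-- the set of Gog paths -/
def PG (n k : ℕ) : Set (ℕ → Fin k → ℕ) :=
  {L | L 0 = 0 ∧ (∀ i, i < n → stepG (L i) (L (i + 1))) ∧ ∀ i, n ≤ i → L i = 0}

theorem PG_bound {n k : ℕ} {L : ℕ → Fin k → ℕ} (h : L ∈ PG n k) :
    ∀ j i, i + j = n → ∀ d, L i d ≤ j := by
  intro j
  induction j with
  | zero =>
      intro i hi d
      rw [h.2.2 i (by omega)]; simp
  | succ j ih =>
      intro i hi d
      have h1 := (h.2.1 i (by omega)).2.1 d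
      have h2 := ih (i + 1) (by omega) d
      omega

theorem PG_eq_pset (n k : ℕ) :
    PG n k = pset (AG (k := k)) (fun l => l = 0) 0 n 0 := by
  ext L
  constructor
  · intro h
    refine ⟨h.1, ?_, h.2.2 n le_rfl, fun i hi => h.2.2 i hi.le⟩
    intro i hi
    rw [mem_AG]
    refine ⟨fun d => ?_, h.2.1 i hi⟩
    have := PG_bound h (n - (i + 1)) (i + 1) (by omega) d
    omega
  · rintro ⟨h0, h1, h2, h3⟩
    refine ⟨h0, ?_, ?_⟩
    · intro i hi
      exact (mem_AG.1 (h1 i hi)).2
    · intro i hi
      rcases Nat.eq_or_lt_of_le hi with rfl | h4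
      · exact h2
      · exact h3 i h4

theorem PG_ncard (n k : ℕ) : (PG n k).Finite ∧ (PG n k).ncard = cntG n (0 : Fin k → ℕ) := by
  rw [PG_eq_pset, cntG_eq_cntP]
  exact pset_finite_ncard _ _ _ _ _

theorem PG_high {n k : ℕ} {L : ℕ → Fin k → ℕ} (h : L ∈ PG n k) :
    ∀ i, ∀ d : Fin k, i ≤ (d : ℕ) → L i d = 0 := by
  intro i
  induction i with
  | zero => intro d _; rw [h.1]; rfl
  | succ i ih =>
      intro d hd
      rcases Nat.lt_or_ge i n with hi | hi
      · have hlt : (d : ℕ) - 1 < k := by omega
        have h1 := (h.2.1 i hi).2.2 ⟨(d : ℕ) - 1, hlt⟩ d (by simp; omega)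
        have h2 := ih ⟨(d : ℕ) - 1, hlt⟩ (by simp; omega)
        omega
      · rw [h.2.2 (i + 1) (by omega)]; rfl

/-- the trapezoid of a path -/
def trapG (n k : ℕ) (hk1 : 1 ≤ k) (L : ℕ → Fin k → ℕ) : rightIdx n k → ℤ := fun p =>
  (p.1.2 : ℤ) + L p.1.1 ⟨p.1.1 - p.1.2, by have := p.2.2.2.2; omega⟩

/-- the triangle of a path -/
noncomputable def triG (k : ℕ) (L : ℕ → Fin k → ℕ) : Arr := fun i j =>
  (j : ℤ) + if h : i - j < k then (L i ⟨i - j, h⟩ : ℤ) else 0

theorem triG_isGog {n k : ℕ} {L : ℕ → Fin k → ℕ} (h : L ∈ PG n k) : IsGog n (triG k L) := by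
  refine ⟨⟨?_, ?_⟩, ?_, ?_⟩
  · intro i j h1 h2 h3
    unfold triG
    split_ifs with h4
    · positivity
    · omega
  · intro i j h1 h2 h3
    have hs := h.2.1 i (by omega)
    unfold triG
    constructor
    · by_cases h4 : i + 1 - j < k
      · rw [dif_pos h4, dif_pos (show i - j < k by omega)]
        have := hs.2.2 ⟨i - j, by omega⟩ ⟨i + 1 - j, h4⟩ (by simp; omega)
        have : (L (i + 1) ⟨i + 1 - j, h4⟩ : ℤ) ≤ L i ⟨i - j, by omega⟩ := by exact_mod_cast this
        omega
      · rw [dif_neg h4]
        split_ifs with h5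
        · omega
        · omega
    · have e1 : i + 1 - (j + 1) = i - j := by omega
      by_cases h4 : i - j < k
      · rw [dif_pos h4, dif_pos (show i + 1 - (j + 1) < k by omega)]
        have := hs.2.1 ⟨i - j, h4⟩
        have e2 : (⟨i + 1 - (j + 1), by omega⟩ : Fin k) = ⟨i - j, h4⟩ := Fin.ext e1
        rw [e2]
        push_cast
        have : (L i ⟨i - j, h4⟩ : ℤ) ≤ L (i + 1) ⟨i - j, h4⟩ + 1 := by exact_mod_cast this
        omega
      · rw [dif_neg h4, dif_neg (show ¬ i + 1 - (j + 1) < k by omega)]
        push_cast; omega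
  · intro i j h1 h2 h3
    unfold triG
    by_cases h4 : i - j < k
    · rw [dif_pos h4, dif_pos (show i - (j + 1) < k by omega)]
      have hanti : Antitone (L i) := by
        rcases Nat.eq_zero_or_pos i with h0 | h0
        · omega
        · obtain ⟨i', rfl⟩ : ∃ i', i = i' + 1 := ⟨i - 1, by omega⟩
          exact (h.2.1 i' (by omega)).1
      have := hanti (show (⟨i - (j + 1), by omega⟩ : Fin k) ≤ ⟨i - j, h4⟩ from
        Fin.mk_le_mk.2 (by omega))
      have : (L i ⟨i - j, h4⟩ : ℤ) ≤ L i ⟨i - (j + 1), by omega⟩ := by exact_mod_cast this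
      push_cast
      omega
    · rw [dif_neg h4]
      split_ifs with h5
      · push_cast; omega
      · push_cast; omega
  · intro j h1 h2
    unfold triG
    rw [h.2.2 n le_rfl]
    simp

theorem gog_upper {n : ℕ} {X : Arr} (h : IsGog n X) :
    ∀ t i j, i + t = n → 1 ≤ j → j ≤ i → X i j ≤ (j : ℤ) + t := by
  intro t
  induction t with
  | zero =>
      intro i j h1 h2 h3
      have : i = n := by omega
      subst this
      rw [h.2.2 j h2 h3]; simp
  | succ t ih =>
      intro i j h1 h2 h3
      have h4 := (h.1.2 i j h2 h3 (by omega)).2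
      have h5 := ih (i + 1) (j + 1) (by omega) (by omega) (by omega)
      push_cast at *
      omega

theorem gog_lower {n : ℕ} {X : Arr} (h : IsGog n X) {i : ℕ} (hi : i ≤ n) :
    ∀ j, 1 ≤ j → j ≤ i → (j : ℤ) ≤ X i j := by
  intro j
  induction j with
  | zero => intro h1; omega
  | succ j ih =>
      intro h1 h2
      rcases Nat.eq_zero_or_pos j with rfl | h3
      · have := h.1.1 i 1 le_rfl h2 hi
        push_cast; omega
      · have h4 := ih h3 (by omega)
        have h5 := h.2.1 i j h3 h2 hi
        push_cast; omega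

open Classical in
/-- the path of a triangle -/
noncomputable def pathG (n k : ℕ) (X : Arr) : ℕ → Fin k → ℕ := fun i d =>
  if (d : ℕ) < i ∧ i ≤ n then (X i (i - d) - ((i - d : ℕ) : ℤ)).toNat else 0

theorem pathG_val {n k : ℕ} {X : Arr} (h : IsGog n X) {i : ℕ} {d : Fin k} (h1 : (d : ℕ) < i)
    (h2 : i ≤ n) : (pathG n k X i d : ℤ) = X i (i - d) - ((i - d : ℕ) : ℤ) := by
  unfold pathG
  rw [if_pos ⟨h1, h2⟩, Int.toNat_of_nonneg]
  have := gog_lower h h2 (i - d) (by omega) (by omega)
  omega

theorem pathG_zero {n k : ℕ} {X : Arr} {i : ℕ} {d : Fin k} (h1 : ¬ ((d : ℕ) < i ∧ i ≤ n)) :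
    pathG n k X i d = 0 := by
  unfold pathG
  rw [if_neg h1]

theorem pathG_mem {n k : ℕ} {X : Arr} (h : IsGog n X) : pathG n k X ∈ PG n k := by
  refine ⟨?_, ?_, ?_⟩
  · funext d
    rw [pathG_zero (by omega)]; rfl
  · intro i hi
    refine ⟨?_, ?_, ?_⟩
    · intro d e hde
      have hde' : (d : ℕ) ≤ e := hde
      by_cases h1 : (e : ℕ) < i + 1
      · have a1 := pathG_val (k := k) h h1 (by omega)
        have a2 := pathG_val (k := k) h (show (d : ℕ) < i + 1 by omega) (by omega)
        -- chain
        have key : ∀ t j, 1 ≤ j → j + t ≤ i + 1 → X (i + 1) j + t ≤ X (i + 1) (j + t) := by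
          intro t
          induction t with
          | zero => intro j _ _; simp
          | succ t ih =>
              intro j hj1 hj2
              have b1 := ih j hj1 (by omega)
              have b2 := h.2.1 (i + 1) (j + t) (by omega) (by omega) (by omega)
              rw [show j + (t + 1) = j + t + 1 by omega]
              push_cast; omega
        have := key ((e : ℕ) - d) (i + 1 - e) (by omega) (by omega)
        rw [show i + 1 - (e : ℕ) + (e - d) = i + 1 - d by omega] at this
        have c1 : (((e : ℕ) - (d : ℕ) : ℕ) : ℤ) = (e : ℤ) - d := by push_cast [hde']; ring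
        rw [c1] at this
        have c2 : ((i + 1 - (e : ℕ) : ℕ) : ℤ) = (i : ℤ) + 1 - e := by
          push_cast [show (e : ℕ) ≤ i + 1 by omega]; ring
        have c3 : ((i + 1 - (d : ℕ) : ℕ) : ℤ) = (i : ℤ) + 1 - d := by
          push_cast [show (d : ℕ) ≤ i + 1 by omega]; ring
        rw [c2] at a1
        rw [c3] at a2
        have : (pathG n k X (i + 1) e : ℤ) ≤ pathG n k X (i + 1) d := by
          rw [a1, a2]; omega
        exact_mod_cast this
      · rw [pathG_zero (by omega)]
        exact Nat.zero_le _
    · intro d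
      by_cases h1 : (d : ℕ) < i
      · have a1 := pathG_val (k := k) h h1 (by omega)
        have a2 := pathG_val (k := k) h (show (d : ℕ) < i + 1 by omega) (by omega)
        have b := (h.1.2 i (i - d) (by omega) (by omega) (by omega)).2
        rw [show i - (d : ℕ) + 1 = i + 1 - d by omega] at b
        have c2 : ((i - (d : ℕ) : ℕ) : ℤ) = (i : ℤ) - d := by
          push_cast [show (d : ℕ) ≤ i by omega]; ring
        have c3 : ((i + 1 - (d : ℕ) : ℕ) : ℤ) = (i : ℤ) + 1 - d := by
          push_cast [show (d : ℕ) ≤ i + 1 by omega]; ring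
        rw [c2] at a1
        rw [c3] at a2
        have : (pathG n k X i d : ℤ) ≤ pathG n k X (i + 1) d + 1 := by
          rw [a1, a2]; omega
        exact_mod_cast this
      · rw [pathG_zero (by omega)]
        exact Nat.zero_le _
    · intro d e hde
      by_cases h1 : (e : ℕ) < i + 1
      · have a1 := pathG_val (k := k) h h1 (by omega)
        have a2 := pathG_val (k := k) h (show (d : ℕ) < i by omega) (by omega)
        have b := (h.1.2 i (i - d) (by omega) (by omega) (by omega)).1
        rw [show i + 1 - (e : ℕ) = i - d by omega] at a1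
        have : (pathG n k X (i + 1) e : ℤ) ≤ pathG n k X i d := by
          rw [a1, a2]; omega
        exact_mod_cast this
      · rw [pathG_zero (by omega)]
        exact Nat.zero_le _
  · intro i hi
    funext d
    by_cases h1 : (d : ℕ) < i ∧ i ≤ n
    · have h2 : i = n := by omega
      subst h2
      have a1 := pathG_val (k := k) h h1.1 h1.2
      rw [h.2.2 (i - d) (by omega) (by omega)] at a1
      have : (pathG i k X i d : ℤ) = 0 := by rw [a1]; ring
      exact_mod_cast this
    · rw [pathG_zero h1]; rfl

theorem trapG_injOn (n k : ℕ) (hk1 : 1 ≤ k) : Set.InjOn (trapG n k hk1) (PG n k) := by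
  intro L hL L' hL' hEq
  funext i d
  rcases Nat.lt_or_ge n i with h1 | h1
  · rw [hL.2.2 i h1.le, hL'.2.2 i h1.le]
  · by_cases h2 : (d : ℕ) < i
    · have hmem : (i, i - (d : ℕ)) ∈ rightIdx n k :=
        ⟨by change 1 ≤ i - (d : ℕ); omega, by change i - (d : ℕ) ≤ i; omega, h1, by
          change i - (i - (d : ℕ)) ≤ k - 1
          have := d.2; omega⟩
      have h3 := congrFun hEq ⟨(i, i - (d : ℕ)), hmem⟩
      simp only [trapG] at h3
      have e : (⟨i - (i - (d : ℕ)), by have := d.2; omega⟩ : Fin k) = d :=
        Fin.ext (by change i - (i - (d : ℕ)) = d; omega)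
      rw [e] at h3
      have h4 : (L i d : ℤ) = L' i d := by linarith
      exact_mod_cast h4
    · rw [PG_high hL i d (by omega), PG_high hL' i d (by omega)]

theorem trap_eq_image (n k : ℕ) (hk1 : 1 ≤ k) :
    trapezoids (IsGog n) (rightIdx n k) = trapG n k hk1 '' PG n k := by
  ext T
  constructor
  · rintro ⟨X, hX, hT⟩
    refine ⟨pathG n k X, pathG_mem hX, ?_⟩
    funext p
    obtain ⟨⟨i, j⟩, h1, h2, h3, h4⟩ := p
    simp only at h1 h2 h3 h4
    rw [hT]
    simp only [trapG]
    rw [pathG_val hX (by simp; omega) h3]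
    simp only
    have : i - (i - j) = j := by omega
    rw [this]; ring
  · rintro ⟨L, hL, rfl⟩
    refine ⟨triG k L, triG_isGog hL, ?_⟩
    intro p
    have h1 := p.2.2.2.2
    have h2 : p.1.1 - p.1.2 < k := by omega
    simp only [trapG, triG]
    rw [dif_pos h2]

theorem right_finite (n k : ℕ) (hk1 : 1 ≤ k) :
    (trapezoids (IsGog n) (rightIdx n k)).Finite := by
  rw [trap_eq_image n k hk1]
  exact (PG_ncard n k).1.image _

/-- the reflection of a triangle -/
def flipG (n : ℕ) (X : Arr) : Arr := fun i j => (n : ℤ) + 1 - X i (i + 1 - j)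

theorem flipG_isGog {n : ℕ} {X : Arr} (h : IsGog n X) : IsGog n (flipG n X) := by
  refine ⟨⟨?_, ?_⟩, ?_, ?_⟩
  · intro i j h1 h2 h3
    unfold flipG
    have := gog_upper h (n - i) i (i + 1 - j) (by omega) (by omega) (by omega)
    have c : ((n - i : ℕ) : ℤ) = (n : ℤ) - i := by push_cast [h3]; ring
    have c2 : ((i + 1 - j : ℕ) : ℤ) = (i : ℤ) + 1 - j := by
      push_cast [show j ≤ i + 1 by omega]; ring
    rw [c, c2] at this
    have hj : (1 : ℤ) ≤ j := by exact_mod_cast h1
    omega
  · intro i j h1 h2 h3
    unfold flipG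
    have a := h.1.2 i (i + 1 - j) (by omega) (by omega) h3
    constructor
    · have b := a.2
      rw [show i + 1 - j + 1 = i + 1 + 1 - j by omega] at b
      omega
    · have b := a.1
      rw [show i + 1 + 1 - (j + 1) = i + 1 - j by omega]
      omega
  · intro i j h1 h2 h3
    unfold flipG
    have a := h.2.1 i (i + 1 - (j + 1)) (by omega) (by omega) h3
    rw [show i + 1 - (j + 1) + 1 = i + 1 - j by omega] at a
    omega
  · intro j h1 h2
    unfold flipG
    rw [h.2.2 (n + 1 - j) (by omega) (by omega)]
    push_cast [show j ≤ n + 1 by omega]; ring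

/-- right trapezoids to left trapezoids -/
def toLeft (n k : ℕ) (hk1 : 1 ≤ k) (T : rightIdx n k → ℤ) : leftIdx n k → ℤ := fun p =>
  (n : ℤ) + 1 - T ⟨(p.1.1, p.1.1 + 1 - p.1.2), by
    obtain ⟨⟨i, j⟩, h1, h2, h3, h4⟩ := p
    simp only at h1 h2 h3 h4
    refine ⟨?_, ?_, ?_, ?_⟩ <;> simp only <;> omega⟩

theorem toLeft_injective (n k : ℕ) (hk1 : 1 ≤ k) : Injective (toLeft n k hk1) := by
  intro T T' h
  funext p
  obtain ⟨⟨i, j⟩, h1, h2, h3, h4⟩ := p
  simp only at h1 h2 h3 h4
  have hmem : (i, i + 1 - j) ∈ leftIdx n k := by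
    refine ⟨?_, ?_, ?_, ?_⟩ <;> simp only <;> omega
  have h5 := congrFun h ⟨(i, i + 1 - j), hmem⟩
  simp only [toLeft] at h5
  have e : i + 1 - (i + 1 - j) = j := by omega
  simp only [e] at h5
  linarith

theorem left_eq_image (n k : ℕ) (hk1 : 1 ≤ k) :
    trapezoids (IsGog n) (leftIdx n k) =
      toLeft n k hk1 '' trapezoids (IsGog n) (rightIdx n k) := by
  ext T
  constructor
  · rintro ⟨X, hX, hT⟩
    refine ⟨fun p => flipG n X p.1.1 p.1.2, ⟨flipG n X, flipG_isGog hX, fun p => rfl⟩, ?_⟩
    funext p
    obtain ⟨⟨i, j⟩, h1, h2, h3, h4⟩ := p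
    simp only at h1 h2 h3 h4
    rw [hT]
    simp only [toLeft, flipG]
    rw [show i + 1 - (i + 1 - j) = j by omega]
    ring
  · rintro ⟨T', ⟨X, hX, hT'⟩, rfl⟩
    refine ⟨flipG n X, flipG_isGog hX, ?_⟩
    rintro ⟨⟨i, j⟩, h1, h2, h3, h4⟩
    simp only [toLeft, flipG]
    rw [hT']

end GogComb

open GogComb

theorem gog_card (n k : ℕ) (hk1 : 1 ≤ k) (hkn : k ≤ n) :
    (trapezoids (IsGog n) (rightIdx n k)).ncard = cntG n (0 : Fin k → ℕ) := by
  have _ := hkn
  rw [← (PG_ncard n k).2, trap_eq_image n k hk1,
    (trapG_injOn n k hk1).ncard_image]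

theorem gog_left_right (n k : ℕ) (hk1 : 1 ≤ k) (hkn : k ≤ n) :
    (trapezoids (IsGog n) (leftIdx n k)).Finite ∧
    (trapezoids (IsGog n) (leftIdx n k)).ncard = (trapezoids (IsGog n) (rightIdx n k)).ncard := by
  have _ := hkn
  rw [left_eq_image n k hk1]
  exact ⟨(right_finite n k hk1).image _,
    Set.ncard_image_of_injective _ (toLeft_injective n k hk1)⟩

end Pool.Agent.Lib.MP_b6786a_co.Zeil
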