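import Pool.Agent.Lib.MP_b6786a_co.Zeil.Basic
import Pool.Agent.Lib.MP_b6786a_co.Zeil.GogComb
import Pool.Agent.Lib.MP_b6786a_co.Defs

/-!
# Right Magog trapezoids as paths

`magog_card`: the number of right Magog trapezoids is `cntM (n - 1)` of the initial state.
-/

set_option autoImplicit false

namespace Pool.Agent.Lib.MP_b6786a_co.Zeil

open Finset Function

namespace MagComb

open GogComb.PathCount

open Classical in
/-- successors for the Magog transfer -/
noncomputable def AM {k : ℕ} (_ : ℕ) (p : Fin k → ℕ) : Finset (Fin k → ℕ) :=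
  (Fintype.piFinset fun d : Fin k => range (p d + 2)).filter (stepM p)

theorem mem_AM {k m : ℕ} {p p' : Fin k → ℕ} :
    p' ∈ AM m p ↔ stepM p p' := by
  classical
  simp only [AM, Finset.mem_filter, Fintype.mem_piFinset, Finset.mem_range]
  constructor
  · exact fun h => h.2
  · intro h
    refine ⟨fun d => ?_, h⟩
    have := h.1 d
    omega

theorem cntM_eq_cntP {k : ℕ} : ∀ (m : ℕ) (l : Fin k → ℕ),
    cntM m l = cntP (AM (k := k)) (fun _ => True) m l
  | 0, l => by
      rw [cntM, cntP]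
      simp
  | m + 1, l => by
      rw [cntM, cntP]
      exact Finset.sum_congr rfl fun l' _ => cntM_eq_cntP m l'

/-- the initial state -/
def p0 (k : ℕ) : Fin k → ℕ := fun d => (d : ℕ)

/-- the set of Magog paths with `m` steps -/
def PM (m k : ℕ) : Set (ℕ → Fin k → ℕ) :=
  {L | L 0 = p0 k ∧ (∀ i, i < m → stepM (L i) (L (i + 1))) ∧ ∀ i, m < i → L i = 0}

theorem PM_eq_pset (m k : ℕ) :
    PM m k = pset (AM (k := k)) (fun _ => True) 0 m (p0 k) := by
  ext L
  constructor
  · rintro ⟨h0, h1, h2⟩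
    exact ⟨h0, fun i hi => mem_AM.2 (h1 i hi), trivial, h2⟩
  · rintro ⟨h0, h1, -, h3⟩
    exact ⟨h0, fun i hi => mem_AM.1 (h1 i hi), h3⟩

theorem PM_ncard (m k : ℕ) : (PM m k).Finite ∧ (PM m k).ncard = cntM m (p0 k) := by
  rw [PM_eq_pset, cntM_eq_cntP]
  exact pset_finite_ncard _ _ _ _ _

theorem PM_upper {m k : ℕ} {L : ℕ → Fin k → ℕ} (h : L ∈ PM m k) :
    ∀ i, i ≤ m → ∀ d : Fin k, L i d ≤ i + d := by
  intro i
  induction i with
  | zero => intro _ d; rw [h.1]; simp [p0]
  | succ i ih =>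
      intro hi d
      have h1 := (h.2.1 i (by omega)).1 d
      have h2 := ih (by omega) d
      omega

theorem PM_forced {m k : ℕ} {L : ℕ → Fin k → ℕ} (h : L ∈ PM m k) :
    ∀ i, i ≤ m → ∀ d : Fin k, i ≤ (d : ℕ) → L i d = i + d := by
  intro i
  induction i with
  | zero => intro _ d _; rw [h.1]; simp [p0]
  | succ i ih =>
      intro hi d hd
      have hlt : (d : ℕ) - 1 < k := by omega
      have h1 := (h.2.1 i (by omega)).2 ⟨(d : ℕ) - 1, hlt⟩ d (by simp; omega)
      have h2 := ih (by omega) ⟨(d : ℕ) - 1, hlt⟩ (by simp; omega)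
      have h3 := PM_upper h (i + 1) hi d
      simp only at h2
      omega

/-- the trapezoid of a path -/
def trapM (n k : ℕ) (hk1 : 1 ≤ k) (L : ℕ → Fin k → ℕ) : rightIdx n k → ℤ := fun p =>
  (p.1.1 : ℤ) - L (p.1.1 - 1) ⟨p.1.1 - p.1.2, by have := p.2.2.2.2; omega⟩
    + ((p.1.1 - p.1.2 : ℕ) : ℤ)

/-- the triangle of a path -/
noncomputable def triM (k : ℕ) (L : ℕ → Fin k → ℕ) : Arr := fun i j =>
  if h : i - j < k then (i : ℤ) - (L (i - 1) ⟨i - j, h⟩ : ℤ) + ((i - j : ℕ) : ℤ) else 1

theorem triM_pos {m k : ℕ} {L : ℕ → Fin k → ℕ} (h : L ∈ PM m k) {i j : ℕ}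
    (h1 : 1 ≤ i) (h3 : i ≤ m + 1) : 1 ≤ triM k L i j := by
  unfold triM
  split_ifs with h4
  · have := PM_upper h (i - 1) (by omega) ⟨i - j, h4⟩
    simp only at this
    zify [h1] at this
    linarith
  · exact le_rfl

theorem triM_isMagog {m k : ℕ} {L : ℕ → Fin k → ℕ} (h : L ∈ PM m k) :
    IsMagog (m + 1) (triM k L) := by
  refine ⟨⟨?_, ?_⟩, ?_⟩
  · intro i j h1 h2 h3
    have := triM_pos h (i := i) (j := j) (by omega) h3
    omega
  · intro i j h1 h2 h3
    have hpos := triM_pos h (i := i) (j := j) (by omega) (by omega)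
    obtain ⟨i', rfl⟩ : ∃ i', i = i' + 1 := ⟨i - 1, by omega⟩
    have hs := h.2.1 i' (by omega)
    constructor
    · by_cases h4 : i' + 1 + 1 - j < k
      · have h5 : i' + 1 - j < k := by omega
        unfold triM
        rw [dif_pos h4, dif_pos h5]
        have := hs.2 ⟨i' + 1 - j, h5⟩ ⟨i' + 1 + 1 - j, h4⟩ (by simp; omega)
        have h6 : (L i' ⟨i' + 1 - j, h5⟩ : ℤ) + 2 ≤ L (i' + 1) ⟨i' + 1 + 1 - j, h4⟩ := by
          exact_mod_cast this
        have e1 : i' + 1 - 1 = i' := by omega
        have e2 : i' + 1 + 1 - 1 = i' + 1 := by omega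
        simp only [e1, e2]
        have e3 : ((i' + 1 + 1 - j : ℕ) : ℤ) = ((i' + 1 - j : ℕ) : ℤ) + 1 := by
          have : i' + 1 + 1 - j = (i' + 1 - j) + 1 := by omega
          rw [this]; push_cast; ring
        rw [e3]
        push_cast
        linarith
      · have : triM k L (i' + 1 + 1) j = 1 := by
          unfold triM
          rw [dif_neg h4]
        rw [this]
        exact hpos
    · have e0 : i' + 1 + 1 - (j + 1) = i' + 1 - j := by omega
      by_cases h4 : i' + 1 - j < k
      · have h5 : i' + 1 + 1 - (j + 1) < k := by omega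
        unfold triM
        rw [dif_pos h4, dif_pos h5]
        have := hs.1 ⟨i' + 1 - j, h4⟩
        have h6 : (L (i' + 1) ⟨i' + 1 - j, h4⟩ : ℤ) ≤ L i' ⟨i' + 1 - j, h4⟩ + 1 := by
          exact_mod_cast this
        have e1 : i' + 1 - 1 = i' := by omega
        have e2 : i' + 1 + 1 - 1 = i' + 1 := by omega
        simp only [e1, e2, e0]
        push_cast
        linarith
      · unfold triM
        rw [dif_neg h4, dif_neg (show ¬ i' + 1 + 1 - (j + 1) < k by omega)]
  · intro j h1 h2
    unfold triM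
    split_ifs with h3
    · simp
    · exact_mod_cast h1

theorem magog_one {n : ℕ} {X : Arr} (h : IsMagog n X) :
    ∀ i, 1 ≤ i → i ≤ n → X i 1 = 1 := by
  intro i
  induction i with
  | zero => intro h1; omega
  | succ i ih =>
      intro h1 h2
      have hp := h.1.1 (i + 1) 1 le_rfl (by omega) h2
      rcases Nat.eq_zero_or_pos i with rfl | h3
      · have := h.2 1 le_rfl h2
        push_cast at this
        simp only [zero_add] at hp ⊢
        omega
      · have h4 := ih h3 (by omega)
        have h5 := (h.1.2 i 1 le_rfl h3 h2).1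
        omega

theorem magog_upper {n : ℕ} {X : Arr} (h : IsMagog n X) :
    ∀ t i j, i = j + t → 1 ≤ j → i ≤ n → X i j ≤ (j : ℤ) := by
  intro t
  induction t with
  | zero =>
      intro i j h1 h2 h3
      have : i = j := by omega
      subst this
      exact h.2 i h2 h3
  | succ t ih =>
      intro i j h1 h2 h3
      obtain ⟨i', rfl⟩ : ∃ i', i = i' + 1 := ⟨i - 1, by omega⟩
      have h4 := (h.1.2 i' j h2 (by omega) h3).1
      have h5 := ih i' j (by omega) h2 (by omega)
      omega

open Classical in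
/-- the path of a triangle -/
noncomputable def pathM (n k : ℕ) (X : Arr) : ℕ → Fin k → ℕ := fun i d =>
  if i < n then
    if (d : ℕ) ≤ i then ((i : ℤ) + 1 - X (i + 1) (i + 1 - d) + d).toNat else i + d
  else 0

theorem pathM_val {n k : ℕ} {X : Arr} (h : IsMagog n X) {i : ℕ} {d : Fin k} (h1 : (d : ℕ) ≤ i)
    (h2 : i < n) : (pathM n k X i d : ℤ) = (i : ℤ) + 1 - X (i + 1) (i + 1 - d) + d := by
  unfold pathM
  rw [if_pos h2, if_pos h1, Int.toNat_of_nonneg]
  have h3 := magog_upper h d (i + 1) (i + 1 - d) (by omega) (by omega) (by omega)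
  have h4 : ((i + 1 - (d : ℕ) : ℕ) : ℤ) ≤ (i : ℤ) + 1 := by
    have : i + 1 - (d : ℕ) ≤ i + 1 := by omega
    exact_mod_cast this
  have h5 : (0 : ℤ) ≤ (d : ℕ) := by positivity
  omega

theorem pathM_out {n k : ℕ} {X : Arr} {i : ℕ} {d : Fin k} (h1 : i < (d : ℕ))
    (h2 : i < n) : pathM n k X i d = i + d := by
  unfold pathM
  rw [if_pos h2, if_neg (by omega)]

theorem pathM_edge {n k : ℕ} {X : Arr} (h : IsMagog n X) {i : ℕ} {d : Fin k} (h1 : i ≤ (d : ℕ))
    (h2 : i < n) : pathM n k X i d = i + d := by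
  rcases Nat.eq_or_lt_of_le h1 with h3 | h3
  · have h4 := pathM_val (k := k) h (d := d) (i := i) (by omega) h2
    have h5 : i + 1 - (d : ℕ) = 1 := by omega
    rw [h5, magog_one h (i + 1) (by omega) (by omega)] at h4
    have : (pathM n k X i d : ℤ) = ((i + d : ℕ) : ℤ) := by
      rw [h4]; push_cast; ring
    exact_mod_cast this
  · exact pathM_out h3 h2

theorem pathM_mem {m k : ℕ} {X : Arr} (h : IsMagog (m + 1) X) : pathM (m + 1) k X ∈ PM m k := by
  refine ⟨?_, ?_, ?_⟩
  · funext d
    rw [pathM_edge h (Nat.zero_le _) (by omega)]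
    simp [p0]
  · intro i hi
    refine ⟨?_, ?_⟩
    · intro d
      by_cases h1 : (d : ℕ) ≤ i
      · have a1 := pathM_val (k := k) h h1 (by omega)
        have a2 := pathM_val (k := k) h (show (d : ℕ) ≤ i + 1 by omega) (by omega)
        have b := (h.1.2 (i + 1) (i + 1 - d) (by omega) (by omega) (by omega)).2
        rw [show i + 1 - (d : ℕ) + 1 = i + 1 + 1 - d by omega] at b
        have : (pathM (m + 1) k X (i + 1) d : ℤ) ≤ pathM (m + 1) k X i d + 1 := by
          rw [a1, a2]
          push_cast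
          linarith
        exact_mod_cast this
      · rw [pathM_edge h (show i ≤ (d : ℕ) by omega) (by omega),
          pathM_edge h (show i + 1 ≤ (d : ℕ) by omega) (by omega)]
        omega
    · intro d e hde
      by_cases h1 : (d : ℕ) ≤ i
      · have a1 := pathM_val (k := k) h h1 (by omega)
        have a2 := pathM_val (k := k) h (show (e : ℕ) ≤ i + 1 by omega) (by omega)
        have b := (h.1.2 (i + 1) (i + 1 - d) (by omega) (by omega) (by omega)).1
        rw [show i + 1 + 1 - (e : ℕ) = i + 1 - d by omega] at a2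
        have he : (e : ℤ) = (d : ℤ) + 1 := by exact_mod_cast hde.symm
        have : (pathM (m + 1) k X i d : ℤ) + 2 ≤ pathM (m + 1) k X (i + 1) e := by
          rw [a1, a2, he]
          push_cast
          linarith
        exact_mod_cast this
      · rw [pathM_edge h (show i ≤ (d : ℕ) by omega) (by omega),
          pathM_edge h (show i + 1 ≤ (e : ℕ) by omega) (by omega)]
        omega
  · intro i hi
    funext d
    unfold pathM
    rw [if_neg (by omega)]
    rfl

theorem trapM_injOn (m k : ℕ) (hk1 : 1 ≤ k) : Set.InjOn (trapM (m + 1) k hk1) (PM m k) := by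
  intro L hL L' hL' hEq
  funext i d
  rcases Nat.lt_or_ge m i with h1 | h1
  · rw [hL.2.2 i h1, hL'.2.2 i h1]
  · by_cases h2 : (d : ℕ) ≤ i
    · have hmem : (i + 1, i + 1 - (d : ℕ)) ∈ rightIdx (m + 1) k :=
        ⟨by change 1 ≤ i + 1 - (d : ℕ); omega, by change i + 1 - (d : ℕ) ≤ i + 1; omega,
          by change i + 1 ≤ m + 1; omega, by
          change i + 1 - (i + 1 - (d : ℕ)) ≤ k - 1
          have := d.2; omega⟩
      have h3 := congrFun hEq ⟨(i + 1, i + 1 - (d : ℕ)), hmem⟩
      simp only [trapM] at h3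
      have e : (⟨i + 1 - (i + 1 - (d : ℕ)), by have := d.2; omega⟩ : Fin k) = d :=
        Fin.ext (by change i + 1 - (i + 1 - (d : ℕ)) = d; omega)
      have e1 : i + 1 - 1 = i := by omega
      rw [e] at h3
      simp only [e1] at h3
      have h4 : (L i d : ℤ) = L' i d := by linarith
      exact_mod_cast h4
    · rw [PM_forced hL i h1 d (by omega), PM_forced hL' i h1 d (by omega)]

theorem trap_eq_image (m k : ℕ) (hk1 : 1 ≤ k) :
    trapezoids (IsMagog (m + 1)) (rightIdx (m + 1) k) = trapM (m + 1) k hk1 '' PM m k := by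
  ext T
  constructor
  · rintro ⟨X, hX, hT⟩
    refine ⟨pathM (m + 1) k X, pathM_mem hX, ?_⟩
    funext p
    obtain ⟨⟨i, j⟩, h1, h2, h3, h4⟩ := p
    simp only at h1 h2 h3 h4
    rw [hT]
    simp only [trapM]
    obtain ⟨i', rfl⟩ : ∃ i', i = i' + 1 := ⟨i - 1, by omega⟩
    have e1 : i' + 1 - 1 = i' := by omega
    simp only [e1]
    rw [pathM_val hX (by simp; omega) (by omega)]
    simp only
    have : i' + 1 - (i' + 1 - j) = j := by omega
    rw [this]
    push_cast
    ring
  · rintro ⟨L, hL, rfl⟩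
    refine ⟨triM k L, triM_isMagog hL, ?_⟩
    intro p
    have h1 := p.2.2.2.2
    have h2 : p.1.1 - p.1.2 < k := by omega
    simp only [trapM, triM]
    rw [dif_pos h2]

end MagComb

open MagComb

theorem magog_card (n k : ℕ) (hk1 : 1 ≤ k) (hkn : k ≤ n) :
    (trapezoids (IsMagog n) (rightIdx n k)).ncard =
      cntM (n - 1) (fun d : Fin k => (d : ℕ)) := by
  obtain ⟨m, rfl⟩ : ∃ m, n = m + 1 := ⟨n - 1, by omega⟩
  rw [show m + 1 - 1 = m by omega]
  change _ = cntM m (p0 k)
  rw [← (PM_ncard m k).2, trap_eq_image m k hk1, (trapM_injOn m k hk1).ncard_image]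

end Pool.Agent.Lib.MP_b6786a_co.Zeil
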