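import Pool.Agent.Lib.MP_b6786a_co.Zeil.Littlewood

/-!
# The Magog side: the number of right Magog trapezoids as a coefficient

`k! * cntM (n-1) (0, 1, ..., k-1)` is a coefficient of the power series `WM k (n+k+1)`.
-/

set_option autoImplicit false

namespace Pool.Agent.Lib.MP_b6786a_co.Zeil

open Finset Function

section MagAlg

variable {R : Type*} [CommRing R]

/-- The entry `x^Q f_p(x) u^{-m}`; `c` is the inverse of `1 - x`. -/
def magG (x c : R) (Q m p : ℕ) : R :=
  x ^ (Q - 1 - m - p) * ((1 - x) ^ (p + 2) - x ^ (p + 2)) * c ^ (p + 1 + m)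

theorem magG_sum (x c : R) (hc : c * (1 - x) = 1) (Q m r : ℕ) (h : r + m ≤ Q) :
    ∑ q ∈ range r, magG x c Q m q = x ^ (Q - m - r) * ((1 - x) ^ r - x ^ r) * c ^ (r + m) := by
  induction r with
  | zero => simp
  | succ r ih =>
    rw [sum_range_succ, ih (by omega)]
    unfold magG
    obtain ⟨t, ht⟩ : ∃ t, Q = t + 1 + m + r := ⟨Q - (1 + m + r), by omega⟩
    have e1 : Q - m - r = t + 1 := by omega
    have e2 : Q - 1 - m - r = t := by omega
    have e3 : Q - m - (r + 1) = t := by omega
    rw [e1, e2, e3]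
    have h1 : c ^ (r + m) = c ^ (r + m) * (c * (1 - x)) := by rw [hc, mul_one]
    rw [h1]
    ring

theorem magG_succ (x c : R) (hc : c * (1 - x) = 1) (Q m p : ℕ) (h : p + 1 + (m + 1) ≤ Q) :
    magG x c Q (m + 1) p = ∑ q ∈ range (p + 2), magG x c Q m q := by
  rw [magG_sum x c hc Q m (p + 2) (by omega)]
  unfold magG
  have e1 : Q - 1 - (m + 1) - p = Q - m - (p + 2) := by omega
  have e2 : p + 1 + (m + 1) = p + 2 + m := by omega
  rw [e1, e2]

/-- The sets of the possible new values. -/
def magA {n : ℕ} (p : Fin (n + 1) → ℕ) : Fin (n + 1) → Finset ℕ :=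
  Fin.cons (range (p 0 + 2)) fun d : Fin n => Ico (p d.castSucc + 2) (p d.succ + 2)

open Classical in
theorem magA_eq {n : ℕ} (p : Fin (n + 1) → ℕ) :
    (Fintype.piFinset fun d : Fin (n + 1) => range (p d + 2)).filter (stepM p) =
      Fintype.piFinset (magA p) := by
  ext p'
  simp only [mem_filter, Fintype.mem_piFinset, mem_range, stepM]
  constructor
  · rintro ⟨h1, -, h2⟩ d
    refine Fin.cases ?_ (fun d => ?_) d
    · simp only [magA, Fin.cons_zero, mem_range]
      exact h1 0
    · simp only [magA, Fin.cons_succ, mem_Ico]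
      exact ⟨h2 d.castSucc d.succ (by simp), h1 _⟩
  · intro h
    have h0 : ∀ d, p' d < p d + 2 := by
      intro d
      have := h d
      revert this
      refine Fin.cases ?_ (fun d => ?_) d
      · simp only [magA, Fin.cons_zero, mem_range]
        exact id
      · simp only [magA, Fin.cons_succ, mem_Ico]
        exact fun h => h.2
    refine ⟨h0, fun d => by have := h0 d; omega, ?_⟩
    intro d e hde
    have he : e ≠ 0 := by
      rintro rfl
      simp at hde
    obtain ⟨e', rfl⟩ := Fin.exists_succ_eq.2 he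
    have hd : d = e'.castSucc := by
      apply Fin.ext
      simp only [Fin.val_succ] at hde
      simp only [Fin.val_castSucc]
      omega
    subst hd
    have := h e'.succ
    simp only [magA, Fin.cons_succ, mem_Ico] at this
    exact this.1

open Classical in
theorem mag_det_step {k : ℕ} (x c : Fin k → R) (hc : ∀ i, c i * (1 - x i) = 1) (Q m : ℕ)
    (p : Fin k → ℕ) (hp : StrictMono p) (hQ : ∀ d, p d + 1 + (m + 1) ≤ Q) :
    ∑ p' ∈ (Fintype.piFinset fun d : Fin k => range (p d + 2)).filter (stepM p),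
      (Matrix.of fun d i => magG (x i) (c i) Q m (p' d)).det =
    (Matrix.of fun d i => magG (x i) (c i) Q (m + 1) (p d)).det := by
  cases k with
  | zero =>
    have h1 : (Fintype.piFinset fun d : Fin 0 => range (p d + 2)).filter (stepM p) =
        {p} := by
      ext q
      simp only [mem_filter, Fintype.mem_piFinset, mem_singleton]
      constructor
      · intro _
        exact Subsingleton.elim _ _
      · intro _
        exact ⟨fun d => d.elim0, fun d => d.elim0, fun d => d.elim0⟩
    rw [h1, sum_singleton]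
    simp [Matrix.det_isEmpty]
  | succ n =>
    rw [magA_eq]
    have h1 := (Matrix.detRowAlternating (R := R) (n := Fin (n + 1))).toMultilinearMap.map_sum_finset
      (fun (d : Fin (n + 1)) (q : ℕ) => (fun i => magG (x i) (c i) Q m q : Fin (n + 1) → R))
      (magA p)
    have h2 : ∑ p' ∈ Fintype.piFinset (magA p),
        (Matrix.of fun d i => magG (x i) (c i) Q m (p' d)).det =
        (Matrix.of fun (d : Fin (n + 1)) => ∑ q ∈ magA p d,
          (fun i => magG (x i) (c i) Q m q : Fin (n + 1) → R)).det := h1.symm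
    rw [h2]
    symm
    apply Matrix.det_eq_of_forall_row_eq_smul_add_pred (fun _ => (1 : R))
    · intro i
      simp only [Matrix.of_apply, magA, Fin.cons_zero, Finset.sum_apply]
      exact magG_succ _ _ (hc i) _ _ _ (hQ 0)
    · intro d i
      simp only [Matrix.of_apply, magA, Fin.cons_succ, Finset.sum_apply, one_mul]
      rw [magG_succ _ _ (hc i) _ _ _ (hQ d.succ), magG_succ _ _ (hc i) _ _ _ (hQ d.castSucc)]
      have hlt : p d.castSucc < p d.succ := hp (Fin.castSucc_lt_succ)
      rw [add_comm (∑ q ∈ Ico _ _, _), range_eq_Ico, range_eq_Ico,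
        sum_Ico_consecutive _ (Nat.zero_le _) (by omega)]

end MagAlg

section MagCoeff

variable {k : ℕ}

/-- The constant exponent vector. -/
noncomputable def magN (k N : ℕ) : Fin k →₀ ℕ := Finsupp.equivFunOnFinite.symm fun _ => N

theorem mag_constCoeff_one_sub (i : Fin k) :
    MvPowerSeries.constantCoeff (1 - XX k i) ≠ 0 := by
  simp

theorem mag_inv (i : Fin k) : (1 - XX k i)⁻¹ * (1 - XX k i) = 1 :=
  MvPowerSeries.inv_mul_cancel _ (mag_constCoeff_one_sub i)

theorem mag_kill (N : ℕ) (T : Finset (Fin k)) (A : PS k) (a e : Fin k → PS k)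
    (n : Fin k →₀ ℕ) (hn : ∀ i, n i < N) :
    MvPowerSeries.coeff n (A * ∏ i ∈ T, (a i - XX k i ^ N * e i)) =
      MvPowerSeries.coeff n (A * ∏ i ∈ T, a i) := by
  induction T using Finset.induction generalizing A with
  | empty => simp
  | insert i T hi ih =>
    rw [prod_insert hi, prod_insert hi]
    have h1 : A * ((a i - XX k i ^ N * e i) * ∏ j ∈ T, (a j - XX k j ^ N * e j)) =
        (A * a i) * (∏ j ∈ T, (a j - XX k j ^ N * e j)) -
          XX k i ^ N * (A * e i * ∏ j ∈ T, (a j - XX k j ^ N * e j)) := by ring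
    rw [h1, map_sub, ih, MvPowerSeries.X_pow_dvd_iff.1 (Dvd.intro _ rfl) n (hn i), sub_zero]
    congr 1
    ring

theorem mag_prod_XX_pow (b : Fin k → ℕ) :
    ∏ i, XX k i ^ b i = MvPowerSeries.monomial (Finsupp.equivFunOnFinite.symm b) (1 : ℚ) := by
  rw [MvPowerSeries.monomial_one_eq, Finsupp.prod_fintype _ _ (fun i => pow_zero _)]
  rfl

open Classical in
theorem mag_count (Q m : ℕ) (p : Fin k → ℕ) (hp : StrictMono p)
    (hQ : ∀ d, p d + 1 + m ≤ Q) :
    (k.factorial : ℚ) * cntM m p =
      MvPowerSeries.coeff (magN k (Q - 1))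
        (LW k * (∏ i, (1 - XX k i)⁻¹) *
          (Matrix.of fun d i => magG (XX k i) (1 - XX k i)⁻¹ Q m (p d)).det) := by
  induction m generalizing p with
  | zero =>
    have hterm : ∀ σ : Equiv.Perm (Fin k),
        MvPowerSeries.coeff (magN k (Q - 1))
          (LW k * (∏ i, (1 - XX k i)⁻¹) *
            ∏ i, magG (XX k i) (1 - XX k i)⁻¹ Q 0 (p (σ i))) = ((Equiv.Perm.sign σ : ℤ) : ℚ) := by
      intro σ
      have h1 : LW k * (∏ i, (1 - XX k i)⁻¹) *
          (∏ i, magG (XX k i) (1 - XX k i)⁻¹ Q 0 (p (σ i))) =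
          LW k * ∏ i, (XX k i ^ (Q - 1 - p (σ i)) -
            XX k i ^ (Q + 1) * ((1 - XX k i)⁻¹) ^ (p (σ i) + 2)) := by
        rw [mul_assoc, ← prod_mul_distrib]
        congr 1
        apply prod_congr rfl
        intro i _
        unfold magG
        have hc := mag_inv i
        set c := (1 - XX k i)⁻¹
        set x := XX k i
        have hq := hQ (σ i)
        have h2 : x ^ (Q + 1) = x ^ (Q - 1 - p (σ i)) * x ^ (p (σ i) + 2) := by
          rw [← pow_add]; congr 1; omega
        have h3 : c ^ (p (σ i) + 2) * (1 - x) ^ (p (σ i) + 2) = 1 := by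
          rw [← mul_pow, hc, one_pow]
        rw [h2, Nat.sub_zero, Nat.add_zero]
        linear_combination (x ^ (Q - 1 - p (σ i))) * h3
      rw [h1, mag_kill (Q + 1) univ (LW k) (fun i => XX k i ^ (Q - 1 - p (σ i)))
        (fun i => ((1 - XX k i)⁻¹) ^ (p (σ i) + 2)) _ (fun i => by
          have := hQ (σ i)
          show Q - 1 < Q + 1
          omega),
        mag_prod_XX_pow]
      have h4 : magN k (Q - 1) = (Finsupp.equivFunOnFinite.symm fun i => p (σ i)) +
          Finsupp.equivFunOnFinite.symm fun i => Q - 1 - p (σ i) := by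
        ext i
        have := hQ (σ i)
        simp [magN]
        omega
      rw [h4, MvPowerSeries.coeff_add_mul_monomial, mul_one]
      exact coeff_LW p hp σ
    rw [Matrix.det_apply', mul_sum, map_sum]
    have h5 : ∀ σ ∈ (univ : Finset (Equiv.Perm (Fin k))),
        MvPowerSeries.coeff (magN k (Q - 1))
          (LW k * (∏ i, (1 - XX k i)⁻¹) *
            (((Equiv.Perm.sign σ : ℤ) : PS k) * ∏ i,
              (Matrix.of fun d i => magG (XX k i) (1 - XX k i)⁻¹ Q 0 (p d)) (σ i) i)) = 1 := by
      intro σ _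
      have h6 : LW k * (∏ i, (1 - XX k i)⁻¹) *
            (((Equiv.Perm.sign σ : ℤ) : PS k) * ∏ i,
              (Matrix.of fun d i => magG (XX k i) (1 - XX k i)⁻¹ Q 0 (p d)) (σ i) i) =
          ((Equiv.Perm.sign σ : ℤ) : ℚ) • (LW k * (∏ i, (1 - XX k i)⁻¹) *
            ∏ i, magG (XX k i) (1 - XX k i)⁻¹ Q 0 (p (σ i))) := by
        simp only [Matrix.of_apply]
        rw [MvPowerSeries.smul_eq_C_mul, map_intCast]
        ring
      rw [h6, MvPowerSeries.coeff_smul, hterm σ]
      rcases Int.units_eq_one_or (Equiv.Perm.sign σ) with h | h <;> rw [h] <;> simp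
    rw [sum_congr rfl h5]
    simp [cntM, Fintype.card_perm]
  | succ m ih =>
    rw [← mag_det_step (XX k) (fun i => (1 - XX k i)⁻¹) mag_inv Q m p hp hQ, mul_sum, map_sum]
    simp only [cntM]
    rw [Nat.cast_sum, mul_sum]
    apply sum_congr rfl
    intro p' hp'
    simp only [mem_filter, Fintype.mem_piFinset, mem_range] at hp'
    obtain ⟨-, h1, h2⟩ := hp'
    apply ih
    · intro a b hab
      cases k with
      | zero => exact a.elim0
      | succ n =>
        revert a b
        have hs : StrictMono p' := by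
          rw [Fin.strictMono_iff_lt_succ]
          intro i
          have e1 := h2 i.castSucc i.succ (by simp)
          have e2 := h1 i.castSucc
          omega
        exact fun a b hab => hs hab
    · intro d
      have e1 := h1 d
      have e2 := hQ d
      omega

end MagCoeff

section MagEnd

open Polynomial in
/-- The Lucas type polynomials `F_{d+2}`. -/
noncomputable def magE : ℕ → Polynomial ℚ
  | 0 => 1
  | 1 => 1 - X
  | n + 2 => magE (n + 1) - X * magE n

theorem magE_natDegree (d : ℕ) : (magE d).natDegree ≤ d := by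
  induction d using Nat.strong_induction_on with
  | _ d ih =>
    match d, ih with
    | 0, _ => simp [magE]
    | 1, _ =>
      rw [magE]
      refine (Polynomial.natDegree_sub_le _ _).trans ?_
      simp
    | n + 2, ih =>
      rw [magE]
      refine (Polynomial.natDegree_sub_le _ _).trans (max_le ?_ ?_)
      · exact (ih (n + 1) (by omega)).trans (by omega)
      · refine (Polynomial.natDegree_mul_le).trans ?_
        have := ih n (by omega)
        have h2 := Polynomial.natDegree_X_le (R := ℚ)
        omega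

theorem magE_coeff_zero (d : ℕ) : (magE d).coeff 0 = 1 := by
  induction d using Nat.strong_induction_on with
  | _ d ih =>
    match d, ih with
    | 0, _ => simp [magE]
    | 1, _ => simp [magE]
    | n + 2, ih =>
      rw [magE, Polynomial.coeff_sub, ih (n + 1) (by omega)]
      simp

theorem magE_eval {R : Type*} [CommRing R] [Algebra ℚ R] (x : R) (d : ℕ) :
    (1 - x) ^ (d + 2) - x ^ (d + 2) = (1 - 2 * x) * Polynomial.aeval (uu x) (magE d) := by
  induction d using Nat.strong_induction_on with
  | _ d ih =>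
    match d, ih with
    | 0, _ =>
      simp only [magE, map_one]
      ring
    | 1, _ =>
      simp only [magE, map_sub, map_one, Polynomial.aeval_X, uu]
      ring
    | n + 2, ih =>
      have h1 := ih (n + 1) (by omega)
      have h2 := ih n (by omega)
      simp only [magE, map_sub, map_mul, Polynomial.aeval_X]
      have h3 : (1 - x) ^ (n + 2 + 2) - x ^ (n + 2 + 2) =
          ((1 - x) ^ (n + 1 + 2) - x ^ (n + 1 + 2)) -
            uu x * ((1 - x) ^ (n + 2) - x ^ (n + 2)) := by
        unfold uu
        ring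
      rw [h3, h1, h2]
      ring

theorem mag_det_end {R : Type*} [CommRing R] [Algebra ℚ R] {k : ℕ} (u : Fin k → R) :
    (Matrix.of fun d i : Fin k => u i ^ (k - 1 - (d : ℕ)) *
      Polynomial.aeval (u i) (magE d)).det = VV u := by
  let T : Matrix (Fin k) (Fin k) R := Matrix.of fun d e =>
    if (e : ℕ) ≤ d then algebraMap ℚ R ((magE d).coeff ((d : ℕ) - e)) else 0
  let W : Matrix (Fin k) (Fin k) R := Matrix.of fun e i => u i ^ (k - 1 - (e : ℕ))
  have h1 : (Matrix.of fun d i : Fin k => u i ^ (k - 1 - (d : ℕ)) *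
      Polynomial.aeval (u i) (magE d)) = T * W := by
    ext d i
    rw [Matrix.mul_apply]
    simp only [T, W, Matrix.of_apply]
    have hd : (magE d).natDegree < (d : ℕ) + 1 := Nat.lt_succ_of_le (magE_natDegree d)
    rw [Polynomial.aeval_eq_sum_range' hd, mul_sum]
    have h2 : ∀ j ∈ range ((d : ℕ) + 1), u i ^ (k - 1 - (d : ℕ)) *
        ((magE d).coeff j • u i ^ j) = algebraMap ℚ R ((magE d).coeff j) *
          u i ^ (k - 1 - ((d : ℕ) - j)) := by
      intro j hj
      rw [mem_range] at hj
      have hdk := d.isLt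
      have : k - 1 - ((d : ℕ) - j) = (k - 1 - (d : ℕ)) + j := by omega
      rw [this, pow_add, Algebra.smul_def]
      ring
    rw [sum_congr rfl h2]
    have h3 : ∑ e : Fin k, (if (e : ℕ) ≤ d then algebraMap ℚ R ((magE d).coeff ((d : ℕ) - e))
        else 0) * u i ^ (k - 1 - (e : ℕ)) =
        ∑ e ∈ range k, (if e ≤ (d : ℕ) then algebraMap ℚ R ((magE d).coeff ((d : ℕ) - e))
        else 0) * u i ^ (k - 1 - e) :=
      Fin.sum_univ_eq_sum_range (fun e => (if e ≤ (d : ℕ) then
        algebraMap ℚ R ((magE d).coeff ((d : ℕ) - e)) else 0) * u i ^ (k - 1 - e)) k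
    rw [h3, ← sum_range_reflect]
    have hdk := d.isLt
    have h4 : range ((d : ℕ) + 1) ⊆ range k := range_subset_range.2 hdk
    rw [← sum_subset h4]
    · apply sum_congr rfl
      intro j hj
      rw [mem_range] at hj
      have e1 : (d : ℕ) + 1 - 1 - j = (d : ℕ) - j := by omega
      have e2 : (d : ℕ) - ((d : ℕ) - j) = j := by omega
      rw [if_pos (by omega), e1, e2]
    · intro j _ hj
      rw [mem_range] at hj
      rw [if_neg (by omega), zero_mul]
  rw [h1, Matrix.det_mul]
  have hT : T.det = 1 := by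
    rw [Matrix.det_of_isLowerTriangular]
    · apply prod_eq_one
      intro d _
      simp only [T, Matrix.of_apply, le_refl, if_true, Nat.sub_self, magE_coeff_zero, map_one]
    · intro d e hde
      have hde' : d < e := hde
      simp only [T, Matrix.of_apply]
      rw [if_neg]
      exact not_le.2 hde'
  have hW : W.det = VV u := by
    have h5 : W = (Matrix.projVandermonde (1 : Fin k → R) u).transpose := by
      ext e i
      simp only [W, Matrix.of_apply, Matrix.transpose_apply, Matrix.projVandermonde_apply,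
        Pi.one_apply, one_pow, one_mul]
      congr 1
      rw [Fin.val_rev]
      omega
    rw [h5, Matrix.det_transpose, Matrix.det_projVandermonde]
    unfold VV
    simp
  rw [hT, hW, one_mul]

theorem mag_prod_inv {k : ℕ} (s : Finset (Fin k)) (f : Fin k → PS k) :
    (∏ i ∈ s, f i)⁻¹ = ∏ i ∈ s, (f i)⁻¹ := by
  induction s using Finset.induction with
  | empty => simp
  | insert i s hi ih =>
    rw [prod_insert hi, prod_insert hi, MvPowerSeries.mul_inv_rev, ih, mul_comm]

theorem mag_series_eq {k : ℕ} (n : ℕ) (hn : 1 ≤ n) :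
    LW k * (∏ i, (1 - XX k i)⁻¹) *
      (Matrix.of fun d i : Fin k => magG (XX k i) (1 - XX k i)⁻¹ (n + k - 1) (n - 1) (d : ℕ)).det =
    WM k (n + k + 1) := by
  have h1 : ∀ d i : Fin k, magG (XX k i) (1 - XX k i)⁻¹ (n + k - 1) (n - 1) (d : ℕ) =
      ((1 - 2 * XX k i) * ((1 - XX k i)⁻¹) ^ (n + k - 1)) *
        (uu (XX k i) ^ (k - 1 - (d : ℕ)) * Polynomial.aeval (uu (XX k i)) (magE d)) := by
    intro d i
    have hd := d.isLt
    unfold magG
    rw [magE_eval]
    have hc := mag_inv i
    set c := (1 - XX k i)⁻¹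
    set x := XX k i
    have e1 : n + k - 1 - 1 - (n - 1) - (d : ℕ) = k - 1 - d := by omega
    have e2 : n + k - 1 = ((d : ℕ) + 1 + (n - 1)) + (k - 1 - d) := by omega
    rw [e1]
    conv_rhs => rw [e2, pow_add]
    have h3 : c ^ (k - 1 - (d : ℕ)) * (1 - x) ^ (k - 1 - (d : ℕ)) = 1 := by
      rw [← mul_pow, hc, one_pow]
    have h4 : uu x ^ (k - 1 - (d : ℕ)) = x ^ (k - 1 - (d : ℕ)) * (1 - x) ^ (k - 1 - (d : ℕ)) := by
      rw [uu, mul_pow]
    rw [h4]
    linear_combination (-(x ^ (k - 1 - (d : ℕ)) * (1 - 2 * x) *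
      Polynomial.aeval (uu x) (magE d) * c ^ ((d : ℕ) + 1 + (n - 1)))) * h3
  have h2 : (Matrix.of fun d i : Fin k =>
      magG (XX k i) (1 - XX k i)⁻¹ (n + k - 1) (n - 1) (d : ℕ)).det =
      (∏ i, ((1 - 2 * XX k i) * ((1 - XX k i)⁻¹) ^ (n + k - 1))) *
        VV (fun i => uu (XX k i)) := by
    rw [← mag_det_end, ← Matrix.det_mul_row]
    congr 1
    ext1 d i
    exact h1 d i
  rw [h2, prod_mul_distrib, prod_pow]
  unfold LW WM
  rw [MvPowerSeries.mul_inv_rev, mag_prod_inv univ (fun i => 1 - XX k i)]
  have e3 : n + k + 1 = (n + k - 1) + 1 + 1 := by omega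
  rw [e3, pow_succ, pow_succ]
  ring

theorem magog_formula {k : ℕ} (n : ℕ) (hn : 1 ≤ n) :
    (k.factorial : ℚ) * cntM (n - 1) (fun d : Fin k => (d : ℕ)) =
      cf (WM k (n + k + 1)) (fun _ => (n : ℤ) + k - 2) := by
  rw [mag_count (n + k - 1) (n - 1) (fun d : Fin k => (d : ℕ)) Fin.val_strictMono
    (fun d => by have := d.isLt; omega), mag_series_eq n hn]
  unfold cf
  by_cases h : ∀ _ : Fin k, (0 : ℤ) ≤ (n : ℤ) + k - 2
  · rw [if_pos h]
    congr 2
    unfold magN
    congr 1
    funext d
    have hd := d.isLt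
    show n + k - 1 - 1 = ((n : ℤ) + k - 2).toNat
    omega
  · exfalso
    apply h
    intro d
    have hd := d.isLt
    omega

end MagEnd

end Pool.Agent.Lib.MP_b6786a_co.Zeil
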