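import Pool.Agent.Lib.MP_b6786a_co.Zeil.GogForm
import Pool.Agent.Lib.MP_b6786a_co.Zeil.MagForm
import Pool.Agent.Lib.MP_b6786a_co.Zeil.GogComb
import Pool.Agent.Lib.MP_b6786a_co.Zeil.MagComb
import Pool.Agent.Lib.MP_b6786a_co.Count

/-!
# Zeilberger's theorem for trapezoids: final assembly, parts (5) and (6)

The residue identity and the two residue evaluations are hypotheses here.
-/

set_option autoImplicit false

namespace Pool.Agent.Lib.MP_b6786a_co.Zeil

open Finset Function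

/-- (5): from the residue identity to the path counts -/
theorem cntG_eq_cntM_of {n k : ℕ} (hk1 : 1 ≤ k) (hkn : k ≤ n)
    (hres : (k.factorial : ℚ) * res (PhiG (k + 1 + n) (ss k)) =
      (-1) ^ (k * (k - 1) / 2) * res (PhiM (n + k + 1) (ss k)))
    (hG : res (PhiG (k + 1 + n) (ss k)) = cf (WG k (k + 1 + n)) (fun d => (n : ℤ) + (d : ℕ)))
    (hM : res (PhiM (n + k + 1) (ss k)) =
      cf (WM k (n + k + 1)) (fun _ => (n : ℤ) + k - 2)) :
    cntG n (0 : Fin k → ℕ) = cntM (n - 1) (fun d : Fin k => (d : ℕ)) := by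
  have h1 := gog_formula (k := k) (by omega) n 0 (fun _ _ _ => le_rfl)
  have h2 := magog_formula (k := k) n (by omega)
  have h3 : (fun d : Fin k => (n : ℤ) + (d : ℕ) - ((0 : Fin k → ℕ) d : ℕ)) =
      fun d : Fin k => (n : ℤ) + (d : ℕ) := by
    funext d; simp
  rw [h3, ← hG] at h1
  rw [← hM] at h2
  have hs : ((-1 : ℚ) ^ (k * (k - 1) / 2)) * ((-1 : ℚ) ^ (k * (k - 1) / 2)) = 1 := by
    rw [← mul_pow]; norm_num
  have h4 : (k.factorial : ℚ) * cntG n (0 : Fin k → ℕ) =
      k.factorial * cntM (n - 1) (fun d : Fin k => (d : ℕ)) := by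
    rw [h2, h1, ← mul_assoc, mul_comm (k.factorial : ℚ), mul_assoc, hres, ← mul_assoc, hs, one_mul]
  have h5 : (k.factorial : ℚ) ≠ 0 := by exact_mod_cast k.factorial_ne_zero
  have h6 := mul_left_cancel₀ h5 h4
  exact_mod_cast h6

/-- (6): from the path counts to the trapezoids -/
theorem right_gog_eq_right_magog_of {n k : ℕ} (hk1 : 1 ≤ k) (hkn : k ≤ n)
    (h : cntG n (0 : Fin k → ℕ) = cntM (n - 1) (fun d : Fin k => (d : ℕ))) :
    (trapezoids (IsGog n) (rightIdx n k)).ncard =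
      (trapezoids (IsMagog n) (rightIdx n k)).ncard := by
  rw [gog_card n k hk1 hkn, magog_card n k hk1 hkn, h]

/-- (6): left Gog and left GOGAm trapezoids -/
theorem left_gog_eq_left_gogam_of {n k : ℕ} (hk1 : 1 ≤ k) (hkn : k ≤ n)
    (h : (trapezoids (IsGog n) (rightIdx n k)).ncard =
      (trapezoids (IsMagog n) (rightIdx n k)).ncard) :
    (trapezoids (IsGog n) (leftIdx n k)).Finite ∧
    (trapezoids (IsGOGAm n) (leftIdx n k)).Finite ∧
    (trapezoids (IsGog n) (leftIdx n k)).ncard = (trapezoids (IsGOGAm n) (leftIdx n k)).ncard := by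
  refine ⟨(gog_left_right n k hk1 hkn).1, gogam_finite (hk1.trans hkn), ?_⟩
  rw [(gog_left_right n k hk1 hkn).2, h, ncard_eq hk1 hkn]

end Pool.Agent.Lib.MP_b6786a_co.Zeil
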