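import Pool.Agent.Lib.MP_b6786a_co.Zeil.ReflGv

/-!
# Reflection invariance of the Gog integrand
-/

set_option autoImplicit false

namespace Pool.Agent.Lib.MP_b6786a_co.Zeil

open Finset Function

/-! ### the theorem -/


section flip

variable {k : ℕ}

theorem kap_ne_zero {F : Type*} [Field F] (y : Fin k → F) {p q : Fin k}
    (h1 : ∀ p q : Fin k, p ≠ q → 1 - y p * y q ≠ 0) (h2 : ∀ p q : Fin k, p ≠ q → 1 - y p * (1 - y q) ≠ 0)
    (hpq : p ≠ q) : kap y p q ≠ 0 := by
  unfold kap uu
  split_ifs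
  · have : 1 - y p + y p ^ 2 * (y q * (1 - y q)) = (1 - y p * y q) * (1 - y p * (1 - y q)) := by ring
    rw [this]; exact mul_ne_zero (h1 p q hpq) (h2 p q hpq)
  · have : 1 - y q + y q ^ 2 * (y p * (1 - y p)) = (1 - y q * y p) * (1 - y q * (1 - y p)) := by ring
    rw [this]; exact mul_ne_zero (h1 q p hpq.symm) (h2 q p hpq.symm)

theorem ne_of_mem_of_notMem {F : Type*} [Field F] {K : Subfield F} {x z : F} (hx : x ∉ K) (hz : z ∈ K) :
    x ≠ z := fun h => hx (h ▸ hz)

instance charZeroLL : CharZero (LL k) := algebraRat.charZero (LL k)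

theorem PhiG_flip (N : ℕ) (hN : 2 * k + 1 ≤ N) (π : Equiv.Perm (Fin k))
    (ε : Fin k → Bool) (i : Fin k) :
    res (PhiG N (update (yy π ε) i (1 - yy π ε i))) = res (PhiG N (yy π ε)) := by
  obtain ⟨y, hy⟩ : ∃ y, y = yy π ε := ⟨_, rfl⟩
  rw [← hy]
  obtain ⟨a, ha⟩ : ∃ a, a = π i := ⟨_, rfl⟩
  have hnot : ∀ l, y l ∉ Kf ({π l} : Set (Fin k)) := fun l => by rw [hy]; exact yy_notMem π ε l
  have hmem : ∀ (A : Set (Fin k)) (l : Fin k), π l ∉ A → y l ∈ Kf A := fun A l h => by
    rw [hy]; exact yy_mem π ε h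
  have hπ : ∀ {l l' : Fin k}, l ≠ l' → π l ≠ π l' := fun h h' => h (π.injective h')
  have hmem1 : ∀ l l' : Fin k, l ≠ l' → y l ∈ Kf ({π l'} : Set (Fin k)) := fun l l' h =>
    hmem _ _ (by simpa using hπ h)
  have hy0 : ∀ l, y l ≠ 0 := fun l => ne_of_mem_of_notMem (hnot l) (Kf _).zero_mem
  have hy1 : ∀ l, 1 - y l ≠ 0 := fun l => ne_of_mem_of_notMem
    (fun h => hnot l (one_sub_mem_iff.mp h)) (Kf _).zero_mem
  have h2K : ∀ l : Fin k, (2 : LL k) ∈ Kf ({π l} : Set (Fin k)) := fun l => ofNat_mem _ 2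
  have hy2 : ∀ l, 1 - 2 * y l ≠ 0 := by
    intro l h
    apply hnot l
    have : y l = 2⁻¹ := by
      have h2 : (2 : LL k) ≠ 0 := two_ne_zero
      field_simp
      linear_combination -h
    rw [this]; exact (Kf _).inv_mem (h2K l)
  have hy2' : ∀ l, 1 - 2 * (y l)⁻¹ ≠ 0 := by
    intro l h
    apply hnot l
    have : y l = 2 := by
      have h3 := hy0 l
      field_simp at h
      linear_combination h
    rw [this]; exact h2K l
  have hpr1 : ∀ p q : Fin k, p ≠ q → 1 - y p * y q ≠ 0 := by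
    intro p q hpq h
    apply hnot p
    have : y p = (y q)⁻¹ := eq_inv_of_mul_eq_one_left (by linear_combination -h)
    rw [this]; exact (Kf _).inv_mem (hmem1 q p hpq.symm)
  have hpr2 : ∀ p q : Fin k, p ≠ q → 1 - y p * (1 - y q) ≠ 0 := by
    intro p q hpq h
    apply hnot p
    have : y p = (1 - y q)⁻¹ := eq_inv_of_mul_eq_one_left (by linear_combination -h)
    rw [this]; exact (Kf _).inv_mem (one_sub_mem_iff.mpr (hmem1 q p hpq.symm))
  have hK : ∀ l, l ≠ i → y l ∈ Kf ({a} : Set (Fin k)) := fun l hl => by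
    rw [ha]; exact hmem1 l i hl
  have e1 : ∀ l ∈ univ.erase i, cR i y l ∈ Kf ({a} : Set (Fin k)) := by
    intro l hl
    have := hK l (Finset.mem_erase.mp hl).1
    unfold cR
    split_ifs
    · exact uu_mem this
    · exact (Kf _).neg_mem ((Kf _).pow_mem this 2)
  have e2 : ∀ l, cR i y l ≠ 0 := by
    intro l
    unfold cR uu
    split_ifs
    · exact mul_ne_zero (hy0 l) (hy1 l)
    · exact neg_ne_zero.mpr (pow_ne_zero _ (hy0 l))
  have e3 : ∀ l ∈ univ.erase i, ∀ b, rho i y l b ∈ Kf ({a} : Set (Fin k)) := fun l hl b =>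
    rho_mem_iff.mpr (hK l (Finset.mem_erase.mp hl).1)
  have e4 : ∀ l ∈ univ.erase i, ∀ l' ∈ univ.erase i, ∀ b b', rho i y l b = rho i y l' b' →
      l = l' ∧ b = b' := by
    intro l hl l' hl' b b' h
    have hll : l = l' := by
      by_contra hne
      have h3 : rho i y l' b' ∈ Kf ({π l} : Set (Fin k)) :=
        rho_mem_iff.mpr (hmem1 l' l (fun h => hne h.symm))
      rw [← h] at h3
      exact hnot l (rho_mem_iff.mp h3)
    subst hll
    refine ⟨rfl, ?_⟩
    by_contra hne
    have h3 : rho i y l false = rho i y l true := by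
      cases b <;> cases b' <;> simp_all
    unfold rho at h3
    simp only [Bool.false_eq_true, if_false, if_true] at h3
    split_ifs at h3
    · rw [inv_inj] at h3
      apply hy2 l
      linear_combination -h3
    · apply hy2' l
      linear_combination -h3
  have e5 : ∀ l ∈ univ.erase i, ∀ b, rho i y l b ≠ 0 := fun l _ b =>
    ne_of_mem_of_notMem (fun h => hnot l (rho_mem_iff.mp h)) (Kf _).zero_mem
  have e6 : ∀ l ∈ univ.erase i, ∀ b, rho i y l b ≠ 1 := fun l _ b =>
    ne_of_mem_of_notMem (fun h => hnot l (rho_mem_iff.mp h)) (Kf _).one_mem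
  have e7 : IsPoly (Kf ({a} : Set (Fin k))) (3 * (k - 1) + 1 + (k - i) * 1 + 0)
      (fun t => DD (fun d => uu (update y i t d)) * (1 - 2 * t) * t ^ (k - (i : ℕ)) *
        cstG N y (univ.erase i)) := by
    refine (((isPoly_DD y i hK).mul ?_).mul (IsPoly.id.pow _)).mul (IsPoly.const (cstG_mem N
      fun d hd => hK d (Finset.mem_erase.mp hd).1))
    exact ((IsPoly.const (Kf _).one_mem).mono (Nat.zero_le 1)).sub
          (((IsPoly.const (ofNat_mem _ 2)).mul IsPoly.id).mono (by simp))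
  have e8 : 3 * (k - 1) + 1 + (k - i) * 1 + 0 + 2 ≤ 2 * N + 2 * ((univ : Finset (Fin k)).erase i).card := by
    rw [Finset.card_erase_of_mem (by simp), Finset.card_univ, Fintype.card_fin]
    have := i.2
    omega
  have e9 : ∀ j ∈ univ.erase i, ∀ b, res (DD (fun d => uu (update y i (rho i y j b) d)) *
      (1 - 2 * rho i y j b) * (rho i y j b) ^ (k - (i : ℕ)) * cstG N y (univ.erase i) /
        (rho i y j b ^ N * (1 - rho i y j b) ^ N * (cR i y j * (rho i y j b - rho i y j (!b))) *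
          ∏ l ∈ (univ.erase i).erase j, kap (update y i (rho i y j b)) i l) * (ss k a)⁻¹) = 0 := by
    intro j hj b
    have hji : j ≠ i := (Finset.mem_erase.mp hj).1
    have hS : ∀ l, l ≠ i → l ≠ j → y l ∈ Kf ({a, π j} : Set (Fin k)) := fun l h1 h2 =>
      hmem _ _ (by
        simp only [Set.mem_insert_iff, Set.mem_singleton_iff, not_or]
        rw [ha]
        exact ⟨hπ h1, hπ h2⟩)
    have hPJ : ∏ l ∈ (univ.erase i).erase j, kap y j l ≠ 0 :=
      Finset.prod_ne_zero_iff.mpr fun l hl =>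
        kap_ne_zero y hpr1 hpr2 (Finset.mem_erase.mp hl).1.symm
    have hPI : ∏ l ∈ (univ.erase i).erase j, kap (update y i (rho i y j b)) i l ≠ 0 := by
      refine Finset.prod_ne_zero_iff.mpr fun l hl => ?_
      have hlj : l ≠ j := (Finset.mem_erase.mp hl).1
      have hli : l ≠ i := (Finset.mem_erase.mp (Finset.mem_erase.mp hl).2).1
      rw [kap_factor y hli (hy0 l) (hy1 l)]
      have hne : ∀ b', rho i y j b - rho i y l b' ≠ 0 := by
        intro b' h
        have h3 : rho i y j b ∈ Kf ({π l} : Set (Fin k)) :=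
          rho_mem_iff.mpr (hmem1 j l hlj.symm)
        rw [sub_eq_zero.mp h] at h3
        exact hnot l (rho_mem_iff.mp h3)
      exact mul_ne_zero (e2 l) (mul_ne_zero (hne _) (hne _))
    have haj : a ≠ π j := by rw [ha]; exact hπ hji.symm
    rcases lt_or_gt_of_ne hji with hlt | hgt
    · obtain ⟨C, hC, α, β, γ, δ, hm, E, F', hEF, hv⟩ := value_II (Kf ({a, π j} : Set (Fin k))) y i j
        hlt hS (hy0 j) (hy1 j) (hy2' j) b hPI hPJ N hN
      rw [hv]
      have hsg : y j = sg (ε j) (ss k (π j)) := by rw [hy]; rfl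
      rw [hsg]
      exact pole_res haj (ε j) _ α β γ δ (fun l _ => hm l) C 1 (-2) hC (Kf _).one_mem
        ((Kf _).neg_mem (ofNat_mem _ 2)) E F' hEF
    · obtain ⟨C, hC, α, β, γ, δ, hm, E, F', hEF, hv⟩ := value_I (Kf ({a, π j} : Set (Fin k))) y i j
        hgt hS (hy0 j) (hy1 j) (hy2 j) b hPI hPJ N hN
      rw [hv]
      have hsg : sg b (y j) = sg (xor b (ε j)) (ss k (π j)) := by
        rw [hy]; unfold yy sg
        cases b <;> cases ε j <;> simp
      rw [hsg]
      exact pole_res haj _ _ α β γ δ (fun l _ => hm l) C (-2) 1 hC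
        ((Kf _).neg_mem (ofNat_mem _ 2)) (Kf _).one_mem E F' hEF
  -- the key identity
  have key : res (PhiG N (update y i (ss k a))) = res (PhiG N (update y i (1 - ss k a))) := by
    rw [PhiG_update, PhiG_update]
    have R := reflect2 a (univ.erase i) (rho i y) (cR i y) (fun l t => kap (update y i t) i l)
      (fun l hl t => kap_factor y (Finset.mem_erase.mp hl).1 (hy0 l) (hy1 l) t)
      e1 (fun l _ => e2 l) e3 e4 e5 e6 N _
      (fun t => DD (fun d => uu (update y i t d)) * (1 - 2 * t) * t ^ (k - (i : ℕ)) *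
        cstG N y (univ.erase i)) e7 e8 e9
    exact R
  have hyi : y i = sg (ε i) (ss k a) := by rw [hy, ha]; rfl
  cases hε : ε i with
  | false =>
      have h1 : y i = ss k a := by rw [hyi, hε]; simp [sg]
      have h2 : update y i (ss k a) = y := by rw [← h1, update_eq_self]
      rw [h1, ← key, h2]
  | true =>
      have h1 : y i = 1 - ss k a := by rw [hyi, hε]; simp [sg]
      have h2 : update y i (1 - ss k a) = y := by rw [← h1, update_eq_self]
      rw [h1, sub_sub_cancel, key, h2]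

end flip

end Pool.Agent.Lib.MP_b6786a_co.Zeil
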