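import Pool.Agent.Lib.MP_b6786a_co.Zeil.Basic

/-!
# Task KERM: the kernel of the Magog reflection residue
-/

set_option autoImplicit false

namespace Pool.Agent.Lib.MP_b6786a_co.Zeil

open Finset Function

theorem kerM_split {F : Type*} [CommMonoid F] {k : ℕ} (G : Fin k → Fin k → F)
    (hG : ∀ p q, G p q = G q p) (s : Finset (Fin k)) (i : Fin k) (hi : i ∈ s) :
    ∏ p ∈ s, ∏ q ∈ s with p < q, G p q =
      (∏ q ∈ s.erase i, G i q) * ∏ p ∈ s.erase i, ∏ q ∈ s.erase i with p < q, G p q := by
  rw [← mul_prod_erase s _ hi]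
  have h1 : ∏ q ∈ s with i < q, G i q = ∏ q ∈ s.erase i, (if i < q then G i q else 1) := by
    rw [prod_filter, ← mul_prod_erase s _ hi]
    simp
  have h2 : ∀ p ∈ s.erase i, ∏ q ∈ s with p < q, G p q =
      (if p < i then G i p else 1) * ∏ q ∈ s.erase i with p < q, G p q := by
    intro p _
    rw [prod_filter, prod_filter, ← mul_prod_erase s _ hi, hG p i]
  rw [h1, prod_congr rfl h2, prod_mul_distrib, ← mul_assoc, ← prod_mul_distrib]
  congr 1
  refine prod_congr rfl fun q hq => ?_
  have hq' : q ≠ i := (mem_erase.mp hq).1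
  rcases lt_or_gt_of_ne hq' with h | h
  · rw [if_neg (not_lt.mpr h.le), if_pos h, one_mul]
  · rw [if_pos h, if_neg (not_lt.mpr h.le), mul_one]

theorem kerM {F : Type*} [Field F] {k : ℕ} (S : Subfield F) (x : Fin k → F) (i j : Fin k)
    (hij : i ≠ j) (hx : ∀ l, l ≠ i → l ≠ j → x l ∈ S) :
    ∃ C ∈ S, ∀ z : F, z ≠ 0 →
        VV (fun d => uu (update (update x i z⁻¹) j z d)) *
          (∏ p, ∏ q ∈ Ioi p, (update (update x i z⁻¹) j z q - update (update x i z⁻¹) j z p)) =
          C * ((1 - z) * (1 + z ^ 3) / z ^ 2) * ((1 - z) * (1 + z) / z) *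
            ∏ l ∈ (univ.erase i).erase j,
              ((1 - z * x l) * (1 - z * (1 - x l)) * (z - x l) * (z - (1 - x l)) / z ^ 2 *
              ((1 - z⁻¹ * x l) * (1 - z * x l))) := by
  refine ⟨∏ p ∈ (univ.erase i).erase j, ∏ q ∈ (univ.erase i).erase j with p < q,
    ((uu (x p) - uu (x q)) * (x q - x p)), ?_, ?_⟩
  · refine S.prod_mem fun p hp => S.prod_mem fun q hq => ?_
    simp only [mem_erase, mem_univ, and_true, mem_filter] at hp hq
    have h1 := hx p hp.2 hp.1
    have h2 := hx q hq.1.2 hq.1.1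
    exact S.mul_mem (S.sub_mem (S.mul_mem h1 (S.sub_mem S.one_mem h1))
      (S.mul_mem h2 (S.sub_mem S.one_mem h2))) (S.sub_mem h2 h1)
  · intro z hz
    set X := update (update x i z⁻¹) j z with hX
    have hXi : X i = z⁻¹ := by rw [hX, update_of_ne hij, update_self]
    have hXj : X j = z := by rw [hX, update_self]
    have hXl : ∀ l, l ≠ i → l ≠ j → X l = x l := by
      intro l h1 h2
      rw [hX, update_of_ne h2, update_of_ne h1]
    set G : Fin k → Fin k → F := fun p q => (uu (X p) - uu (X q)) * (X q - X p) with hGdef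
    have hG : ∀ p q, G p q = G q p := by
      intro p q
      simp only [hGdef]
      ring
    have e1 : VV (fun d => uu (X d)) * (∏ p, ∏ q ∈ Ioi p, (X q - X p)) =
        ∏ p ∈ univ, ∏ q ∈ univ with p < q, G p q := by
      unfold VV
      rw [← prod_mul_distrib]
      refine prod_congr rfl fun p _ => ?_
      rw [← prod_mul_distrib]
      refine prod_congr ?_ fun q _ => rfl
      ext q
      simp
    rw [e1, kerM_split G hG univ i (mem_univ i),
      kerM_split G hG (univ.erase i) j (by simp [hij.symm]),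
      ← mul_prod_erase (univ.erase i) (fun q => G i q) (a := j) (by simp [hij.symm])]
    have e2 : G i j = ((1 - z) * (1 + z ^ 3) / z ^ 2) * ((1 - z) * (1 + z) / z) := by
      simp only [hGdef, hXi, hXj]
      unfold uu
      field_simp
      ring
    have e3 : ∏ p ∈ (univ.erase i).erase j, ∏ q ∈ (univ.erase i).erase j with p < q, G p q =
        ∏ p ∈ (univ.erase i).erase j, ∏ q ∈ (univ.erase i).erase j with p < q,
          ((uu (x p) - uu (x q)) * (x q - x p)) := by
      refine prod_congr rfl fun p hp => prod_congr rfl fun q hq => ?_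
      simp only [mem_erase, mem_univ, and_true, mem_filter] at hp hq
      simp only [hGdef]
      rw [hXl p hp.2 hp.1, hXl q hq.1.2 hq.1.1]
    have e4 : (∏ q ∈ (univ.erase i).erase j, G i q) * (∏ q ∈ (univ.erase i).erase j, G j q) =
        ∏ l ∈ (univ.erase i).erase j,
              ((1 - z * x l) * (1 - z * (1 - x l)) * (z - x l) * (z - (1 - x l)) / z ^ 2 *
              ((1 - z⁻¹ * x l) * (1 - z * x l))) := by
      rw [← prod_mul_distrib]
      refine prod_congr rfl fun l hl => ?_
      simp only [mem_erase, mem_univ, and_true] at hl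
      simp only [hGdef]
      rw [hXi, hXj, hXl l hl.2 hl.1]
      unfold uu
      field_simp
      ring
    rw [e2, e3, ← e4]
    ring

end Pool.Agent.Lib.MP_b6786a_co.Zeil
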