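import Pool.Agent.Lib.MP_b6786a_co.Zeil.Basic

/-!
# Task WHEEL: row permutations of `DD` and the wheel recursion.
-/

set_option autoImplicit false

namespace Pool.Agent.Lib.MP_b6786a_co.Zeil

open Finset Function

variable {F : Type*}

theorem DD_perm [CommRing F] {k : ℕ} (v : Fin k → F) (σ : Equiv.Perm (Fin k)) :
    DD (fun i => v (σ i)) = ((Equiv.Perm.sign σ : ℤ) : F) * DD v := by
  unfold DD
  rw [← Matrix.det_permute]
  rfl

theorem wheel_gg_two [CommRing F] (k j : ℕ) (hj : j < k) (x : F) :
    gg (k + 2) (j + 2) x = (1 - x) ^ 3 * gg k j x := by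
  unfold gg
  have h1 : 3 * ((j + 2) / 2) = 3 + 3 * (j / 2) := by omega
  have h2 : k + 2 - 1 - (j + 2) = k - 1 - j := by omega
  rw [h1, h2, pow_add]
  ring

theorem wheel_gg_zero [CommRing F] (k j : ℕ) (hj : j < k) (x : F) :
    gg (k + 2) j x = x ^ 2 * gg k j x := by
  unfold gg
  have h2 : k + 2 - 1 - j = 2 + (k - 1 - j) := by omega
  rw [h2, pow_add]
  ring

theorem wheel_gg_zero' [CommRing F] (k : ℕ) (x : F) : gg (k + 2) 0 x = x ^ (k + 1) := by
  simp [gg]

theorem wheel_gg_one' [CommRing F] (k : ℕ) (x : F) : gg (k + 2) 1 x = x ^ k := by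
  simp [gg]

/-- the column operations -/
def wheelP [CommRing F] (k : ℕ) (a b : F) : Matrix (Fin (k + 2)) (Fin (k + 2)) F :=
  Matrix.of fun l j =>
    if (j : ℕ) < 2 then (if l = j then 1 else 0)
    else (if l = j then b * a ^ 2 else if (l : ℕ) + 2 = j then -(b * (1 - a) ^ 3) else 0)

theorem wheelP_det [CommRing F] (k : ℕ) (a b : F) : (wheelP k a b).det = (b * a ^ 2) ^ k := by
  rw [Matrix.det_of_isUpperTriangular]
  · rw [Fin.prod_univ_succ, Fin.prod_univ_succ]
    simp [wheelP]
  · intro i j hij
    simp only [id_eq] at hij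
    have h1 : i ≠ j := ne_of_gt hij
    have h2 : (i : ℕ) + 2 ≠ j := by
      have : (j : ℕ) < i := hij
      omega
    simp [wheelP, h1, h2]

theorem wheel_mul_lt [CommRing F] (k : ℕ) (a b : F) (M : Matrix (Fin (k + 2)) (Fin (k + 2)) F)
    (i j : Fin (k + 2)) (hj : (j : ℕ) < 2) : (M * wheelP k a b) i j = M i j := by
  rw [Matrix.mul_apply]
  have h : ∀ l : Fin (k + 2), M i l * wheelP k a b l j = if l = j then M i l else 0 := by
    intro l
    simp only [wheelP, Matrix.of_apply, hj, if_true]
    split_ifs <;> simp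
  rw [Finset.sum_congr rfl fun l _ => h l]
  simp

theorem wheel_mul_ge [CommRing F] (k : ℕ) (a b : F) (M : Matrix (Fin (k + 2)) (Fin (k + 2)) F)
    (i : Fin (k + 2)) (j : Fin k) :
    (M * wheelP k a b) i j.succ.succ =
      b * (a ^ 2 * M i j.succ.succ - (1 - a) ^ 3 * M i j.castSucc.castSucc) := by
  rw [Matrix.mul_apply]
  have h : ∀ l : Fin (k + 2), M i l * wheelP k a b l j.succ.succ =
      (if l = j.succ.succ then M i l * (b * a ^ 2) else 0) +
      (if l = j.castSucc.castSucc then M i l * (-(b * (1 - a) ^ 3)) else 0) := by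
    intro l
    have h1 : ¬ ((j.succ.succ : Fin (k + 2)) : ℕ) < 2 := by simp
    simp only [wheelP, Matrix.of_apply, h1, if_false]
    by_cases h2 : l = j.succ.succ
    · subst h2
      have h3 : (j.succ.succ : Fin (k + 2)) ≠ j.castSucc.castSucc := by
        intro h
        have := congrArg Fin.val h
        simp only [Fin.val_succ, Fin.val_castSucc] at this
        omega
      simp [h3]
    · by_cases h3 : l = j.castSucc.castSucc
      · subst h3
        have h4 : ((j.castSucc.castSucc : Fin (k + 2)) : ℕ) + 2 = (j.succ.succ : Fin (k + 2)) := by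
          simp
        rw [if_neg h2, if_pos h4, if_neg h2, if_pos rfl, zero_add]
      · have h4 : ¬ ((l : ℕ) + 2 = ((j.succ.succ : Fin (k + 2)) : ℕ)) := by
          intro h
          apply h3
          ext
          simp only [Fin.val_succ, Fin.val_castSucc] at h ⊢
          omega
        rw [if_neg h2, if_neg h4, if_neg h2, if_neg h3, mul_zero, zero_add]
  rw [Finset.sum_congr rfl fun l _ => h l, Finset.sum_add_distrib]
  simp
  ring

theorem wheel [Field F] {k : ℕ} (a b : F) (ha : a ≠ 0) (hb : b ≠ 0) (h : D4 a b = 0)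
    (w : Fin k → F) :
    DD (Fin.cons a (Fin.cons b w : Fin (k + 1) → F) : Fin (k + 2) → F) =
      (a - b) * (∏ l, ((w l - a) * (w l - b) * (1 - a * b * w l))) * DD w := by
  set v : Fin (k + 2) → F := Fin.cons a (Fin.cons b w : Fin (k + 1) → F) with hv
  set M : Matrix (Fin (k + 2)) (Fin (k + 2)) F := Matrix.of fun i j => gg (k + 2) j (v i) with hM
  have hv0 : v 0 = a := rfl
  have hv1 : v 1 = b := rfl
  have hv2 : ∀ i : Fin k, v i.succ.succ = w i := fun i => rfl
  have key : ∀ (i : Fin (k + 2)) (j : Fin k), (M * wheelP k a b) i j.succ.succ =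
      a * ((v i - a) * (v i - b) * (1 - a * b * v i)) * gg k j (v i) := by
    intro i j
    rw [wheel_mul_ge]
    simp only [hM, Matrix.of_apply, Fin.val_succ, Fin.val_castSucc]
    rw [wheel_gg_two k j j.isLt, wheel_gg_zero k j j.isLt]
    have h' : a + b - 3 * a * b + a ^ 2 * b ^ 2 = 0 := h
    linear_combination (gg k j (v i)) * (a * v i - v i ^ 2) * h'
  have hdet : M.det * (b * a ^ 2) ^ k =
      (a ^ k * b ^ k * (a - b)) * ((∏ l, (a * ((w l - a) * (w l - b) * (1 - a * b * w l)))) * DD w) := by
    rw [← wheelP_det, ← Matrix.det_mul]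
    rw [Matrix.det_succ_row_zero]
    rw [Fin.sum_univ_succ, Fin.sum_univ_succ]
    have hz : ∀ j : Fin k, (M * wheelP k a b) 0 j.succ.succ = 0 := by
      intro j
      rw [key, hv0]
      ring
    have hz1 : ∀ j : Fin k, (M * wheelP k a b) 1 j.succ.succ = 0 := by
      intro j
      rw [key, hv1]
      ring
    have hrest : ((M * wheelP k a b).submatrix (fun i : Fin k => i.succ.succ)
        (fun j : Fin k => j.succ.succ)).det =
        (∏ l, (a * ((w l - a) * (w l - b) * (1 - a * b * w l)))) * DD w := by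
      rw [DD, ← Matrix.det_mul_column]
      congr 1
      ext i j
      simp only [Matrix.submatrix_apply, Matrix.of_apply]
      rw [key, hv2]
    have s0 : ((M * wheelP k a b).submatrix Fin.succ (Fin.succAbove 0)).det =
        b ^ k * ((∏ l, (a * ((w l - a) * (w l - b) * (1 - a * b * w l)))) * DD w) := by
      rw [Matrix.det_succ_row_zero, Fin.sum_univ_succ]
      have : ∀ j : Fin k, ((M * wheelP k a b).submatrix Fin.succ (Fin.succAbove 0)) 0 j.succ = 0 := by
        intro j
        simp only [Matrix.submatrix_apply, Fin.zero_succAbove]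
        exact hz1 j
      simp only [this, mul_zero, zero_mul, Finset.sum_const_zero, add_zero]
      rw [← hrest]
      have h00 : ((M * wheelP k a b).submatrix Fin.succ (Fin.succAbove 0)) 0 0 = b ^ k := by
        simp only [Matrix.submatrix_apply, Fin.zero_succAbove]
        rw [wheel_mul_lt _ _ _ _ _ _ (by simp)]
        simp only [hM, Matrix.of_apply]
        have : ((Fin.succ 0 : Fin (k + 2)) : ℕ) = 1 := by simp
        rw [this, wheel_gg_one']
        rfl
      rw [h00]
      simp only [Fin.val_zero, pow_zero, one_mul]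
      congr 1
    have s1 : ((M * wheelP k a b).submatrix Fin.succ (Fin.succAbove (Fin.succ 0))).det =
        b ^ (k + 1) * ((∏ l, (a * ((w l - a) * (w l - b) * (1 - a * b * w l)))) * DD w) := by
      rw [Matrix.det_succ_row_zero, Fin.sum_univ_succ]
      have e : ∀ j : Fin k, (Fin.succAbove (Fin.succ 0) (Fin.succ j) : Fin (k + 2)) = j.succ.succ := by
        intro j
        rw [Fin.succ_succAbove_succ, Fin.zero_succAbove]
      have : ∀ j : Fin k,
          ((M * wheelP k a b).submatrix Fin.succ (Fin.succAbove (Fin.succ 0))) 0 j.succ = 0 := by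
        intro j
        simp only [Matrix.submatrix_apply]
        rw [e]
        exact hz1 j
      simp only [this, mul_zero, zero_mul, Finset.sum_const_zero, add_zero]
      rw [← hrest]
      have h00 : ((M * wheelP k a b).submatrix Fin.succ (Fin.succAbove (Fin.succ 0))) 0 0 =
          b ^ (k + 1) := by
        simp only [Matrix.submatrix_apply]
        have e0 : (Fin.succAbove (Fin.succ 0) 0 : Fin (k + 2)) = 0 := by
          simp [Fin.succAbove]
        rw [e0, wheel_mul_lt _ _ _ _ _ _ (by simp)]
        simp only [hM, Matrix.of_apply]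
        have : ((0 : Fin (k + 2)) : ℕ) = 0 := by simp
        rw [this, wheel_gg_zero']
        rfl
      rw [h00]
      simp only [Fin.val_zero, pow_zero, one_mul]
      congr 2
    simp only [hz, mul_zero, zero_mul, Finset.sum_const_zero, add_zero]
    rw [s0, s1]
    have h00 : (M * wheelP k a b) 0 0 = a ^ (k + 1) := by
      rw [wheel_mul_lt _ _ _ _ _ _ (by simp)]
      simp only [hM, Matrix.of_apply]
      have : ((0 : Fin (k + 2)) : ℕ) = 0 := by simp
      rw [this, wheel_gg_zero', hv0]
    have h01 : (M * wheelP k a b) 0 (Fin.succ 0) = a ^ k := by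
      rw [wheel_mul_lt _ _ _ _ _ _ (by simp)]
      simp only [hM, Matrix.of_apply]
      have : ((Fin.succ 0 : Fin (k + 2)) : ℕ) = 1 := by simp
      rw [this, wheel_gg_one', hv0]
    rw [h00, h01]
    simp only [Fin.val_zero, pow_zero, one_mul, Fin.val_succ, zero_add, pow_one]
    ring
  have hne : (b * a ^ 2) ^ k ≠ 0 := pow_ne_zero _ (mul_ne_zero hb (pow_ne_zero _ ha))
  have hDD : DD v = M.det := rfl
  rw [hDD]
  apply mul_right_cancel₀ hne
  rw [hdet, Finset.prod_mul_distrib]
  simp only [Finset.prod_const, Finset.card_univ, Fintype.card_fin]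
  ring

theorem wheel_det_mem [CommRing F] {k : ℕ} (S : Subring F) (w : Fin k → F) (hw : ∀ i, w i ∈ S) :
    DD w ∈ S := by
  unfold DD
  rw [Matrix.det_apply]
  refine Subring.sum_mem _ fun σ _ => ?_
  refine Subring.zsmul_mem _ (Subring.prod_mem _ fun i _ => ?_) _
  simp only [Matrix.of_apply, gg]
  exact Subring.mul_mem _ (Subring.pow_mem _ (Subring.sub_mem _ (Subring.one_mem _) (hw _)) _)
    (Subring.pow_mem _ (hw _) _)

theorem wheel_exists_perm {k : ℕ} (i j : Fin (k + 2)) (hij : i ≠ j) :
    ∃ σ : Equiv.Perm (Fin (k + 2)), σ 0 = i ∧ σ 1 = j := by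
  refine ⟨(Equiv.swap 1 ((Equiv.swap 0 i).symm j)).trans (Equiv.swap 0 i), ?_, ?_⟩
  · have h1 : (0 : Fin (k + 2)) ≠ (Equiv.swap 0 i).symm j := by
      intro h
      apply hij
      have := congrArg (Equiv.swap 0 i) h
      simpa using this
    have h0 : (0 : Fin (k + 2)) ≠ 1 := by simp
    simp only [Equiv.trans_apply]
    rw [Equiv.swap_apply_of_ne_of_ne h0 h1]
    simp
  · simp

theorem wheel_gen [Field F] {k : ℕ} (i j : Fin k) (hij : i ≠ j) (v : Fin k → F)
    (S : Subring F) (hS : ∀ l, l ≠ i → l ≠ j → v l ∈ S) :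
    ∃ C ∈ S, ∀ a b : F, a ≠ 0 → b ≠ 0 → D4 a b = 0 →
      DD (update (update v i a) j b) =
        C * (a - b) * ∏ l ∈ (univ.erase i).erase j,
          ((v l - a) * (v l - b) * (1 - a * b * v l)) := by
  rcases k with _ | _ | k
  · exact i.elim0
  · exact absurd (Subsingleton.elim (α := Fin 1) i j) hij
  obtain ⟨σ, h0, h1⟩ := wheel_exists_perm i j hij
  have hne : ∀ l : Fin k, σ l.succ.succ ≠ i ∧ σ l.succ.succ ≠ j := by
    intro l
    constructor
    · intro h
      rw [← h0] at h
      have := σ.injective h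
      exact absurd this (Fin.succ_ne_zero _)
    · intro h
      rw [← h1] at h
      have := σ.injective h
      have h2 : (Fin.succ (Fin.succ l) : Fin (k + 2)) = Fin.succ 0 := this
      exact absurd (Fin.succ_injective _ h2) (Fin.succ_ne_zero _)
  refine ⟨((Equiv.Perm.sign σ : ℤ) : F) * DD (fun l : Fin k => v (σ l.succ.succ)), ?_, ?_⟩
  · refine Subring.mul_mem _ (intCast_mem _ _) (wheel_det_mem S _ fun l => ?_)
    exact hS _ (hne l).1 (hne l).2
  intro a b ha hb hD
  have e1 : (fun r => (update (update v i a) j b) (σ r)) =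
      (Fin.cons a (Fin.cons b (fun l : Fin k => v (σ l.succ.succ)) : Fin (k + 1) → F) :
        Fin (k + 2) → F) := by
    funext r
    refine Fin.cases ?_ (fun r => ?_) r
    · rw [h0]
      simp [update_of_ne hij]
    · refine Fin.cases ?_ (fun r => ?_) r
      · have : (Fin.succ 0 : Fin (k + 2)) = 1 := rfl
        rw [this, h1]
        simp
      · rw [update_of_ne (hne r).2, update_of_ne (hne r).1]
        simp
  have e2 := DD_perm (update (update v i a) j b) σ
  rw [e1, wheel a b ha hb hD] at e2
  have e3 : ∏ l ∈ (univ.erase i).erase j, ((v l - a) * (v l - b) * (1 - a * b * v l)) =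
      ∏ l : Fin k, ((v (σ l.succ.succ) - a) * (v (σ l.succ.succ) - b) *
        (1 - a * b * v (σ l.succ.succ))) := by
    symm
    apply Finset.prod_bij (fun (l : Fin k) _ => σ l.succ.succ)
    · intro l _
      simp [(hne l).1, (hne l).2]
    · intro l _ l' _ h
      have := σ.injective h
      exact Fin.succ_injective _ (Fin.succ_injective _ this)
    · intro r hr
      simp only [mem_erase, mem_univ, and_true] at hr
      obtain ⟨s, rfl⟩ := σ.surjective r
      have hs0 : s ≠ 0 := fun h => hr.2 (by rw [h, h0])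
      have hs1 : s ≠ 1 := fun h => hr.1 (by rw [h, h1])
      obtain ⟨s', rfl⟩ := Fin.exists_succ_eq.mpr hs0
      have hs1' : s' ≠ 0 := fun h => hs1 (by rw [h]; rfl)
      obtain ⟨s'', rfl⟩ := Fin.exists_succ_eq.mpr hs1'
      exact ⟨s'', mem_univ _, rfl⟩
    · intro l _
      rfl
  rw [e3]
  have hsq : ((Equiv.Perm.sign σ : ℤ) : F) * ((Equiv.Perm.sign σ : ℤ) : F) = 1 := by
    rw [← Int.cast_mul, ← Units.val_mul, Int.units_mul_self]
    simp
  calc DD (update (update v i a) j b)
      = (((Equiv.Perm.sign σ : ℤ) : F) * ((Equiv.Perm.sign σ : ℤ) : F)) *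
          DD (update (update v i a) j b) := by rw [hsq, one_mul]
    _ = ((Equiv.Perm.sign σ : ℤ) : F) * (((Equiv.Perm.sign σ : ℤ) : F) *
          DD (update (update v i a) j b)) := by ring
    _ = _ := by rw [← e2]; ring

end Pool.Agent.Lib.MP_b6786a_co.Zeil
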