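import Pool.Agent.Lib.MP_b6786a_co.Zeil.Basic2
import Pool.Agent.Lib.MP_b6786a_co.Zeil.Wheel

/-!
# Task KERG: the kernel of the Gog reflection residue
-/

set_option autoImplicit false

namespace Pool.Agent.Lib.MP_b6786a_co.Zeil

open Finset Function

theorem kerG_uu_sg {F : Type*} [CommRing F] (b : Bool) (z : F) : uu (sg b z) = uu z := by
  unfold uu sg
  cases b
  · simp
  · simp only [if_true]
    ring

/-- the factor belonging to one further variable -/
theorem kerG_factor {F : Type*} [Field F] {k : ℕ} (S : Subfield F) (y : Fin k → F) (e f : Fin k)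
    (hef : e < f) (hy : ∀ l, l ≠ e → l ≠ f → y l ∈ S) (b : Bool) (l : Fin k) :
    ∃ α β γ δ : F, (α ∈ S ∧ β ∈ S ∧ γ ∈ S ∧ δ ∈ S) ∧
      (l ≠ e → l ≠ f → ∀ z : F, z ≠ 0 →
        (uu (y l) - uu z⁻¹) * (uu (y l) - uu (sg b z)) * (1 - uu z⁻¹ * uu (sg b z) * uu (y l)) =
          (α + β * z) * (γ + δ * z) / z *
            (kap (update (update y e z⁻¹) f (sg b z)) e l *
              kap (update (update y e z⁻¹) f (sg b z)) f l)) := by
  by_cases hle : l = e
  · exact ⟨0, 0, 0, 0, ⟨S.zero_mem, S.zero_mem, S.zero_mem, S.zero_mem⟩, fun h => absurd hle h⟩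
  by_cases hlf : l = f
  · exact ⟨0, 0, 0, 0, ⟨S.zero_mem, S.zero_mem, S.zero_mem, S.zero_mem⟩, fun _ h => absurd hlf h⟩
  have ht := hy l hle hlf
  have ht' : 1 - y l ∈ S := S.sub_mem S.one_mem ht
  have htn : -(1 - y l) ∈ S := S.neg_mem ht'
  have htm : -(y l) ∈ S := S.neg_mem ht
  have hYe : ∀ z, update (update y e z⁻¹) f (sg b z) e = z⁻¹ := by
    intro z
    rw [update_of_ne hef.ne, update_self]
  have hYf : ∀ z, update (update y e z⁻¹) f (sg b z) f = sg b z := by
    intro z
    rw [update_self]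
  have hYl : ∀ z, update (update y e z⁻¹) f (sg b z) l = y l := by
    intro z
    rw [update_of_ne hlf, update_of_ne hle]
  rcases lt_trichotomy l e with h | h | h
  · -- before
    refine ⟨1, -(1 - y l), -(1 - y l), 1, ⟨S.one_mem, htn, htn, S.one_mem⟩, ?_⟩
    intro _ _ z hz
    have h1 : ¬ e < l := not_lt.mpr h.le
    have h2 : ¬ f < l := not_lt.mpr (h.trans hef).le
    simp only [kap, h1, h2, if_false, hYe, hYf, hYl, kerG_uu_sg]
    unfold uu
    field_simp
    ring
  · exact absurd h hle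
  · rcases lt_trichotomy l f with h' | h' | h'
    · refine ⟨1, -(1 - y l), y l, 1 - y l, ⟨S.one_mem, htn, ht, ht'⟩, ?_⟩
      intro _ _ z hz
      have h2 : ¬ f < l := not_lt.mpr h'.le
      simp only [kap, h, h2, if_false, if_true, hYe, hYf, hYl, kerG_uu_sg]
      unfold uu
      field_simp
      ring
    · exact absurd h' hlf
    · cases b with
      | false =>
        refine ⟨1 - y l, y l, y l, 1 - y l, ⟨ht', ht, ht, ht'⟩, ?_⟩
        intro _ _ z hz
        simp only [kap, h, h', if_true, hYe, hYf, hYl]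
        simp only [sg, uu]
        simp only [Bool.false_eq_true, if_false]
        field_simp
        ring
      | true =>
        refine ⟨1, -(y l), 1, -(1 - y l), ⟨S.one_mem, htm, S.one_mem, htn⟩, ?_⟩
        intro _ _ z hz
        simp only [kap, h, h', if_true, hYe, hYf, hYl]
        simp only [sg, uu]
        simp only [if_true]
        field_simp
        ring

theorem kerG {F : Type*} [Field F] {k : ℕ} (S : Subfield F) (y : Fin k → F) (e f : Fin k)
    (hef : e < f) (hy : ∀ l, l ≠ e → l ≠ f → y l ∈ S) (b : Bool) :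
    ∃ C ∈ S, ∃ α β γ δ : Fin k → F, (∀ l, α l ∈ S ∧ β l ∈ S ∧ γ l ∈ S ∧ δ l ∈ S) ∧
      ∀ z : F, z ≠ 0 → 1 - z ≠ 0 →
        DD (fun d => uu (update (update y e z⁻¹) f (sg b z) d)) =
          C * ((1 - z) * (1 + z ^ 3) / z ^ 2) *
            ∏ l ∈ (univ.erase e).erase f, ((α l + β l * z) * (γ l + δ l * z) / z *
              (kap (update (update y e z⁻¹) f (sg b z)) e l *
                kap (update (update y e z⁻¹) f (sg b z)) f l)) := by
  obtain ⟨C, hC, hw⟩ := wheel_gen e f hef.ne (fun d => uu (y d)) S.toSubring (by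
    intro l hle hlf
    have ht := hy l hle hlf
    exact S.mul_mem ht (S.sub_mem S.one_mem ht))
  choose α β γ δ hS hfac using kerG_factor S y e f hef hy b
  refine ⟨-C, S.neg_mem hC, α, β, γ, δ, hS, ?_⟩
  intro z hz hz1
  have e1 : (fun d => uu (update (update y e z⁻¹) f (sg b z) d)) =
      update (update (fun d => uu (y d)) e (uu z⁻¹)) f (uu (sg b z)) := by
    funext d
    by_cases h1 : d = f
    · subst h1
      simp
    · by_cases h2 : d = e
      · subst h2
        simp [update_of_ne h1]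
      · simp [update_of_ne h1, update_of_ne h2]
  have ha : uu z⁻¹ ≠ 0 := by
    unfold uu
    refine mul_ne_zero (inv_ne_zero hz) ?_
    intro h
    apply hz1
    have h2 : z * (1 - z⁻¹) = 0 := by rw [h, mul_zero]
    rw [mul_sub, mul_inv_cancel₀ hz] at h2
    linear_combination -h2
  have hb : uu (sg b z) ≠ 0 := by
    rw [kerG_uu_sg]
    exact mul_ne_zero hz hz1
  have hD : D4 (uu z⁻¹) (uu (sg b z)) = 0 := by
    rw [kerG_uu_sg]
    unfold D4 uu
    field_simp
    ring
  rw [e1, hw _ _ ha hb hD]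
  have e2 : uu z⁻¹ - uu (sg b z) = -((1 - z) * (1 + z ^ 3) / z ^ 2) := by
    rw [kerG_uu_sg]
    unfold uu
    field_simp
    ring
  rw [e2]
  have e3 : ∏ l ∈ (univ.erase e).erase f, ((uu (y l) - uu z⁻¹) * (uu (y l) - uu (sg b z)) *
      (1 - uu z⁻¹ * uu (sg b z) * uu (y l))) =
      ∏ l ∈ (univ.erase e).erase f, ((α l + β l * z) * (γ l + δ l * z) / z *
              (kap (update (update y e z⁻¹) f (sg b z)) e l *
                kap (update (update y e z⁻¹) f (sg b z)) f l)) := by
    refine prod_congr rfl fun l hl => ?_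
    simp only [mem_erase, mem_univ, and_true] at hl
    exact hfac l hl.2 hl.1 z hz
  rw [e3]
  ring

end Pool.Agent.Lib.MP_b6786a_co.Zeil
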