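import Pool.Agent.Lib.MP_b6786a_co.Zeil.ReflG0
import Pool.Agent.Lib.MP_b6786a_co.Zeil.KerG

/-!
# Reflection invariance of the Gog integrand
-/

set_option autoImplicit false

namespace Pool.Agent.Lib.MP_b6786a_co.Zeil

open Finset Function

/-! ### the value of the residue -/


section value

variable {F : Type*} [Field F] {k : ℕ}

theorem prod_div_card (s : Finset (Fin k)) (q A B : Fin k → F) (z : F) :
    ∏ l ∈ s, (q l / z * (A l * B l)) = (∏ l ∈ s, q l) / z ^ s.card * ((∏ l ∈ s, A l) * ∏ l ∈ s, B l) := by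
  rw [Finset.prod_mul_distrib, Finset.prod_mul_distrib, Finset.prod_div_distrib, Finset.prod_const]

theorem canc_I (K Q a b c d PI PJ : F) (hPI : PI ≠ 0) (hPJ : PJ ≠ 0) :
    K * (Q * (PI * PJ)) * a * b * (c / PJ) / (d * PI) = K * Q * a * b * c / d := by
  rw [mul_div_assoc', ← mul_div_mul_right (K * Q * a * b * c) d (mul_ne_zero hPI hPJ), div_div]
  congr 1 <;> ring

theorem canc_II (K Q a b c d PI PJ : F) (hPI : PI ≠ 0) (hPJ : PJ ≠ 0) :
    K * (Q * (PJ * PI)) * a * b * (c / PJ) / (d * PI) = K * Q * a * b * c / d := by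
  rw [mul_comm PJ PI]; exact canc_I K Q a b c d PI PJ hPI hPJ

/-- Case `i < j`. -/
theorem value_I (S : Subfield F) (y : Fin k → F) (i j : Fin k) (hij : i < j)
    (hy : ∀ l, l ≠ i → l ≠ j → y l ∈ S) (hyj0 : y j ≠ 0) (hyj1 : 1 - y j ≠ 0)
    (hyj2 : 1 - 2 * y j ≠ 0) (b : Bool)
    (hPI : ∏ l ∈ (univ.erase i).erase j, kap (update y i (rho i y j b)) i l ≠ 0)
    (hPJ : ∏ l ∈ (univ.erase i).erase j, kap y j l ≠ 0) (N : ℕ) (hN : 2 * k + 1 ≤ N) :
    ∃ C ∈ S, ∃ α β γ δ : Fin k → F, (∀ l, α l ∈ S ∧ β l ∈ S ∧ γ l ∈ S ∧ δ l ∈ S) ∧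
      ∃ E F' : ℕ, E + 2 * ((univ.erase i).erase j).card + 6 ≤ F' ∧
      DD (fun d => uu (update y i (rho i y j b) d)) * (1 - 2 * rho i y j b) *
        (rho i y j b) ^ (k - (i : ℕ)) * cstG N y (univ.erase i) /
        (rho i y j b ^ N * (1 - rho i y j b) ^ N * (cR i y j * (rho i y j b - rho i y j (!b))) *
          ∏ l ∈ (univ.erase i).erase j, kap (update y i (rho i y j b)) i l) =
      C * (-2 + 1 * sg b (y j)) * (1 + sg b (y j) ^ 3) * sg b (y j) ^ E *
        ((1 - sg b (y j))⁻¹) ^ F' *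
          (∏ l ∈ (univ.erase i).erase j, ((α l + β l * sg b (y j)) * (γ l + δ l * sg b (y j)))) := by
  obtain ⟨C, hC, α, β, γ, δ, hmem, hker⟩ := kerG S y i j hij hy b
  set z := sg b (y j) with hz
  have hz0 : z ≠ 0 := by
    rw [hz]; unfold sg; split_ifs
    · exact hyj1
    · exact hyj0
  have hz1 : 1 - z ≠ 0 := by
    rw [hz]; unfold sg; split_ifs
    · simpa using hyj0
    · exact hyj1
  have hz2 : 1 - 2 * z ≠ 0 := by
    rw [hz]; unfold sg; split_ifs
    · intro h; apply hyj2; linear_combination -h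
    · exact hyj2
  have hP : rho i y j b = z⁻¹ := by
    rw [hz]; unfold rho sg
    rw [if_pos hij]
    split_ifs <;> rfl
  have hji : j ≠ i := hij.ne'
  have hupd : update (update y i z⁻¹) j (sg b z) = update y i z⁻¹ := by
    rw [hz, sg_sg]
    funext l
    by_cases hl : l = j
    · subst hl; rw [update_self, update_of_ne hji]
    · rw [update_of_ne hl]
  have hk := hker z hz0 hz1
  rw [hupd] at hk
  have hJ2 : (univ.erase i).erase j = ((univ : Finset (Fin k)).erase i).erase j := rfl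
  set J2 := ((univ : Finset (Fin k)).erase i).erase j with hJ2def
  rw [prod_div_card, ← hP] at hk
  have hPJ' : ∏ l ∈ J2, kap (update y i (rho i y j b)) j l = ∏ l ∈ J2, kap y j l :=
    Finset.prod_congr rfl fun l hl => kap_update' y hji
      (Finset.mem_erase.mp (Finset.mem_erase.mp hl).2).1 _
  rw [hPJ'] at hk
  have hcst := cstG_erase N y (univ.erase i) (i := j) (by simp [hji])
  have hcard : J2.card = k - 2 := by
    rw [hJ2def, Finset.card_erase_of_mem (by simp [hji]), Finset.card_erase_of_mem (by simp),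
      Finset.card_univ, Fintype.card_fin]
    omega
  have hik := i.2
  have hjk := j.2
  have hij' : (i : ℕ) < j := hij
  have hcR : cR i y j = uu (y j) := if_pos hij
  set Q := ∏ l ∈ J2, ((α l + β l * z) * (γ l + δ l * z)) with hQ
  set cst := cstG N y J2 with hcstdef
  rw [hk, hcst, hcR, hP, hcard]
  set PI := ∏ l ∈ J2, kap (update y i z⁻¹) i l with hPIdef
  set PJ := ∏ l ∈ J2, kap y j l with hPJdef
  have hPI' : PI ≠ 0 := by rw [hPIdef, ← hP]; exact hPI
  rw [hP] at hk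
  have hρ' : uu (y j) * (z⁻¹ - rho i y j (!b)) = 1 - 2 * z := by
    rw [hz]; unfold rho sg uu
    cases b
    · simp only [Bool.not_false, if_true, if_pos hij, Bool.false_eq_true, if_false]
      field_simp
      ring
    · simp only [Bool.not_true, if_true, Bool.false_eq_true, if_false]
      field_simp
      ring
  rw [hρ']
  have hCS : C * cst ∈ S := S.mul_mem hC (cstG_mem N fun d hd => hy d
    (Finset.mem_erase.mp (Finset.mem_erase.mp hd).2).1 (Finset.mem_erase.mp hd).1)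
  have hneg : ((-1 : F) ^ N) ∈ S := S.pow_mem (S.neg_mem S.one_mem) _
  cases b with
  | false =>
      have hzy : y j = z := by simp [hz, sg]
      refine ⟨C * cst * (-1) ^ N, S.mul_mem hCS hneg, α, β, γ, δ, hmem,
        N + (k - j) - ((k - i) + 3 + (k - 2)), 2 * N - 1, by omega, ?_⟩
      rw [← algG_I0 z (1 - 2 * z) C cst Q hz0 hz1 hz2 N (k - i) (k - j) (k - 2) _ _ (by omega) (by omega)]
      rw [hzy]
      exact canc_I _ _ _ _ _ _ _ _ hPI' hPJ
  | true =>
      have hzy : y j = 1 - z := by simp [hz, sg]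
      refine ⟨C * cst * (-(-1) ^ N), S.mul_mem hCS (S.neg_mem hneg), α, β, γ, δ, hmem,
        N - ((k - i) + 3 + (k - 2)), 2 * N - (1 + (k - j)), by omega, ?_⟩
      rw [← algG_I1 z (1 - 2 * z) C cst Q hz0 hz1 hz2 N (k - i) (k - j) (k - 2) _ _ (by omega) (by omega)]
      rw [hzy]
      have e1 : uu (1 - z) = uu z := by unfold uu; ring
      have e2 : 1 - 2 * (1 - z) = -(1 - 2 * z) := by ring
      rw [e1, e2]
      exact canc_I _ _ _ _ _ _ _ _ hPI' hPJ

/-- Case `j < i`. -/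
theorem value_II (S : Subfield F) (y : Fin k → F) (i j : Fin k) (hij : j < i)
    (hy : ∀ l, l ≠ i → l ≠ j → y l ∈ S) (hyj0 : y j ≠ 0) (hyj1 : 1 - y j ≠ 0)
    (hyj2 : 1 - 2 * (y j)⁻¹ ≠ 0) (b : Bool)
    (hPI : ∏ l ∈ (univ.erase i).erase j, kap (update y i (rho i y j b)) i l ≠ 0)
    (hPJ : ∏ l ∈ (univ.erase i).erase j, kap y j l ≠ 0) (N : ℕ) (hN : 2 * k + 1 ≤ N) :
    ∃ C ∈ S, ∃ α β γ δ : Fin k → F, (∀ l, α l ∈ S ∧ β l ∈ S ∧ γ l ∈ S ∧ δ l ∈ S) ∧
      ∃ E F' : ℕ, E + 2 * ((univ.erase i).erase j).card + 6 ≤ F' ∧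
      DD (fun d => uu (update y i (rho i y j b) d)) * (1 - 2 * rho i y j b) *
        (rho i y j b) ^ (k - (i : ℕ)) * cstG N y (univ.erase i) /
        (rho i y j b ^ N * (1 - rho i y j b) ^ N * (cR i y j * (rho i y j b - rho i y j (!b))) *
          ∏ l ∈ (univ.erase i).erase j, kap (update y i (rho i y j b)) i l) =
      C * (1 + (-2) * (y j)) * (1 + (y j) ^ 3) * (y j) ^ E *
        ((1 - (y j))⁻¹) ^ F' *
          (∏ l ∈ (univ.erase i).erase j, ((α l + β l * (y j)) * (γ l + δ l * (y j)))) := by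
  obtain ⟨C, hC, α, β, γ, δ, hmem, hker⟩ := kerG S y j i hij (fun l h1 h2 => hy l h2 h1) b
  have hji : j ≠ i := hij.ne
  set x := y j with hx
  have hz0 : x⁻¹ ≠ 0 := inv_ne_zero hyj0
  have hz1 : 1 - x⁻¹ ≠ 0 := by
    intro h
    apply hyj1
    have : x⁻¹ = 1 := (sub_eq_zero.mp h).symm
    rw [inv_eq_one] at this
    rw [this]; ring
  have hP : rho i y j b = sg b x⁻¹ := by
    unfold rho sg
    rw [if_neg (not_lt.mpr hij.le)]
  have hupd : update (update y j (x⁻¹)⁻¹) i (sg b x⁻¹) = update y i (sg b x⁻¹) := by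
    rw [inv_inv, hx, update_eq_self]
  have hk := hker x⁻¹ hz0 hz1
  rw [hupd, Finset.erase_right_comm] at hk
  set J2 := ((univ : Finset (Fin k)).erase i).erase j with hJ2def
  have hq : ∀ l, (α l + β l * x⁻¹) * (γ l + δ l * x⁻¹) / x⁻¹ =
      (β l + α l * x) * (δ l + γ l * x) / x := by
    intro l
    field_simp
    ring
  simp only [hq] at hk
  rw [prod_div_card, ← hP] at hk
  have hPJ' : ∏ l ∈ J2, kap (update y i (rho i y j b)) j l = ∏ l ∈ J2, kap y j l :=
    Finset.prod_congr rfl fun l hl => kap_update' y hji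
      (Finset.mem_erase.mp (Finset.mem_erase.mp hl).2).1 _
  rw [hPJ'] at hk
  have hcst := cstG_erase N y (univ.erase i) (i := j) (by simp [hji])
  have hcard : J2.card = k - 2 := by
    rw [hJ2def, Finset.card_erase_of_mem (by simp [hji]), Finset.card_erase_of_mem (by simp),
      Finset.card_univ, Fintype.card_fin]
    omega
  have hik := i.2
  have hjk := j.2
  have hij' : (j : ℕ) < i := hij
  have hcR : cR i y j = - x ^ 2 := if_neg (not_lt.mpr hij.le)
  rw [← hx] at hcst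
  set Q := ∏ l ∈ J2, ((β l + α l * x) * (δ l + γ l * x)) with hQ
  set cst := cstG N y J2 with hcstdef
  set PI := ∏ l ∈ J2, kap (update y i (rho i y j b)) i l with hPIdef
  set PJ := ∏ l ∈ J2, kap y j l with hPJdef
  have hCS : C * cst ∈ S := S.mul_mem hC (cstG_mem N fun d hd => hy d
    (Finset.mem_erase.mp (Finset.mem_erase.mp hd).2).1 (Finset.mem_erase.mp hd).1)
  have hneg : ∀ n : ℕ, ((-1 : F) ^ n) ∈ S := fun n => S.pow_mem (S.neg_mem S.one_mem) _
  rw [hk, hcst, hcR, hcard]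
  cases b with
  | false =>
      have h1 : rho i y j false = x⁻¹ := by rw [hP]; simp [sg]
      have h2 : rho i y j (!false) = 1 - x⁻¹ := by
        unfold rho; rw [if_neg (not_lt.mpr hij.le)]; simp [hx]
      refine ⟨C * cst * (-(-1) ^ N), S.mul_mem hCS (S.neg_mem (hneg N)), β, α, δ, γ,
        fun l => ⟨(hmem l).2.1, (hmem l).1, (hmem l).2.2.2, (hmem l).2.2.1⟩,
        N + (k - j) - ((k - i) + 4 + (k - 2)), 2 * N - 1, by omega, ?_⟩
      rw [← algG_II0 x (1 - 2 * x⁻¹) C cst Q hyj0 hyj1 hyj2 N (k - i) (k - j) (k - 2) _ _ (by omega) (by omega)]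
      rw [h1, h2]
      have e1 : x⁻¹ - (1 - x⁻¹) = -(1 - 2 * x⁻¹) := by ring
      rw [e1]
      exact canc_II _ _ _ _ _ _ _ _ hPI hPJ
  | true =>
      have h1 : rho i y j true = 1 - x⁻¹ := by rw [hP]; simp [sg]
      have h2 : rho i y j (!true) = x⁻¹ := by
        unfold rho; simp [hx]
      refine ⟨C * cst * (-(-1) ^ N * (-1) ^ (k - (i : ℕ))), S.mul_mem hCS (S.mul_mem (S.neg_mem (hneg N)) (hneg _)), β, α, δ, γ,
        fun l => ⟨(hmem l).2.1, (hmem l).1, (hmem l).2.2.2, (hmem l).2.2.1⟩,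
        N + (k - j) - ((k - i) + 4 + (k - 2)), 2 * N - (1 + (k - i)), by omega, ?_⟩
      rw [← algG_II1 x (1 - 2 * x⁻¹) C cst Q hyj0 hyj1 hyj2 N (k - i) (k - j) (k - 2) _ _ (by omega) (by omega)]
      rw [h1, h2]
      have e1 : (1 - x⁻¹) - x⁻¹ = (1 - 2 * x⁻¹) := by ring
      have e2 : 1 - 2 * (1 - x⁻¹) = -(1 - 2 * x⁻¹) := by ring
      have e3 : 1 - (1 - x⁻¹) = x⁻¹ := by ring
      rw [e1, e2, e3]
      exact canc_II _ _ _ _ _ _ _ _ hPI hPJ

end value


end Pool.Agent.Lib.MP_b6786a_co.Zeil
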