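import Pool.Agent.Lib.MP_b6786a_co.Zeil.ReflG0
import Pool.Agent.Lib.MP_b6786a_co.Zeil.ReflGv
import Pool.Agent.Lib.MP_b6786a_co.Zeil.KerM

/-!
# Reflection invariance of the Magog integrand
-/

set_option autoImplicit false

namespace Pool.Agent.Lib.MP_b6786a_co.Zeil

open Finset Function

namespace FlipM

section pole

variable {k : ℕ}

theorem pole_resM {a b : Fin k} (hab : a ≠ b) (β0 : Bool) (s : Finset (Fin k)) (x : Fin k → LL k)
    (h : ∀ l ∈ s, x l ∈ Kf ({a, b} : Set (Fin k)))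
    (C : LL k) (hC : C ∈ Kf ({a, b} : Set (Fin k))) (E F : ℕ) (hEF : E + 4 * s.card + 8 ≤ F) :
    res (C * (sg β0 (ss k b) - 2) * (1 - 2 * sg β0 (ss k b)) * (1 + sg β0 (ss k b)) *
      (1 + sg β0 (ss k b) ^ 3) * sg β0 (ss k b) ^ E * ((1 - sg β0 (ss k b))⁻¹) ^ F *
      (∏ l ∈ s, ((1 - sg β0 (ss k b) * x l) * (1 - sg β0 (ss k b) * (1 - x l)) *
        (sg β0 (ss k b) - x l) * (sg β0 (ss k b) - (1 - x l)))) * (ss k a)⁻¹) = 0 := by
  have hsa : (ss k a)⁻¹ ∈ Kf ({b} : Set (Fin k)) :=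
    (Kf {b}).inv_mem (ss_mem_Kf (by simpa using hab))
  have hb : b ∈ ({a, b} : Set (Fin k)) := by simp
  have h2 : (2 : LL k) ∈ Kf ({a, b} : Set (Fin k)) := ofNat_mem _ 2
  have h1 : (1 : LL k) ∈ Kf ({a, b} : Set (Fin k)) := (Kf _).one_mem
  cases β0 with
  | false =>
      have hz : Pge b 0 (sg false (ss k b)) := by simpa [sg] using Pge_ss b b
      have hzi : Pge b 0 (1 - sg false (ss k b))⁻¹ := by simpa [sg] using Pge_inv_one_sub_ss b b
      have g : ∀ {c : LL k}, c ∈ Kf ({a, b} : Set (Fin k)) → Pge b 0 c := fun hc => Pge.of_Kf hc hb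
      refine res_of_Pge (a := b) (c := 0) ?_ le_rfl
      refine Pge.mul0 ?_ (Pge.of_Kf hsa rfl)
      refine Pge.mul0 ?_ (Pge.prod0 _ _ fun l hl => ?_)
      · refine Pge.mul0 ?_ (hzi.pow0 F)
        refine Pge.mul0 ?_ (hz.pow0 E)
        refine Pge.mul0 ?_ (Pge.one.add (hz.pow0 3))
        refine Pge.mul0 ?_ (Pge.one.add hz)
        refine Pge.mul0 ?_ (Pge.one.sub ((g h2).mul0 hz))
        exact (g hC).mul0 (hz.sub (g h2))
      · have hx := g (h l hl)
        exact (((Pge.one.sub (hz.mul0 hx)).mul0 (Pge.one.sub (hz.mul0 (Pge.one.sub hx)))).mul0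
          (hz.sub hx)).mul0 (hz.sub (Pge.one.sub hx))
  | true =>
      have hz : Ple b 1 (sg true (ss k b)) := by
        have : Ple b 1 (1 - ss k b) := ((Ple.one).mono (by norm_num)).sub (Ple_ss b b)
        simpa [sg] using this
      have hzi : Ple b (-1) (1 - sg true (ss k b))⁻¹ := by
        have h1 : (1 - sg true (ss k b)) = ss k b := by simp [sg]
        rw [h1]; exact Ple_ss_inv b
      have g : ∀ {c : LL k}, c ∈ Kf ({a, b} : Set (Fin k)) → Ple b 0 c := fun hc => Ple.of_Kf hc hb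
      have g1 : ∀ {c : LL k}, c ∈ Kf ({a, b} : Set (Fin k)) → Ple b 1 c := fun hc =>
        (g hc).mono (by norm_num)
      have e1 : Ple b 1 (sg true (ss k b) - 2) := hz.sub (g1 h2)
      have e2 : Ple b 1 (1 - 2 * sg true (ss k b)) :=
        (g1 h1).sub (((g h2).mul hz).mono (by norm_num))
      have e3 : Ple b 1 (1 + sg true (ss k b)) := (g1 h1).add hz
      have e4 : Ple b 3 (1 + sg true (ss k b) ^ 3) :=
        (Ple.one.mono (by norm_num)).add ((hz.pow 3).mono (by norm_num))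
      have e5 := Ple.prod (a := b) (c := 4) s
        (fun l => (1 - sg true (ss k b) * x l) * (1 - sg true (ss k b) * (1 - x l)) *
        (sg true (ss k b) - x l) * (sg true (ss k b) - (1 - x l))) (fun l hl => by
          have hx := h l hl
          have hx1 := (Kf ({a, b} : Set (Fin k))).sub_mem h1 hx
          have f1 : Ple b 1 (1 - sg true (ss k b) * x l) :=
            (g1 h1).sub ((hz.mul (g hx)).mono (by norm_num))
          have f2 : Ple b 1 (1 - sg true (ss k b) * (1 - x l)) :=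
            (g1 h1).sub ((hz.mul (g hx1)).mono (by norm_num))
          have f3 : Ple b 1 (sg true (ss k b) - x l) := hz.sub (g1 hx)
          have f4 : Ple b 1 (sg true (ss k b) - (1 - x l)) := hz.sub (g1 hx1)
          exact (((f1.mul f2).mul f3).mul f4).mono (by norm_num))
      refine res_of_Ple (a := b) (((((((((g hC).mul e1).mul e2).mul e3).mul e4).mul (hz.pow E)).mul
        (hzi.pow F)).mul e5).mul (Ple.of_Kf hsa rfl)) ?_
      have : (E : ℤ) + 4 * s.card + 8 ≤ F := by exact_mod_cast hEF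
      linarith

end pole

section cst

variable {F : Type*} [Field F] {k : ℕ}

/-- the factors of `Φ_M` belonging to the variables in `U`, except for the differences -/
noncomputable def cstM (N : ℕ) (y : Fin k → F) (U : Finset (Fin k)) : F :=
  (∏ d ∈ U, (1 - 2 * y d)) * (∏ d ∈ U, ((uu (y d))⁻¹) ^ N) * (∏ d ∈ U, y d ^ 2) /
    PP (fun p q => 1 - y p * y q) U

theorem cstM_erase (N : ℕ) (y : Fin k → F) (U : Finset (Fin k)) {i : Fin k} (hi : i ∈ U) :
    cstM N y U = (1 - 2 * y i) * ((uu (y i))⁻¹) ^ N * (y i) ^ 2 *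
      cstM N y (U.erase i) / ∏ l ∈ U.erase i, (1 - y i * y l) := by
  unfold cstM
  rw [PP_erase _ _ hi, ← Finset.mul_prod_erase U (fun d => 1 - 2 * y d) hi,
    ← Finset.mul_prod_erase U (fun d => ((uu (y d))⁻¹) ^ N) hi,
    ← Finset.mul_prod_erase U (fun d => y d ^ 2) hi]
  have : ∏ l ∈ U.erase i, (1 - y i * y l) = ∏ l ∈ U.erase i, if i < l then 1 - y i * y l
      else 1 - y l * y i := by
    refine Finset.prod_congr rfl fun l _ => ?_
    split_ifs
    · rfl
    · ring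
  rw [this]
  rw [mul_div_assoc', div_div]
  congr 1 <;> ring

theorem cstM_congr (N : ℕ) {y y' : Fin k → F} {U : Finset (Fin k)} (h : ∀ d ∈ U, y d = y' d) :
    cstM N y U = cstM N y' U := by
  unfold cstM
  rw [Finset.prod_congr rfl fun d hd => by rw [h d hd],
    Finset.prod_congr rfl (fun d hd => by rw [h d hd] : ∀ d ∈ U, ((uu (y d))⁻¹) ^ N = ((uu (y' d))⁻¹) ^ N),
    Finset.prod_congr rfl (fun d hd => by rw [h d hd] : ∀ d ∈ U, y d ^ 2 = y' d ^ 2),
    PP_congr (f := fun p q => 1 - y p * y q)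
      (g := fun p q => 1 - y' p * y' q) (fun p hp q hq => by
        simp only [h p hp, h q hq])]

theorem cstM_mem (N : ℕ) {y : Fin k → F} {U : Finset (Fin k)} {K : Subfield F}
    (h : ∀ d ∈ U, y d ∈ K) : cstM N y U ∈ K := by
  unfold cstM PP
  refine K.div_mem (K.mul_mem (K.mul_mem ?_ ?_) ?_) ?_
  · exact K.prod_mem fun d hd => K.sub_mem K.one_mem (K.mul_mem (ofNat_mem K 2) (h d hd))
  · exact K.prod_mem fun d hd => K.pow_mem (K.inv_mem (uu_mem (h d hd))) _
  · exact K.prod_mem fun d hd => K.pow_mem (h d hd) _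
  · refine K.prod_mem fun p hp => K.prod_mem fun q hq => ?_
    have hq' := (Finset.mem_filter.mp hq).1
    exact K.sub_mem K.one_mem (K.mul_mem (h p hp) (h q hq'))

/-- the differences -/
noncomputable def VX (y : Fin k → F) : F :=
  VV (fun d => uu (y d)) * ∏ p, ∏ q ∈ Ioi p, (y q - y p)

theorem PhiM_eq (N : ℕ) (y : Fin k → F) : PhiM N y = VX y * cstM N y univ := by
  unfold PhiM KM cstM VX
  rw [PP_univ]
  ring

theorem PhiM_update (N : ℕ) (y : Fin k → F) (i : Fin k) (t : F) :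
    PhiM N (update y i t) = (VX (update y i t) * (1 - 2 * t) * t ^ 2 *
      cstM N y (univ.erase i)) / (t ^ N * (1 - t) ^ N * ∏ l ∈ univ.erase i, (1 - t * y l)) := by
  rw [PhiM_eq, cstM_erase N _ univ (Finset.mem_univ i), update_self,
    cstM_congr N (U := univ.erase i) (y := update y i t) (y' := y) (fun d hd =>
      update_of_ne (Finset.mem_erase.mp hd).1 _ _)]
  have h1 : ∏ l ∈ univ.erase i, (1 - t * update y i t l) = ∏ l ∈ univ.erase i, (1 - t * y l) :=
    Finset.prod_congr rfl fun l hl => by rw [update_of_ne (Finset.mem_erase.mp hl).1]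
  have : ((uu t)⁻¹) ^ N = 1 / (t ^ N * (1 - t) ^ N) := by
    unfold uu
    rw [inv_pow, mul_pow, one_div]
  rw [this, h1]
  ring

theorem isPoly_VX {K : Subfield F} (y : Fin k → F) (i : Fin k) (hy : ∀ l, l ≠ i → y l ∈ K) :
    IsPoly K (2 * (k - 1) + (k - 1)) (fun t => VX (update y i t)) := by
  classical
  refine (isPoly_VV y i hy).mul ?_
  have h0 : ∀ t : F, ∏ p, ∏ q ∈ Ioi p, (update y i t q - update y i t p) =
      (∏ l ∈ univ.erase i, if i < l then y l - t else t - y l) *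
        PP (fun p q => y q - y p) (univ.erase i) := by
    intro t
    rw [← PP_univ (fun p q => update y i t q - update y i t p),
      PP_erase _ _ (Finset.mem_univ i)]
    congr 1
    · refine Finset.prod_congr rfl fun l hl => ?_
      rw [update_self, update_of_ne (Finset.mem_erase.mp hl).1]
    · refine PP_congr fun p hp q hq => ?_
      rw [update_of_ne (Finset.mem_erase.mp hp).1, update_of_ne (Finset.mem_erase.mp hq).1]
  refine IsPoly.congr ?_ h0
  refine ((IsPoly.prod (D := 1) (univ.erase i) _ fun l hl => ?_).mul (IsPoly.const ?_)).mono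
    (D := (univ.erase i).card * 1 + 0) ?_
  · have hl' := hy l (Finset.mem_erase.mp hl).1
    have h2 : IsPoly K 1 (fun _ : F => y l) := (IsPoly.const hl').mono (Nat.zero_le 1)
    split_ifs
    · exact h2.sub IsPoly.id
    · exact IsPoly.id.sub h2
  · unfold PP
    refine K.prod_mem fun p hp => K.prod_mem fun q hq => K.sub_mem (hy q ?_) (hy p ?_)
    · exact (Finset.mem_erase.mp (Finset.mem_filter.mp hq).1).1
    · exact (Finset.mem_erase.mp hp).1
  · rw [Finset.card_erase_of_mem (Finset.mem_univ i), Finset.card_univ, Fintype.card_fin]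
    omega

end cst

section reflect1

variable {k : ℕ}

open Classical in
theorem reflect1 (a : Fin k) (J : Finset (Fin k)) (ρ : Fin k → LL k) (c : Fin k → LL k)
    (φ : Fin k → LL k → LL k)
    (hφ : ∀ l ∈ J, ∀ t, φ l t = c l * (t - ρ l))
    (hcK : ∀ l ∈ J, c l ∈ Kf ({a} : Set (Fin k))) (hc0 : ∀ l ∈ J, c l ≠ 0)
    (hρK : ∀ l ∈ J, ρ l ∈ Kf ({a} : Set (Fin k)))
    (hinj : ∀ l ∈ J, ∀ l' ∈ J, ρ l = ρ l' → l = l')
    (h0 : ∀ l ∈ J, ρ l ≠ 0) (h1 : ∀ l ∈ J, ρ l ≠ 1)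
    (N D : ℕ) (f : LL k → LL k) (hf : IsPoly (Kf ({a} : Set (Fin k))) D f)
    (hD : D + 2 ≤ 2 * N + J.card)
    (hR : ∀ j ∈ J, res (f (ρ j) / (ρ j ^ N * (1 - ρ j) ^ N *
      c j * ∏ l ∈ J.erase j, φ l (ρ j)) * (ss k a)⁻¹) = 0) :
    res (f (ss k a) / (ss k a ^ N * (1 - ss k a) ^ N * ∏ l ∈ J, φ l (ss k a))) =
      res (f (1 - ss k a) / ((1 - ss k a) ^ N * (1 - (1 - ss k a)) ^ N *
        ∏ l ∈ J, φ l (1 - ss k a))) := by
  set ι := {x : Fin k // x ∈ J} with hι
  set P : ι → LL k := fun x => ρ x.1 with hP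
  have hmem : ∀ x : ι, x.1 ∈ J := fun x => x.2
  have hcprod : (∏ l ∈ J, c l) ≠ 0 := Finset.prod_ne_zero_iff.mpr hc0
  have hcprodK : (∏ l ∈ J, c l) ∈ Kf ({a} : Set (Fin k)) := (Kf {a}).prod_mem hcK
  have hprod : ∀ t : LL k, (∏ l ∈ J, c l) * ∏ x : ι, (t - P x) = ∏ l ∈ J, φ l t := by
    intro t
    have e1 : ∏ x : ι, (t - P x) = ∏ x ∈ J, (t - ρ x) := by
      exact Finset.prod_coe_sort J (fun x => t - ρ x)
    rw [e1, ← Finset.prod_mul_distrib]
    refine Finset.prod_congr rfl fun l hl => ?_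
    rw [hφ l hl]
  have hcard : Fintype.card ι = J.card := Fintype.card_coe _
  have key := reflect a P (fun x => hρK _ (hmem x))
    (fun x x' h => Subtype.ext (hinj _ (hmem x) _ (hmem x') h))
    (fun x => h0 _ (hmem x)) (fun x => h1 _ (hmem x)) N N D
    (fun t => f t * (∏ l ∈ J, c l)⁻¹)
    ((hf.mul (IsPoly.const ((Kf {a}).inv_mem hcprodK))).mono (by simp)) (by rw [hcard]; omega)
    (by
      rintro ⟨j, hj⟩
      have h2 := hR j hj
      have e2 : ∏ x' ∈ univ.erase (⟨j, hj⟩ : ι), (P ⟨j, hj⟩ - P x') =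
          ∏ l ∈ J.erase j, (ρ j - ρ l) := by
        refine Finset.prod_bij (fun x' _ => x'.1) ?_ ?_ ?_ ?_
        · intro x' hx'
          rw [Finset.mem_erase] at hx' ⊢
          exact ⟨fun h => hx'.1 (Subtype.ext h), x'.2⟩
        · intro x1 _ x2 _ h; exact Subtype.ext h
        · intro x' hx'
          rw [Finset.mem_erase] at hx'
          refine ⟨⟨x', hx'.2⟩, ?_, rfl⟩
          rw [Finset.mem_erase]
          exact ⟨fun h => hx'.1 (congrArg Subtype.val h), Finset.mem_univ _⟩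
        · intro x' _; rfl
      have e5 : ∏ l ∈ J.erase j, φ l (ρ j) = (∏ l ∈ J.erase j, c l) *
          ∏ l ∈ J.erase j, (ρ j - ρ l) := by
        rw [← Finset.prod_mul_distrib]
        exact Finset.prod_congr rfl fun l hl => hφ l (Finset.mem_erase.mp hl).2 _
      have e6 : (∏ l ∈ J, c l) = c j * ∏ l ∈ J.erase j, c l := (Finset.mul_prod_erase J c hj).symm
      rw [e2]
      rw [e5] at h2
      convert h2 using 3
      change f (ρ j) * (∏ l ∈ J, c l)⁻¹ / (ρ j ^ N * (1 - ρ j) ^ N * _) = _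
      rw [e6, ← div_eq_mul_inv, div_div]
      congr 1
      ring)
  have e7 : ∀ t : LL k, f t * (∏ l ∈ J, c l)⁻¹ / (t ^ N * (1 - t) ^ N * ∏ x : ι, (t - P x)) =
      f t / (t ^ N * (1 - t) ^ N * ∏ l ∈ J, φ l t) := by
    intro t
    rw [← hprod, ← div_eq_mul_inv, div_div]
    congr 1
    ring
  have e8 := e7 (1 - ss k a)
  rw [sub_sub_cancel] at e8
  rw [sub_sub_cancel, ← e8, ← e7]
  exact key

end reflect1

section value

variable {F : Type*} [Field F] {k : ℕ}

theorem algM (z C cst Q : F) (hz : z ≠ 0) (hz1 : 1 - z ≠ 0)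
    (N K2 E F' : ℕ) (hE : E + (5 + 2 * K2) = N) (hF : F' + 2 = 2 * N) :
    C * ((1 - z) * (1 + z ^ 3) / z ^ 2) * ((1 - z) * (1 + z) / z) * (Q / (z ^ 2) ^ K2) *
      (1 - 2 * z⁻¹) * (z⁻¹) ^ 2 *
      ((1 - 2 * z) * ((uu z)⁻¹) ^ N * z ^ 2 * cst) / ((z⁻¹) ^ N * (1 - z⁻¹) ^ N * (-z)) =
    C * cst * (-(-1) ^ N) * (z - 2) * (1 - 2 * z) * (1 + z) * (1 + z ^ 3) * z ^ E *
      ((1 - z)⁻¹) ^ F' * Q := by
  have h1 := algG_pow hz N
  have h2 : z ^ E = z ^ N / (z ^ 5 * (z ^ 2) ^ K2) := by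
    rw [← pow_mul, ← pow_add, eq_div_iff (pow_ne_zero _ hz), ← pow_add, hE]
  have h3 : ((1 - z)⁻¹) ^ F' = (1 - z) ^ 2 / ((1 - z) ^ N * (1 - z) ^ N) := by
    rw [inv_pow, inv_eq_one_div, div_eq_div_iff (pow_ne_zero _ hz1)
      (mul_ne_zero (pow_ne_zero _ hz1) (pow_ne_zero _ hz1)), ← pow_add, one_mul, ← pow_add]
    congr 1; omega
  have h4 : ((uu z)⁻¹) ^ N = 1 / (z ^ N * (1 - z) ^ N) := by
    unfold uu; rw [inv_pow, mul_pow, one_div]
  have h5 : ((-1 : F) ^ N) ≠ 0 := pow_ne_zero _ (by norm_num)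
  have h6 : ((-1 : F) ^ N) * (-1) ^ N = 1 := by rw [← mul_pow]; norm_num
  rw [h1, h2, h3, h4, inv_pow z N]
  generalize (-1 : F) ^ N = s at *
  field_simp
  linear_combination (C * cst * Q * (z - 2) * (1 - 2 * z) * (1 + z) * (1 + z ^ 3)) * h6

theorem valueM (S : Subfield F) (x : Fin k → F) (i j : Fin k) (hij : i ≠ j)
    (hx : ∀ l, l ≠ i → l ≠ j → x l ∈ S) (hxj0 : x j ≠ 0) (hxj1 : 1 - x j ≠ 0)
    (hPI : ∏ l ∈ (univ.erase i).erase j, (1 - (x j)⁻¹ * x l) ≠ 0)
    (hPJ : ∏ l ∈ (univ.erase i).erase j, (1 - x j * x l) ≠ 0) (N : ℕ) (hN : 2 * k + 1 ≤ N) :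
    ∃ C ∈ S, ∃ E F' : ℕ, E + 4 * ((univ.erase i).erase j).card + 8 ≤ F' ∧
      VX (update x i (x j)⁻¹) * (1 - 2 * (x j)⁻¹) * ((x j)⁻¹) ^ 2 * cstM N x (univ.erase i) /
        ((x j)⁻¹ ^ N * (1 - (x j)⁻¹) ^ N * (-(x j)) *
          ∏ l ∈ (univ.erase i).erase j, (1 - (x j)⁻¹ * x l)) =
      C * (x j - 2) * (1 - 2 * x j) * (1 + x j) * (1 + x j ^ 3) * x j ^ E * ((1 - x j)⁻¹) ^ F' *
        (∏ l ∈ (univ.erase i).erase j, ((1 - x j * x l) * (1 - x j * (1 - x l)) *
        (x j - x l) * (x j - (1 - x l)))) := by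
  obtain ⟨C, hC, hker⟩ := kerM S x i j hij hx
  have hk := hker (x j) hxj0
  have hji : j ≠ i := hij.symm
  have hupd : update (update x i (x j)⁻¹) j (x j) = update x i (x j)⁻¹ := by
    funext l
    by_cases hl : l = j
    · subst hl; rw [update_self, update_of_ne hji]
    · rw [update_of_ne hl]
  rw [hupd] at hk
  have hk' : VX (update x i (x j)⁻¹) = _ := hk
  set J2 := ((univ : Finset (Fin k)).erase i).erase j with hJ2def
  rw [prod_div_card] at hk'
  have hcst := cstM_erase N x (univ.erase i) (i := j) (by simp [hji])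
  have hcard : J2.card = k - 2 := by
    rw [hJ2def, Finset.card_erase_of_mem (by simp [hji]), Finset.card_erase_of_mem (by simp),
      Finset.card_univ, Fintype.card_fin]
    omega
  have hik := i.2
  have hjk := j.2
  have hij' : (i : ℕ) ≠ j := fun h => hij (Fin.ext h)
  rw [hk', hcst, hcard]
  have hCS : C * cstM N x J2 ∈ S := S.mul_mem hC (cstM_mem N fun d hd => hx d
    (Finset.mem_erase.mp (Finset.mem_erase.mp hd).2).1 (Finset.mem_erase.mp hd).1)
  have hneg : ((-1 : F) ^ N) ∈ S := S.pow_mem (S.neg_mem S.one_mem) _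
  refine ⟨C * cstM N x J2 * (-(-1) ^ N), S.mul_mem hCS (S.neg_mem hneg),
    N - (5 + 2 * (k - 2)), 2 * N - 2, by omega, ?_⟩
  rw [← algM (x j) C (cstM N x J2) _ hxj0 hxj1 N (k - 2) _ _ (by omega) (by omega)]
  exact canc_I _ _ _ _ _ _ _ _ hPI hPJ

end value

end FlipM

open FlipM in
theorem PhiM_flip {k : ℕ} (N : ℕ) (hN : 2 * k + 1 ≤ N) (ε : Fin k → Bool) (i : Fin k) :
    res (PhiM N (update (yy 1 ε) i (1 - yy 1 ε i))) = res (PhiM N (yy 1 ε)) := by
  obtain ⟨y, hy⟩ : ∃ y, y = yy 1 ε := ⟨_, rfl⟩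
  rw [← hy]
  have hnot : ∀ l, y l ∉ Kf ({l} : Set (Fin k)) := fun l => by rw [hy]; exact yy_notMem 1 ε l
  have hmem : ∀ (A : Set (Fin k)) (l : Fin k), l ∉ A → y l ∈ Kf A := fun A l h => by
    rw [hy]; exact yy_mem 1 ε h
  have hmem1 : ∀ l l' : Fin k, l ≠ l' → y l ∈ Kf ({l'} : Set (Fin k)) := fun l l' h =>
    hmem _ _ (by simpa using h)
  have hne0 : ∀ {K : Subfield (LL k)} {x z : LL k}, x ∉ K → z ∈ K → x ≠ z :=
    fun hx hz h => hx (h ▸ hz)
  have hy0 : ∀ l, y l ≠ 0 := fun l => hne0 (hnot l) (Kf _).zero_mem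
  have hy1 : ∀ l, 1 - y l ≠ 0 := fun l => hne0
    (fun h => hnot l (one_sub_mem_iff.mp h)) (Kf _).zero_mem
  have hpr1 : ∀ p q : Fin k, p ≠ q → 1 - y p * y q ≠ 0 := by
    intro p q hpq h
    apply hnot p
    have : y p = (y q)⁻¹ := eq_inv_of_mul_eq_one_left (by linear_combination -h)
    rw [this]; exact (Kf _).inv_mem (hmem1 q p hpq.symm)
  have hpr2 : ∀ p q : Fin k, p ≠ q → 1 - (y p)⁻¹ * y q ≠ 0 := by
    intro p q hpq h
    apply hnot p
    have : (y p)⁻¹ = (y q)⁻¹ := eq_inv_of_mul_eq_one_left (by linear_combination -h)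
    rw [inv_inj] at this
    rw [this]; exact hmem1 q p hpq.symm
  have hK : ∀ l, l ≠ i → y l ∈ Kf ({i} : Set (Fin k)) := fun l hl => hmem1 l i hl
  have e3 : ∀ l ∈ univ.erase i, (y l)⁻¹ ∈ Kf ({i} : Set (Fin k)) := fun l hl =>
    (Kf _).inv_mem (hK l (Finset.mem_erase.mp hl).1)
  have e4 : ∀ l ∈ univ.erase i, ∀ l' ∈ univ.erase i, (y l)⁻¹ = (y l')⁻¹ → l = l' := by
    intro l hl l' hl' h
    by_contra hne
    rw [inv_inj] at h
    apply hnot l
    rw [h]
    exact hmem1 l' l (fun h => hne h.symm)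
  have e5 : ∀ l ∈ univ.erase i, (y l)⁻¹ ≠ 0 := fun l _ => inv_ne_zero (hy0 l)
  have e6 : ∀ l ∈ univ.erase i, (y l)⁻¹ ≠ 1 := fun l _ h => by
    rw [inv_eq_one] at h
    exact hy1 l (by rw [h, sub_self])
  have e7 : IsPoly (Kf ({i} : Set (Fin k))) (2 * (k - 1) + (k - 1) + 1 + 2 * 1 + 0)
      (fun t => VX (update y i t) * (1 - 2 * t) * t ^ 2 * cstM N y (univ.erase i)) := by
    refine (((isPoly_VX y i hK).mul ?_).mul (IsPoly.id.pow _)).mul (IsPoly.const (cstM_mem N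
      fun d hd => hK d (Finset.mem_erase.mp hd).1))
    exact ((IsPoly.const (Kf _).one_mem).mono (Nat.zero_le 1)).sub
          (((IsPoly.const (ofNat_mem _ 2)).mul IsPoly.id).mono (by simp))
  have e8 : 2 * (k - 1) + (k - 1) + 1 + 2 * 1 + 0 + 2 ≤ 2 * N + ((univ : Finset (Fin k)).erase i).card := by
    rw [Finset.card_erase_of_mem (by simp), Finset.card_univ, Fintype.card_fin]
    have := i.2
    omega
  have e9 : ∀ j ∈ univ.erase i, res (VX (update y i (y j)⁻¹) * (1 - 2 * (y j)⁻¹) *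
      ((y j)⁻¹) ^ 2 * cstM N y (univ.erase i) /
        ((y j)⁻¹ ^ N * (1 - (y j)⁻¹) ^ N * (-(y j)) *
          ∏ l ∈ (univ.erase i).erase j, (1 - (y j)⁻¹ * y l)) * (ss k i)⁻¹) = 0 := by
    intro j hj
    have hji : j ≠ i := (Finset.mem_erase.mp hj).1
    have hS : ∀ l, l ≠ i → l ≠ j → y l ∈ Kf ({i, j} : Set (Fin k)) := fun l h1 h2 =>
      hmem _ _ (by
        simp only [Set.mem_insert_iff, Set.mem_singleton_iff, not_or]
        exact ⟨h1, h2⟩)
    have hPJ : ∏ l ∈ (univ.erase i).erase j, (1 - y j * y l) ≠ 0 :=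
      Finset.prod_ne_zero_iff.mpr fun l hl => hpr1 j l (Finset.mem_erase.mp hl).1.symm
    have hPI : ∏ l ∈ (univ.erase i).erase j, (1 - (y j)⁻¹ * y l) ≠ 0 :=
      Finset.prod_ne_zero_iff.mpr fun l hl => hpr2 j l (Finset.mem_erase.mp hl).1.symm
    obtain ⟨C, hC, E, F', hEF, hv⟩ := valueM (Kf ({i, j} : Set (Fin k))) y i j
        hji.symm hS (hy0 j) (hy1 j) hPI hPJ N hN
    rw [hv]
    have hsg : y j = sg (ε j) (ss k j) := by rw [hy]; rfl
    have hprodK : ∀ l ∈ (univ.erase i).erase j, y l ∈ Kf ({i, j} : Set (Fin k)) := fun l hl =>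
      hS l (Finset.mem_erase.mp (Finset.mem_erase.mp hl).2).1 (Finset.mem_erase.mp hl).1
    rw [hsg]
    exact pole_resM hji.symm (ε j) _ y hprodK C hC E F' hEF
  have key : res (PhiM N (update y i (ss k i))) = res (PhiM N (update y i (1 - ss k i))) := by
    rw [PhiM_update, PhiM_update]
    have R := reflect1 i (univ.erase i) (fun l => (y l)⁻¹) (fun l => -(y l)) (fun l t => 1 - t * y l)
      (fun l hl t => by
        have := hy0 l
        field_simp
        ring)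
      (fun l hl => (Kf _).neg_mem (hK l (Finset.mem_erase.mp hl).1))
      (fun l _ => neg_ne_zero.mpr (hy0 l)) e3 e4 e5 e6 N _
      (fun t => VX (update y i t) * (1 - 2 * t) * t ^ 2 * cstM N y (univ.erase i)) e7 e8 e9
    exact R
  have hyi : y i = sg (ε i) (ss k i) := by rw [hy]; rfl
  cases hε : ε i with
  | false =>
      have h1 : y i = ss k i := by rw [hyi, hε]; simp [sg]
      have h2 : update y i (ss k i) = y := by rw [← h1, update_eq_self]
      rw [h1, ← key, h2]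
  | true =>
      have h1 : y i = 1 - ss k i := by rw [hyi, hε]; simp [sg]
      have h2 : update y i (1 - ss k i) = y := by rw [← h1, update_eq_self]
      rw [h1, sub_sub_cancel, key, h2]

end Pool.Agent.Lib.MP_b6786a_co.Zeil
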