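import Pool.Agent.Lib.MP_b6786a_co.Zeil.FinalA
import Pool.Agent.Lib.MP_b6786a_co.Zeil.FinalB
import Pool.Agent.Lib.MP_b6786a_co.Zeil.Emb
import Pool.Agent.Lib.MP_b6786a_co.Zeil.ReflG
import Pool.Agent.Lib.MP_b6786a_co.Zeil.ReflM

/-!
# Zeilberger's theorem for trapezoids, and the equinumerosity of left Gog and GOGAm trapezoids
-/

set_option autoImplicit false

namespace Pool.Agent.Lib.MP_b6786a_co.Zeil

open Finset Function

theorem cntG_eq_cntM {n k : ℕ} (hk1 : 1 ≤ k) (hkn : k ≤ n) :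
    cntG n (0 : Fin k → ℕ) = cntM (n - 1) (fun d : Fin k => (d : ℕ)) := by
  have hN : 2 * k + 1 ≤ k + 1 + n := by omega
  have hNN : n + k + 1 = k + 1 + n := by omega
  refine cntG_eq_cntM_of hk1 hkn ?_ ?_ (resM n)
  · rw [hNN]
    refine final_identity_of (k + 1 + n) (fun π ε i => PhiG_flip _ hN π ε i)
      (fun ε i => PhiM_flip _ hN ε i) (fun π => ?_) (gen_ss k)
    rw [resG π n]
    exact (resG 1 n).symm
  · exact resG 1 n

theorem right_gog_eq_right_magog (n k : ℕ) (hk1 : 1 ≤ k) (hkn : k ≤ n) :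
    (trapezoids (IsGog n) (rightIdx n k)).ncard =
      (trapezoids (IsMagog n) (rightIdx n k)).ncard :=
  right_gog_eq_right_magog_of hk1 hkn (cntG_eq_cntM hk1 hkn)

theorem left_gog_eq_left_gogam (n k : ℕ) (hk1 : 1 ≤ k) (hkn : k ≤ n) :
    (trapezoids (IsGog n) (leftIdx n k)).Finite ∧
    (trapezoids (IsGOGAm n) (leftIdx n k)).Finite ∧
    (trapezoids (IsGog n) (leftIdx n k)).ncard = (trapezoids (IsGOGAm n) (leftIdx n k)).ncard :=
  left_gog_eq_left_gogam_of hk1 hkn (right_gog_eq_right_magog n k hk1 hkn)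

end Pool.Agent.Lib.MP_b6786a_co.Zeil
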