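import Pool.Agent.Lib.MP_b6786a_co.Zeil.Basic

set_option autoImplicit false

namespace Pool.Agent.Lib.MP_b6786a_co.Zeil

open Finset

variable {F : Type*}

/-- entry `G_j(a, J)`: `a J^(j/2)` for `j` even and `J^(j/2)` for `j` odd -/
def gammaE [CommRing F] (a J : F) (j : ℕ) : F := (if j % 2 = 0 then a else 1) * J ^ (j / 2)

/-- the matrix of the `G_j(a_i, J_i)` -/
def gammaM [CommRing F] {k : ℕ} (a J : Fin k → F) : Matrix (Fin k) (Fin k) F :=
  Matrix.of fun i j => gammaE (a i) (J i) j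

theorem gammaE_two [CommRing F] (a J : F) (j : ℕ) : gammaE a J (j + 2) = J * gammaE a J j := by
  unfold gammaE
  have h1 : (j + 2) % 2 = j % 2 := by omega
  have h2 : (j + 2) / 2 = j / 2 + 1 := by omega
  rw [h1, h2, pow_succ]
  ring

theorem gammaM_perm [CommRing F] {k : ℕ} (a J : Fin k → F) (σ : Equiv.Perm (Fin k)) :
    (gammaM (a ∘ σ) (J ∘ σ)).det ^ 2 = (gammaM a J).det ^ 2 := by
  have h : gammaM (a ∘ σ) (J ∘ σ) = (gammaM a J).submatrix σ id := by
    ext i j
    rfl
  rw [h, Matrix.det_permute, mul_pow]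
  have : (((Equiv.Perm.sign σ : ℤˣ) : ℤ) : F) ^ 2 = 1 := by
    rcases Int.units_eq_one_or (Equiv.Perm.sign σ) with h | h <;> rw [h] <;> simp
  rw [this, one_mul]

theorem gamma_det_two [CommRing F] {k : ℕ} (N : Matrix (Fin (k + 2)) (Fin (k + 2)) F)
    (h0 : ∀ j : Fin k, N 0 j.succ.succ = 0) (h1 : ∀ j : Fin k, N 1 j.succ.succ = 0) :
    N.det = (N 0 0 * N 1 1 - N 0 1 * N 1 0) *
      (N.submatrix (fun i : Fin k => i.succ.succ) (fun j : Fin k => j.succ.succ)).det := by
  rw [Matrix.det_succ_row_zero, Fin.sum_univ_succ, Fin.sum_univ_succ]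
  rw [Finset.sum_eq_zero (s := univ) (f := fun i : Fin k => _)]
  · rw [Matrix.det_succ_row_zero, Fin.sum_univ_succ]
    rw [Finset.sum_eq_zero]
    · rw [Matrix.det_succ_row_zero (A := N.submatrix Fin.succ ((Fin.succ 0).succAbove)), Fin.sum_univ_succ]
      rw [Finset.sum_eq_zero]
      · have e1 : (N.submatrix Fin.succ (Fin.succAbove 0)).submatrix Fin.succ (Fin.succAbove 0)
            = N.submatrix (fun i : Fin k => i.succ.succ) (fun j : Fin k => j.succ.succ) := by
          ext i j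
          simp
        have e2 : (N.submatrix Fin.succ ((Fin.succ (0 : Fin (k + 1))).succAbove)).submatrix Fin.succ (Fin.succAbove 0)
            = N.submatrix (fun i : Fin k => i.succ.succ) (fun j : Fin k => j.succ.succ) := by
          ext i j
          simp [Fin.succAbove]
        rw [e1, e2]
        simp
        ring
      · intro i _
        simp [h1]
    · intro i _
      simp [h1]
  · intro i _
    simp [h0]

/-- collision: two rows with the same `J` -/
theorem gammaW [CommRing F] {k : ℕ} (x y c : F) (w K : Fin k → F) :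
    (gammaM (Fin.cons x (Fin.cons y w : Fin (k + 1) → F) : Fin (k + 2) → F)
      (Fin.cons c (Fin.cons c K : Fin (k + 1) → F) : Fin (k + 2) → F)).det =
      (x - y) * (∏ l, (K l - c)) * (gammaM w K).det := by
  set A : Fin (k + 2) → F := Fin.cons x (Fin.cons y w : Fin (k + 1) → F) with hA
  set B : Fin (k + 2) → F := Fin.cons c (Fin.cons c K : Fin (k + 1) → F) with hB
  let T : Matrix (Fin (k + 2)) (Fin (k + 2)) F := Matrix.of fun i j =>
    if i = j then 1 else if (i : ℕ) + 2 = j then -c else 0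
  have hT : T.det = 1 := by
    rw [Matrix.det_of_isUpperTriangular]
    · simp [T]
    · intro i j hij
      simp only [id] at hij
      have h1 : i ≠ j := by rintro rfl; exact lt_irrefl _ hij
      have h2 : ¬ ((i : ℕ) + 2 = j) := by
        have : (j : ℕ) < i := hij
        omega
      simp [T, h1, h2]
  have hMT : ∀ i (j : Fin (k + 2)), (gammaM A B * T) i j =
      gammaE (A i) (B i) j + if h : 2 ≤ (j : ℕ) then -c * gammaE (A i) (B i) ((j : ℕ) - 2) else 0 := by
    intro i j
    rw [Matrix.mul_apply]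
    have h1 : ∀ l : Fin (k + 2), gammaM A B i l * T l j =
        (if l = j then gammaE (A i) (B i) j else 0) +
        (if (l : ℕ) + 2 = j then -c * gammaE (A i) (B i) l else 0) := by
      intro l
      simp only [T, gammaM, Matrix.of_apply]
      by_cases h : l = j
      · subst h
        simp
      · simp only [h, if_false]
        split_ifs <;> ring
    rw [Finset.sum_congr rfl fun l _ => h1 l, Finset.sum_add_distrib]
    congr 1
    · simp
    · split_ifs with h
      · rw [Finset.sum_eq_single (⟨(j : ℕ) - 2, by omega⟩ : Fin (k + 2))]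
        · simp only
          rw [if_pos (by omega)]
        · intro b _ hb
          rw [if_neg]
          intro h'
          apply hb
          ext
          simp only
          omega
        · simp
      · apply Finset.sum_eq_zero
        intro l _
        rw [if_neg]
        omega
  have hdet : (gammaM A B).det = (gammaM A B * T).det := by
    rw [Matrix.det_mul, hT, mul_one]
  have hss : ∀ i (j : Fin k), (gammaM A B * T) i j.succ.succ = (B i - c) * gammaE (A i) (B i) j := by
    intro i j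
    rw [hMT]
    have : 2 ≤ ((j.succ.succ : Fin (k + 2)) : ℕ) := by simp
    rw [dif_pos this]
    have e1 : ((j.succ.succ : Fin (k + 2)) : ℕ) = (j : ℕ) + 2 := by simp
    rw [e1, gammaE_two]
    simp
    ring
  rw [hdet, gamma_det_two]
  · have e1 : (gammaM A B * T) 0 0 = x := by
      rw [hMT]; simp [gammaE, hA]
    have e2 : (gammaM A B * T) 0 1 = 1 := by
      rw [hMT]; simp [gammaE]
    have e3 : (gammaM A B * T) 1 0 = y := by
      rw [hMT]; simp [gammaE, hA]
    have e4 : (gammaM A B * T) 1 1 = 1 := by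
      rw [hMT]; simp [gammaE]
    have e5 : (gammaM A B * T).submatrix (fun i : Fin k => i.succ.succ) (fun j : Fin k => j.succ.succ)
        = Matrix.of fun i j => (K i - c) * gammaM w K i j := by
      ext i j
      rw [Matrix.submatrix_apply, hss]
      simp [hA, hB, gammaM]
    rw [e1, e2, e3, e4, e5, Matrix.det_mul_column]
    ring
  · intro j
    rw [hss]
    simp [hB]
  · intro j
    rw [hss]
    have : B 1 = c := rfl
    simp [this]

/-- The determinant as a polynomial in the first `J`. -/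
theorem gamma_poly [Field F] (m : ℕ) (a0 : F) (a J : Fin (2 * m + 1) → F) :
    ∃ P : Polynomial F, P.natDegree ≤ m ∧
      (∀ t, P.eval t = (gammaM (Fin.cons a0 a : Fin (2 * m + 2) → F) (Fin.cons t J)).det) ∧
      (a0 = 0 → P.coeff m = - (gammaM a J).det) := by
  let mn : Fin (2 * m + 2) → F := fun j =>
    (Matrix.of fun (i l : Fin (2 * m + 1)) => gammaE (a i) (J i) (j.succAbove l)).det
  refine ⟨∑ j : Fin (2 * m + 2), Polynomial.C ((-1) ^ (j : ℕ) * (if (j : ℕ) % 2 = 0 then a0 else 1) *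
    mn j) * Polynomial.X ^ ((j : ℕ) / 2), ?_, ?_, ?_⟩
  · apply Polynomial.natDegree_sum_le_of_forall_le
    intro j _
    refine (Polynomial.natDegree_C_mul_X_pow_le _ _).trans ?_
    have := j.2
    omega
  · intro t
    rw [Matrix.det_succ_row_zero, Polynomial.eval_finsetSum]
    apply Finset.sum_congr rfl
    intro j _
    have e : (gammaM (Fin.cons a0 a : Fin (2 * m + 2) → F) (Fin.cons t J)).submatrix Fin.succ
        j.succAbove = Matrix.of fun (i l : Fin (2 * m + 1)) => gammaE (a i) (J i) (j.succAbove l) := by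
      ext i l
      simp [gammaM]
    have e0 : (gammaM (Fin.cons a0 a : Fin (2 * m + 2) → F) (Fin.cons t J)) 0 j = gammaE a0 t j := rfl
    rw [e, e0]
    simp only [gammaE, mn, Polynomial.eval_mul, Polynomial.eval_C, Polynomial.eval_pow,
      Polynomial.eval_X]
    ring
  · intro h0
    rw [Polynomial.finsetSum_coeff, Fin.sum_univ_castSucc, Finset.sum_eq_zero]
    · have e : (Matrix.of fun (i l : Fin (2 * m + 1)) =>
          gammaE (a i) (J i) ((Fin.last (2 * m + 1)).succAbove l)) = gammaM a J := by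
        ext i l
        simp [gammaM]
      have h1 : (2 * m + 1) % 2 = 1 := by omega
      have h2 : (2 * m + 1) / 2 = m := by omega
      simp only [mn, Fin.val_last, h1, h2, e, Polynomial.coeff_C_mul, Polynomial.coeff_X_pow]
      simp [pow_succ]
    · intro j _
      rw [Polynomial.coeff_C_mul, Polynomial.coeff_X_pow, Fin.val_castSucc]
      by_cases hj : (j : ℕ) % 2 = 0
      · simp [hj, h0]
      · have : ¬ (m = (j : ℕ) / 2) := by
          have := j.2
          omega
        simp [this]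

/-- product of the differences -/
def gammaV [CommRing F] {k : ℕ} (J : Fin k → F) : F := ∏ i, ∏ j ∈ Ioi i, (J j - J i)

theorem gammaV_cons [CommRing F] {k : ℕ} (t : F) (J : Fin k → F) :
    gammaV (Fin.cons t J : Fin (k + 1) → F) = (∏ l, (J l - t)) * gammaV J := by
  unfold gammaV
  rw [Fin.prod_univ_succ]
  simp [Fin.prod_Ioi_succ]

theorem gammaV_succAbove [CommRing F] {k : ℕ} (J : Fin (k + 1) → F) (l : Fin (k + 1)) :
    gammaV J = (-1) ^ (l : ℕ) * (∏ p : Fin k, (J (l.succAbove p) - J l)) *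
      gammaV (fun p => J (l.succAbove p)) := by
  have h1 : gammaV (J ∘ (Fin.cycleRange l).symm) = (-1) ^ (l : ℕ) * gammaV J := by
    unfold gammaV
    rw [← Matrix.det_vandermonde, ← Matrix.det_vandermonde]
    have : Matrix.vandermonde (J ∘ (Fin.cycleRange l).symm) =
        (Matrix.vandermonde J).submatrix (Fin.cycleRange l).symm id := by
      ext i j
      simp [Matrix.vandermonde]
    rw [this, Matrix.det_permute]
    simp [Fin.sign_cycleRange]
  have h2 : J ∘ (Fin.cycleRange l).symm = Fin.cons (J l) (fun p => J (l.succAbove p)) := by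
    rw [← Fin.cons_removeNth_eq_comp_cycleRange_symm]
    rfl
  rw [h2, gammaV_cons] at h1
  have h3 : ((-1 : F) ^ (l : ℕ)) * (-1) ^ (l : ℕ) = 1 := by
    rw [← mul_pow]; simp
  calc gammaV J = ((-1 : F) ^ (l : ℕ)) * ((-1) ^ (l : ℕ) * gammaV J) := by
        rw [← mul_assoc, h3, one_mul]
    _ = _ := by rw [← h1]; ring

theorem gamma_prod_erase [CommRing F] {k : ℕ} (f : Fin (k + 1) → F) (l : Fin (k + 1)) :
    ∏ j ∈ univ.erase l, f j = ∏ p : Fin k, f (l.succAbove p) := by
  have h : (univ.erase l : Finset (Fin (k + 1))) = univ.image l.succAbove := by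
    rw [Fin.image_succAbove_univ]
    ext i
    simp
  rw [h, Finset.prod_image]
  intro x _ y _ hxy
  exact Fin.succAbove_right_injective hxy

/-- the value of the determinant at a node, squared -/
theorem gamma_node [Field F] {k : ℕ} (a0 : F) (a J : Fin (k + 1) → F) (l : Fin (k + 1)) :
    (gammaM (Fin.cons a0 a : Fin (k + 2) → F) (Fin.cons (J l) J)).det ^ 2 =
      (a0 - a l) ^ 2 * (∏ p : Fin k, (J (l.succAbove p) - J l)) ^ 2 *
        (gammaM (fun p => a (l.succAbove p)) (fun p => J (l.succAbove p))).det ^ 2 := by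
  set σ : Equiv.Perm (Fin (k + 2)) :=
    Equiv.Perm.decomposeFin.symm (0, (Fin.cycleRange l).symm) with hσ
  have key : ∀ (c : F) (v : Fin (k + 1) → F), (Fin.cons c v : Fin (k + 2) → F) ∘ σ =
      Fin.cons c (Fin.cons (v l) (fun p => v (l.succAbove p)) : Fin (k + 1) → F) := by
    intro c v
    funext i
    refine Fin.cases ?_ (fun i => ?_) i
    · simp [hσ]
    · have h2 : (Fin.cons (v l) (fun p => v (l.succAbove p)) : Fin (k + 1) → F) =
          v ∘ (Fin.cycleRange l).symm := by
        rw [← Fin.cons_removeNth_eq_comp_cycleRange_symm]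
        rfl
      rw [h2]
      simp [hσ]
  rw [← gammaM_perm _ _ σ, key, key, gammaW]
  ring

/-- even expansion, polynomial form -/
theorem gamma_lagrange [Field F] (m : ℕ) (a0 t : F) (a J : Fin (2 * m + 1) → F)
    (hJ : Function.Injective J) :
    (gammaM (Fin.cons a0 a : Fin (2 * m + 2) → F) (Fin.cons t J)).det ^ 2 =
      ∑ l : Fin (2 * m + 1), (a0 - a l) ^ 2 * (∏ p : Fin (2 * m), (J (l.succAbove p) - J l)) *
        (∏ p : Fin (2 * m), (J (l.succAbove p) - t)) *
        (gammaM (fun p => a (l.succAbove p)) (fun p => J (l.succAbove p))).det ^ 2 := by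
  obtain ⟨P, hP1, hP2, -⟩ := gamma_poly m a0 a J
  have hdeg : (P ^ 2).degree < (#(univ : Finset (Fin (2 * m + 1)))) := by
    refine lt_of_le_of_lt (Polynomial.degree_le_natDegree) ?_
    have : (P ^ 2).natDegree ≤ 2 * m := Polynomial.natDegree_pow_le.trans (by omega)
    simp only [card_univ, Fintype.card_fin]
    exact_mod_cast lt_of_le_of_lt this (by omega)
  have h := Lagrange.eq_interpolate (v := J) (hJ.injOn) hdeg
  rw [Lagrange.interpolate_eq_sum] at h
  have h2 := congrArg (Polynomial.eval t) h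
  rw [Polynomial.eval_pow, hP2, Polynomial.eval_finsetSum] at h2
  rw [h2]
  apply Finset.sum_congr rfl
  intro l _
  rw [Polynomial.eval_mul, Polynomial.eval_C, Polynomial.eval_pow, hP2, gamma_node,
    Polynomial.eval_prod, gamma_prod_erase, gamma_prod_erase]
  simp only [Polynomial.eval_sub, Polynomial.eval_X, Polynomial.eval_C]
  have hs : ∀ f : Fin (2 * m) → F, ∏ p, (- f p) = ∏ p, f p := by
    intro f
    rw [Finset.prod_neg]
    simp
  have e1 : ∏ p : Fin (2 * m), (J l - J (l.succAbove p)) = ∏ p, (J (l.succAbove p) - J l) := by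
    rw [← hs]
    simp
  have e2 : ∏ p : Fin (2 * m), (t - J (l.succAbove p)) = ∏ p, (J (l.succAbove p) - t) := by
    rw [← hs]
    simp
  have hne : ∏ p : Fin (2 * m), (J (l.succAbove p) - J l) ≠ 0 := by
    rw [Finset.prod_ne_zero_iff]
    intro p _
    rw [sub_ne_zero]
    intro h'
    exact Fin.succAbove_ne l p (hJ h')
  rw [e1, e2]
  field_simp

/-- odd expansion, polynomial form -/
theorem gamma_lagrange_odd [Field F] (m : ℕ) (a J : Fin (2 * m + 1) → F)
    (hJ : Function.Injective J) :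
    (gammaM a J).det ^ 2 =
      ∑ l : Fin (2 * m + 1), (a l) ^ 2 * (∏ p : Fin (2 * m), (J (l.succAbove p) - J l)) *
        (gammaM (fun p => a (l.succAbove p)) (fun p => J (l.succAbove p))).det ^ 2 := by
  obtain ⟨P, hP1, hP2, hP3⟩ := gamma_poly m 0 a J
  have hdeg : (P ^ 2).degree < (#(univ : Finset (Fin (2 * m + 1)))) := by
    refine lt_of_le_of_lt (Polynomial.degree_le_natDegree) ?_
    have : (P ^ 2).natDegree ≤ 2 * m := Polynomial.natDegree_pow_le.trans (by omega)
    simp only [card_univ, Fintype.card_fin]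
    exact_mod_cast lt_of_le_of_lt this (by omega)
  have h := Lagrange.eq_interpolate (v := J) (hJ.injOn) hdeg
  rw [Lagrange.interpolate_eq_sum] at h
  have h2 := congrArg (fun Q => Polynomial.coeff Q (2 * m)) h
  rw [Polynomial.coeff_pow_of_natDegree_le hP1, hP3 rfl, Polynomial.finsetSum_coeff] at h2
  rw [← neg_sq, h2]
  apply Finset.sum_congr rfl
  intro l _
  have hc : (∏ j ∈ univ.erase l, (Polynomial.X - Polynomial.C (J j))).coeff (2 * m) = 1 := by
    have := Polynomial.coeff_prod_of_natDegree_le (s := univ.erase l)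
      (fun j => Polynomial.X - Polynomial.C (J j)) 1 (by
        intro p _
        rw [Polynomial.natDegree_X_sub_C])
    rw [Finset.card_erase_of_mem (mem_univ _), card_univ, Fintype.card_fin] at this
    simpa using this
  rw [Polynomial.coeff_C_mul, hc, Polynomial.eval_pow, hP2, gamma_node, gamma_prod_erase]
  have hs : ∀ f : Fin (2 * m) → F, ∏ p, (- f p) = ∏ p, f p := by
    intro f
    rw [Finset.prod_neg]
    simp
  have e1 : ∏ p : Fin (2 * m), (J l - J (l.succAbove p)) = ∏ p, (J (l.succAbove p) - J l) := by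
    rw [← hs]
    simp
  have hne : ∏ p : Fin (2 * m), (J (l.succAbove p) - J l) ≠ 0 := by
    rw [Finset.prod_ne_zero_iff]
    intro p _
    rw [sub_ne_zero]
    intro h'
    exact Fin.succAbove_ne l p (hJ h')
  rw [e1]
  field_simp
  ring

/-- The function `Φ`. -/
noncomputable def gammaPhi [Field F] {k : ℕ} (a J : Fin k → F) : F :=
  (gammaM a J).det ^ 2 / gammaV J

theorem gammaV_ne [Field F] {k : ℕ} (J : Fin k → F) (hJ : Function.Injective J) :
    gammaV J ≠ 0 := by
  unfold gammaV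
  rw [Finset.prod_ne_zero_iff]
  intro i _
  rw [Finset.prod_ne_zero_iff]
  intro j hj
  rw [sub_ne_zero]
  intro h
  have := hJ h
  subst this
  simp at hj

theorem gammaPhi_even [Field F] (m : ℕ) (x K : Fin (2 * m + 2) → F)
    (hK : Function.Injective K) :
    gammaPhi x K = ∑ l : Fin (2 * m + 1), (-1) ^ (l : ℕ) *
      ((x 0 - x l.succ) ^ 2 / (K l.succ - K 0)) *
      gammaPhi (fun p : Fin (2 * m) => x (l.succAbove p).succ)
        (fun p : Fin (2 * m) => K (l.succAbove p).succ) := by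
  have hx : x = Fin.cons (x 0) (fun i => x i.succ) := by
    funext i; refine Fin.cases ?_ (fun i => ?_) i <;> simp
  have hK' : K = Fin.cons (K 0) (fun i => K i.succ) := by
    funext i; refine Fin.cases ?_ (fun i => ?_) i <;> simp
  set a : Fin (2 * m + 1) → F := fun i => x i.succ with ha
  set J : Fin (2 * m + 1) → F := fun i => K i.succ with hJd
  have hJ : Function.Injective J := fun i j h => Fin.succ_injective _ (hK h)
  have h0 : ∀ i, J i - K 0 ≠ 0 := by
    intro i
    rw [sub_ne_zero]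
    intro h
    exact Fin.succ_ne_zero i (hK h)
  have hL := gamma_lagrange m (x 0) (K 0) a J hJ
  rw [← hx, ← hK'] at hL
  unfold gammaPhi
  rw [hL, Finset.sum_div]
  apply Finset.sum_congr rfl
  intro l _
  have hV : gammaV K = (J l - K 0) * (∏ p : Fin (2 * m), (J (l.succAbove p) - K 0)) *
      ((-1) ^ (l : ℕ) * (∏ p : Fin (2 * m), (J (l.succAbove p) - J l)) *
        gammaV (fun p => J (l.succAbove p))) := by
    rw [hK', gammaV_cons, Fin.prod_univ_succAbove _ l, gammaV_succAbove J l]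
    simp [hJd]
  have hne1 : ∏ p : Fin (2 * m), (J (l.succAbove p) - J l) ≠ 0 := by
    rw [Finset.prod_ne_zero_iff]
    intro p _
    rw [sub_ne_zero]
    intro h'
    exact Fin.succAbove_ne l p (hJ h')
  have hne2 : ∏ p : Fin (2 * m), (J (l.succAbove p) - K 0) ≠ 0 := by
    rw [Finset.prod_ne_zero_iff]
    intro p _
    exact h0 _
  have hne3 : gammaV (fun p => J (l.succAbove p)) ≠ 0 :=
    gammaV_ne _ (hJ.comp Fin.succAbove_right_injective)
  have hne4 := h0 l
  have hs : ((-1 : F) ^ (l : ℕ)) * (-1) ^ (l : ℕ) = 1 := by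
    rw [← mul_pow]; simp
  have hs0 : ((-1 : F) ^ (l : ℕ)) ≠ 0 := by simp
  rw [hV]
  change _ = (-1) ^ (l : ℕ) * ((x 0 - a l) ^ 2 / (J l - K 0)) *
    ((gammaM (fun p => a (l.succAbove p)) (fun p => J (l.succAbove p))).det ^ 2 /
      gammaV (fun p => J (l.succAbove p)))
  generalize ∏ p : Fin (2 * m), (J (l.succAbove p) - J l) = A at *
  generalize ∏ p : Fin (2 * m), (J (l.succAbove p) - K 0) = B at *
  generalize gammaV (fun p => J (l.succAbove p)) = C at *
  generalize (gammaM (fun p => a (l.succAbove p)) (fun p => J (l.succAbove p))).det = D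
  generalize ((-1 : F) ^ (l : ℕ)) = e at *
  field_simp
  linear_combination (-(x 0 - a l) ^ 2 * D ^ 2) * hs

theorem gammaPhi_odd [Field F] (m : ℕ) (a J : Fin (2 * m + 1) → F)
    (hJ : Function.Injective J) :
    gammaPhi a J = ∑ l : Fin (2 * m + 1), (-1) ^ (l : ℕ) * (a l) ^ 2 *
      gammaPhi (fun p : Fin (2 * m) => a (l.succAbove p))
        (fun p : Fin (2 * m) => J (l.succAbove p)) := by
  have hL := gamma_lagrange_odd m a J hJ
  unfold gammaPhi
  rw [hL, Finset.sum_div]
  apply Finset.sum_congr rfl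
  intro l _
  have hne1 : ∏ p : Fin (2 * m), (J (l.succAbove p) - J l) ≠ 0 := by
    rw [Finset.prod_ne_zero_iff]
    intro p _
    rw [sub_ne_zero]
    intro h'
    exact Fin.succAbove_ne l p (hJ h')
  have hne3 : gammaV (fun p => J (l.succAbove p)) ≠ 0 :=
    gammaV_ne _ (hJ.comp Fin.succAbove_right_injective)
  have hs : ((-1 : F) ^ (l : ℕ)) * (-1) ^ (l : ℕ) = 1 := by
    rw [← mul_pow]; simp
  have hs0 : ((-1 : F) ^ (l : ℕ)) ≠ 0 := by simp
  rw [gammaV_succAbove J l]
  generalize ∏ p : Fin (2 * m), (J (l.succAbove p) - J l) = A at *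
  generalize gammaV (fun p => J (l.succAbove p)) = C at *
  generalize (gammaM (fun p => a (l.succAbove p)) (fun p => J (l.succAbove p))).det = D
  generalize ((-1 : F) ^ (l : ℕ)) = e at *
  field_simp
  linear_combination (-(a l) ^ 2 * D ^ 2) * hs

/-- swap `2a <-> 2a+1` -/
def gammaSwap (m : ℕ) : Equiv.Perm (Fin (2 * m)) :=
  Function.Involutive.toPerm
    (fun j => ⟨if (j : ℕ) % 2 = 0 then (j : ℕ) + 1 else (j : ℕ) - 1, by
      have := j.2
      split_ifs <;> omega⟩) (by
      intro j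
      have := j.2
      ext
      simp only
      split_ifs <;> omega)

theorem gammaSwap_val (m : ℕ) (j : Fin (2 * m)) :
    ((gammaSwap m j : Fin (2 * m)) : ℕ) = if (j : ℕ) % 2 = 0 then (j : ℕ) + 1 else (j : ℕ) - 1 :=
  rfl

theorem gamma_vand [CommRing F] (m : ℕ) (y : Fin (2 * m) → F) :
    (gammaM y (fun i => -(y i) ^ 2)).det ^ 2 = gammaV y ^ 2 := by
  have h : gammaM y (fun i => -(y i) ^ 2) =
      Matrix.of fun (i j : Fin (2 * m)) => (-1) ^ ((j : ℕ) / 2) *
        ((Matrix.vandermonde y).submatrix id (gammaSwap m)) i j := by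
    ext i j
    simp only [gammaM, gammaE, Matrix.of_apply, Matrix.submatrix_apply, Matrix.vandermonde_apply,
      gammaSwap_val, id]
    rw [neg_pow, ← pow_mul]
    by_cases hj : (j : ℕ) % 2 = 0
    · simp only [hj, if_true]
      have h1 : (j : ℕ) + 1 = 2 * ((j : ℕ) / 2) + 1 := by omega
      rw [h1, pow_succ]
      ring
    · simp only [hj, if_false]
      have h1 : (j : ℕ) - 1 = 2 * ((j : ℕ) / 2) := by omega
      rw [h1]
      ring
  rw [h, Matrix.det_mul_row, Matrix.det_permute', mul_pow, mul_pow, Matrix.det_vandermonde]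
  have e1 : (((Equiv.Perm.sign (gammaSwap m) : ℤˣ) : ℤ) : F) ^ 2 = 1 := by
    rcases Int.units_eq_one_or (Equiv.Perm.sign (gammaSwap m)) with h | h <;> rw [h] <;> simp
  have e2 : (∏ i : Fin (2 * m), (-1 : F) ^ ((i : ℕ) / 2)) ^ 2 = 1 := by
    rw [← Finset.prod_pow]
    apply Finset.prod_eq_one
    intro i _
    rw [← pow_mul, mul_comm, pow_mul]
    simp
  rw [e1, e2, one_mul, one_mul]
  rfl

/-- Schur's product. -/
def gammaP [Field F] {k : ℕ} (x : Fin k → F) : F :=
  ∏ i, ∏ j ∈ Ioi i, ((x j - x i) / (1 - x i * x j))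

theorem gammaP_cons [Field F] {k : ℕ} (t : F) (x : Fin k → F) :
    gammaP (Fin.cons t x : Fin (k + 1) → F) = (∏ l, ((x l - t) / (1 - t * x l))) * gammaP x := by
  unfold gammaP
  rw [Fin.prod_univ_succ]
  simp [Fin.prod_Ioi_succ]

theorem gammaP_phi [Field F] (h2 : (2 : F) ≠ 0) (m : ℕ) (x : Fin (2 * m) → F)
    (h1 : ∀ i, 1 + x i ≠ 0) (hd : ∀ i j, i ≠ j → x i ≠ x j)
    (hm : ∀ i j, i ≠ j → 1 - x i * x j ≠ 0) :
    gammaP x = gammaPhi (fun i => (1 - x i) / (1 + x i)) (fun i => -((1 - x i) / (1 + x i)) ^ 2) := by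
  unfold gammaPhi
  rw [gamma_vand m (fun i => (1 - x i) / (1 + x i))]
  unfold gammaV gammaP
  rw [← Finset.prod_pow, ← Finset.prod_div_distrib]
  apply Finset.prod_congr rfl
  intro i _
  rw [← Finset.prod_pow, ← Finset.prod_div_distrib]
  apply Finset.prod_congr rfl
  intro j hj
  have hij : i ≠ j := by
    rintro rfl
    simp at hj
  have a1 := h1 i
  have a2 := h1 j
  have a3 := hm i j hij
  have a4 : x j - x i ≠ 0 := sub_ne_zero.mpr (hd i j hij).symm
  have e1 : (1 - x j) / (1 + x j) - (1 - x i) / (1 + x i) =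
      -(2 * (x j - x i)) / ((1 + x i) * (1 + x j)) := by
    field_simp
    ring
  have e2 : -((1 - x j) / (1 + x j)) ^ 2 - -((1 - x i) / (1 + x i)) ^ 2 =
      (4 * (x j - x i) * (1 - x i * x j)) / ((1 + x i) * (1 + x j)) ^ 2 := by
    field_simp
    ring
  have h4 : (4 : F) ≠ 0 := by
    have : (4 : F) = 2 * 2 := by norm_num
    rw [this]
    exact mul_ne_zero h2 h2
  rw [e1, e2]
  field_simp
  ring

theorem gammaP_even [Field F] (h2 : (2 : F) ≠ 0) (m : ℕ) (x : Fin (2 * m + 2) → F)
    (h1 : ∀ i, 1 + x i ≠ 0) (hd : ∀ i j, i ≠ j → x i ≠ x j)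
    (hm : ∀ i j, i ≠ j → 1 - x i * x j ≠ 0) :
    gammaP x = ∑ l : Fin (2 * m + 1), (-1) ^ (l : ℕ) *
      ((x l.succ - x 0) / (1 - x 0 * x l.succ)) *
      gammaP (fun p : Fin (2 * m) => x (l.succAbove p).succ) := by
  have h4 : (4 : F) ≠ 0 := by
    have : (4 : F) = 2 * 2 := by norm_num
    rw [this]
    exact mul_ne_zero h2 h2
  have hE : ∀ i j, i ≠ j → -((1 - x j) / (1 + x j)) ^ 2 - -((1 - x i) / (1 + x i)) ^ 2 =
      (4 * (x j - x i) * (1 - x i * x j)) / ((1 + x i) * (1 + x j)) ^ 2 := by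
    intro i j _
    have a1 := h1 i
    have a2 := h1 j
    field_simp
    ring
  have hK : Function.Injective (fun i => -((1 - x i) / (1 + x i)) ^ 2) := by
    intro i j hij
    by_contra hne
    have e := hE i j hne
    simp only at hij
    rw [hij, sub_self] at e
    have a1 := h1 i
    have a2 := h1 j
    have a3 := hm i j hne
    have a4 : x j - x i ≠ 0 := sub_ne_zero.mpr (hd i j hne).symm
    exact absurd e.symm (div_ne_zero (mul_ne_zero (mul_ne_zero h4 a4) a3)
      (pow_ne_zero _ (mul_ne_zero a1 a2)))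
  have e0 := gammaP_phi h2 (m + 1) x h1 hd hm
  rw [e0]
  have e1 := gammaPhi_even m (fun i => (1 - x i) / (1 + x i))
    (fun i => -((1 - x i) / (1 + x i)) ^ 2) hK
  refine e1.trans ?_
  apply Finset.sum_congr rfl
  intro l _
  have hinj : ∀ p q : Fin (2 * m), p ≠ q → (l.succAbove p).succ ≠ (l.succAbove q).succ := by
    intro p q hpq h
    exact hpq (Fin.succAbove_right_injective (Fin.succ_injective _ h))
  rw [gammaP_phi h2 m (fun p : Fin (2 * m) => x (l.succAbove p).succ) (fun _ => h1 _)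
    (fun p q hpq => hd _ _ (hinj p q hpq)) (fun p q hpq => hm _ _ (hinj p q hpq))]
  congr 2
  have hne : (0 : Fin (2 * m + 2)) ≠ l.succ := (Fin.succ_ne_zero l).symm
  rw [hE 0 l.succ hne]
  have a1 := h1 0
  have a2 := h1 l.succ
  have a3 := hm 0 l.succ hne
  have a4 : x l.succ - x 0 ≠ 0 := sub_ne_zero.mpr (hd 0 l.succ hne).symm
  have e2 : (1 - x 0) / (1 + x 0) - (1 - x l.succ) / (1 + x l.succ) =
      (2 * (x l.succ - x 0)) / ((1 + x 0) * (1 + x l.succ)) := by
    field_simp
    ring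
  rw [e2]
  field_simp
  ring

theorem gammaP_odd [Field F] (h2 : (2 : F) ≠ 0) (m : ℕ) (x : Fin (2 * m + 1) → F)
    (h0 : ∀ i, 1 - x i ≠ 0) (h1 : ∀ i, 1 + x i ≠ 0) (hd : ∀ i j, i ≠ j → x i ≠ x j)
    (hm : ∀ i j, i ≠ j → 1 - x i * x j ≠ 0) :
    gammaP x = ∑ l : Fin (2 * m + 1), (-1) ^ (l : ℕ) *
      gammaP (fun p : Fin (2 * m) => x (l.succAbove p)) := by
  have e1 : gammaP (Fin.cons 1 x : Fin (2 * m + 2) → F) = - gammaP x := by
    rw [gammaP_cons]
    have : ∀ l, (x l - 1) / (1 - 1 * x l) = -1 := by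
      intro l
      have := h0 l
      rw [one_mul, div_eq_iff this]
      ring
    rw [Finset.prod_congr rfl fun l _ => this l]
    simp [pow_succ, pow_mul]
  have e2 := gammaP_even h2 m (Fin.cons 1 x : Fin (2 * m + 2) → F) (by
      intro i
      refine Fin.cases ?_ (fun i => ?_) i
      · simp; norm_num; exact h2
      · simpa using h1 i) (by
      intro i j
      refine Fin.cases ?_ (fun i => ?_) i <;> refine Fin.cases ?_ (fun j => ?_) j
      · simp
      · intro _
        simp
        intro h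
        exact h0 j (by rw [← h, sub_self])
      · intro _
        simp
        intro h
        exact h0 i (by rw [h, sub_self])
      · intro h
        simp
        exact hd i j (by rintro rfl; exact h rfl)) (by
      intro i j
      refine Fin.cases ?_ (fun i => ?_) i <;> refine Fin.cases ?_ (fun j => ?_) j
      · simp
      · intro _
        simpa using h0 j
      · intro _
        simpa using h0 i
      · intro h
        simp
        exact hm i j (by rintro rfl; exact h rfl))
  rw [e1] at e2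
  rw [← neg_neg (gammaP x), e2, ← Finset.sum_neg_distrib]
  apply Finset.sum_congr rfl
  intro l _
  simp only [Fin.cons_succ, Fin.cons_zero]
  have : (x l - 1) / (1 - 1 * x l) = -1 := by
    have := h0 l
    rw [one_mul, div_eq_iff this]
    ring
  rw [this]
  ring

/-! ### the signed sum -/

/-- the weight of one reflection -/
def gammaw [CommRing F] (e : Bool) (x : F) : F := (if e then -1 else 1) * sg e x ^ 2

/-- the signed sum -/
noncomputable def gammaS [Field F] {k : ℕ} (s : Fin k → F) : F :=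
  ∑ ε : Fin k → Bool, (∏ d, gammaw (ε d) (s d)) * gammaP (fun d => sg (ε d) (s d))

theorem gamma_sum_split [AddCommMonoid F] {k : ℕ} (l : Fin (k + 1))
    (H : Bool → Bool → (Fin k → Bool) → F) :
    ∑ ε : Fin (k + 2) → Bool, H (ε 0) (ε l.succ) (fun p => ε (l.succAbove p).succ) =
      ∑ e0, ∑ e1, ∑ ε', H e0 e1 ε' := by
  rw [← (Fin.consEquiv (fun _ : Fin (k + 2) => Bool)).sum_comp, Fintype.sum_prod_type]
  apply Finset.sum_congr rfl
  intro e0 _
  rw [← (Fin.insertNthEquiv (fun _ : Fin (k + 1) => Bool) l).sum_comp, Fintype.sum_prod_type]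
  apply Finset.sum_congr rfl
  intro e1 _
  apply Finset.sum_congr rfl
  intro ε' _
  simp [Fin.consEquiv, Fin.insertNthEquiv]

theorem gamma_sum_split1 [AddCommMonoid F] {k : ℕ} (l : Fin (k + 1))
    (H : Bool → (Fin k → Bool) → F) :
    ∑ ε : Fin (k + 1) → Bool, H (ε l) (fun p => ε (l.succAbove p)) =
      ∑ e1, ∑ ε', H e1 ε' := by
  rw [← (Fin.insertNthEquiv (fun _ : Fin (k + 1) => Bool) l).sum_comp, Fintype.sum_prod_type]
  apply Finset.sum_congr rfl
  intro e1 _
  apply Finset.sum_congr rfl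
  intro ε' _
  simp [Fin.insertNthEquiv]

theorem gamma_D4 [CommRing F] (x y : F) :
    D4 (uu x) (uu y) = ((1 - x * y) * (1 - x * (1 - y))) *
      ((1 - (1 - x) * y) * (1 - (1 - x) * (1 - y))) := by
  unfold D4 uu
  ring

theorem gamma_uu_sg [CommRing F] (e : Bool) (x : F) : uu (sg e x) = uu x := by
  unfold uu sg
  cases e <;> simp
  ring

theorem Gen.gamma_h0 [Field F] {k : ℕ} {s : Fin k → F} (hs : Gen s) (e : Bool) (i : Fin k) :
    1 - sg e (s i) ≠ 0 := by
  cases e
  · simpa [sg] using hs.h1 i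
  · simpa [sg] using hs.h0 i

theorem Gen.gamma_h1 [Field F] {k : ℕ} {s : Fin k → F} (hs : Gen s) (e : Bool) (i : Fin k) :
    1 + sg e (s i) ≠ 0 := by
  have h := hs.h4 i
  have h' : 2 + uu (s i) = (1 + s i) * (1 + (1 - s i)) := by unfold uu; ring
  rw [h'] at h
  cases e
  · simpa [sg] using left_ne_zero_of_mul h
  · simpa [sg] using right_ne_zero_of_mul h

theorem Gen.gamma_hd [Field F] {k : ℕ} {s : Fin k → F} (hs : Gen s) (e e' : Bool) (i j : Fin k)
    (hij : i ≠ j) : sg e (s i) ≠ sg e' (s j) := by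
  intro h
  have := congrArg uu h
  rw [gamma_uu_sg, gamma_uu_sg] at this
  exact hs.hu i j hij this

theorem Gen.gamma_hm [Field F] {k : ℕ} {s : Fin k → F} (hs : Gen s) (e e' : Bool) (i j : Fin k)
    (hij : i ≠ j) : 1 - sg e (s i) * sg e' (s j) ≠ 0 := by
  have h := hs.hD i j hij
  rw [gamma_D4] at h
  have h1 := left_ne_zero_of_mul h
  have h2 := right_ne_zero_of_mul h
  cases e <;> cases e'
  · simpa [sg] using left_ne_zero_of_mul h1
  · simpa [sg] using right_ne_zero_of_mul h1
  · simpa [sg] using left_ne_zero_of_mul h2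
  · simpa [sg] using right_ne_zero_of_mul h2

theorem Gen.gamma_comp [Field F] {k n : ℕ} {s : Fin k → F} (hs : Gen s) (g : Fin n → Fin k)
    (hg : Function.Injective g) : Gen (fun i => s (g i)) where
  h0 _ := hs.h0 _
  h1 _ := hs.h1 _
  h2 _ := hs.h2 _
  h3 _ := hs.h3 _
  h4 _ := hs.h4 _
  hu _ _ hij := hs.hu _ _ (fun h => hij (hg h))
  hD _ _ hij := hs.hD _ _ (fun h => hij (hg h))

/-- the two variable sum -/
noncomputable def gammaf2 [Field F] (a b : F) : F :=
  ∑ e0, ∑ e1, gammaw e0 a * gammaw e1 b * ((sg e1 b - sg e0 a) / (1 - sg e0 a * sg e1 b))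

theorem gammaS_even [Field F] (h2 : (2 : F) ≠ 0) (m : ℕ) (s : Fin (2 * m + 2) → F) (hs : Gen s) :
    gammaS s = ∑ l : Fin (2 * m + 1), (-1) ^ (l : ℕ) * gammaf2 (s 0) (s l.succ) *
      gammaS (fun p : Fin (2 * m) => s (l.succAbove p).succ) := by
  unfold gammaS
  have h : ∀ ε : Fin (2 * m + 2) → Bool, (∏ d, gammaw (ε d) (s d)) * gammaP (fun d => sg (ε d) (s d))
      = ∑ l : Fin (2 * m + 1), (-1) ^ (l : ℕ) *
        (gammaw (ε 0) (s 0) * gammaw (ε l.succ) (s l.succ) *
          ((sg (ε l.succ) (s l.succ) - sg (ε 0) (s 0)) /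
            (1 - sg (ε 0) (s 0) * sg (ε l.succ) (s l.succ)))) *
        ((∏ p : Fin (2 * m), gammaw (ε (l.succAbove p).succ) (s (l.succAbove p).succ)) *
          gammaP (fun p : Fin (2 * m) => sg (ε (l.succAbove p).succ) (s (l.succAbove p).succ))) := by
    intro ε
    rw [gammaP_even h2 m (fun d => sg (ε d) (s d)) (fun i => hs.gamma_h1 _ _)
      (fun i j hij => hs.gamma_hd _ _ _ _ hij) (fun i j hij => hs.gamma_hm _ _ _ _ hij),
      Finset.mul_sum]
    apply Finset.sum_congr rfl
    intro l _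
    rw [Fin.prod_univ_succ, Fin.prod_univ_succAbove _ l]
    ring
  rw [Finset.sum_congr rfl fun ε _ => h ε, Finset.sum_comm]
  apply Finset.sum_congr rfl
  intro l _
  rw [gamma_sum_split l (fun e0 e1 ε' => (-1) ^ (l : ℕ) *
        (gammaw e0 (s 0) * gammaw e1 (s l.succ) *
          ((sg e1 (s l.succ) - sg e0 (s 0)) /
            (1 - sg e0 (s 0) * sg e1 (s l.succ)))) *
        ((∏ p : Fin (2 * m), gammaw (ε' p) (s (l.succAbove p).succ)) *
          gammaP (fun p : Fin (2 * m) => sg (ε' p) (s (l.succAbove p).succ))))]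
  simp only [gammaf2, Fintype.sum_bool, ← Finset.mul_sum]
  ring

theorem gammaS_odd [Field F] (h2 : (2 : F) ≠ 0) (m : ℕ) (s : Fin (2 * m + 1) → F) (hs : Gen s) :
    gammaS s = ∑ l : Fin (2 * m + 1), (-1) ^ (l : ℕ) * (-(1 - 2 * s l)) *
      gammaS (fun p : Fin (2 * m) => s (l.succAbove p)) := by
  unfold gammaS
  have h : ∀ ε : Fin (2 * m + 1) → Bool, (∏ d, gammaw (ε d) (s d)) * gammaP (fun d => sg (ε d) (s d))
      = ∑ l : Fin (2 * m + 1), (-1) ^ (l : ℕ) * gammaw (ε l) (s l) *
        ((∏ p : Fin (2 * m), gammaw (ε (l.succAbove p)) (s (l.succAbove p))) *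
          gammaP (fun p : Fin (2 * m) => sg (ε (l.succAbove p)) (s (l.succAbove p)))) := by
    intro ε
    rw [gammaP_odd h2 m (fun d => sg (ε d) (s d)) (fun i => hs.gamma_h0 _ _)
      (fun i => hs.gamma_h1 _ _)
      (fun i j hij => hs.gamma_hd _ _ _ _ hij) (fun i j hij => hs.gamma_hm _ _ _ _ hij),
      Finset.mul_sum]
    apply Finset.sum_congr rfl
    intro l _
    rw [Fin.prod_univ_succAbove _ l]
    ring
  rw [Finset.sum_congr rfl fun ε _ => h ε, Finset.sum_comm]
  apply Finset.sum_congr rfl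
  intro l _
  rw [gamma_sum_split1 l (fun e1 ε' => (-1) ^ (l : ℕ) * gammaw e1 (s l) *
        ((∏ p : Fin (2 * m), gammaw (ε' p) (s (l.succAbove p))) *
          gammaP (fun p : Fin (2 * m) => sg (ε' p) (s (l.succAbove p)))))]
  rw [Fintype.sum_bool, ← Finset.mul_sum, ← Finset.mul_sum]
  simp only [gammaw, sg]
  simp
  ring

theorem gammaf2_eq [Field F] (a b : F) (hD : D4 (uu a) (uu b) ≠ 0) :
    gammaf2 a b = (1 - 2 * a) * (1 - 2 * b) * ((uu a - uu b) / D4 (uu a) (uu b)) := by
  rw [gamma_D4] at hD ⊢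
  have h1 := left_ne_zero_of_mul (left_ne_zero_of_mul hD)
  have h2 := right_ne_zero_of_mul (left_ne_zero_of_mul hD)
  have h3 := left_ne_zero_of_mul (right_ne_zero_of_mul hD)
  have h4 := right_ne_zero_of_mul (right_ne_zero_of_mul hD)
  unfold gammaf2
  simp only [Fintype.sum_bool, gammaw, sg, uu]
  simp
  field_simp
  ring

/-- the invariant `J(u) = (1-u)^3/u^2` -/
def gammaJ [Field F] (u : F) : F := (1 - u) ^ 3 / u ^ 2

theorem gammaJ_sub [Field F] (u v : F) (hu : u ≠ 0) (hv : v ≠ 0) :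
    (u - v) * D4 u v = u ^ 2 * v ^ 2 * (gammaJ v - gammaJ u) := by
  unfold gammaJ D4
  field_simp
  ring

theorem Gen.gamma_u [Field F] {k : ℕ} {s : Fin k → F} (hs : Gen s) (i : Fin k) :
    uu (s i) ≠ 0 := mul_ne_zero (hs.h0 i) (hs.h1 i)

theorem Gen.gamma_J [Field F] {k : ℕ} {s : Fin k → F} (hs : Gen s) :
    Function.Injective (fun i => gammaJ (uu (s i))) := by
  intro i j hij
  by_contra hne
  have h := gammaJ_sub (uu (s i)) (uu (s j)) (hs.gamma_u i) (hs.gamma_u j)
  simp only at hij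
  rw [hij, sub_self, mul_zero] at h
  exact mul_ne_zero (sub_ne_zero.mpr (hs.hu i j hne)) (hs.hD i j hne) h

/-- the right hand side in terms of `Φ` -/
theorem gammaS_phi_even [Field F] (h2 : (2 : F) ≠ 0) (m : ℕ) : ∀ (s : Fin (2 * m) → F), Gen s →
    gammaS s = (∏ i, (1 - 2 * s i)) * (∏ i, (uu (s i) ^ 2)⁻¹) *
      gammaPhi (fun i => uu (s i)) (fun i => gammaJ (uu (s i))) := by
  induction m with
  | zero =>
    intro s _
    unfold gammaS gammaPhi gammaV gammaP
    simp
  | succ m ih =>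
    intro s hs
    have e1 := gammaS_even h2 m s hs
    refine e1.trans ?_
    have e2 := gammaPhi_even m (fun i => uu (s i)) (fun i => gammaJ (uu (s i))) hs.gamma_J
    refine Eq.trans ?_ (congrArg (fun z => (∏ i, (1 - 2 * s i)) * (∏ i, (uu (s i) ^ 2)⁻¹) * z) e2.symm)
    rw [Finset.mul_sum]
    apply Finset.sum_congr rfl
    intro l _
    have hinj : Function.Injective (fun p : Fin (2 * m) => (l.succAbove p).succ) := by
      intro p q hpq
      exact Fin.succAbove_right_injective (Fin.succ_injective _ hpq)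
    rw [ih _ (hs.gamma_comp _ hinj)]
    have hne : (0 : Fin (2 * m + 2)) ≠ l.succ := (Fin.succ_ne_zero l).symm
    have hD := hs.hD 0 l.succ hne
    rw [gammaf2_eq _ _ hD]
    have e3 : ∏ i : Fin (2 * (m + 1)), (1 - 2 * s i) = (1 - 2 * s 0) * ((1 - 2 * s l.succ) *
        ∏ p : Fin (2 * m), (1 - 2 * s (l.succAbove p).succ)) :=
      (Fin.prod_univ_succ (n := 2 * m + 1) _).trans
        (congrArg _ (Fin.prod_univ_succAbove (n := 2 * m) _ l))
    have e4 : ∏ i : Fin (2 * (m + 1)), (uu (s i) ^ 2)⁻¹ = (uu (s 0) ^ 2)⁻¹ * ((uu (s l.succ) ^ 2)⁻¹ *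
        ∏ p : Fin (2 * m), (uu (s (l.succAbove p).succ) ^ 2)⁻¹) :=
      (Fin.prod_univ_succ (n := 2 * m + 1) _).trans
        (congrArg _ (Fin.prod_univ_succAbove (n := 2 * m) _ l))
    rw [e3, e4]
    have hu0 := hs.gamma_u 0
    have hul := hs.gamma_u l.succ
    have hsub : uu (s 0) - uu (s l.succ) ≠ 0 := sub_ne_zero.mpr (hs.hu _ _ hne)
    have hJ := gammaJ_sub (uu (s 0)) (uu (s l.succ)) hu0 hul
    have hJne : gammaJ (uu (s l.succ)) - gammaJ (uu (s 0)) ≠ 0 := by
      intro h
      rw [h, mul_zero] at hJ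
      exact mul_ne_zero hsub hD hJ
    have e5 : (uu (s 0) - uu (s l.succ)) / D4 (uu (s 0)) (uu (s l.succ)) =
        (uu (s 0) ^ 2)⁻¹ * (uu (s l.succ) ^ 2)⁻¹ * ((uu (s 0) - uu (s l.succ)) ^ 2 /
          (gammaJ (uu (s l.succ)) - gammaJ (uu (s 0)))) := by
      rw [div_eq_iff hD]
      field_simp
      linear_combination (-1 : F) * hJ
    rw [e5]
    ring

theorem gammaS_phi_odd [Field F] (h2 : (2 : F) ≠ 0) (m : ℕ) (s : Fin (2 * m + 1) → F) (hs : Gen s) :
    gammaS s = - ((∏ i, (1 - 2 * s i)) * (∏ i, (uu (s i) ^ 2)⁻¹) *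
      gammaPhi (fun i => uu (s i)) (fun i => gammaJ (uu (s i)))) := by
  rw [gammaS_odd h2 m s hs, gammaPhi_odd m _ _ hs.gamma_J, Finset.mul_sum, ← Finset.sum_neg_distrib]
  apply Finset.sum_congr rfl
  intro l _
  rw [gammaS_phi_even h2 m _ (hs.gamma_comp _ Fin.succAbove_right_injective)]
  rw [Fin.prod_univ_succAbove _ l, Fin.prod_univ_succAbove (fun i => (uu (s i) ^ 2)⁻¹) l]
  have hul := hs.gamma_u l
  field_simp

theorem gamma_pairs [CommRing F] {k : ℕ} (c : Fin k → F) :
    (∏ i, ∏ j ∈ Ioi i, (c i * c j)) * ∏ i, c i = (∏ i, c i) ^ k := by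
  induction k with
  | zero => simp
  | succ k ih =>
    have h := ih (fun i => c i.succ)
    rw [Fin.prod_univ_succ, Fin.prod_univ_succ (f := c)]
    simp only [Fin.prod_Ioi_zero, Fin.prod_Ioi_succ]
    have e : ∏ j : Fin k, (c 0 * c j.succ) = c 0 ^ k * ∏ j : Fin k, c j.succ := by
      rw [Finset.prod_mul_distrib]
      simp
    rw [e, mul_pow, pow_succ (∏ i : Fin k, c i.succ), ← h]
    ring

/-- relation between `DD` and the `gammaM` determinant -/
theorem gamma_DD [Field F] {k : ℕ} (u : Fin k → F) (hu : ∀ i, u i ≠ 0) :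
    (∏ i, u i ^ 2) * DD u = (∏ i, u i) ^ k * (gammaM u (fun i => gammaJ (u i))).det := by
  unfold DD
  rw [← Matrix.det_mul_column, ← Finset.prod_pow, ← Matrix.det_mul_column]
  congr 1
  ext i j
  simp only [Matrix.of_apply, gg, gammaM, gammaE, gammaJ]
  have h := hu i
  have hj := j.2
  rw [div_pow, ← pow_mul, ← pow_mul]
  by_cases hj2 : (j : ℕ) % 2 = 0
  · simp only [hj2, if_true]
    have e : k = 2 * ((j : ℕ) / 2) + 1 + (k - 1 - j) := by omega
    have e' : u i ^ k = u i ^ (2 * ((j : ℕ) / 2)) * u i * u i ^ (k - 1 - j) := by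
      rw [← pow_succ, ← pow_add, ← e]
    field_simp
    linear_combination (-(1 - u i) ^ (3 * ((j : ℕ) / 2))) * e'
  · simp only [hj2, if_false]
    have e : k = 2 * ((j : ℕ) / 2) + 2 + (k - 1 - j) := by omega
    have e' : u i ^ k = u i ^ (2 * ((j : ℕ) / 2)) * u i ^ 2 * u i ^ (k - 1 - j) := by
      rw [← pow_add, ← pow_add, ← e]
    field_simp
    linear_combination (-(1 - u i) ^ (3 * ((j : ℕ) / 2))) * e'

theorem gamma_rhs [Field F] {k : ℕ} (s : Fin k → F) (hs : Gen s) :
    DD (fun i => uu (s i)) ^ 2 /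
      (VV (fun i => uu (s i)) * ∏ i, ∏ j ∈ Ioi i, D4 (uu (s i)) (uu (s j))) =
    (∏ i, (uu (s i) ^ 2)⁻¹) * gammaPhi (fun i => uu (s i)) (fun i => gammaJ (uu (s i))) := by
  set u : Fin k → F := fun i => uu (s i) with hu
  have hune : ∀ i, u i ≠ 0 := hs.gamma_u
  have h1 := gamma_DD u hune
  have h2 : VV u * ∏ i, ∏ j ∈ Ioi i, D4 (u i) (u j) =
      (∏ i, ∏ j ∈ Ioi i, (u i ^ 2 * u j ^ 2)) * gammaV (fun i => gammaJ (u i)) := by
    unfold VV gammaV
    simp only [← Finset.prod_mul_distrib]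
    apply Finset.prod_congr rfl
    intro i _
    apply Finset.prod_congr rfl
    intro j _
    rw [gammaJ_sub _ _ (hune i) (hune j)]
  have h3 := gamma_pairs (fun i => u i ^ 2)
  have hP : ∏ i, u i ^ 2 ≠ 0 := Finset.prod_ne_zero_iff.mpr fun i _ => pow_ne_zero _ (hune i)
  have hP1 : ∏ i, u i ≠ 0 := Finset.prod_ne_zero_iff.mpr fun i _ => hune i
  have hV : gammaV (fun i => gammaJ (u i)) ≠ 0 := gammaV_ne _ hs.gamma_J
  have hQ : ∏ i, ∏ j ∈ Ioi i, (u i ^ 2 * u j ^ 2) ≠ 0 :=
    Finset.prod_ne_zero_iff.mpr fun i _ => Finset.prod_ne_zero_iff.mpr fun j _ =>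
      mul_ne_zero (pow_ne_zero _ (hune i)) (pow_ne_zero _ (hune j))
  rw [h2, Finset.prod_inv_distrib]
  unfold gammaPhi
  rw [Finset.prod_pow] at h3 h1 hP ⊢
  generalize ∏ i, ∏ j ∈ Ioi i, (u i ^ 2 * u j ^ 2) = Q at *
  generalize gammaV (fun i => gammaJ (u i)) = V at *
  generalize (gammaM u (fun i => gammaJ (u i))).det = G at *
  generalize DD u = D at *
  generalize ∏ i, u i = p at *
  rw [div_eq_iff (mul_ne_zero hQ hV)]
  have hpk : p ^ k ≠ 0 := pow_ne_zero _ hP1
  have h4 : (p ^ 2 * D) ^ 2 = (p ^ k * G) ^ 2 := by rw [h1]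
  field_simp
  have h5 : p ^ 4 * D ^ 2 = p ^ 2 * Q * G ^ 2 := by
    have : (p ^ 2) ^ k = (p ^ k) ^ 2 := by rw [← pow_mul, ← pow_mul, mul_comm]
    rw [this] at h3
    linear_combination h4 - G ^ 2 * h3
  have hp2 : p ^ 2 ≠ 0 := pow_ne_zero _ hP1
  apply mul_left_cancel₀ hp2
  linear_combination h5

theorem gamma [Field F] [CharZero F] {k : ℕ} (s : Fin k → F) (hs : Gen s) :
    ∑ ε : Fin k → Bool, ((sgε ε : ℤ) : F) * KM (fun d => sg (ε d) (s d)) =
    (-1) ^ k * (∏ i, (1 - 2 * s i)) * DD (fun i => uu (s i)) ^ 2 /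
      (VV (fun i => uu (s i)) * ∏ i, ∏ j ∈ Ioi i, D4 (uu (s i)) (uu (s j))) := by
  have h2 : (2 : F) ≠ 0 := two_ne_zero
  have hL : ∑ ε : Fin k → Bool, ((sgε ε : ℤ) : F) * KM (fun d => sg (ε d) (s d)) = gammaS s := by
    unfold gammaS
    apply Finset.sum_congr rfl
    intro ε _
    unfold KM gammaP gammaw sgε
    simp only [Finset.prod_div_distrib, Finset.prod_mul_distrib]
    have : (((∏ i, if ε i then (-1) else 1 : ℤ) : ℤ) : F) = ∏ i, (if ε i then (-1) else 1 : F) := by
      rw [Int.cast_prod]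
      apply Finset.prod_congr rfl
      intro i _
      split_ifs <;> simp
    rw [this]
    ring
  rw [hL, mul_div_assoc, gamma_rhs s hs]
  obtain ⟨m, hm⟩ := Nat.even_or_odd' k
  rcases hm with rfl | rfl
  · rw [gammaS_phi_even h2 m s hs]
    simp [mul_assoc]
  · rw [gammaS_phi_odd h2 m s hs]
    simp [pow_succ, mul_assoc]

end Pool.Agent.Lib.MP_b6786a_co.Zeil
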