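import Pool.Agent.Lib.MP_b6786a_co.Zeil.Basic2
import Pool.Agent.Lib.MP_b6786a_co.Zeil.Alpha
import Pool.Agent.Lib.MP_b6786a_co.Zeil.Gamma
import Pool.Agent.Lib.MP_b6786a_co.Zeil.Wheel

/-!
# Zeilberger's theorem for trapezoids: final assembly, parts (1)-(4)

The flip theorems, the independence of the residues of the permutation and genericity of the
variables are hypotheses here.
-/

set_option autoImplicit false

namespace Pool.Agent.Lib.MP_b6786a_co.Zeil

open Finset Function

section field

variable {F : Type*} [Field F] {k : ℕ}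

theorem fina_uu_sg (b : Bool) (x : F) : uu (sg b x) = uu x := by
  cases b
  · simp [sg]
  · simp only [sg, uu, if_true]
    ring

theorem fina_one_sub_sg (b : Bool) (x : F) :
    1 - 2 * sg b x = (if b then (-1) else 1) * (1 - 2 * x) := by
  cases b
  · simp [sg]
  · simp only [sg, if_true]
    ring

theorem fina_sgε_cast (ε : Fin k → Bool) :
    ((sgε ε : ℤ) : F) = ∏ i, (if ε i then (-1) else 1 : F) := by
  unfold sgε
  rw [Int.cast_prod]
  apply Finset.prod_congr rfl
  intro i _
  split <;> simp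

/-- the Gog prefactor -/
noncomputable def finA (N : ℕ) (s : Fin k → F) : F :=
  (∏ d, (1 - 2 * s d)) * DD (fun d => uu (s d)) * ∏ d, (uu (s d))⁻¹ ^ N

/-- the Magog prefactor -/
noncomputable def finB (N : ℕ) (s : Fin k → F) : F :=
  (∏ d, (1 - 2 * s d)) * VV (fun d => uu (s d)) * ∏ d, (uu (s d))⁻¹ ^ N

theorem PhiG_signed (N : ℕ) (s : Fin k → F) (π : Equiv.Perm (Fin k)) (ε : Fin k → Bool) :
    PhiG N (fun d => sg (ε d) (s (π d))) =
      finA N s * (((Equiv.Perm.sign π : ℤ) : F) * ((sgε ε : ℤ) : F) *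
        KG (fun d => sg (ε d) (s (π d)))) := by
  unfold PhiG finA
  have h1 : (∏ d, (1 - 2 * sg (ε d) (s (π d)))) = ((sgε ε : ℤ) : F) * ∏ d, (1 - 2 * s d) := by
    rw [fina_sgε_cast, ← Equiv.prod_comp π (fun d => 1 - 2 * s d), ← Finset.prod_mul_distrib]
    exact Finset.prod_congr rfl fun d _ => fina_one_sub_sg _ _
  have h2 : DD (fun d => uu (sg (ε d) (s (π d)))) =
      ((Equiv.Perm.sign π : ℤ) : F) * DD (fun d => uu (s d)) := by
    rw [← DD_perm]
    congr 1
    funext d
    exact fina_uu_sg _ _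
  have h3 : (∏ d, (uu (sg (ε d) (s (π d))))⁻¹ ^ N) = ∏ d, (uu (s d))⁻¹ ^ N := by
    rw [← Equiv.prod_comp π (fun d => (uu (s d))⁻¹ ^ N)]
    exact Finset.prod_congr rfl fun d _ => by rw [fina_uu_sg]
  rw [h1, h2, h3]
  ring

theorem PhiM_signed (N : ℕ) (s : Fin k → F) (ε : Fin k → Bool) :
    PhiM N (fun d => sg (ε d) (s d)) =
      finB N s * (((sgε ε : ℤ) : F) * KM (fun d => sg (ε d) (s d))) := by
  unfold PhiM finB
  have h1 : (∏ d, (1 - 2 * sg (ε d) (s d))) = ((sgε ε : ℤ) : F) * ∏ d, (1 - 2 * s d) := by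
    rw [fina_sgε_cast, ← Finset.prod_mul_distrib]
    exact Finset.prod_congr rfl fun d _ => fina_one_sub_sg _ _
  have h2 : VV (fun d => uu (sg (ε d) (s d))) = VV (fun d => uu (s d)) := by
    congr 1
    funext d
    exact fina_uu_sg _ _
  have h3 : (∏ d, (uu (sg (ε d) (s d)))⁻¹ ^ N) = ∏ d, (uu (s d))⁻¹ ^ N :=
    Finset.prod_congr rfl fun d _ => by rw [fina_uu_sg]
  rw [h1, h2, h3]
  ring

theorem fina_VV_ne {s : Fin k → F} (hs : Gen s) : VV (fun d => uu (s d)) ≠ 0 := by
  unfold VV
  refine Finset.prod_ne_zero_iff.2 fun i _ => Finset.prod_ne_zero_iff.2 fun j hj => ?_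
  exact sub_ne_zero.2 (hs.hu i j (Finset.mem_Ioi.1 hj).ne)

theorem fina_pow (k : ℕ) : (-1 : F) ^ (k * (k + 1) / 2) = (-1) ^ (k * (k - 1) / 2) * (-1) ^ k := by
  rw [← pow_add]
  congr 1
  rcases k with _ | k
  · rfl
  · simp only [Nat.add_sub_cancel]
    have h1 : (k + 1) * (k + 1 + 1) = (k + 1) * k + (k + 1) * 2 := by ring
    rw [h1, Nat.add_mul_div_right _ _ (by norm_num)]

/-- parts (2)-(4): the symmetrised integrands agree up to sign -/
theorem sum_PhiG_eq [CharZero F] (N : ℕ) (s : Fin k → F) (hs : Gen s) :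
    ∑ π : Equiv.Perm (Fin k), ∑ ε : Fin k → Bool, PhiG N (fun d => sg (ε d) (s (π d))) =
      (-1) ^ (k * (k - 1) / 2) * ∑ ε : Fin k → Bool, PhiM N (fun d => sg (ε d) (s d)) := by
  simp only [PhiG_signed, PhiM_signed, ← Finset.mul_sum]
  rw [alpha s hs, gamma s hs, fina_pow]
  have hV := fina_VV_ne hs
  unfold finA finB
  have hD : (∏ i, ∏ j ∈ Ioi i, D4 (uu (s i)) (uu (s j))) ≠ 0 :=
    Finset.prod_ne_zero_iff.2 fun i _ => Finset.prod_ne_zero_iff.2 fun j hj =>
      hs.hD i j (Finset.mem_Ioi.1 hj).ne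
  field_simp

end field

variable {k : ℕ}

theorem fina_yy_update (π : Equiv.Perm (Fin k)) (ε : Fin k → Bool) (i : Fin k) :
    update (yy π ε) i (1 - yy π ε i) = yy π (update ε i (!ε i)) := by
  funext d
  by_cases hd : d = i
  · subst hd
    rw [update_self]
    unfold yy
    rw [update_self]
    cases ε d <;> simp [sg]
  · rw [update_of_ne hd]
    unfold yy
    rw [update_of_ne hd]

/-- part (1): invariance under all reflections from invariance under single ones -/
theorem fina_flip_all (f : (Fin k → Bool) → ℚ) (h : ∀ ε i, f (update ε i (!ε i)) = f ε)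
    (ε : Fin k → Bool) : f ε = f fun _ => false := by
  have key : ∀ S : Finset (Fin k), f (fun d => if d ∈ S then false else ε d) = f ε := by
    intro S
    induction S using Finset.induction_on with
    | empty => simp
    | insert a S ha ih =>
      rw [← ih]
      by_cases hε : ε a = false
      · congr 1
        funext d
        by_cases hd : d = a
        · subst hd; simp [ha, hε]
        · simp [hd]
      · rw [← h (fun d => if d ∈ insert a S then false else ε d) a]
        congr 1
        funext d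
        by_cases hd : d = a
        · subst hd
          rw [update_self]
          simp only [Finset.mem_insert, true_or, if_true, Bool.not_false, ha, if_false]
          exact (Bool.eq_true_of_not_eq_false hε).symm
        · rw [update_of_ne hd]
          simp [hd]
  rw [← key univ]
  simp

theorem fina_yy_false (π : Equiv.Perm (Fin k)) :
    yy π (fun _ => false) = fun d => ss k (π d) := by
  funext d
  simp [yy, sg]

theorem charZero_LL (k : ℕ) : CharZero (LL k) :=
  charZero_of_injective_ringHom (f := (HahnSeries.C : ℚ →+* LL k)) HahnSeries.C_injective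

/-- the residue identity, from the flip theorems and the permutation invariance -/
theorem final_identity_of (N : ℕ)
    (hG : ∀ (π : Equiv.Perm (Fin k)) (ε : Fin k → Bool) (i : Fin k),
      res (PhiG N (update (yy π ε) i (1 - yy π ε i))) = res (PhiG N (yy π ε)))
    (hM : ∀ (ε : Fin k → Bool) (i : Fin k),
      res (PhiM N (update (yy 1 ε) i (1 - yy 1 ε i))) = res (PhiM N (yy 1 ε)))
    (hperm : ∀ π : Equiv.Perm (Fin k), res (PhiG N (fun d => ss k (π d))) = res (PhiG N (ss k)))
    (hgen : Gen (ss k)) :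
    (k.factorial : ℚ) * res (PhiG N (ss k)) =
      (-1) ^ (k * (k - 1) / 2) * res (PhiM N (ss k)) := by
  haveI := charZero_LL k
  have h1 : ∀ (π : Equiv.Perm (Fin k)) (ε : Fin k → Bool), res (PhiG N (yy π ε)) = res (PhiG N (ss k)) := by
    intro π ε
    rw [fina_flip_all (fun ε => res (PhiG N (yy π ε)))
      (fun ε i => by rw [← fina_yy_update, hG]) ε]
    rw [← hperm π]
    simp only [fina_yy_false]
  have h2 : ∀ ε : Fin k → Bool, res (PhiM N (yy 1 ε)) = res (PhiM N (ss k)) := by
    intro ε
    rw [fina_flip_all (fun ε => res (PhiM N (yy 1 ε)))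
      (fun ε i => by rw [← fina_yy_update, hM]) ε]
    simp only [fina_yy_false]
    rfl
  have h3 := congrArg res (sum_PhiG_eq N (ss k) hgen)
  rw [res_sum] at h3
  simp only [res_sum] at h3
  have hs : res (((-1 : LL k) ^ (k * (k - 1) / 2)) *
      ∑ ε : Fin k → Bool, PhiM N (fun d => sg (ε d) (ss k d))) =
      (-1) ^ (k * (k - 1) / 2) * res (∑ ε : Fin k → Bool, PhiM N (fun d => sg (ε d) (ss k d))) := by
    rcases neg_one_pow_eq_or (LL k) (k * (k - 1) / 2) with h | h
    · rcases neg_one_pow_eq_or ℚ (k * (k - 1) / 2) with h' | h'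
      · rw [h, h', one_mul, one_mul]
      · exfalso
        rcases Nat.even_or_odd (k * (k - 1) / 2) with he | ho
        · rw [he.neg_one_pow] at h'; norm_num at h'
        · rw [ho.neg_one_pow] at h
          have h5 : (2 : LL k) ≠ 0 := two_ne_zero
          apply h5
          linear_combination -h
    · rcases neg_one_pow_eq_or ℚ (k * (k - 1) / 2) with h' | h'
      · exfalso
        rcases Nat.even_or_odd (k * (k - 1) / 2) with he | ho
        · rw [he.neg_one_pow] at h
          have h5 : (2 : LL k) ≠ 0 := two_ne_zero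
          apply h5
          linear_combination h
        · rw [ho.neg_one_pow] at h'; norm_num at h'
      · rw [h, h', neg_one_mul, neg_one_mul, res_neg]
  rw [hs, res_sum] at h3
  have h4 : ∀ π : Equiv.Perm (Fin k), ∀ ε : Fin k → Bool,
      res (PhiG N (fun d => sg (ε d) (ss k (π d)))) = res (PhiG N (ss k)) := fun π ε => h1 π ε
  have h5 : ∀ ε : Fin k → Bool,
      res (PhiM N (fun d => sg (ε d) (ss k d))) = res (PhiM N (ss k)) := fun ε => h2 ε
  simp only [h4, h5, Finset.sum_const, nsmul_eq_mul, Finset.card_univ, Fintype.card_perm,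
    Fintype.card_fin] at h3
  have h6 : ((Fintype.card (Fin k → Bool) : ℕ) : ℚ) ≠ 0 := by
    exact_mod_cast Fintype.card_ne_zero
  have h7 : ((Fintype.card (Fin k → Bool) : ℕ) : ℚ) * ((k.factorial : ℚ) * res (PhiG N (ss k))) =
      ((Fintype.card (Fin k → Bool) : ℕ) : ℚ) *
        ((-1) ^ (k * (k - 1) / 2) * res (PhiM N (ss k))) := by
    linear_combination h3
  exact mul_left_cancel₀ h6 h7

end Pool.Agent.Lib.MP_b6786a_co.Zeil
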