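import Mathlib
import Pool.Agent.Lib.MP_b6786a_co.Zeil.Basic

/-!
# GSBOUND, part A: coefficient extraction in `u = v (1 - v)` and partial fractions
-/

set_option autoImplicit false

namespace Pool.Agent.Lib.MP_b6786a_co.Zeil

open Finset Function

section functional

variable {K : Type*} [Field K]

open PowerSeries

/-- `(1 - 2X) (1 - X)^{-N}` -/
noncomputable def gsbW (K : Type*) [Field K] (N : ℕ) : PowerSeries K :=
  (1 - 2 * PowerSeries.X) * (invOneSubPow K N).val

theorem gsb_coeff_W (p : ℕ) :
    PowerSeries.coeff p (gsbW K (p + 1)) = if p = 0 then 1 else 0 := by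
  rw [gsbW, invOneSubPow_val_succ_eq_mk_add_choose, sub_mul, one_mul, mul_assoc, map_sub]
  have h2 : ∀ φ : PowerSeries K, PowerSeries.coeff p (2 * φ) = 2 * PowerSeries.coeff p φ := by
    intro φ
    rw [two_mul, two_mul, map_add]
  rw [h2]
  rcases p with _ | q
  · simp
  · rw [PowerSeries.coeff_succ_X_mul, PowerSeries.coeff_mk, PowerSeries.coeff_mk,
      if_neg (Nat.succ_ne_zero q)]
    have h1 : (q + 1 + (q + 1)).choose (q + 1) = 2 * (q + 1 + q).choose (q + 1) := by
      have e1 : q + 1 + (q + 1) = (2 * q + 1) + 1 := by ring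
      have e2 : q + 1 + q = 2 * q + 1 := by ring
      rw [e1, e2, Nat.choose_succ_succ, Nat.choose_symm_half]
      ring
    rw [h1]
    push_cast
    ring

/-- the power series `X (1 - X)` -/
noncomputable def gsbU (K : Type*) [Field K] : PowerSeries K := PowerSeries.X * (1 - PowerSeries.X)

theorem gsb_pow_lt {N n : ℕ} (hn : n < N) :
    PowerSeries.coeff (N - 1) (gsbW K N * gsbU K ^ n) = if n = N - 1 then 1 else 0 := by
  obtain ⟨e, rfl⟩ : ∃ e, N = e + 1 + n := ⟨N - n - 1, by omega⟩
  have h1 : gsbW K (e + 1 + n) * gsbU K ^ n = PowerSeries.X ^ n * gsbW K (e + 1) := by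
    rw [gsbW, gsbU, gsbW, mul_pow,
      ← one_sub_pow_mul_invOneSubPow_val_add_eq_invOneSubPow_val K (e + 1) n]
    ring
  rw [h1]
  have h2 : e + 1 + n - 1 = e + n := by omega
  rw [h2, PowerSeries.coeff_X_pow_mul, gsb_coeff_W]
  by_cases he : e = 0
  · rw [if_pos he, if_pos (by omega)]
  · rw [if_neg he, if_neg (by omega)]

theorem gsb_pow_ge {N n : ℕ} (hN : 0 < N) (hn : N ≤ n) (φ : PowerSeries K) :
    PowerSeries.coeff (N - 1) (gsbW K N * (gsbU K ^ n * φ)) = 0 := by
  have h1 : gsbW K N * (gsbU K ^ n * φ) =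
      PowerSeries.X ^ n * (gsbW K N * ((1 - PowerSeries.X) ^ n * φ)) := by
    rw [gsbU, mul_pow]; ring
  rw [h1, PowerSeries.coeff_X_pow_mul', if_neg (by omega)]

theorem gsb_poly {N : ℕ} (hN : 0 < N) (p : Polynomial K) :
    PowerSeries.coeff (N - 1) (gsbW K N * Polynomial.aeval (gsbU K) p) = p.coeff (N - 1) := by
  induction p using Polynomial.induction_on' with
  | add p q hp hq => rw [map_add, mul_add, map_add, hp, hq, Polynomial.coeff_add]
  | monomial n a =>
    rw [Polynomial.aeval_monomial, Polynomial.coeff_monomial]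
    have h1 : gsbW K N * ((algebraMap K (PowerSeries K)) a * gsbU K ^ n) =
        PowerSeries.C a * (gsbW K N * gsbU K ^ n) := by
      rw [show (algebraMap K (PowerSeries K)) a = PowerSeries.C a from rfl]
      ring
    rw [h1, PowerSeries.coeff_C_mul]
    rcases lt_or_ge n N with h | h
    · rw [gsb_pow_lt h]
      split_ifs <;> simp
    · have := gsb_pow_ge (K := K) hN h 1
      rw [mul_one] at this
      rw [this, if_neg (by omega), mul_zero]

theorem gsb_inv {N : ℕ} (hN : 0 < N) {a b : K} (ha : a ≠ 0) {φ : PowerSeries K}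
    (hφ : φ * (PowerSeries.C a + PowerSeries.C b * gsbU K) = 1) :
    PowerSeries.coeff (N - 1) (gsbW K N * φ) = a⁻¹ * (-b / a) ^ (N - 1) := by
  set r : K := -b / a with hr
  set S : Polynomial K := ∑ n ∈ range N, Polynomial.monomial n (r ^ n * a⁻¹) with hS
  have hb : b = -(r * a) := by rw [hr]; field_simp
  have h1 : (PowerSeries.C a + PowerSeries.C b * gsbU K) * Polynomial.aeval (gsbU K) S =
      1 - (PowerSeries.C r * gsbU K) ^ N := by
    have h2 : Polynomial.aeval (gsbU K) S =
        PowerSeries.C a⁻¹ * ∑ n ∈ range N, (PowerSeries.C r * gsbU K) ^ n := by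
      rw [hS, map_sum, mul_sum]
      refine sum_congr rfl fun n _ => ?_
      rw [Polynomial.aeval_monomial, show (algebraMap K (PowerSeries K)) (r ^ n * a⁻¹) =
        PowerSeries.C (r ^ n * a⁻¹) from rfl, map_mul, map_pow, mul_pow]
      ring
    have h3 : PowerSeries.C a + PowerSeries.C b * gsbU K =
        PowerSeries.C a * (1 - PowerSeries.C r * gsbU K) := by
      rw [hb, map_neg, map_mul]; ring
    rw [h2, h3, ← mul_neg_geom_sum (PowerSeries.C r * gsbU K) N]
    have h4 : PowerSeries.C a * PowerSeries.C a⁻¹ = (1 : PowerSeries K) := by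
      rw [← map_mul, mul_inv_cancel₀ ha, map_one]
    linear_combination ((1 - PowerSeries.C r * gsbU K) *
      ∑ n ∈ range N, (PowerSeries.C r * gsbU K) ^ n) * h4
  have h5 : φ = Polynomial.aeval (gsbU K) S +
      gsbU K ^ N * (PowerSeries.C (r ^ N) * φ) := by
    have h6 : φ * ((PowerSeries.C a + PowerSeries.C b * gsbU K) * Polynomial.aeval (gsbU K) S) =
        φ * (1 - (PowerSeries.C r * gsbU K) ^ N) := by rw [h1]
    rw [← mul_assoc, hφ, one_mul, mul_pow, ← map_pow] at h6
    linear_combination -h6
  have h7 : gsbW K N * φ = gsbW K N * Polynomial.aeval (gsbU K) S +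
      gsbW K N * (gsbU K ^ N * (PowerSeries.C (r ^ N) * φ)) := by
    conv_lhs => rw [h5]
    ring
  rw [h7, map_add, gsb_poly hN, gsb_pow_ge hN le_rfl, add_zero, hS, Polynomial.finset_sum_coeff,
    sum_eq_single (N - 1)]
  · rw [Polynomial.coeff_monomial, if_pos rfl]; ring
  · intro n _ hn
    rw [Polynomial.coeff_monomial, if_neg hn]
  · intro h
    exact absurd (mem_range.2 (by omega)) h

end functional

section partial_fractions

variable {K : Type*} [Field K]

/-- partial fractions with distinct linear denominators -/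
theorem gsb_pf {m : ℕ} (a b : Fin m → K) (hb : ∀ i, b i ≠ 0)
    (hr : Injective fun i => -a i / b i) (D : Polynomial K) :
    ∃ P : Polynomial K, P.natDegree + m ≤ max D.natDegree m ∧
      D = P * ∏ i, (Polynomial.C (a i) + Polynomial.C (b i) * Polynomial.X) +
        ∑ i, Polynomial.C (D.eval (-a i / b i) / ∏ j ∈ univ.erase i, (a j + b j * (-a i / b i))) *
          ∏ j ∈ univ.erase i, (Polynomial.C (a j) + Polynomial.C (b j) * Polynomial.X) := by
  classical
  set q : Fin m → Polynomial K := fun i =>
    Polynomial.C (a i) + Polynomial.C (b i) * Polynomial.X with hq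
  set c : Fin m → K := fun i =>
    D.eval (-a i / b i) / ∏ j ∈ univ.erase i, (a j + b j * (-a i / b i)) with hc
  have hqe : ∀ i x, (q i).eval x = a i + b i * x := by
    intro i x; simp [hq]
  have hne : ∀ i, ∏ j ∈ univ.erase i, (a j + b j * (-a i / b i)) ≠ 0 := by
    intro i
    rw [prod_ne_zero_iff]
    intro j hj h0
    have hji := ne_of_mem_erase hj
    apply hji
    apply hr
    show -a j / b j = -a i / b i
    have := hb j
    have := hb i
    field_simp
    field_simp at h0
    linear_combination -h0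
  set F : Polynomial K := D - ∑ i, Polynomial.C (c i) * ∏ j ∈ univ.erase i, q j with hF
  have hroot : ∀ i, F.eval (-a i / b i) = 0 := by
    intro i
    rw [hF, Polynomial.eval_sub, Polynomial.eval_finset_sum, sum_eq_single i]
    · rw [Polynomial.eval_mul, Polynomial.eval_C, Polynomial.eval_prod]
      simp only [hqe, hc]
      rw [div_mul_cancel₀ _ (hne i), sub_self]
    · intro j _ hji
      rw [Polynomial.eval_mul, Polynomial.eval_prod, prod_eq_zero (i := i), mul_zero]
      · exact mem_erase.2 ⟨hji.symm, mem_univ _⟩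
      · rw [hqe]
        have := hb i
        field_simp
        ring
    · intro h; exact absurd (mem_univ i) h
  have hdvd : ∏ i, (Polynomial.X - Polynomial.C (-a i / b i)) ∣ F := by
    apply Fintype.prod_dvd_of_coprime
    · exact Polynomial.pairwise_coprime_X_sub_C hr
    · intro i
      rw [Polynomial.dvd_iff_isRoot]
      exact hroot i
  obtain ⟨G, hG⟩ := hdvd
  have hqX : ∀ i, q i = Polynomial.C (b i) * (Polynomial.X - Polynomial.C (-a i / b i)) := by
    intro i
    rw [mul_sub, ← Polynomial.C_mul, mul_div_cancel₀ _ (hb i), hq]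
    simp only [map_neg]
    ring
  have hprod : ∏ i, q i = Polynomial.C (∏ i, b i) *
      ∏ i, (Polynomial.X - Polynomial.C (-a i / b i)) := by
    rw [map_prod, ← prod_mul_distrib]
    exact prod_congr rfl fun i _ => hqX i
  have hbp : ∏ i, b i ≠ 0 := prod_ne_zero_iff.2 fun i _ => hb i
  set P : Polynomial K := Polynomial.C (∏ i, b i)⁻¹ * G with hP
  have hFP : F = P * ∏ i, q i := by
    rw [hG, hP, hprod]
    have : Polynomial.C (∏ i, b i)⁻¹ * Polynomial.C (∏ i, b i) = (1 : Polynomial K) := by
      rw [← Polynomial.C_mul, inv_mul_cancel₀ hbp, Polynomial.C_1]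
    linear_combination (-(G * ∏ i, (Polynomial.X - Polynomial.C (-a i / b i)))) * this
  refine ⟨P, ?_, ?_⟩
  · -- degrees
    have hqdeg : ∀ i, (q i).natDegree ≤ 1 := by
      intro i
      rw [hq]
      refine (Polynomial.natDegree_add_le _ _).trans ?_
      rw [Polynomial.natDegree_C]
      refine max_le (Nat.zero_le _) ((Polynomial.natDegree_C_mul_le _ _).trans ?_)
      exact Polynomial.natDegree_X_le
    have hFdeg : F.natDegree ≤ max D.natDegree m := by
      rw [hF]
      refine (Polynomial.natDegree_sub_le _ _).trans (max_le_max le_rfl ?_)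
      refine Polynomial.natDegree_sum_le_of_forall_le _ _ fun i _ => ?_
      refine (Polynomial.natDegree_C_mul_le _ _).trans ?_
      refine (Polynomial.natDegree_prod_le _ _).trans ?_
      refine (sum_le_card_nsmul _ _ 1 fun j _ => hqdeg j).trans ?_
      rw [card_erase_of_mem (mem_univ i), card_univ, Fintype.card_fin, smul_eq_mul, mul_one]
      exact Nat.sub_le _ _
    by_cases hP0 : P = 0
    · rw [hP0, Polynomial.natDegree_zero, zero_add]
      exact le_max_right _ _
    · have hqne : ∀ i, q i ≠ 0 := by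
        intro i h0
        have := congrArg (fun p => p.coeff 1) h0
        simp [hq, Polynomial.coeff_C] at this
        exact hb i this
      have hqdeg' : ∀ i, (q i).natDegree = 1 := by
        intro i
        rw [hqX i, Polynomial.natDegree_C_mul (hb i), Polynomial.natDegree_X_sub_C]
      have h1 : F.natDegree = P.natDegree + m := by
        rw [hFP, Polynomial.natDegree_mul hP0 (prod_ne_zero_iff.2 fun i _ => hqne i),
          Polynomial.natDegree_prod _ _ fun i _ => hqne i]
        simp [hqdeg']
      rw [← h1]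
      exact hFdeg
  · rw [← hFP, hF]
    ring

/-- coefficient extraction for a quotient -/
theorem gsb_quot {m N : ℕ} (hN : 0 < N) (a b : Fin m → K) (ha : ∀ i, a i ≠ 0) (hb : ∀ i, b i ≠ 0)
    (hr : Injective fun i => -a i / b i) (D : Polynomial K) (hD : max D.natDegree m < N - 1 + m)
    (φ : PowerSeries K)
    (hφ : φ * ∏ i, (PowerSeries.C (a i) + PowerSeries.C (b i) * gsbU K) =
      Polynomial.aeval (gsbU K) D) :
    PowerSeries.coeff (N - 1) (gsbW K N * φ) =
      ∑ i, (D.eval (-a i / b i) / ∏ j ∈ univ.erase i, (a j + b j * (-a i / b i))) *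
        ((a i)⁻¹ * (-b i / a i) ^ (N - 1)) := by
  classical
  obtain ⟨P, hPdeg, hP⟩ := gsb_pf a b hb hr D
  set c : Fin m → K := fun i =>
    D.eval (-a i / b i) / ∏ j ∈ univ.erase i, (a j + b j * (-a i / b i)) with hc
  set Q : Fin m → PowerSeries K := fun i =>
    PowerSeries.C (a i) + PowerSeries.C (b i) * gsbU K with hQ
  have hQc : ∀ i, PowerSeries.constantCoeff (Q i) = a i := by
    intro i
    simp [hQ, gsbU]
  have hQne : ∀ i, Q i ≠ 0 := by
    intro i h0
    have := hQc i
    rw [h0, map_zero] at this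
    exact ha i this.symm
  set ψ : Fin m → PowerSeries K := fun i => (Q i)⁻¹ with hψ
  have hψ1 : ∀ i, ψ i * Q i = 1 := by
    intro i
    apply PowerSeries.inv_mul_cancel
    rw [hQc]
    exact ha i
  have haq : ∀ i, Polynomial.aeval (gsbU K)
      (Polynomial.C (a i) + Polynomial.C (b i) * Polynomial.X) = Q i := by
    intro i
    rw [map_add, map_mul, Polynomial.aeval_C, Polynomial.aeval_C, Polynomial.aeval_X]
    rfl
  have key : φ = Polynomial.aeval (gsbU K) P + ∑ i, PowerSeries.C (c i) * ψ i := by
    have hprod : ∏ i, Q i ≠ 0 := prod_ne_zero_iff.2 fun i _ => hQne i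
    apply mul_right_cancel₀ hprod
    rw [hφ, hP, map_add, map_mul, map_prod, map_sum, add_mul, sum_mul]
    simp only [haq]
    congr 1
    refine sum_congr rfl fun i _ => ?_
    rw [map_mul, map_prod, Polynomial.aeval_C]
    simp only [haq]
    rw [← mul_prod_erase univ Q (mem_univ i)]
    rw [show PowerSeries.C (c i) * ψ i * (Q i * ∏ x ∈ univ.erase i, Q x) =
      (ψ i * Q i) * (PowerSeries.C (c i) * ∏ x ∈ univ.erase i, Q x) by ring, hψ1, one_mul]
    rfl
  rw [key, mul_add, map_add, gsb_poly hN, Polynomial.coeff_eq_zero_of_natDegree_lt (by omega),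
    zero_add, mul_sum, map_sum]
  refine sum_congr rfl fun i _ => ?_
  rw [show gsbW K N * (PowerSeries.C (c i) * ψ i) = PowerSeries.C (c i) * (gsbW K N * ψ i) by ring,
    PowerSeries.coeff_C_mul, gsb_inv hN (ha i) (hψ1 i)]

end partial_fractions

end Pool.Agent.Lib.MP_b6786a_co.Zeil
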