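import Mathlib
import Pool.Agent.Lib.MP_b6786a_co.Zeil.Basic

/-!
# GSBOUND, part B: the determinant as a polynomial in its last argument
-/

set_option autoImplicit false

namespace Pool.Agent.Lib.MP_b6786a_co.Zeil

open Finset Function

theorem gsb_map_gg {R S : Type*} [CommRing R] [CommRing S] (f : R →+* S) (k j : ℕ) (x : R) :
    f (gg k j x) = gg k j (f x) := by
  simp [gg]

theorem gsb_map_DD {R S : Type*} [CommRing R] [CommRing S] (f : R →+* S) {k : ℕ}
    (v : Fin k → R) : f (DD v) = DD (fun i => f (v i)) := by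
  rw [DD, DD, RingHom.map_det]
  congr 1
  ext i j
  simp [gsb_map_gg]

theorem gsb_map_uu {R S : Type*} [CommRing R] [CommRing S] (f : R →+* S) (x : R) :
    f (uu x) = uu (f x) := by
  simp [uu]

section degree

variable {K : Type*} [Field K]

theorem gsb_natDegree_gg {m j : ℕ} (hj : j ≤ m) :
    (gg (m + 1) j (Polynomial.X : Polynomial K)).natDegree ≤ m + m / 2 := by
  rw [gg]
  refine (Polynomial.natDegree_mul_le).trans ?_
  have h1 : ((1 - Polynomial.X : Polynomial K) ^ (3 * (j / 2))).natDegree ≤ 3 * (j / 2) := by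
    refine (Polynomial.natDegree_pow_le).trans ?_
    have : (1 - Polynomial.X : Polynomial K).natDegree ≤ 1 := by
      refine (Polynomial.natDegree_sub_le _ _).trans ?_
      simp
    calc 3 * (j / 2) * (1 - Polynomial.X : Polynomial K).natDegree ≤ 3 * (j / 2) * 1 :=
          Nat.mul_le_mul le_rfl this
      _ = _ := Nat.mul_one _
  have h2 : ((Polynomial.X : Polynomial K) ^ (m + 1 - 1 - j)).natDegree ≤ m - j := by
    rw [Polynomial.natDegree_X_pow]
    omega
  omega

/-- the determinant as a polynomial in its last argument -/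
noncomputable def gsbD {m : ℕ} (w : Fin m → K) : Polynomial K :=
  DD (Fin.snoc (fun i => Polynomial.C (w i)) Polynomial.X : Fin (m + 1) → Polynomial K)

theorem gsb_natDegree_D {m : ℕ} (w : Fin m → K) : (gsbD w).natDegree ≤ m + m / 2 := by
  rw [gsbD, DD, Matrix.det_succ_row _ (Fin.last m)]
  refine Polynomial.natDegree_sum_le_of_forall_le _ _ fun j _ => ?_
  have h1 : ((Matrix.of fun i j : Fin (m + 1) => gg (m + 1) j
      ((Fin.snoc (fun i => Polynomial.C (w i)) Polynomial.X : Fin (m + 1) → Polynomial K)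
        i)).submatrix (Fin.last m).succAbove j.succAbove).det =
      Polynomial.C ((Matrix.of fun i' j' : Fin m => gg (m + 1) (j.succAbove j') (w i')).det) := by
    rw [RingHom.map_det]
    congr 1
    ext1 i' j'
    simp [gsb_map_gg]
  rw [h1]
  refine (Polynomial.natDegree_mul_C_le _ _).trans ?_
  rw [Matrix.of_apply, Fin.snoc_last]
  have h2 : ((-1 : Polynomial K) ^ ((Fin.last m : ℕ) + (j : ℕ))) =
      Polynomial.C ((-1 : K) ^ ((Fin.last m : ℕ) + (j : ℕ))) := by simp
  rw [h2]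
  refine (Polynomial.natDegree_C_mul_le _ _).trans ?_
  exact gsb_natDegree_gg (by have := j.2; omega)

theorem gsb_eval_D {m : ℕ} (w : Fin m → K) (r : K) :
    (gsbD w).eval r = DD (Fin.snoc w r : Fin (m + 1) → K) := by
  rw [gsbD, ← Polynomial.coe_evalRingHom, gsb_map_DD]
  congr 1
  funext i
  refine Fin.lastCases ?_ (fun i => ?_) i
  · simp
  · simp

theorem gsb_aeval_D {m : ℕ} (w : Fin m → K) {B : Type*} [CommRing B] [Algebra K B] (y : B) :
    Polynomial.aeval y (gsbD w) =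
      DD (Fin.snoc (fun i => algebraMap K B (w i)) y : Fin (m + 1) → B) := by
  rw [gsbD]
  have := gsb_map_DD (Polynomial.aeval y : Polynomial K →ₐ[K] B).toRingHom
    (Fin.snoc (fun i => Polynomial.C (w i)) Polynomial.X : Fin (m + 1) → Polynomial K)
  refine this.trans ?_
  congr 1
  funext i
  refine Fin.lastCases ?_ (fun i => ?_) i
  · simp
  · simp

end degree

theorem gsb_erase_erase {m : ℕ} (i : Fin m) :
    (univ.erase i.castSucc).erase (Fin.last m) = (univ.erase i).map Fin.castSuccEmb := by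
  ext l
  refine Fin.lastCases ?_ (fun l => ?_) l
  · simp
  · simp [Fin.castSucc_ne_last, eq_comm]

section term

variable {K : Type*} [Field K]

/-- the term of one pole -/
theorem gsb_term
    (wheel_gen : ∀ {k : ℕ} (i j : Fin k) (hij : i ≠ j) (v : Fin k → K)
      (S : Subring K) (hS : ∀ l, l ≠ i → l ≠ j → v l ∈ S),
      ∃ C ∈ S, ∀ a b : K, a ≠ 0 → b ≠ 0 → D4 a b = 0 →
        DD (update (update v i a) j b) =
          C * (a - b) * ∏ l ∈ (univ.erase i).erase j,
            ((v l - a) * (v l - b) * (1 - a * b * v l)))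
    {m N : ℕ} (hN : m + 2 ≤ N) (s : Fin m → K) (S : Subring K) (hsS : ∀ i, s i ∈ S)
    (hs0 : ∀ i, s i ≠ 0) (hs1 : ∀ i, 1 - s i ≠ 0) (hsS' : ∀ i, (1 - s i)⁻¹ ∈ S)
    (h1 : ∀ i l, i ≠ l → s i - s l ≠ 0) (h2 : ∀ i l, i ≠ l → s i + s l - s i * s l ≠ 0)
    (i : Fin m) :
    ∃ t ∈ S, ((gsbD fun i => uu (s i)).eval (-(1 - s i) / s i ^ 2) /
        ∏ j ∈ univ.erase i, ((1 - s j) + s j ^ 2 * (-(1 - s i) / s i ^ 2))) *
        ((1 - s i)⁻¹ * (-(s i ^ 2) / (1 - s i)) ^ (N - 1)) = s i ^ (N - 1) * t := by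
  set r : K := -(1 - s i) / s i ^ 2 with hr
  have hi0 := hs0 i
  have hi1 := hs1 i
  have hr' : r * s i ^ 2 = -(1 - s i) := by rw [hr]; field_simp
  have huS : ∀ l, uu (s l) ∈ S := fun l => by
    rw [uu]
    exact S.mul_mem (hsS l) (S.sub_mem S.one_mem (hsS l))
  obtain ⟨C, hC, hCe⟩ := wheel_gen i.castSucc (Fin.last m) (Fin.castSucc_lt_last i).ne
    (Fin.snoc (fun i => uu (s i)) 0 : Fin (m + 1) → K) S (by
      intro l hl1 hl2
      induction l using Fin.lastCases with
      | last => exact absurd rfl hl2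
      | cast l => rw [Fin.snoc_castSucc]; exact huS l)
  have hu0 : uu (s i) ≠ 0 := by rw [uu]; exact mul_ne_zero hi0 hi1
  have hr0 : r ≠ 0 := by
    rw [hr]
    exact div_ne_zero (neg_ne_zero.2 hi1) (pow_ne_zero _ hi0)
  have hD4 : D4 (uu (s i)) r = 0 := by
    have : D4 (uu (s i)) r = ((1 - s i) + r * s i ^ 2) * (s i + (1 - s i) ^ 2 * r) := by
      rw [D4, uu]; ring
    rw [this, hr']; ring
  have hD := hCe (uu (s i)) r hu0 hr0 hD4
  have hupd : update (update (Fin.snoc (fun i => uu (s i)) 0 : Fin (m + 1) → K) i.castSucc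
      (uu (s i))) (Fin.last m) r = (Fin.snoc (fun i => uu (s i)) r : Fin (m + 1) → K) := by
    funext l
    induction l using Fin.lastCases with
    | last => simp
    | cast l =>
      rw [update_of_ne (Fin.castSucc_lt_last l).ne, Fin.snoc_castSucc]
      by_cases hli : l = i
      · subst hli; simp
      · rw [update_of_ne (by simpa using hli), Fin.snoc_castSucc]
  rw [hupd, gsb_erase_erase, prod_map] at hD
  simp only [Fin.coe_castSuccEmb, Fin.snoc_castSucc] at hD
  rw [gsb_eval_D, hD]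
  -- the factors
  have hden : ∀ l ∈ univ.erase i, (1 - s l) + s l ^ 2 * r =
      (s i - s l) * (s i + s l - s i * s l) / s i ^ 2 := by
    intro l _
    rw [eq_div_iff (pow_ne_zero _ hi0)]
    linear_combination (s l ^ 2) * hr'
  have hfac : ∀ l ∈ univ.erase i,
      ((uu (s l) - uu (s i)) * (uu (s l) - r) * (1 - uu (s i) * r * uu (s l))) =
      (-((1 - s l - s i) * ((1 - s i) + s i ^ 2 * uu (s l)) * (1 - (1 - s i) * s l)) / s i) *
        ((1 - s l) + s l ^ 2 * r) := by
    intro l hl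
    rw [hden l hl, hr, uu, uu]
    field_simp
    ring
  have hne : ∀ l ∈ univ.erase i, (1 - s l) + s l ^ 2 * r ≠ 0 := by
    intro l hl
    have hli := (ne_of_mem_erase hl).symm
    rw [hden l hl]
    exact div_ne_zero (mul_ne_zero (h1 i l hli) (h2 i l hli)) (pow_ne_zero _ hi0)
  rw [prod_congr rfl hfac, prod_mul_distrib]
  have hpne : ∏ l ∈ univ.erase i, ((1 - s l) + s l ^ 2 * r) ≠ 0 := prod_ne_zero_iff.2 hne
  have hcard : (univ.erase i).card = m - 1 := by
    rw [card_erase_of_mem (mem_univ i), card_univ, Fintype.card_fin]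
  have hprod : ∏ l ∈ univ.erase i,
      (-((1 - s l - s i) * ((1 - s i) + s i ^ 2 * uu (s l)) * (1 - (1 - s i) * s l)) / s i) =
      (∏ l ∈ univ.erase i,
        (-((1 - s l - s i) * ((1 - s i) + s i ^ 2 * uu (s l)) * (1 - (1 - s i) * s l)))) /
        s i ^ (m - 1) := by
    rw [prod_div_distrib, prod_const, hcard]
  rw [hprod]
  set Z : K := ∏ l ∈ univ.erase i,
    (-((1 - s l - s i) * ((1 - s i) + s i ^ 2 * uu (s l)) * (1 - (1 - s i) * s l))) with hZ
  have hZS : Z ∈ S := by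
    rw [hZ]
    refine S.prod_mem fun l _ => ?_
    refine S.neg_mem (S.mul_mem (S.mul_mem ?_ ?_) ?_)
    · exact S.sub_mem (S.sub_mem S.one_mem (hsS l)) (hsS i)
    · exact S.add_mem (S.sub_mem S.one_mem (hsS i)) (S.mul_mem (S.pow_mem (hsS i) _) (huS l))
    · exact S.sub_mem S.one_mem (S.mul_mem (S.sub_mem S.one_mem (hsS i)) (hsS l))
  refine ⟨(-1) ^ (N - 1) * s i ^ (N - 2 - m) * C * (1 + s i ^ 3) * (1 - s i)⁻¹ ^ (N - 1) * Z,
    ?_, ?_⟩
  · refine S.mul_mem (S.mul_mem (S.mul_mem (S.mul_mem (S.mul_mem ?_ ?_) hC) ?_) ?_) hZS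
    · exact S.pow_mem (S.neg_mem S.one_mem) _
    · exact S.pow_mem (hsS i) _
    · exact S.add_mem S.one_mem (S.pow_mem (hsS i) _)
    · exact S.pow_mem (hsS' i) _
  · have hm1 : 1 ≤ m := by have := i.2; omega
    have hui : uu (s i) - r = (1 - s i) * (1 + s i ^ 3) / s i ^ 2 := by
      rw [eq_div_iff (pow_ne_zero _ hi0), uu]
      linear_combination -hr'
    rw [hui]
    set R : K := ∏ l ∈ univ.erase i, ((1 - s l) + s l ^ 2 * r) with hRR
    have hpow : (-(s i ^ 2) / (1 - s i)) ^ (N - 1) =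
        (-1) ^ (N - 1) * (s i ^ (N - 1) * s i ^ (N - 1)) * (1 - s i)⁻¹ ^ (N - 1) := by
      rw [div_eq_mul_inv, mul_pow, neg_pow, ← pow_mul, ← pow_add]
      congr 3
      ring
    have hsplit : s i ^ (N - 1) = s i ^ (N - 2 - m) * (s i ^ 2 * s i ^ (m - 1)) := by
      rw [← pow_add, ← pow_add]
      congr 1
      omega
    rw [hpow]
    have e1 : C * ((1 - s i) * (1 + s i ^ 3) / s i ^ 2) * (Z / s i ^ (m - 1) * R) / R *
        ((1 - s i)⁻¹ * ((-1) ^ (N - 1) * (s i ^ (N - 1) * s i ^ (N - 1)) *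
          (1 - s i)⁻¹ ^ (N - 1))) =
        C * (1 + s i ^ 3) * Z * (-1) ^ (N - 1) * (1 - s i)⁻¹ ^ (N - 1) * s i ^ (N - 1) *
          (s i ^ (N - 1) / (s i ^ 2 * s i ^ (m - 1))) := by
      field_simp
    rw [e1]
    have e2 : s i ^ (N - 1) / (s i ^ 2 * s i ^ (m - 1)) = s i ^ (N - 2 - m) := by
      rw [div_eq_iff (mul_ne_zero (pow_ne_zero _ hi0) (pow_ne_zero _ hi0))]
      exact hsplit
    rw [e2]
    ring

end term

end Pool.Agent.Lib.MP_b6786a_co.Zeil
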