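import Mathlib
import Pool.Agent.Lib.MP_b6786a_co.Zeil.GSBoundA
import Pool.Agent.Lib.MP_b6786a_co.Zeil.GSBoundB
import Pool.Agent.Lib.MP_b6786a_co.Zeil.Wheel

/-!
# GSBOUND, part C: from power series in `m + 1` variables to power series over a field
-/

set_option autoImplicit false

namespace Pool.Agent.Lib.MP_b6786a_co.Zeil

open Finset Function

theorem gsb_Ioi_castSucc {m : ℕ} (i : Fin m) :
    (Ioi i.castSucc : Finset (Fin (m + 1))) =
      insert (Fin.last m) ((Ioi i).map Fin.castSuccEmb) := by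
  ext l
  refine Fin.lastCases ?_ (fun l => ?_) l
  · simp [Fin.castSucc_lt_last]
  · simpa using fun _ => Fin.le_last _

theorem gsb_prod_pairs {M : Type*} [CommMonoid M] {m : ℕ} (f : Fin (m + 1) → Fin (m + 1) → M) :
    ∏ i, ∏ j ∈ Ioi i, f i j =
      (∏ i : Fin m, ∏ j ∈ Ioi i, f i.castSucc j.castSucc) * ∏ i : Fin m, f i.castSucc (Fin.last m) := by
  rw [Fin.prod_univ_castSucc]
  have h1 : (Ioi (Fin.last m) : Finset (Fin (m + 1))) = ∅ := by
    ext l
    simp [Fin.le_last]
  rw [h1, prod_empty, mul_one, ← prod_mul_distrib]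
  refine prod_congr rfl fun i _ => ?_
  rw [gsb_Ioi_castSucc, prod_insert, prod_map, mul_comm]
  · rfl
  · simp

/-- separating the last variable -/
noncomputable def gsbPsi (m : ℕ) : MvPowerSeries (Fin (m + 1)) ℚ →+*
    PowerSeries (MvPowerSeries (Fin m) ℚ) :=
  ((MvPowerSeries.optionEquivLeft (Fin m) ℚ).toRingEquiv.toRingHom).comp
    ((MvPowerSeries.renameEquiv ℚ (finSuccEquivLast (n := m))).toRingEquiv.toRingHom)

theorem gsb_Psi_castSucc {m : ℕ} (i : Fin m) :
    gsbPsi m (MvPowerSeries.X i.castSucc) = PowerSeries.C (MvPowerSeries.X i) := by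
  simp [gsbPsi]

theorem gsb_Psi_last {m : ℕ} :
    gsbPsi m (MvPowerSeries.X (Fin.last m)) = PowerSeries.X := by
  simp [gsbPsi]

theorem gsb_coeff_Psi {m : ℕ} (p : MvPowerSeries (Fin (m + 1)) ℚ) (n : ℕ) (z : Fin (m + 1) → ℕ)
    (hz : z (Fin.last m) = n) :
    MvPowerSeries.coeff (Finsupp.equivFunOnFinite.symm fun i : Fin m => z i.castSucc)
      (PowerSeries.coeff n (gsbPsi m p)) =
    MvPowerSeries.coeff (Finsupp.equivFunOnFinite.symm z) p := by
  have h1 : (Finsupp.optionElim n (Finsupp.equivFunOnFinite.symm fun i : Fin m => z i.castSucc) :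
      Option (Fin m) →₀ ℕ) = Finsupp.embDomain (finSuccEquivLast (n := m)).toEmbedding
        (Finsupp.equivFunOnFinite.symm z) := by
    ext a
    cases a with
    | none =>
      have : (none : Option (Fin m)) = (finSuccEquivLast (n := m)).toEmbedding (Fin.last m) := by
        simp
      rw [Finsupp.optionElim_apply_none]
      conv_rhs => rw [this, Finsupp.embDomain_apply_self]
      exact hz.symm
    | some a =>
      have : (some a : Option (Fin m)) = (finSuccEquivLast (n := m)).toEmbedding a.castSucc := by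
        simp
      rw [Finsupp.optionElim_apply_some]
      conv_rhs => rw [this, Finsupp.embDomain_apply_self]
      rfl
  have h2 := MvPowerSeries.coeff_coeff_optionEquivLeft
    (MvPowerSeries.rename (finSuccEquivLast (n := m)).toEmbedding p) n
    (Finsupp.equivFunOnFinite.symm fun i : Fin m => z i.castSucc)
  rw [h1, MvPowerSeries.coeff_embDomain_rename] at h2
  exact h2


section final

variable {m : ℕ}

/-- the fraction field of the power series in the first `m` variables -/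
abbrev gsbK (m : ℕ) := FractionRing (MvPowerSeries (Fin m) ℚ)

/-- the variables in `gsbK` -/
noncomputable def gsbs (m : ℕ) (i : Fin m) : gsbK m :=
  algebraMap (MvPowerSeries (Fin m) ℚ) (gsbK m) (MvPowerSeries.X i)

theorem gsb_alg_inj : Injective (algebraMap (MvPowerSeries (Fin m) ℚ) (gsbK m)) :=
  IsFractionRing.injective _ _

theorem gsb_X_not_dvd {i l : Fin m} (hil : i ≠ l) :
    ¬ (MvPowerSeries.X i : MvPowerSeries (Fin m) ℚ) ∣ MvPowerSeries.X l := by
  classical
  intro h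
  rw [MvPowerSeries.X_dvd_iff] at h
  have := h (Finsupp.single l 1) (by rw [Finsupp.single_apply, if_neg hil.symm])
  rw [MvPowerSeries.coeff_X, if_pos rfl] at this
  exact one_ne_zero this

theorem gsb_s_ne_zero (i : Fin m) : gsbs m i ≠ 0 := by
  rw [gsbs, Ne, map_eq_zero_iff _ gsb_alg_inj]
  intro h
  have := congrArg (MvPowerSeries.coeff (Finsupp.single i 1)) h
  rw [MvPowerSeries.coeff_X, if_pos rfl, map_zero] at this
  exact one_ne_zero this

theorem gsb_inv_mem {a : MvPowerSeries (Fin m) ℚ} (ha : MvPowerSeries.constantCoeff a ≠ 0) :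
    (algebraMap (MvPowerSeries (Fin m) ℚ) (gsbK m) a) ≠ 0 ∧
      (algebraMap (MvPowerSeries (Fin m) ℚ) (gsbK m) a)⁻¹ ∈
        (algebraMap (MvPowerSeries (Fin m) ℚ) (gsbK m)).range := by
  have h1 := MvPowerSeries.mul_inv_cancel a ha
  have h2 := congrArg (algebraMap (MvPowerSeries (Fin m) ℚ) (gsbK m)) h1
  rw [map_mul, map_one] at h2
  refine ⟨left_ne_zero_of_mul_eq_one h2, ⟨a⁻¹, ?_⟩⟩
  exact eq_inv_of_mul_eq_one_right h2

theorem gsb_cc_one_sub (i : Fin m) :
    MvPowerSeries.constantCoeff (1 - MvPowerSeries.X i : MvPowerSeries (Fin m) ℚ) = 1 := by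
  simp

theorem gsb_s_sub_ne {i l : Fin m} (hil : i ≠ l) : gsbs m i - gsbs m l ≠ 0 := by
  rw [gsbs, gsbs, ← map_sub, Ne, map_eq_zero_iff _ gsb_alg_inj]
  intro h
  apply gsb_X_not_dvd hil
  exact ⟨1, by linear_combination -h⟩

theorem gsb_s_add_ne {i l : Fin m} (hil : i ≠ l) :
    gsbs m i + gsbs m l - gsbs m i * gsbs m l ≠ 0 := by
  rw [gsbs, gsbs, ← map_add, ← map_mul, ← map_sub, Ne, map_eq_zero_iff _ gsb_alg_inj]
  intro h
  apply gsb_X_not_dvd hil
  exact ⟨-(1 - MvPowerSeries.X l), by linear_combination h⟩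

/-- the ring homomorphism to power series over the fraction field -/
noncomputable def gsbT (m : ℕ) : MvPowerSeries (Fin (m + 1)) ℚ →+* PowerSeries (gsbK m) :=
  (PowerSeries.map (algebraMap (MvPowerSeries (Fin m) ℚ) (gsbK m))).comp (gsbPsi m)

theorem gsb_T_castSucc (i : Fin m) :
    gsbT m (MvPowerSeries.X i.castSucc) = PowerSeries.C (gsbs m i) := by
  rw [gsbT, RingHom.comp_apply, gsb_Psi_castSucc, PowerSeries.map_C]
  rfl

theorem gsb_T_last : gsbT m (MvPowerSeries.X (Fin.last m)) = PowerSeries.X := by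
  rw [gsbT, RingHom.comp_apply, gsb_Psi_last, PowerSeries.map_X]

theorem gsb_uu_X : uu (PowerSeries.X : PowerSeries (gsbK m)) = gsbU (gsbK m) := rfl

/-- the defining equation of `WG` -/
theorem gsb_WG_eq (k N : ℕ) :
    WG k N * ((∏ i, (1 - XX k i)) ^ N *
      (∏ i, ∏ j ∈ Ioi i, (1 - XX k i + XX k i ^ 2 * uu (XX k j)))) =
    (∏ i, (1 - 2 * XX k i)) * DD (fun i => uu (XX k i)) := by
  have h1 : (∏ i, (1 - XX k i))⁻¹ * (∏ i, (1 - XX k i)) = 1 := by
    apply MvPowerSeries.inv_mul_cancel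
    rw [map_prod]
    refine prod_ne_zero_iff.2 fun i _ => ?_
    simp
  have h2 : (∏ i, ∏ j ∈ Ioi i, (1 - XX k i + XX k i ^ 2 * uu (XX k j)))⁻¹ *
      (∏ i, ∏ j ∈ Ioi i, (1 - XX k i + XX k i ^ 2 * uu (XX k j))) = 1 := by
    apply MvPowerSeries.inv_mul_cancel
    rw [map_prod]
    refine prod_ne_zero_iff.2 fun i _ => ?_
    rw [map_prod]
    refine prod_ne_zero_iff.2 fun j _ => ?_
    simp
  rw [WG]
  set a := ∏ i, (1 - XX k i)
  set e := ∏ i, ∏ j ∈ Ioi i, (1 - XX k i + XX k i ^ 2 * uu (XX k j))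
  have h3 : a⁻¹ ^ N * a ^ N = 1 := by rw [← mul_pow, h1, one_pow]
  calc _ = (∏ i, (1 - 2 * XX k i)) * DD (fun i => uu (XX k i)) * (a⁻¹ ^ N * a ^ N) * (e⁻¹ * e) := by
        ring
    _ = _ := by rw [h3, h2, mul_one, mul_one]

theorem gsb_main {N : ℕ} (hN : m + 2 ≤ N) :
    ∃ t : Fin m → MvPowerSeries (Fin m) ℚ,
      PowerSeries.coeff (N - 1) (gsbPsi m (WG (m + 1) N)) =
        ∑ i, MvPowerSeries.X i ^ (N - 1) * t i := by
  classical
  set S : Subring (gsbK m) := (algebraMap (MvPowerSeries (Fin m) ℚ) (gsbK m)).range with hS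
  set s : Fin m → gsbK m := gsbs m with hs
  have hsS : ∀ i, s i ∈ S := fun i => ⟨_, rfl⟩
  have hs0 : ∀ i, s i ≠ 0 := gsb_s_ne_zero
  have h1s : ∀ i, algebraMap (MvPowerSeries (Fin m) ℚ) (gsbK m) (1 - MvPowerSeries.X i) =
      1 - s i := fun i => by rw [map_sub, map_one]; rfl
  have hs1 : ∀ i, 1 - s i ≠ 0 := fun i => by
    rw [← h1s]
    exact (gsb_inv_mem (by rw [gsb_cc_one_sub]; exact one_ne_zero)).1
  have hsS' : ∀ i, (1 - s i)⁻¹ ∈ S := fun i => by
    rw [← h1s]
    exact (gsb_inv_mem (by rw [gsb_cc_one_sub]; exact one_ne_zero)).2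
  have hd1 : ∀ i l, i ≠ l → s i - s l ≠ 0 := fun i l h => gsb_s_sub_ne h
  have hd2 : ∀ i l, i ≠ l → s i + s l - s i * s l ≠ 0 := fun i l h => gsb_s_add_ne h
  -- constants
  set E : gsbK m := ∏ i, ∏ j ∈ Ioi i, (1 - s i + s i ^ 2 * uu (s j)) with hE
  have hEA : algebraMap (MvPowerSeries (Fin m) ℚ) (gsbK m)
      (∏ i, ∏ j ∈ Ioi i, (1 - MvPowerSeries.X i + MvPowerSeries.X i ^ 2 *
        uu (MvPowerSeries.X j))) = E := by
    rw [map_prod, hE]
    refine prod_congr rfl fun i _ => ?_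
    rw [map_prod]
    refine prod_congr rfl fun j _ => ?_
    rw [map_add, map_sub, map_one, map_mul, map_pow, gsb_map_uu]
    rfl
  have hEc : MvPowerSeries.constantCoeff (∏ i, ∏ j ∈ Ioi i,
      (1 - MvPowerSeries.X i + MvPowerSeries.X i ^ 2 * uu (MvPowerSeries.X j)) :
        MvPowerSeries (Fin m) ℚ) ≠ 0 := by
    rw [map_prod]
    refine prod_ne_zero_iff.2 fun i _ => ?_
    rw [map_prod]
    refine prod_ne_zero_iff.2 fun j _ => ?_
    simp
  have hE0 : E ≠ 0 := by rw [← hEA]; exact (gsb_inv_mem hEc).1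
  have hES : E⁻¹ ∈ S := by rw [← hEA]; exact (gsb_inv_mem hEc).2
  set P : gsbK m := ∏ i, (1 - 2 * s i) with hP
  have hPS : P ∈ S := S.prod_mem fun i _ =>
    S.sub_mem S.one_mem (S.mul_mem (by
      have : (2 : gsbK m) = 1 + 1 := by norm_num
      rw [this]; exact S.add_mem S.one_mem S.one_mem) (hsS i))
  set B : gsbK m := ∏ i, (1 - s i) with hB
  have hB0 : B ≠ 0 := prod_ne_zero_iff.2 fun i _ => hs1 i
  have hBS : B⁻¹ ∈ S := by
    rw [hB, ← prod_inv_distrib]
    exact S.prod_mem fun i _ => hsS' i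
  set κ : gsbK m := P * (B⁻¹ ^ N * E⁻¹) with hκ
  have hκS : κ ∈ S := S.mul_mem hPS (S.mul_mem (S.pow_mem hBS _) hES)
  -- the quotient
  set w : Fin m → gsbK m := fun i => uu (s i) with hw
  set Q : PowerSeries (gsbK m) := ∏ i, (PowerSeries.C (1 - s i) +
    PowerSeries.C (s i ^ 2) * gsbU (gsbK m)) with hQ
  have hQc : PowerSeries.constantCoeff Q ≠ 0 := by
    rw [hQ, map_prod]
    refine prod_ne_zero_iff.2 fun i _ => ?_
    simpa [gsbU] using hs1 i
  set φ : PowerSeries (gsbK m) := Polynomial.aeval (gsbU (gsbK m)) (gsbD w) * Q⁻¹ with hφ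
  have hφQ : φ * Q = Polynomial.aeval (gsbU (gsbK m)) (gsbD w) := by
    rw [hφ, mul_assoc, PowerSeries.inv_mul_cancel _ hQc, mul_one]
  have hNpos : 0 < N := by omega
  have hWG : gsbT m (WG (m + 1) N) = PowerSeries.C κ * (gsbW (gsbK m) N * φ) := by
    have h1 := congrArg (gsbT m) (gsb_WG_eq (m + 1) N)
    have hX1 : gsbT m (∏ i, (1 - XX (m + 1) i)) =
        PowerSeries.C B * (1 - PowerSeries.X) := by
      rw [Fin.prod_univ_castSucc, map_mul, map_prod, map_sub, map_one, gsb_T_last, hB, map_prod]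
      congr 1
      refine prod_congr rfl fun i _ => ?_
      rw [map_sub, map_one, gsb_T_castSucc, map_sub, map_one]
    have hX2 : gsbT m (∏ i, (1 - 2 * XX (m + 1) i)) =
        PowerSeries.C P * (1 - 2 * PowerSeries.X) := by
      rw [Fin.prod_univ_castSucc, map_mul, map_prod, map_sub, map_one, map_mul, gsb_T_last, hP,
        map_prod, map_ofNat]
      congr 1
      refine prod_congr rfl fun i _ => ?_
      rw [map_sub, map_one, map_mul, gsb_T_castSucc, map_sub, map_one, map_mul, map_ofNat,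
        map_ofNat]
    have hX3 : gsbT m (∏ i, ∏ j ∈ Ioi i,
        (1 - XX (m + 1) i + XX (m + 1) i ^ 2 * uu (XX (m + 1) j))) = PowerSeries.C E * Q := by
      rw [gsb_prod_pairs, map_mul, map_prod, map_prod, hE, hQ, map_prod]
      congr 1
      · refine prod_congr rfl fun i _ => ?_
        rw [map_prod, map_prod]
        refine prod_congr rfl fun j _ => ?_
        rw [map_add, map_sub, map_one, map_mul, map_pow, gsb_map_uu, gsb_T_castSucc,
          gsb_T_castSucc, map_add, map_sub, map_one, map_mul, map_pow, gsb_map_uu]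
      · refine prod_congr rfl fun i _ => ?_
        rw [map_add, map_sub, map_one, map_mul, map_pow, gsb_map_uu, gsb_T_castSucc,
          gsb_T_last, gsb_uu_X, map_sub, map_one, map_pow]
    have hX4 : gsbT m (DD (fun i => uu (XX (m + 1) i))) =
        Polynomial.aeval (gsbU (gsbK m)) (gsbD w) := by
      rw [gsb_map_DD, gsb_aeval_D]
      congr 1
      funext i
      refine Fin.lastCases ?_ (fun i => ?_) i
      · rw [gsb_map_uu, gsb_T_last, Fin.snoc_last]; rfl
      · rw [gsb_map_uu, gsb_T_castSucc, Fin.snoc_castSucc, ← gsb_map_uu]; rfl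
    rw [map_mul, map_mul, map_pow, hX1, hX3, map_mul, hX2, hX4] at h1
    have hne : (PowerSeries.C B * (1 - PowerSeries.X)) ^ N * (PowerSeries.C E * Q) ≠ 0 := by
      refine mul_ne_zero (pow_ne_zero _ (mul_ne_zero ?_ ?_)) (mul_ne_zero ?_ ?_)
      · rw [Ne, map_eq_zero_iff _ PowerSeries.C_injective]; exact hB0
      · intro h0
        have := congrArg PowerSeries.constantCoeff h0
        simp at this
      · rw [Ne, map_eq_zero_iff _ PowerSeries.C_injective]; exact hE0
      · intro h0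
        rw [h0, map_zero] at hQc
        exact hQc rfl
    apply mul_right_cancel₀ hne
    rw [h1, ← hφQ]
    have hW : gsbW (gsbK m) N * (1 - PowerSeries.X) ^ N = 1 - 2 * PowerSeries.X := by
      rw [gsbW, mul_assoc]
      have := (PowerSeries.invOneSubPow (gsbK m) N).val_inv
      rw [PowerSeries.invOneSubPow_inv_eq_one_sub_pow] at this
      rw [this, mul_one]
    have hκ' : PowerSeries.C κ * (PowerSeries.C B ^ N * PowerSeries.C E) =
        (PowerSeries.C P : PowerSeries (gsbK m)) := by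
      rw [← map_pow, ← map_mul, ← map_mul, hκ]
      congr 1
      rw [inv_pow]
      field_simp
    calc PowerSeries.C P * (1 - 2 * PowerSeries.X) * (φ * Q) =
        (PowerSeries.C κ * (PowerSeries.C B ^ N * PowerSeries.C E)) *
          (gsbW (gsbK m) N * (1 - PowerSeries.X) ^ N) * (φ * Q) := by rw [hκ', hW]
      _ = _ := by rw [mul_pow]; ring
  -- coefficient
  have hroots : Injective fun i => -(1 - s i) / s i ^ 2 := by
    intro i l hil
    by_contra hne
    have e1 : -(1 - s i) * s l ^ 2 = -(1 - s l) * s i ^ 2 :=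
      (div_eq_div_iff (pow_ne_zero _ (hs0 i)) (pow_ne_zero _ (hs0 l))).1 hil
    have e2 : (s i - s l) * (s i + s l - s i * s l) = 0 := by linear_combination e1
    rcases mul_eq_zero.1 e2 with h | h
    · exact hd1 i l hne h
    · exact hd2 i l hne h
  have hdeg : max (gsbD w).natDegree m < N - 1 + m := by
    have := gsb_natDegree_D w
    rw [max_lt_iff]
    omega
  have hcoef := gsb_quot hNpos (fun i => 1 - s i) (fun i => s i ^ 2) hs1
    (fun i => pow_ne_zero _ (hs0 i)) hroots (gsbD w) hdeg φ hφQ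
  choose t htS ht using fun i => gsb_term (K := gsbK m) wheel_gen hN s S hsS hs0 hs1 hsS' hd1 hd2 i
  have hmain : PowerSeries.coeff (N - 1) (gsbT m (WG (m + 1) N)) =
      ∑ i, s i ^ (N - 1) * (κ * t i) := by
    rw [hWG, PowerSeries.coeff_C_mul, hcoef, mul_sum]
    refine sum_congr rfl fun i _ => ?_
    rw [ht i]
    ring
  choose t' ht' using fun i => (S.mul_mem hκS (htS i) : κ * t i ∈ S)
  refine ⟨t', ?_⟩
  apply gsb_alg_inj
  rw [map_sum]
  have hl : algebraMap (MvPowerSeries (Fin m) ℚ) (gsbK m)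
      (PowerSeries.coeff (N - 1) (gsbPsi m (WG (m + 1) N))) =
      PowerSeries.coeff (N - 1) (gsbT m (WG (m + 1) N)) := by
    rw [gsbT, RingHom.comp_apply, PowerSeries.coeff_map]
  rw [hl, hmain]
  refine sum_congr rfl fun i _ => ?_
  rw [map_mul, map_pow, ht' i]
  rfl

end final

/-- boundary -/
theorem gs_boundary {k : ℕ} (hk : 0 < k) (N : ℕ) (hN : k + 1 ≤ N) (x : Fin k → ℤ)
    (hx : ∀ d : Fin k, (d : ℕ) + 1 < k → x d ≤ (N : ℤ) - 2)
    (hlast : x ⟨k - 1, by omega⟩ = (N : ℤ) - 1) :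
    cf (WG k N) x = 0 := by
  classical
  obtain ⟨m, rfl⟩ : ∃ m, k = m + 1 := ⟨k - 1, by omega⟩
  rw [cf]
  split_ifs with h0
  · have hl : x (Fin.last m) = (N : ℤ) - 1 := hlast
    have h1 := gsb_coeff_Psi (WG (m + 1) N) (N - 1) (fun d => (x d).toNat) (by
      show (x (Fin.last m)).toNat = N - 1
      omega)
    rw [← h1]
    obtain ⟨t, ht⟩ := gsb_main (m := m) (N := N) (by omega)
    rw [ht, map_sum]
    refine sum_eq_zero fun i _ => ?_
    have hdvd : (MvPowerSeries.X i : MvPowerSeries (Fin m) ℚ) ^ (N - 1) ∣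
        MvPowerSeries.X i ^ (N - 1) * t i := Dvd.intro _ rfl
    rw [MvPowerSeries.X_pow_dvd_iff] at hdvd
    apply hdvd
    show (x i.castSucc).toNat < N - 1
    have := hx i.castSucc (by have := i.2; simp)
    omega
  · rfl

end Pool.Agent.Lib.MP_b6786a_co.Zeil
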