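import Pool.Agent.Lib.MP_b6786a_co.Zeil.Basic

/-!
# Task GSEXCH: exchange relation and initial condition of the Gog power series `WG`.
-/

set_option autoImplicit false

namespace Pool.Agent.Lib.MP_b6786a_co.Zeil

open Finset Function

/-! ### coefficients at integer exponent vectors -/

theorem gsexch_cf_nonneg {k : ℕ} (φ : PS k) (x : Fin k → ℤ) (hx : ∀ d, 0 ≤ x d) :
    cf φ x = MvPowerSeries.coeff (Finsupp.equivFunOnFinite.symm fun d => (x d).toNat) φ := by
  classical
  rw [cf, if_pos hx]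

theorem gsexch_cf_neg {k : ℕ} (φ : PS k) (x : Fin k → ℤ) (d : Fin k) (hx : x d < 0) :
    cf φ x = 0 := by
  classical
  rw [cf, if_neg]
  intro h
  exact absurd (h d) (not_le.2 hx)

theorem gsexch_cf_add {k : ℕ} (φ ψ : PS k) (x : Fin k → ℤ) :
    cf (φ + ψ) x = cf φ x + cf ψ x := by
  classical
  unfold cf
  split_ifs
  · rw [map_add]
  · rw [add_zero]

theorem gsexch_cf_sub {k : ℕ} (φ ψ : PS k) (x : Fin k → ℤ) :
    cf (φ - ψ) x = cf φ x - cf ψ x := by
  classical
  unfold cf
  split_ifs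
  · rw [map_sub]
  · rw [sub_zero]

theorem gsexch_cf_X_mul {k : ℕ} (φ : PS k) (d : Fin k) (x : Fin k → ℤ) :
    cf (XX k d * φ) x = cf φ (update x d (x d - 1)) := by
  classical
  by_cases hx : ∀ i, 0 ≤ x i
  · rw [gsexch_cf_nonneg _ _ hx]
    have hX : XX k d = MvPowerSeries.monomial (Finsupp.single d 1) (1 : ℚ) := rfl
    rw [hX, MvPowerSeries.coeff_monomial_mul]
    by_cases hd : 1 ≤ x d
    · rw [if_pos, one_mul, gsexch_cf_nonneg]
      · congr 2
        ext i
        by_cases hi : i = d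
        · subst hi
          simp
        · simp [hi]
      · intro i
        by_cases hi : i = d
        · subst hi
          simp only [update_self]
          omega
        · simp only [update_of_ne hi]
          exact hx i
      · rw [Finsupp.single_le_iff]
        simp only [Finsupp.equivFunOnFinite_symm_apply_apply]
        omega
    · rw [if_neg, gsexch_cf_neg _ _ d]
      · simp only [update_self]
        omega
      · rw [Finsupp.single_le_iff]
        simp only [Finsupp.equivFunOnFinite_symm_apply_apply]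
        omega
  · push Not at hx
    obtain ⟨i, hi⟩ := hx
    rw [gsexch_cf_neg _ _ i hi, gsexch_cf_neg _ _ i]
    by_cases e : i = d
    · subst e
      simp only [update_self]
      omega
    · simp only [update_of_ne e]
      exact hi

/-! ### renaming of variables -/

/-- exchange of the variables `d` and `e` -/
noncomputable def gsexch_ren {k : ℕ} (d e : Fin k) : PS k ≃ₐ[ℚ] PS k :=
  MvPowerSeries.renameEquiv ℚ (Equiv.swap d e)

theorem gsexch_ren_X {k : ℕ} (d e i : Fin k) :
    gsexch_ren d e (XX k i) = XX k (Equiv.swap d e i) := by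
  rw [gsexch_ren, MvPowerSeries.renameEquiv_apply]
  exact MvPowerSeries.rename_X _ i

theorem gsexch_ren_coeff {k : ℕ} (d e : Fin k) (Ψ : PS k) (μ : Fin k →₀ ℕ) (h : μ d = μ e) :
    MvPowerSeries.coeff μ (gsexch_ren d e Ψ) = MvPowerSeries.coeff μ Ψ := by
  have h1 := MvPowerSeries.coeff_embDomain_rename (R := ℚ) (Equiv.swap d e).toEmbedding Ψ μ
  have h2 : Finsupp.embDomain (Equiv.swap d e).toEmbedding μ = μ := by
    ext i
    have h3 := Finsupp.embDomain_apply_self (Equiv.swap d e).toEmbedding μ (Equiv.swap d e i)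
    simp only [Equiv.coe_toEmbedding, Equiv.swap_apply_self] at h3
    rw [h3]
    by_cases hi : i = d
    · subst hi; rw [Equiv.swap_apply_left]; exact h.symm
    · by_cases hi' : i = e
      · subst hi'; rw [Equiv.swap_apply_right]; exact h
      · rw [Equiv.swap_apply_of_ne_of_ne hi hi']
  rw [h2] at h1
  exact h1

theorem gsexch_cf_zero {k : ℕ} (d e : Fin k) (Ψ : PS k) (h : gsexch_ren d e Ψ = -Ψ)
    (x : Fin k → ℤ) (hx : x d = x e) : cf Ψ x = 0 := by
  by_cases hx0 : ∀ i, 0 ≤ x i
  · rw [gsexch_cf_nonneg _ _ hx0]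
    have h1 := gsexch_ren_coeff d e Ψ (Finsupp.equivFunOnFinite.symm fun d => (x d).toNat)
      (by simp [hx])
    rw [h, map_neg] at h1
    linarith
  · push Not at hx0
    obtain ⟨i, hi⟩ := hx0
    exact gsexch_cf_neg _ _ i hi

/-! ### the denominators -/

/-- factors of the denominator of the Gog kernel -/
noncomputable def gsexch_q {k : ℕ} (i j : Fin k) : PS k :=
  1 - XX k i + XX k i ^ 2 * uu (XX k j)

/-- denominator of the Gog kernel -/
noncomputable def gsexch_Q (k : ℕ) : PS k := ∏ i, ∏ j ∈ Ioi i, gsexch_q (k := k) i j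

/-- product of the `1 - X_i` -/
noncomputable def gsexch_P (k : ℕ) : PS k := ∏ i, (1 - XX k i)

theorem gsexch_prod_pairs {k : ℕ} {M : Type*} [CommMonoid M] (f : Fin k → Fin k → M) :
    ∏ i, ∏ j ∈ Ioi i, f i j = ∏ p : Fin k × Fin k, if p.1 < p.2 then f p.1 p.2 else 1 := by
  rw [Fintype.prod_prod_type]
  apply Finset.prod_congr rfl
  intro i _
  rw [← Finset.prod_filter]
  apply Finset.prod_congr _ (fun _ _ => rfl)
  ext j
  simp

theorem gsexch_constantCoeff_q {k : ℕ} (i j : Fin k) :
    MvPowerSeries.constantCoeff (gsexch_q i j) = 1 := by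
  simp [gsexch_q]

theorem gsexch_constantCoeff_Q (k : ℕ) :
    MvPowerSeries.constantCoeff (gsexch_Q k) = 1 := by
  rw [gsexch_Q, map_prod]
  apply Finset.prod_eq_one
  intro i _
  rw [map_prod]
  apply Finset.prod_eq_one
  intro j _
  exact gsexch_constantCoeff_q i j

theorem gsexch_constantCoeff_P (k : ℕ) :
    MvPowerSeries.constantCoeff (gsexch_P k) = 1 := by
  rw [gsexch_P, map_prod]
  apply Finset.prod_eq_one
  intro i _
  simp

theorem gsexch_ne_zero {k : ℕ} {φ : PS k} (h : MvPowerSeries.constantCoeff φ = 1) : φ ≠ 0 := by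
  rintro rfl
  simp at h

theorem gsexch_WG_mul (k N : ℕ) :
    WG k N * (gsexch_P k ^ N * gsexch_Q k) =
      (∏ i, (1 - 2 * XX k i)) * DD (fun i => uu (XX k i)) := by
  have hP : (gsexch_P k)⁻¹ * gsexch_P k = 1 :=
    MvPowerSeries.inv_mul_cancel _ (by rw [gsexch_constantCoeff_P]; exact one_ne_zero)
  have hQ : (gsexch_Q k)⁻¹ * gsexch_Q k = 1 :=
    MvPowerSeries.inv_mul_cancel _ (by rw [gsexch_constantCoeff_Q]; exact one_ne_zero)
  have h : WG k N = (∏ i, (1 - 2 * XX k i)) * DD (fun i => uu (XX k i)) *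
      (gsexch_P k)⁻¹ ^ N * (gsexch_Q k)⁻¹ := rfl
  rw [h]
  calc _ = (∏ i, (1 - 2 * XX k i)) * DD (fun i => uu (XX k i)) *
      ((gsexch_P k)⁻¹ * gsexch_P k) ^ N * ((gsexch_Q k)⁻¹ * gsexch_Q k) := by
        rw [mul_pow]; ring
    _ = _ := by rw [hP, hQ, one_pow, mul_one, mul_one]

theorem gsexch_uu_map {k : ℕ} (d e i : Fin k) :
    gsexch_ren d e (uu (XX k i)) = uu (XX k (Equiv.swap d e i)) := by
  rw [uu, uu, map_mul, map_sub, map_one, gsexch_ren_X]

theorem gsexch_q_map {k : ℕ} (d e i j : Fin k) :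
    gsexch_ren d e (gsexch_q i j) = gsexch_q (Equiv.swap d e i) (Equiv.swap d e j) := by
  rw [gsexch_q, gsexch_q, map_add, map_sub, map_mul, map_pow, map_one, gsexch_ren_X,
    gsexch_uu_map]

theorem gsexch_P_map {k : ℕ} (d e : Fin k) : gsexch_ren d e (gsexch_P k) = gsexch_P k := by
  rw [gsexch_P, map_prod, ← Equiv.prod_comp (Equiv.swap d e) (fun i => 1 - XX k i)]
  apply Finset.prod_congr rfl
  intro i _
  rw [map_sub, map_one, gsexch_ren_X]

theorem gsexch_num_map {k : ℕ} (d e : Fin k) (hde : d ≠ e) :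
    gsexch_ren d e ((∏ i, (1 - 2 * XX k i)) * DD (fun i => uu (XX k i))) =
      - ((∏ i, (1 - 2 * XX k i)) * DD (fun i => uu (XX k i))) := by
  have h1 : gsexch_ren d e (∏ i, (1 - 2 * XX k i)) = ∏ i, (1 - 2 * XX k i) := by
    rw [map_prod, ← Equiv.prod_comp (Equiv.swap d e) (fun i => 1 - 2 * XX k i)]
    apply Finset.prod_congr rfl
    intro i _
    rw [map_sub, map_one, map_mul, gsexch_ren_X, map_ofNat]
  have h2 : gsexch_ren d e (DD (fun i => uu (XX k i))) =
      DD (fun i => uu (XX k (Equiv.swap d e i))) := by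
    unfold DD
    rw [AlgEquiv.map_det]
    congr 1
    ext1 i j
    simp only [AlgEquiv.mapMatrix_apply, Matrix.map_apply, Matrix.of_apply, gg]
    rw [map_mul, map_pow, map_pow, map_sub, map_one, gsexch_uu_map]
  have h3 : DD (fun i => uu (XX k (Equiv.swap d e i))) = - DD (fun i => uu (XX k i)) := by
    have h4 := Matrix.det_permute (Equiv.swap d e)
      (Matrix.of fun i j : Fin k => gg k j (uu (XX k i)))
    rw [Equiv.Perm.sign_swap hde] at h4
    unfold DD
    refine Eq.trans ?_ (h4.trans ?_)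
    · rfl
    · simp
  rw [map_mul, h1, h2, h3]
  ring

theorem gsexch_swap_lt {k : ℕ} (d e : Fin k) (hde : (d : ℕ) + 1 = e) (i j : Fin k)
    (h1 : ¬ (i = d ∧ j = e)) (h2 : ¬ (i = e ∧ j = d)) :
    Equiv.swap d e i < Equiv.swap d e j ↔ i < j := by
  simp only [Equiv.swap_apply_def, Fin.lt_def, Fin.ext_iff] at *
  split_ifs <;> omega

theorem gsexch_Q_map {k : ℕ} (d e : Fin k) (hde : (d : ℕ) + 1 = e) :
    gsexch_ren d e (gsexch_Q k) * gsexch_q d e = gsexch_Q k * gsexch_q e d := by
  have hne : d ≠ e := by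
    rintro rfl
    omega
  have hlt : d < e := by rw [Fin.lt_def]; omega
  have h1 : gsexch_ren d e (gsexch_Q k) =
      ∏ p : Fin k × Fin k, if Equiv.swap d e p.1 < Equiv.swap d e p.2 then gsexch_q p.1 p.2
        else 1 := by
    rw [gsexch_Q, map_prod]
    simp only [map_prod, gsexch_q_map]
    rw [gsexch_prod_pairs (fun i j => gsexch_q (Equiv.swap d e i) (Equiv.swap d e j)),
      ← Equiv.prod_comp ((Equiv.swap d e).prodCongr (Equiv.swap d e))]
    apply Finset.prod_congr rfl
    intro p _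
    simp
  have h2 : gsexch_Q k =
      ∏ p : Fin k × Fin k, if p.1 < p.2 then gsexch_q p.1 p.2 else 1 := gsexch_prod_pairs _
  rw [h1, h2]
  have hmem1 : (d, e) ∈ (univ : Finset (Fin k × Fin k)) := mem_univ _
  have hmem2 : (e, d) ∈ (univ : Finset (Fin k × Fin k)).erase (d, e) := by
    simp [hne.symm]
  rw [← Finset.mul_prod_erase _ _ hmem1, ← Finset.mul_prod_erase _ _ hmem2,
    ← Finset.mul_prod_erase _ (fun p : Fin k × Fin k => if p.1 < p.2 then gsexch_q p.1 p.2
      else 1) hmem1, ← Finset.mul_prod_erase _ (fun p : Fin k × Fin k =>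
        if p.1 < p.2 then gsexch_q p.1 p.2 else 1) hmem2]
  have h3 : ∏ p ∈ ((univ : Finset (Fin k × Fin k)).erase (d, e)).erase (e, d),
      (if Equiv.swap d e p.1 < Equiv.swap d e p.2 then gsexch_q p.1 p.2 else 1)
      = ∏ p ∈ ((univ : Finset (Fin k × Fin k)).erase (d, e)).erase (e, d),
        (if p.1 < p.2 then gsexch_q p.1 p.2 else 1) := by
    apply Finset.prod_congr rfl
    intro p hp
    simp only [Finset.mem_erase, Finset.mem_univ, and_true] at hp
    have h4 := gsexch_swap_lt d e hde p.1 p.2 (fun h => hp.2 (Prod.ext h.1 h.2))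
      (fun h => hp.1 (Prod.ext h.1 h.2))
    simp only [h4]
  rw [h3]
  simp only [Equiv.swap_apply_left, Equiv.swap_apply_right, hlt, hlt.not_gt, if_true, if_false]
  ring

theorem gsexch_Q_rel {k : ℕ} (d e : Fin k) (hde : (d : ℕ) + 1 = e) :
    gsexch_ren d e (gsexch_Q k) * (1 - XX k d + XX k d * XX k e) =
      gsexch_Q k * (1 - XX k e + XX k d * XX k e) := by
  have h1 := gsexch_Q_map d e hde
  have hne : (1 - XX k d * XX k e : PS k) ≠ 0 := gsexch_ne_zero (by simp)
  apply mul_right_cancel₀ hne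
  have e1 : gsexch_q d e = (1 - XX k d + XX k d * XX k e) * (1 - XX k d * XX k e) := by
    rw [gsexch_q, uu]; ring
  have e2 : gsexch_q e d = (1 - XX k e + XX k d * XX k e) * (1 - XX k d * XX k e) := by
    rw [gsexch_q, uu]; ring
  rw [e1, e2] at h1
  rw [mul_assoc, mul_assoc]
  exact h1

theorem gsexch_antisymm {k : ℕ} (N : ℕ) (d e : Fin k) (hde : (d : ℕ) + 1 = e) :
    gsexch_ren d e ((1 - XX k d + XX k d * XX k e) * WG k N) =
      - ((1 - XX k d + XX k d * XX k e) * WG k N) := by
  have hne : d ≠ e := by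
    rintro rfl
    omega
  have h1 := gsexch_WG_mul k N
  have h2 := congrArg (gsexch_ren d e) h1
  rw [gsexch_num_map d e hne, ← h1, map_mul, map_mul, map_pow, gsexch_P_map] at h2
  have h3 := gsexch_Q_rel d e hde
  have hc : MvPowerSeries.constantCoeff (gsexch_ren d e (gsexch_Q k)) = 1 := by
    have := MvPowerSeries.constantCoeff_rename (R := ℚ) (Equiv.swap d e) (gsexch_Q k)
    rw [gsexch_constantCoeff_Q] at this
    exact this
  have hnz : gsexch_P k ^ N * gsexch_Q k * gsexch_ren d e (gsexch_Q k) ≠ 0 := by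
    apply gsexch_ne_zero
    rw [map_mul, map_mul, map_pow, hc, gsexch_constantCoeff_P, gsexch_constantCoeff_Q]
    simp
  apply mul_left_cancel₀ hnz
  rw [map_mul, map_add, map_sub, map_one, map_mul, gsexch_ren_X, gsexch_ren_X,
    Equiv.swap_apply_left, Equiv.swap_apply_right]
  calc gsexch_P k ^ N * gsexch_Q k * gsexch_ren d e (gsexch_Q k) *
        ((1 - XX k e + XX k e * XX k d) * gsexch_ren d e (WG k N))
      = (gsexch_Q k * (1 - XX k e + XX k d * XX k e)) *
        (gsexch_ren d e (WG k N) * (gsexch_P k ^ N * gsexch_ren d e (gsexch_Q k))) := by ring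
    _ = (gsexch_ren d e (gsexch_Q k) * (1 - XX k d + XX k d * XX k e)) *
        (-(WG k N * (gsexch_P k ^ N * gsexch_Q k))) := by rw [← h3, h2]
    _ = _ := by ring

/-- exchange -/
theorem gs_exchange {k : ℕ} (N : ℕ) (x : Fin k → ℤ) (d e : Fin k) (hde : (d : ℕ) + 1 = e)
    (c : ℤ) :
    cf (WG k N) (update (update x d c) e c) - cf (WG k N) (update (update x d (c - 1)) e c) +
      cf (WG k N) (update (update x d (c - 1)) e (c - 1)) = 0 := by
  have hne : d ≠ e := by
    rintro rfl
    omega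
  have h1 := gsexch_cf_zero d e _ (gsexch_antisymm N d e hde) (update (update x d c) e c)
    (by simp [update_of_ne hne])
  have h2 : (1 - XX k d + XX k d * XX k e) * WG k N =
      WG k N - XX k d * WG k N + XX k d * (XX k e * WG k N) := by ring
  rw [h2, gsexch_cf_add, gsexch_cf_sub, gsexch_cf_X_mul, gsexch_cf_X_mul, gsexch_cf_X_mul] at h1
  have h3 : update (update (update x d c) e c) d (update (update x d c) e c d - 1) =
      update (update x d (c - 1)) e c := by
    rw [update_of_ne hne, update_self, update_comm hne.symm, update_idem]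
  have h4 : update (update (update x d (c - 1)) e c) e (update (update x d (c - 1)) e c e - 1) =
      update (update x d (c - 1)) e (c - 1) := by
    rw [update_self, update_idem]
  rw [h3, h4] at h1
  exact h1

/-! ### initial condition -/

theorem gsexch_sign_rev (k : ℕ) :
    Equiv.Perm.sign (Fin.revPerm (n := k)) = (-1) ^ (k * (k - 1) / 2) := by
  rw [Equiv.Perm.sign_eq_prod_prod_Iio]
  have h1 : ∀ j : Fin k, ∏ i ∈ Iio j, (if Fin.revPerm i < Fin.revPerm j then (1 : ℤˣ) else -1)
      = (-1) ^ (j : ℕ) := by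
    intro j
    rw [Finset.prod_congr rfl (g := fun _ => (-1 : ℤˣ)), Finset.prod_const, Fin.card_Iio]
    intro i hi
    rw [Finset.mem_Iio] at hi
    rw [if_neg]
    simp only [Fin.revPerm_apply, Fin.rev_lt_rev]
    exact hi.not_gt
  rw [Finset.prod_congr rfl (fun j _ => h1 j), Finset.prod_pow_eq_pow_sum]
  congr 1
  rw [Fin.sum_univ_eq_sum_range (fun i => i) k, Finset.sum_range_id]

theorem gsexch_prod_X_pow {k : ℕ} (m : Fin k → ℕ) :
    ∏ i, XX k i ^ m i = MvPowerSeries.monomial (Finsupp.equivFunOnFinite.symm m) (1 : ℚ) := by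
  rw [MvPowerSeries.monomial_one_eq, Finsupp.prod_fintype]
  · rfl
  · intro i; rw [pow_zero]

/-- expansion of `DD` -/
theorem gsexch_DD_expand (k : ℕ) :
    ∃ E : Equiv.Perm (Fin k) → PS k, (∀ σ, MvPowerSeries.constantCoeff (E σ) = 1) ∧
      DD (fun i => uu (XX k i)) = ∑ σ : Equiv.Perm (Fin k),
        ((Equiv.Perm.sign σ : ℤ) : PS k) *
          (MvPowerSeries.monomial (Finsupp.equivFunOnFinite.symm
            fun i => k - 1 - ((σ⁻¹ i : Fin k) : ℕ)) (1 : ℚ) * E σ) := by
  refine ⟨fun σ => ∏ i : Fin k, ((1 - uu (XX k (σ i))) ^ (3 * ((i : ℕ) / 2)) *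
    (1 - XX k (σ i)) ^ (k - 1 - (i : ℕ))), fun σ => ?_, ?_⟩
  · rw [map_prod]
    apply Finset.prod_eq_one
    intro i _
    simp [uu]
  · rw [DD, Matrix.det_apply']
    apply Finset.sum_congr rfl
    intro σ _
    congr 1
    rw [← gsexch_prod_X_pow,
      ← Equiv.prod_comp σ (fun i => XX k i ^ (k - 1 - ((σ⁻¹ i : Fin k) : ℕ))),
      ← Finset.prod_mul_distrib]
    apply Finset.prod_congr rfl
    intro i _
    have hσi : σ⁻¹ (σ i) = i := by simp
    simp only [Matrix.of_apply, gg, hσi]
    rw [show uu (XX k (σ i)) ^ (k - 1 - (i : ℕ)) = XX k (σ i) ^ (k - 1 - (i : ℕ)) *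
      (1 - XX k (σ i)) ^ (k - 1 - (i : ℕ)) by rw [uu, mul_pow]]
    ring

/-- initial condition -/
theorem gs_init {k : ℕ} (l : Fin k → ℕ) :
    cf (WG k (k + 1)) (fun d => ((d : ℕ) : ℤ) - l d) =
      if l = 0 then (-1) ^ (k * (k - 1) / 2) else 0 := by
  classical
  by_cases hl : ∀ d, l d ≤ (d : ℕ)
  · have hx : ∀ d : Fin k, 0 ≤ ((d : ℕ) : ℤ) - l d := fun d => by
      have := hl d
      omega
    rw [gsexch_cf_nonneg _ _ hx]
    set ν : Fin k →₀ ℕ := Finsupp.equivFunOnFinite.symm fun d : Fin k =>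
      (((d : ℕ) : ℤ) - l d).toNat with hν
    have hνd : ∀ d, ν d = (d : ℕ) - l d := by
      intro d
      rw [hν]
      simp only [Finsupp.equivFunOnFinite_symm_apply_apply]
      omega
    obtain ⟨E, hE, hDD⟩ := gsexch_DD_expand k
    set E0 : PS k := (∏ i, (1 - 2 * XX k i)) * ((∏ i, (1 - XX k i))⁻¹) ^ (k + 1) *
      (∏ i, ∏ j ∈ Ioi i, (1 - XX k i + XX k i ^ 2 * uu (XX k j)))⁻¹ with hE0
    have hE0c : MvPowerSeries.constantCoeff E0 = 1 := by
      have hP := gsexch_constantCoeff_P k
      have hQ := gsexch_constantCoeff_Q k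
      rw [gsexch_P] at hP
      unfold gsexch_Q gsexch_q at hQ
      rw [hE0, map_mul, map_mul, map_pow, MvPowerSeries.constantCoeff_inv,
        MvPowerSeries.constantCoeff_inv, hP, hQ, map_prod]
      rw [Finset.prod_eq_one]
      · simp
      · intro i _
        simp
    have hWG : WG k (k + 1) = ∑ σ : Equiv.Perm (Fin k),
        MvPowerSeries.monomial (Finsupp.equivFunOnFinite.symm
            fun i => k - 1 - ((σ⁻¹ i : Fin k) : ℕ)) (1 : ℚ) *
          (((Equiv.Perm.sign σ : ℤ) : PS k) * (E σ * E0)) := by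
      have h0 : WG k (k + 1) = DD (fun i => uu (XX k i)) * E0 := by
        rw [WG, hE0]; ring
      rw [h0, hDD, Finset.sum_mul]
      apply Finset.sum_congr rfl
      intro σ _
      ring
    rw [hWG, map_sum]
    simp only [MvPowerSeries.coeff_monomial_mul, one_mul]
    -- the key comparison
    have key : ∀ σ : Equiv.Perm (Fin k), (Finsupp.equivFunOnFinite.symm
        fun i => k - 1 - ((σ⁻¹ i : Fin k) : ℕ)) ≤ ν →
          (∀ i, k - 1 - ((σ⁻¹ i : Fin k) : ℕ) = (i : ℕ)) ∧ l = 0 := by
      intro σ hσ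
      have h1 : ∀ i : Fin k, k - 1 - ((σ⁻¹ i : Fin k) : ℕ) ≤ (i : ℕ) - l i := by
        intro i
        have := hσ i
        rw [hνd] at this
        simpa using this
      have h2 : ∑ i : Fin k, (k - 1 - ((σ⁻¹ i : Fin k) : ℕ)) = ∑ i : Fin k, (i : ℕ) := by
        rw [Equiv.sum_comp σ⁻¹ (fun i : Fin k => k - 1 - (i : ℕ)),
          ← Equiv.sum_comp Fin.revPerm (fun i : Fin k => (i : ℕ))]
        apply Finset.sum_congr rfl
        intro i _
        simp only [Fin.revPerm_apply, Fin.val_rev]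
        omega
      have h3 : ∀ i : Fin k, k - 1 - ((σ⁻¹ i : Fin k) : ℕ) = (i : ℕ) := by
        have h4 := (Finset.sum_eq_sum_iff_of_le (s := univ)
          (f := fun i : Fin k => k - 1 - ((σ⁻¹ i : Fin k) : ℕ)) (g := fun i : Fin k => (i : ℕ))
          (fun i _ => (h1 i).trans (Nat.sub_le _ _))).1 h2
        exact fun i => h4 i (mem_univ _)
      refine ⟨h3, ?_⟩
      ext i
      have h5 := h1 i
      rw [h3 i] at h5
      have h6 := hl i
      simp only [Pi.zero_apply]
      omega
    by_cases hl0 : l = 0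
    · rw [if_pos hl0, Finset.sum_eq_single (Fin.revPerm (n := k))]
      · have h7 : (Finsupp.equivFunOnFinite.symm
            fun i => k - 1 - (((Fin.revPerm (n := k))⁻¹ i : Fin k) : ℕ)) = ν := by
          ext i
          rw [hνd, hl0]
          simp only [Finsupp.equivFunOnFinite_symm_apply_apply, Pi.zero_apply]
          have : ((Fin.revPerm (n := k))⁻¹ i : Fin k) = i.rev := by
            rw [Equiv.Perm.inv_def, Fin.revPerm_symm]
            rfl
          rw [this, Fin.val_rev]
          omega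
        rw [h7, if_pos le_rfl, tsub_self, MvPowerSeries.coeff_zero_eq_constantCoeff_apply,
          map_mul, map_mul, hE, hE0c, gsexch_sign_rev]
        simp
      · intro σ _ hσ
        rw [if_neg]
        intro hle
        apply hσ
        have h8 := (key σ hle).1
        have h9 : σ⁻¹ = Fin.revPerm := by
          ext i
          have h10 := h8 i
          rw [Fin.revPerm_apply, Fin.val_rev]
          have h11 := (σ⁻¹ i).2
          omega
        rw [← inv_inv σ, h9, Equiv.Perm.inv_def, Fin.revPerm_symm]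
      · intro h; exact absurd (mem_univ _) h
    · rw [if_neg hl0]
      apply Finset.sum_eq_zero
      intro σ _
      rw [if_neg]
      intro hle
      exact hl0 (key σ hle).2
  · push Not at hl
    obtain ⟨d, hd⟩ := hl
    rw [gsexch_cf_neg _ _ d (by omega), if_neg]
    rintro rfl
    simp at hd

end Pool.Agent.Lib.MP_b6786a_co.Zeil
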