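import Pool.Agent.Lib.MP_b6786a_co.Zeil.GogFormOf
import Pool.Agent.Lib.MP_b6786a_co.Zeil.GSExch
import Pool.Agent.Lib.MP_b6786a_co.Zeil.GSBound

/-!
# Zeilberger's theorem for trapezoids: the Gog formula

-/

set_option autoImplicit false

namespace Pool.Agent.Lib.MP_b6786a_co.Zeil

open Finset Function

theorem gog_formula {k : ℕ} (hk : 0 < k) (m : ℕ) (l : Fin k → ℕ) (hl : Antitone l) :
    (cntG m l : ℚ) = (-1) ^ (k * (k - 1) / 2) *
      cf (WG k (k + 1 + m)) (fun d => (m : ℤ) + (d : ℕ) - l d) :=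
  gog_formula_of gs_exchange gs_init gs_boundary hk m l hl

end Pool.Agent.Lib.MP_b6786a_co.Zeil
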