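import Pool.Agent.Lib.MP_b6786a_co.Zeil.Transfer

/-!
# Zeilberger's theorem for trapezoids: the Gog formula

`gog_formula_of` derives the Gog formula from the statements `gs_exchange`, `gs_init` and
`gs_boundary`.
-/

set_option autoImplicit false

namespace Pool.Agent.Lib.MP_b6786a_co.Zeil

open Finset Function

theorem gogform_cf_add {k : ℕ} (φ ψ : PS k) (x : Fin k → ℤ) :
    cf (φ - ψ) x = cf φ x - cf ψ x := by
  unfold cf
  split_ifs
  · rw [map_sub]
  · simp

theorem gogform_cf_mul_X {k : ℕ} (φ : PS k) (i : Fin k) (x : Fin k → ℤ) :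
    cf (φ * XX k i) x = cf φ (fun d => x d - if d = i then 1 else 0) := by
  classical
  unfold cf XX
  by_cases h : ∀ d, 0 ≤ x d
  · rw [if_pos h]
    by_cases hi : 1 ≤ x i
    · rw [if_pos]
      · have e : (Finsupp.equivFunOnFinite.symm fun d => (x d).toNat) =
            (Finsupp.equivFunOnFinite.symm fun d => (x d - if d = i then 1 else 0).toNat) +
              Finsupp.single i 1 := by
          ext d
          simp only [Finsupp.equivFunOnFinite_symm_apply_apply, Finsupp.coe_add, Pi.add_apply,
            Finsupp.single_apply]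
          by_cases hd : d = i
          · subst hd
            simp
            omega
          · have hd' : ¬ i = d := fun h => hd h.symm
            simp [hd, hd']
        rw [e, MvPowerSeries.X_def, MvPowerSeries.coeff_add_mul_monomial, mul_one]
      · intro d
        have := h d
        show 0 ≤ x d - if d = i then 1 else 0
        split_ifs with hd
        · subst hd; omega
        · omega
    · have hxi : x i = 0 := by have := h i; omega
      rw [if_neg, MvPowerSeries.X_def, MvPowerSeries.coeff_mul_monomial, if_neg]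
      · intro hle
        have := hle i
        simp [hxi] at this
      · intro hcon
        have := hcon i
        simp [hxi] at this
  · rw [if_neg h, if_neg]
    intro hcon
    apply h
    intro d
    have h1 : 0 ≤ x d - if d = i then 1 else 0 := hcon d
    split_ifs at h1 <;> omega

theorem gogform_cf_mul_prod {k : ℕ} (φ : PS k) (s : Finset (Fin k)) : ∀ (x : Fin k → ℤ),
    cf (φ * ∏ i ∈ s, (1 - XX k i)) x =
      ∑ T ∈ s.powerset, (-1) ^ T.card * cf φ (fun d => x d - if d ∈ T then 1 else 0) := by
  classical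
  induction s using Finset.induction_on with
  | empty => intro x; simp
  | insert a s ha ih =>
    intro x
    rw [Finset.prod_insert ha, Finset.sum_powerset_insert ha, ← ih x]
    have e1 : φ * ((1 - XX k a) * ∏ i ∈ s, (1 - XX k i)) =
        φ * (∏ i ∈ s, (1 - XX k i)) - (φ * ∏ i ∈ s, (1 - XX k i)) * XX k a := by ring
    rw [e1, gogform_cf_add, gogform_cf_mul_X, ih, ih, sub_eq_add_neg, ← Finset.sum_neg_distrib]
    congr 1
    refine Finset.sum_congr rfl fun T hT => ?_
    have haT : a ∉ T := fun h => ha (Finset.mem_powerset.mp hT h)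
    rw [Finset.card_insert_of_notMem haT, pow_succ, mul_neg_one, neg_mul]
    congr 3
    funext d
    by_cases hd : d = a
    · subst hd
      simp [haT]
    · simp [hd]

theorem gogform_WG (k N : ℕ) : WG k N = WG k (N + 1) * ∏ i, (1 - XX k i) := by
  have h : ((∏ i, (1 - XX k i))⁻¹ : PS k) * ∏ i, (1 - XX k i) = 1 := by
    apply MvPowerSeries.inv_mul_cancel
    rw [map_prod]
    simp
  unfold WG
  rw [pow_succ]
  linear_combination (-((∏ i, (1 - 2 * XX k i)) * DD (fun i => uu (XX k i)) *
    ((∏ i, (1 - XX k i))⁻¹) ^ N *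
    (∏ i, ∏ j ∈ Ioi i, (1 - XX k i + XX k i ^ 2 * uu (XX k j)))⁻¹)) * h

theorem gogform_dF {k : ℕ} (N : ℕ) (c : Fin k → ℤ) (y : Fin k → ℤ) :
    dF (fun y => cf (WG k (N + 1)) (fun d => c d - y d)) y = cf (WG k N) (fun d => c d - y d) := by
  rw [gogform_WG k N, gogform_cf_mul_prod, Finset.powerset_univ]
  unfold dF
  refine Finset.sum_congr rfl fun T _ => ?_
  have e : (fun d => c d - (y d + if d ∈ T then 1 else 0)) =
      fun d => c d - y d - if d ∈ T then 1 else 0 := by
    funext d
    ring
  beta_reduce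
  rw [e]

theorem gog_formula_of
    (gs_exchange : ∀ {k : ℕ} (N : ℕ) (x : Fin k → ℤ) (d e : Fin k), (d : ℕ) + 1 = e → ∀ c : ℤ,
      cf (WG k N) (update (update x d c) e c) - cf (WG k N) (update (update x d (c - 1)) e c) +
        cf (WG k N) (update (update x d (c - 1)) e (c - 1)) = 0)
    (gs_init : ∀ {k : ℕ} (l : Fin k → ℕ), cf (WG k (k + 1)) (fun d => ((d : ℕ) : ℤ) - l d) =
      if l = 0 then (-1) ^ (k * (k - 1) / 2) else 0)
    (gs_boundary : ∀ {k : ℕ} (hk : 0 < k) (N : ℕ), k + 1 ≤ N → ∀ x : Fin k → ℤ,
      (∀ d : Fin k, (d : ℕ) + 1 < k → x d ≤ (N : ℤ) - 2) →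
      x ⟨k - 1, by omega⟩ = (N : ℤ) - 1 → cf (WG k N) x = 0)
    {k : ℕ} (hk : 0 < k) (m : ℕ) (l : Fin k → ℕ) (hl : Antitone l) :
    (cntG m l : ℚ) = (-1) ^ (k * (k - 1) / 2) *
      cf (WG k (k + 1 + m)) (fun d => (m : ℤ) + (d : ℕ) - l d) := by
  classical
  induction m generalizing l with
  | zero =>
    have h := gs_init l
    simp only [Nat.cast_zero, zero_add, add_zero]
    rw [h]
    unfold cntG
    split_ifs
    · rw [Nat.cast_one, ← mul_pow]
      norm_num
    · simp
  | succ m ih =>
    have ht := transfer hk m (fun y => cf (WG k (k + 1 + m + 1)) (fun d => ((m : ℤ) + (d : ℕ)) - y d))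
      ?_ ?_ ?_ l hl
    · simp only [cntG]
      rw [Nat.cast_sum]
      have e1 : ∑ l' ∈ (Fintype.piFinset fun _ : Fin k => range (m + 1)).filter (stepG l),
          (cntG m l' : ℚ) = ∑ l' ∈ (Fintype.piFinset fun _ : Fin k => range (m + 1)).filter (stepG l),
          (-1) ^ (k * (k - 1) / 2) *
            dF (fun y => cf (WG k (k + 1 + m + 1)) (fun d => ((m : ℤ) + (d : ℕ)) - y d))
              (fun d => (l' d : ℤ)) := by
        refine Finset.sum_congr rfl fun l' hl' => ?_
        rw [gogform_dF, ih l' (Finset.mem_filter.mp hl').2.1]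
      rw [e1, ← Finset.mul_sum, ht]
      congr 3
      funext d
      push_cast
      ring
    · rintro x ⟨d, hd⟩
      unfold cf
      rw [if_neg]
      intro hcon
      have h5 : 0 ≤ ((m : ℤ) + (d : ℕ)) - x d := hcon d
      omega
    · intro x d e hde a
      have hne : d ≠ e := by rintro rfl; omega
      have h := gs_exchange (k + 1 + m + 1) (fun i : Fin k => ((m : ℤ) + (i : ℕ)) - x i) d e hde
        ((m : ℤ) + (d : ℕ) + 1 - a)
      have e1 : ∀ p q : ℤ, (fun i : Fin k => ((m : ℤ) + (i : ℕ)) - update (update x d p) e q i) =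
          update (update (fun i : Fin k => ((m : ℤ) + (i : ℕ)) - x i) d ((m : ℤ) + (d : ℕ) - p)) e
            ((m : ℤ) + (e : ℕ) - q) := by
        intro p q
        funext i
        by_cases hi : i = e
        · subst hi; simp
        · by_cases hi' : i = d
          · subst hi'; simp [hi]
          · simp [hi, hi']
      simp only [e1]
      have h1 : (m : ℤ) + (d : ℕ) - (a - 1) = (m : ℤ) + (d : ℕ) + 1 - a := by ring
      have h2 : (m : ℤ) + (e : ℕ) - a = (m : ℤ) + (d : ℕ) + 1 - a := by rw [← hde]; push_cast; ring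
      have h3 : (m : ℤ) + (d : ℕ) - a = (m : ℤ) + (d : ℕ) + 1 - a - 1 := by ring
      have h4 : (m : ℤ) + (e : ℕ) - (a + 1) = (m : ℤ) + (d : ℕ) + 1 - a - 1 := by
        rw [← hde]; push_cast; ring
      rw [h1, h2, h3, h4]
      exact h
    · intro x hx hlast
      rw [gogform_dF]
      refine gs_boundary hk (k + 1 + m) (by omega) _ ?_ ?_
      · intro d hd
        have := hx d
        push_cast
        omega
      · simp only [hlast]
        push_cast
        omega

end Pool.Agent.Lib.MP_b6786a_co.Zeil
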