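import Pool.Agent.Lib.MP_b6786a_co.Zeil.Basic

/-!
# The iterated Laurent field: supports, inverses and residues
-/

set_option autoImplicit false

namespace Pool.Agent.Lib.MP_b6786a_co.Zeil

open Finset

section gen

variable {Γ : Type*} [AddCommGroup Γ] [LinearOrder Γ] [IsOrderedAddMonoid Γ]

/-- support of the inverse -/
theorem inv_supp (M : AddSubmonoid Γ) {y : HahnSeries Γ ℚ} (hy : y ≠ 0)
    (h : ∀ e, y.coeff e ≠ 0 → e - y.order ∈ M) :
    ∀ e, (y⁻¹).coeff e ≠ 0 → e + y.order ∈ M := by
  intro e he
  rw [HahnSeries.inv_def] at he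
  set x := 1 - HahnSeries.single (-y.order) (y.leadingCoeff)⁻¹ * y with hx
  have hpos : 0 < x.orderTop :=
    HahnSeries.unit_aux y (inv_mul_cancel₀ (HahnSeries.leadingCoeff_ne_zero.mpr hy)) _
      (neg_add_cancel y.order)
  have hsx : ∀ e, x.coeff e ≠ 0 → e ∈ M := by
    intro e he
    by_cases h0 : e = 0
    · subst h0; exact M.zero_mem
    · have h1 : x.coeff e = - ((y.leadingCoeff)⁻¹ * y.coeff (e + y.order)) := by
        rw [hx, HahnSeries.coeff_sub, HahnSeries.coeff_one, if_neg h0, HahnSeries.coeff_single_mul,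
          zero_sub, sub_neg_eq_add]
      have h2 : y.coeff (e + y.order) ≠ 0 := by
        intro h3; apply he; rw [h1, h3]; simp
      have := h _ h2
      simpa using this
  rw [HahnSeries.coeff_single_mul, sub_neg_eq_add] at he
  have h3 : (HahnSeries.SummableFamily.powers x).hsum.coeff (e + y.order) ≠ 0 := by
    intro h4; apply he; rw [h4]; simp
  have h4 := HahnSeries.SummableFamily.support_hsum_subset
    (s := HahnSeries.SummableFamily.powers x) (HahnSeries.mem_support _ _ |>.mpr h3)
  obtain ⟨n, hn⟩ := Set.mem_iUnion.mp h4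
  rw [HahnSeries.SummableFamily.powers_of_orderTop_pos hpos] at hn
  have h5 := HahnSeries.SummableFamily.support_pow_subset_closure x n hn
  have h6 : AddSubmonoid.closure (HahnSeries.support x) ≤ M := by
    rw [AddSubmonoid.closure_le]
    intro g hg
    exact hsx g hg
  exact h6 h5

/-- support of the product -/
theorem mul_supp {x y : HahnSeries Γ ℚ} {e : Γ} (h : (x * y).coeff e ≠ 0) :
    ∃ i j, x.coeff i ≠ 0 ∧ y.coeff j ≠ 0 ∧ i + j = e := by
  obtain ⟨i, hi, j, hj, rfl⟩ := HahnSeries.support_mul_subset (HahnSeries.mem_support _ _ |>.mpr h)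
  exact ⟨i, j, hi, hj, rfl⟩

end gen

variable {k : ℕ}

/-- the `a`-th exponent -/
def ex (e : Ex k) (a : Fin k) : ℤ := ofLex e a

@[simp] theorem ex_zero (a : Fin k) : ex (0 : Ex k) a = 0 := rfl
@[simp] theorem ex_add (e f : Ex k) (a : Fin k) : ex (e + f) a = ex e a + ex f a := rfl
@[simp] theorem ex_neg (e : Ex k) (a : Fin k) : ex (-e) a = - ex e a := rfl
@[simp] theorem ex_sub (e f : Ex k) (a : Fin k) : ex (e - f) a = ex e a - ex f a := rfl
@[simp] theorem ex_toLex (f : Fin k → ℤ) (a : Fin k) : ex (toLex f) a = f a := rfl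

theorem ex_ee (a b : Fin k) : ex (ee k a) b = if b = a then 1 else 0 := by
  rw [ee, ex_toLex, Pi.single_apply]

/-- all exponents of `a` in `x` are `≥ c` -/
def Pge (a : Fin k) (c : ℤ) (x : LL k) : Prop := ∀ e, x.coeff e ≠ 0 → c ≤ ex e a

/-- all exponents of `a` in `x` are `≤ c` -/
def Ple (a : Fin k) (c : ℤ) (x : LL k) : Prop := ∀ e, x.coeff e ≠ 0 → ex e a ≤ c

namespace Pge

variable {a : Fin k} {c c' : ℤ} {x y : LL k}

theorem mono (h : Pge a c x) (hc : c' ≤ c) : Pge a c' x := fun e he => hc.trans (h e he)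

theorem zero : Pge a c (0 : LL k) := fun e he => by simp at he

theorem add (hx : Pge a c x) (hy : Pge a c y) : Pge a c (x + y) := by
  intro e he
  rw [HahnSeries.coeff_add] at he
  by_cases h : x.coeff e = 0
  · exact hy e (by simpa [h] using he)
  · exact hx e h

theorem neg (hx : Pge a c x) : Pge a c (-x) := by
  intro e he
  rw [HahnSeries.coeff_neg] at he
  exact hx e (by simpa using he)

theorem sub (hx : Pge a c x) (hy : Pge a c y) : Pge a c (x - y) := by
  rw [sub_eq_add_neg]; exact hx.add hy.neg

theorem mul (hx : Pge a c x) (hy : Pge a c' y) : Pge a (c + c') (x * y) := by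
  intro e he
  obtain ⟨i, j, hi, hj, rfl⟩ := mul_supp he
  exact add_le_add (hx i hi) (hy j hj)

theorem mul0 (hx : Pge a 0 x) (hy : Pge a 0 y) : Pge a 0 (x * y) := by
  simpa using hx.mul hy

theorem one : Pge a 0 (1 : LL k) := by
  intro e he
  rw [HahnSeries.coeff_one] at he
  have : e = 0 := by by_contra h; simp [h] at he
  subst this; simp

theorem pow0 (hx : Pge a 0 x) (n : ℕ) : Pge a 0 (x ^ n) := by
  induction n with
  | zero => simpa using one
  | succ n ih => rw [pow_succ]; exact ih.mul0 hx

theorem prod0 {ι : Type*} (s : Finset ι) (f : ι → LL k) (h : ∀ i ∈ s, Pge a 0 (f i)) :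
    Pge a 0 (∏ i ∈ s, f i) := by
  classical
  induction s using Finset.induction_on with
  | empty => simpa using one
  | insert i s hi ih =>
      rw [Finset.prod_insert hi]
      exact (h i (by simp)).mul0 (ih fun j hj => h j (by simp [hj]))

theorem sum0 {ι : Type*} (s : Finset ι) (f : ι → LL k) (h : ∀ i ∈ s, Pge a c (f i)) :
    Pge a c (∑ i ∈ s, f i) := by
  classical
  induction s using Finset.induction_on with
  | empty => simpa using zero
  | insert i s hi ih =>
      rw [Finset.sum_insert hi]
      exact (h i (by simp)).add (ih fun j hj => h j (by simp [hj]))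

end Pge

namespace Ple

variable {a : Fin k} {c c' : ℤ} {x y : LL k}

theorem mono (h : Ple a c x) (hc : c ≤ c') : Ple a c' x := fun e he => (h e he).trans hc

theorem zero : Ple a c (0 : LL k) := fun e he => by simp at he

theorem add (hx : Ple a c x) (hy : Ple a c y) : Ple a c (x + y) := by
  intro e he
  rw [HahnSeries.coeff_add] at he
  by_cases h : x.coeff e = 0
  · exact hy e (by simpa [h] using he)
  · exact hx e h

theorem neg (hx : Ple a c x) : Ple a c (-x) := by
  intro e he
  rw [HahnSeries.coeff_neg] at he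
  exact hx e (by simpa using he)

theorem sub (hx : Ple a c x) (hy : Ple a c y) : Ple a c (x - y) := by
  rw [sub_eq_add_neg]; exact hx.add hy.neg

theorem mul (hx : Ple a c x) (hy : Ple a c' y) : Ple a (c + c') (x * y) := by
  intro e he
  obtain ⟨i, j, hi, hj, rfl⟩ := mul_supp he
  exact add_le_add (hx i hi) (hy j hj)

theorem one : Ple a 0 (1 : LL k) := by
  intro e he
  rw [HahnSeries.coeff_one] at he
  have : e = 0 := by by_contra h; simp [h] at he
  subst this; simp

theorem pow (hx : Ple a c x) (n : ℕ) : Ple a (n * c) (x ^ n) := by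
  induction n with
  | zero => simpa using one
  | succ n ih =>
      rw [pow_succ]
      exact (ih.mul hx).mono (by push_cast; linarith)

theorem prod {ι : Type*} (s : Finset ι) (f : ι → LL k) (h : ∀ i ∈ s, Ple a c (f i)) :
    Ple a (s.card * c) (∏ i ∈ s, f i) := by
  classical
  induction s using Finset.induction_on with
  | empty => simpa using one
  | insert i s hi ih =>
      rw [Finset.prod_insert hi, Finset.card_insert_of_notMem hi]
      refine ((h i (by simp)).mul (ih fun j hj => h j (by simp [hj]))).mono ?_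
      push_cast; linarith

end Ple

/-- the subfield of elements free of the variables in `A` -/
noncomputable def Kf (A : Set (Fin k)) : Subfield (LL k) where
  carrier := {x | ∀ e, x.coeff e ≠ 0 → ∀ a ∈ A, ex e a = 0}
  mul_mem' := by
    intro x y hx hy e he a ha
    obtain ⟨i, j, hi, hj, rfl⟩ := mul_supp he
    have h1 := hx i hi a ha
    have h2 := hy j hj a ha
    simp [h1, h2]
  one_mem' := by
    intro e he a ha
    rw [HahnSeries.coeff_one] at he
    have : e = 0 := by by_contra h; simp [h] at he
    subst this; simp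
  add_mem' := by
    intro x y hx hy e he a ha
    rw [HahnSeries.coeff_add] at he
    by_cases h : x.coeff e = 0
    · exact hy e (by simpa [h] using he) a ha
    · exact hx e h a ha
  zero_mem' := by intro e he; simp at he
  neg_mem' := by
    intro x hx e he a ha
    rw [HahnSeries.coeff_neg] at he
    exact hx e (by simpa using he) a ha
  inv_mem' := by
    intro x hx e he a ha
    by_cases h0 : x = 0
    · subst h0; simp at he
    let M : AddSubmonoid (Ex k) :=
      { carrier := {e | ∀ a ∈ A, ex e a = 0}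
        zero_mem' := by intro a _; simp
        add_mem' := by
          intro x y hx hy a ha
          simp [hx a ha, hy a ha] }
    have hord : x.order ∈ M := fun a ha => hx x.order (by
      rw [Ne, HahnSeries.coeff_order_eq_zero]; exact h0) a ha
    have := inv_supp M h0 (fun e he a ha => by
      have h1 := hx e he a ha
      have h2 := hord a ha
      simp [h1, h2]) e he a ha
    have h2 := hord a ha
    simpa [h2] using this

theorem mem_Kf {A : Set (Fin k)} {x : LL k} :
    x ∈ Kf A ↔ ∀ e, x.coeff e ≠ 0 → ∀ a ∈ A, ex e a = 0 := Iff.rfl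

theorem Kf_mono {A B : Set (Fin k)} (h : A ⊆ B) : Kf B ≤ Kf A :=
  fun _ hx e he a ha => hx e he a (h ha)

theorem Pge.of_Kf {A : Set (Fin k)} {x : LL k} (hx : x ∈ Kf A) {a : Fin k} (ha : a ∈ A) :
    Pge a 0 x := fun e he => (hx e he a ha).ge

theorem Ple.of_Kf {A : Set (Fin k)} {x : LL k} (hx : x ∈ Kf A) {a : Fin k} (ha : a ∈ A) :
    Ple a 0 x := fun e he => (hx e he a ha).le

/-! ### the residue -/

theorem res_add (x y : LL k) : res (x + y) = res x + res y := by simp [res]

theorem res_sub (x y : LL k) : res (x - y) = res x - res y := by simp [res]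

theorem res_neg (x : LL k) : res (-x) = - res x := by simp [res]

theorem res_zero : res (0 : LL k) = 0 := by simp [res]

theorem res_sum {ι : Type*} (s : Finset ι) (f : ι → LL k) :
    res (∑ i ∈ s, f i) = ∑ i ∈ s, res (f i) := by
  classical
  induction s using Finset.induction_on with
  | empty => simp [res_zero]
  | insert i s hi ih => rw [Finset.sum_insert hi, Finset.sum_insert hi, res_add, ih]

theorem res_natCast_mul (n : ℕ) (x : LL k) : res ((n : LL k) * x) = n * res x := by
  induction n with
  | zero => simp [res_zero]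
  | succ n ih => push_cast; rw [add_mul, one_mul, res_add, ih]; ring

theorem res_of_Pge {a : Fin k} {c : ℤ} {x : LL k} (h : Pge a c x) (hc : 0 ≤ c) : res x = 0 := by
  by_contra hne
  have := h _ hne
  simp at this
  omega

theorem res_of_Ple {a : Fin k} {c : ℤ} {x : LL k} (h : Ple a c x) (hc : c ≤ -2) : res x = 0 := by
  by_contra hne
  have := h _ hne
  simp at this
  omega

/-! ### the variables -/

theorem ss_coeff_self (a : Fin k) : (ss k a).coeff (ee k a) = 1 := by
  rw [ss, HahnSeries.coeff_single_same]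

theorem ss_coeff_ne (a : Fin k) {e : Ex k} (h : (ss k a).coeff e ≠ 0) : e = ee k a := by
  by_contra hne; apply h; rw [ss, HahnSeries.coeff_single_of_ne hne]

theorem ss_ne_zero (a : Fin k) : ss k a ≠ 0 := by
  intro h
  have h1 := ss_coeff_self a
  rw [h] at h1; simp at h1

theorem Pge_ss_self (a : Fin k) : Pge a 1 (ss k a) := fun e he => by
  rw [ss_coeff_ne a he, ex_ee]; simp

theorem Ple_ss_self (a : Fin k) : Ple a 1 (ss k a) := fun e he => by
  rw [ss_coeff_ne a he, ex_ee]; simp

theorem Pge_ss (a b : Fin k) : Pge b 0 (ss k a) := fun e he => by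
  rw [ss_coeff_ne a he, ex_ee]; split_ifs <;> simp

theorem Ple_ss (a b : Fin k) : Ple b 1 (ss k a) := fun e he => by
  rw [ss_coeff_ne a he, ex_ee]; split_ifs <;> simp

theorem ss_mem_Kf {A : Set (Fin k)} {a : Fin k} (ha : a ∉ A) : ss k a ∈ Kf A := by
  intro e he b hb
  rw [ss_coeff_ne a he, ex_ee, if_neg]
  rintro rfl; exact ha hb

theorem ss_inv (a : Fin k) : (ss k a)⁻¹ = HahnSeries.single (-(ee k a)) 1 := by
  rw [ss, HahnSeries.inv_single]; simp

theorem Pge_ss_inv (a : Fin k) : Pge a (-1) (ss k a)⁻¹ := by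
  intro e he
  have : e = -(ee k a) := by
    by_contra h; rw [ss_inv, HahnSeries.coeff_single_of_ne h] at he; exact he rfl
  subst this
  simp [ex_ee]

theorem Ple_ss_inv (a : Fin k) : Ple a (-1) (ss k a)⁻¹ := by
  intro e he
  have : e = -(ee k a) := by
    by_contra h; rw [ss_inv, HahnSeries.coeff_single_of_ne h] at he; exact he rfl
  subst this
  simp [ex_ee]

theorem ee_pos (a : Fin k) : (0 : Ex k) < ee k a := by
  have h : (0 : Fin k → ℤ) < Pi.single a 1 := by
    constructor
    · intro b; rw [Pi.single_apply]; split_ifs <;> simp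
    · intro h; have := h a; simp at this
  exact Pi.toLex_strictMono h

theorem Pge_inv {a : Fin k} {c : ℤ} {y : LL k} (hy : y ≠ 0) (h : Pge a c y)
    (ho : ex y.order a = c) : Pge a (-c) y⁻¹ := by
  intro e he
  let M : AddSubmonoid (Ex k) :=
    { carrier := {e | 0 ≤ ex e a}
      zero_mem' := by simp
      add_mem' := by intro x y hx hy; simp only [Set.mem_ofPred_eq, ex_add] at *; omega }
  have := inv_supp M hy (fun e he => by
    have h1 := h e he
    change 0 ≤ ex _ a
    rw [ex_sub]; omega) e he
  change 0 ≤ ex _ a at this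
  rw [ex_add] at this; omega

theorem Ple_inv {a : Fin k} {c : ℤ} {y : LL k} (hy : y ≠ 0) (h : Ple a c y)
    (ho : ex y.order a = c) : Ple a (-c) y⁻¹ := by
  intro e he
  let M : AddSubmonoid (Ex k) :=
    { carrier := {e | ex e a ≤ 0}
      zero_mem' := by simp
      add_mem' := by intro x y hx hy; simp only [Set.mem_ofPred_eq, ex_add] at *; omega }
  have := inv_supp M hy (fun e he => by
    have h1 := h e he
    change ex _ a ≤ 0
    rw [ex_sub]; omega) e he
  change ex _ a ≤ 0 at this
  rw [ex_add] at this; omega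

theorem supp_sub_ss {a : Fin k} {P : LL k} {e : Ex k} (he : (P - ss k a).coeff e ≠ 0) :
    P.coeff e ≠ 0 ∨ e = ee k a := by
  by_contra h
  push Not at h
  apply he
  rw [HahnSeries.coeff_sub, h.1, ss, HahnSeries.coeff_single_of_ne h.2, sub_zero]

theorem inv_sub_ss {a : Fin k} {P : LL k} (hP : P ∈ Kf {a}) (h0 : P ≠ 0) :
    P - ss k a ≠ 0 ∧
    (Pge a 0 (P - ss k a)⁻¹ ∨ Ple a (-1) (P - ss k a)⁻¹) := by
  have hPa : P.coeff (ee k a) = 0 := by
    by_contra h
    have := hP _ h a rfl
    rw [ex_ee, if_pos rfl] at this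
    omega
  have hca : (P - ss k a).coeff (ee k a) ≠ 0 := by
    rw [HahnSeries.coeff_sub, hPa, ss_coeff_self]; norm_num
  have hy : P - ss k a ≠ 0 := by
    intro h; rw [h] at hca; simp at hca
  have hoP : P.coeff P.order ≠ 0 := by rw [Ne, HahnSeries.coeff_order_eq_zero]; exact h0
  have hoy : (P - ss k a).coeff (P - ss k a).order ≠ 0 := by
    rw [Ne, HahnSeries.coeff_order_eq_zero]; exact hy
  have hne : P.order ≠ ee k a := by
    intro h; rw [h] at hoP; exact hoP hPa
  refine ⟨hy, ?_⟩
  rcases lt_or_gt_of_ne hne with hlt | hgt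
  · left
    have h1 : (P - ss k a).coeff P.order ≠ 0 := by
      rw [HahnSeries.coeff_sub, ss, HahnSeries.coeff_single_of_ne hne, sub_zero]; exact hoP
    have h2 : (P - ss k a).order ≤ P.order := HahnSeries.order_le_of_coeff_ne_zero h1
    have h3 : ex (P - ss k a).order a = 0 := by
      rcases supp_sub_ss hoy with h | h
      · exact hP _ h a rfl
      · rw [h] at h2; exact absurd h2 (not_le.mpr hlt)
    have h4 : Pge a 0 (P - ss k a) := (Pge.of_Kf hP rfl).sub (Pge_ss a a)
    simpa using Pge_inv hy h4 h3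
  · right
    have h2 : (P - ss k a).order ≤ ee k a := HahnSeries.order_le_of_coeff_ne_zero hca
    have h3 : ex (P - ss k a).order a = 1 := by
      rcases supp_sub_ss hoy with h | h
      · have := HahnSeries.order_le_of_coeff_ne_zero h
        exact absurd (this.trans h2) (not_le.mpr hgt)
      · rw [h, ex_ee, if_pos rfl]
    have h4 : Ple a 1 (P - ss k a) := ((Ple.of_Kf hP rfl).mono (by norm_num)).sub (Ple_ss a a)
    exact Ple_inv hy h4 h3

theorem one_sub_ss_ne (a : Fin k) : 1 - ss k a ≠ 0 := (inv_sub_ss (Kf {a}).one_mem one_ne_zero).1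

theorem Pge_inv_one_sub_ss (a b : Fin k) : Pge b 0 (1 - ss k a)⁻¹ := by
  by_cases hab : b = a
  · subst hab
    have hy := one_sub_ss_ne b
    have hoy : (1 - ss k b).coeff (1 - ss k b).order ≠ 0 := by
      rw [Ne, HahnSeries.coeff_order_eq_zero]; exact hy
    have h0 : (0 : Ex k) ≠ ee k b := (ee_pos b).ne
    have h1 : (1 - ss k b).coeff 0 ≠ 0 := by
      rw [HahnSeries.coeff_sub, ss, HahnSeries.coeff_single_of_ne h0, sub_zero,
        HahnSeries.coeff_one, if_pos rfl]
      exact one_ne_zero
    have h2 := HahnSeries.order_le_of_coeff_ne_zero h1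
    have h3 : ex (1 - ss k b).order b = 0 := by
      rcases supp_sub_ss hoy with h | h
      · exact (Kf {b}).one_mem _ h b rfl
      · rw [h] at h2; exact absurd h2 (not_le.mpr (ee_pos b))
    have h4 : Pge b 0 (1 - ss k b) := Pge.one.sub (Pge_ss b b)
    simpa using Pge_inv hy h4 h3
  · have : ss k a ∈ Kf {b} := ss_mem_Kf (by simpa using fun h => hab h.symm)
    exact Pge.of_Kf ((Kf {b}).inv_mem ((Kf {b}).sub_mem (Kf {b}).one_mem this)) rfl

/-- key lemma: simple poles outside `0`, `1` do not contribute if their residue has residue 0 -/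
theorem res_simple {a : Fin k} {P R : LL k} (hP : P ∈ Kf {a}) (h0 : P ≠ 0) (hR : R ∈ Kf {a})
    (hres : res (R * (ss k a)⁻¹) = 0) : res (R * (P - ss k a)⁻¹) = 0 := by
  obtain ⟨hne, h | h⟩ := inv_sub_ss hP h0
  · exact res_of_Pge ((Pge.of_Kf hR rfl).mul0 h) le_rfl
  · have h1 : R * (P - ss k a)⁻¹ = -(R * (ss k a)⁻¹) + R * P * ((ss k a)⁻¹ * (P - ss k a)⁻¹) := by
      have := ss_ne_zero a
      field_simp
      ring
    rw [h1, res_add, res_neg, hres, neg_zero, zero_add]
    refine res_of_Ple (a := a) (c := -2) ?_ le_rfl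
    refine ((Ple.of_Kf ((Kf {a}).mul_mem hR hP) rfl).mul
      ((Ple_ss_inv a).mul h)).mono (by norm_num)

/-! ### reflection of one variable -/

section poly

open Polynomial

variable {K : Type*} [Field K]

/-- Peeling off a root: `p = c W + (X - r) g`. -/
theorem peel (p W : K[X]) (r : K) (n : ℕ) (hW : W.eval r ≠ 0) (hp : p.degree < (n + 1 : ℕ))
    (hWn : W.degree ≤ (n : ℕ)) :
    ∃ g : K[X], g.degree < (n : ℕ) ∧ p = C (p.eval r / W.eval r) * W + (X - C r) * g ∧
      p.coeff n = p.eval r / W.eval r * W.coeff n + g.coeff (n - 1) := by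
  set c := p.eval r / W.eval r with hc
  have hroot : (p - C c * W).IsRoot r := by
    rw [IsRoot, eval_sub, eval_mul, eval_C, hc, div_mul_cancel₀ _ hW, sub_self]
  obtain ⟨g, hg⟩ := dvd_iff_isRoot.mpr hroot
  have hdeg : (p - C c * W).degree < (n + 1 : ℕ) := by
    refine (degree_sub_le _ _).trans_lt (max_lt hp ?_)
    refine (degree_mul_le _ _).trans_lt ?_
    refine (add_le_add degree_C_le hWn).trans_lt ?_
    rw [zero_add]
    exact_mod_cast Nat.lt_succ_self n
  have hgd : g.degree < (n : ℕ) := by
    by_cases hg0 : g = 0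
    · rw [hg0, degree_zero]; exact WithBot.bot_lt_coe _
    · rw [hg, degree_mul, degree_X_sub_C, degree_eq_natDegree hg0] at hdeg
      rw [degree_eq_natDegree hg0]
      have : 1 + g.natDegree < n + 1 := by exact_mod_cast hdeg
      exact_mod_cast (by omega : g.natDegree < n)
  refine ⟨g, hgd, by rw [← hg]; ring, ?_⟩
  have h1 : (p - C c * W).coeff n = g.coeff (n - 1) := by
    rw [hg, sub_mul, coeff_sub, coeff_C_mul, coeff_eq_zero_of_degree_lt hgd, mul_zero, sub_zero]
    cases n with
    | zero =>
        have : g = 0 := by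
          by_contra h
          rw [degree_eq_natDegree h] at hgd
          exact absurd hgd (by simp)
        simp [this]
    | succ n => rw [coeff_X_mul]; rfl
  rw [coeff_sub, coeff_C_mul] at h1
  rw [← h1]; ring

end poly

/-- elements of `K_a` times powers of `s_a` -/
theorem res_pow_inv {a : Fin k} {κ : LL k} (hκ : κ ∈ Kf {a}) (n : ℕ) :
    res (κ / (ss k a) ^ n) = if n = 1 then res (κ * (ss k a)⁻¹) else 0 := by
  split_ifs with h
  · rw [h, pow_one, div_eq_mul_inv]
  · rcases Nat.lt_or_gt_of_ne h with h1 | h1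
    · have : n = 0 := by omega
      subst this
      rw [pow_zero, div_one]
      exact res_of_Pge (Pge.of_Kf hκ rfl) le_rfl
    · rw [div_eq_mul_inv, ← inv_pow]
      refine res_of_Ple (a := a) (c := 0 + n * (-1)) ((Ple.of_Kf hκ rfl).mul ((Ple_ss_inv a).pow n)) ?_
      have : (2 : ℤ) ≤ n := by exact_mod_cast h1
      linarith

theorem res_pow_inv' {a : Fin k} {κ : LL k} (hκ : κ ∈ Kf {a}) (n : ℕ) :
    res (κ / (1 - ss k a) ^ n) = 0 := by
  rw [div_eq_mul_inv, ← inv_pow]
  exact res_of_Pge (((Pge.of_Kf hκ rfl).mul0 ((Pge_inv_one_sub_ss a a).pow0 n))) le_rfl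

open Polynomial in
theorem refl_base0 (a : Fin k) (B : ℕ) : ∀ (p : Polynomial (Kf ({a} : Set (Fin k))))
    (_ : p.degree < (B : ℕ)),
    res (aeval (ss k a) p / (1 - ss k a) ^ B) - res (aeval (1 - ss k a) p / (ss k a) ^ B) =
      (-1) ^ B * res (((p.coeff (B - 1) : Kf ({a} : Set (Fin k))) : LL k) * (ss k a)⁻¹) := by
  induction B with
  | zero =>
      intro p hp
      have : p = 0 := by
        by_contra h
        rw [degree_eq_natDegree h] at hp
        exact absurd hp (by simp)
      subst this
      simp [res_zero]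
  | succ B ih =>
      intro p hp
      obtain ⟨g, hg, hpg, hc⟩ := peel p 1 1 B (by simp) hp (by rw [degree_one]; exact_mod_cast B.zero_le)
      set c : Kf ({a} : Set (Fin k)) := p.eval 1 / (1 : Polynomial (Kf ({a} : Set (Fin k)))).eval 1 with hcdef
      have hA : ∀ t : LL k, 1 - t ≠ 0 → aeval t p / (1 - t) ^ (B + 1) = (c : LL k) / (1 - t) ^ (B + 1) - aeval t g / (1 - t) ^ B := by
        intro t ht
        have : aeval t p = (c : LL k) + (t - 1) * aeval t g := by
          conv_lhs => rw [hpg]
          simp only [map_add, map_mul, map_sub, aeval_C, aeval_X, map_one, mul_one]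
          rfl
        rw [this]
        field_simp
        ring
      have h1 := ih g hg
      have hs := ss_ne_zero a
      have hs1 := one_sub_ss_ne a
      have hA1 := hA (ss k a) hs1
      have hA2 := hA (1 - ss k a) (by simpa using hs)
      rw [sub_sub_cancel] at hA2
      rw [hA1, hA2, res_sub, res_sub, res_pow_inv c.2, res_pow_inv' c.2]
      have h2 : (0 - res (aeval (ss k a) g / (1 - ss k a) ^ B) -
          ((if B + 1 = 1 then res ((c : LL k) * (ss k a)⁻¹) else 0) -
            res (aeval (1 - ss k a) g / ss k a ^ B))) =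
          -(if B + 1 = 1 then res ((c : LL k) * (ss k a)⁻¹) else 0) - (-1) ^ B * res (((g.coeff (B - 1) : Kf ({a} : Set (Fin k))) : LL k) * (ss k a)⁻¹) := by
        rw [← h1]; ring
      rw [h2, Nat.add_sub_cancel, hc]
      cases B with
      | zero =>
          have : g = 0 := by
            by_contra h
            rw [degree_eq_natDegree h] at hg
            exact absurd hg (by simp)
          subst this
          simp [res_zero]
      | succ B =>
          have h3 : (1 : Polynomial (Kf ({a} : Set (Fin k)))).coeff (B + 1) = 0 := by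
            rw [coeff_one, if_neg (by omega)]
          rw [h3, mul_zero, zero_add, if_neg (by omega)]
          ring

open Polynomial in
theorem refl_base (a : Fin k) (B : ℕ) (A : ℕ) : ∀ (p : Polynomial (Kf ({a} : Set (Fin k))))
    (_ : p.degree < (A + B : ℕ)),
    res (aeval (ss k a) p / ((ss k a) ^ A * (1 - ss k a) ^ B)) -
      res (aeval (1 - ss k a) p / ((1 - ss k a) ^ A * (ss k a) ^ B)) =
      (-1) ^ B * res (((p.coeff (A + B - 1) : Kf ({a} : Set (Fin k))) : LL k) * (ss k a)⁻¹) := by
  induction A with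
  | zero =>
      intro p hp
      simp only [pow_zero, one_mul, zero_add] at hp ⊢
      exact refl_base0 a B p hp
  | succ A ih =>
      intro p hp
      have hWd : ((1 - X : Polynomial (Kf ({a} : Set (Fin k)))) ^ B).degree ≤ (A + B : ℕ) := by
        refine (degree_pow_le _ _).trans ?_
        have : (1 - X : Polynomial (Kf ({a} : Set (Fin k)))).degree ≤ 1 :=
          (degree_sub_le _ _).trans (max_le (by rw [degree_one]; exact zero_le_one) degree_X_le)
        refine (nsmul_le_nsmul_right this B).trans ?_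
        simp only [nsmul_eq_mul, mul_one]
        exact_mod_cast Nat.le_add_left B A
      have hp' : p.degree < ((A + B) + 1 : ℕ) := by convert hp using 2; omega
      obtain ⟨g, hg, hpg, hc⟩ := peel p ((1 - X) ^ B) 0 (A + B) (by simp) hp' hWd
      set c : Kf ({a} : Set (Fin k)) := p.eval 0 / ((1 - X) ^ B : Polynomial (Kf ({a} : Set (Fin k)))).eval 0 with hcdef
      have hA : ∀ t : LL k, t ≠ 0 → 1 - t ≠ 0 → aeval t p / (t ^ (A + 1) * (1 - t) ^ B) =
          (c : LL k) / t ^ (A + 1) + aeval t g / (t ^ A * (1 - t) ^ B) := by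
        intro t ht0 ht
        have : aeval t p = (c : LL k) * (1 - t) ^ B + t * aeval t g := by
          conv_lhs => rw [hpg]
          simp only [map_add, map_mul, map_sub, map_pow, aeval_C, aeval_X, map_one, map_zero, sub_zero]
          rfl
        rw [this]
        field_simp
        ring
      have h1 := ih g hg
      have hs := ss_ne_zero a
      have hs1 := one_sub_ss_ne a
      have hA1 := hA (ss k a) hs hs1
      have hA2 := hA (1 - ss k a) hs1 (by simpa using hs)
      rw [sub_sub_cancel] at hA2
      rw [hA1, hA2, res_add, res_add, res_pow_inv c.2, res_pow_inv' c.2]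
      have h2 : (((if A + 1 = 1 then res ((c : LL k) * (ss k a)⁻¹) else 0) +
            res (aeval (ss k a) g / (ss k a ^ A * (1 - ss k a) ^ B))) -
          (0 + res (aeval (1 - ss k a) g / ((1 - ss k a) ^ A * ss k a ^ B)))) =
          (if A + 1 = 1 then res ((c : LL k) * (ss k a)⁻¹) else 0) + (-1) ^ B *
            res (((g.coeff (A + B - 1) : Kf ({a} : Set (Fin k))) : LL k) * (ss k a)⁻¹) := by
        rw [← h1]; ring
      rw [h2, show A + 1 + B - 1 = A + B by omega, hc]
      by_cases hA0 : A = 0
      · subst hA0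
        have h3 : ((1 - X : Polynomial (Kf ({a} : Set (Fin k)))) ^ B).coeff (0 + B) = (-1) ^ B := by
          have h4 : (1 - X : Polynomial (Kf ({a} : Set (Fin k)))) = C (-1) * (X - C 1) := by
            simp
          rw [h4, mul_pow, ← C_pow, coeff_C_mul, zero_add]
          have h5 : ((X - C 1 : Polynomial (Kf ({a} : Set (Fin k)))) ^ B).coeff B = 1 := by
            have := (monic_X_sub_C (1 : Kf ({a} : Set (Fin k)))).pow B
            have h6 : ((X - C 1 : Polynomial (Kf ({a} : Set (Fin k)))) ^ B).natDegree = B := by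
              rw [natDegree_pow, natDegree_X_sub_C, mul_one]
            have h7 := this.coeff_natDegree
            rwa [h6] at h7
          rw [h5, mul_one]
        rw [h3, if_pos (by omega)]
        push_cast
        rw [add_mul, res_add, mul_add]
        have h8 : res ((c : LL k) * (-1) ^ B * (ss k a)⁻¹) = (-1) ^ B * res ((c : LL k) * (ss k a)⁻¹) := by
          rcases Nat.even_or_odd B with h | h
          · rw [h.neg_one_pow, h.neg_one_pow, mul_one, one_mul]
          · rw [h.neg_one_pow, h.neg_one_pow, mul_neg_one, neg_mul, res_neg, neg_one_mul]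
        rw [h8, ← mul_assoc, ← mul_pow]
        norm_num
      · have h3 : ((1 - X : Polynomial (Kf ({a} : Set (Fin k)))) ^ B).coeff (A + B) = 0 := by
          apply coeff_eq_zero_of_degree_lt
          refine lt_of_le_of_lt (b := (B : WithBot ℕ)) ?_ (by exact_mod_cast (by omega : B < A + B))
          refine (degree_pow_le _ _).trans ?_
          have : (1 - X : Polynomial (Kf ({a} : Set (Fin k)))).degree ≤ 1 :=
            (degree_sub_le _ _).trans (max_le (by rw [degree_one]; exact zero_le_one) degree_X_le)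
          refine (nsmul_le_nsmul_right this B).trans ?_
          simp only [nsmul_eq_mul, mul_one]
          exact le_rfl
        rw [h3, mul_zero, zero_add, if_neg (by omega)]
        ring


theorem sub_ss_ne' {a : Fin k} {P : LL k} (hP : P ∈ Kf {a}) (h0 : P ≠ 0) : ss k a - P ≠ 0 := by
  intro h
  exact (inv_sub_ss hP h0).1 (by rw [← neg_sub, h, neg_zero])

open Polynomial Classical in
theorem refl_core (a : Fin k) (S : Finset (Kf ({a} : Set (Fin k)))) (A B : ℕ)
    (h0 : ∀ P ∈ S, P ≠ 0) (h1 : ∀ P ∈ S, P ≠ 1) :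
    ∀ (p : Polynomial (Kf ({a} : Set (Fin k)))) (_ : p.degree < (A + B + S.card : ℕ))
    (_ : ∀ P ∈ S, res (((p.eval P / (P ^ A * (1 - P) ^ B * ∏ Q ∈ S.erase P, (P - Q)) :
      Kf ({a} : Set (Fin k))) : LL k) * (ss k a)⁻¹) = 0),
    res (aeval (ss k a) p / ((ss k a) ^ A * (1 - ss k a) ^ B * ∏ P ∈ S, (ss k a - (P : LL k)))) -
      res (aeval (1 - ss k a) p /
        ((1 - ss k a) ^ A * (ss k a) ^ B * ∏ P ∈ S, (1 - ss k a - (P : LL k)))) =
      (-1) ^ B * res (((p.coeff (A + B + S.card - 1) : Kf ({a} : Set (Fin k))) : LL k) *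
        (ss k a)⁻¹) := by
  induction S using Finset.induction_on with
  | empty =>
      intro p hp _
      simpa using refl_base a B A p (by simpa using hp)
  | insert P0 S hP0 ih =>
      intro p hp hres
      rw [Finset.card_insert_of_notMem hP0] at hp ⊢
      obtain ⟨W, hW⟩ : ∃ W : Polynomial (Kf ({a} : Set (Fin k))),
        W = X ^ A * (1 - X) ^ B * ∏ Q ∈ S, (X - C Q) := ⟨_, rfl⟩
      have hP00 : P0 ≠ 0 := h0 P0 (by simp)
      have hP01 : P0 ≠ 1 := h1 P0 (by simp)
      have hWP0 : W.eval P0 = P0 ^ A * (1 - P0) ^ B * ∏ Q ∈ S, (P0 - Q) := by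
        simp [hW, eval_mul, eval_pow, eval_prod]
      have hWne : W.eval P0 ≠ 0 := by
        rw [hWP0]
        refine mul_ne_zero (mul_ne_zero (pow_ne_zero _ hP00) (pow_ne_zero _ (sub_ne_zero.mpr hP01.symm))) ?_
        rw [Finset.prod_ne_zero_iff]
        intro Q hQ h
        rw [sub_eq_zero] at h
        exact hP0 (h ▸ hQ)
      have h1X : (1 - X : Polynomial (Kf ({a} : Set (Fin k)))) = C (-1) * (X - C 1) := by simp
      have hWeq : W = C ((-1) ^ B) * (X ^ A * (X - C 1) ^ B * ∏ Q ∈ S, (X - C Q)) := by
        rw [hW, h1X, mul_pow, ← C_pow]; ring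
      have hmon : (X ^ A * (X - C 1) ^ B * ∏ Q ∈ S, (X - C Q) :
          Polynomial (Kf ({a} : Set (Fin k)))).Monic :=
        (((monic_X).pow A).mul ((monic_X_sub_C 1).pow B)).mul (monic_prod_of_monic _ _ fun Q _ => monic_X_sub_C Q)
      have hnd : (X ^ A * (X - C 1) ^ B * ∏ Q ∈ S, (X - C Q) :
          Polynomial (Kf ({a} : Set (Fin k)))).natDegree = A + B + S.card := by
        rw [Monic.natDegree_mul (((monic_X).pow A).mul ((monic_X_sub_C 1).pow B))
          (monic_prod_of_monic _ _ fun Q _ => monic_X_sub_C Q),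
          Monic.natDegree_mul ((monic_X).pow A) ((monic_X_sub_C 1).pow B),
          natDegree_prod_of_monic _ _ (fun Q _ => monic_X_sub_C Q), natDegree_pow, natDegree_pow,
          natDegree_X, natDegree_X_sub_C, Finset.sum_congr rfl (fun Q _ => natDegree_X_sub_C Q)]
        simp
      have hWc : W.coeff (A + B + S.card) = (-1) ^ B := by
        rw [hWeq, coeff_C_mul]
        have := hmon.coeff_natDegree
        rw [hnd] at this
        rw [this, mul_one]
      have hWd : W.degree ≤ (A + B + S.card : ℕ) := by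
        rw [hWeq]
        refine (degree_mul_le _ _).trans ?_
        refine (add_le_add degree_C_le (le_refl _)).trans ?_
        rw [zero_add, degree_eq_natDegree hmon.ne_zero, hnd]
      obtain ⟨g, hg, hpg, hc⟩ := peel p W P0 (A + B + S.card) hWne hp hWd
      obtain ⟨c, hcdef⟩ : ∃ c : Kf ({a} : Set (Fin k)), c = p.eval P0 / W.eval P0 := ⟨_, rfl⟩
      rw [← hcdef] at hpg hc
      have hcres : res ((c : LL k) * (ss k a)⁻¹) = 0 := by
        have := hres P0 (by simp)
        rwa [Finset.erase_insert hP0, ← hWP0, ← hcdef] at this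
      have hgres : ∀ P ∈ S, res (((g.eval P / (P ^ A * (1 - P) ^ B * ∏ Q ∈ S.erase P, (P - Q)) :
          Kf ({a} : Set (Fin k))) : LL k) * (ss k a)⁻¹) = 0 := by
        intro P hP
        have hne : P ≠ P0 := by rintro rfl; exact hP0 hP
        have h2 := hres P (by simp [hP])
        have h3 : (insert P0 S).erase P = insert P0 (S.erase P) := by
          rw [Finset.erase_insert_of_ne hne.symm]
        have hWP : W.eval P = 0 := by
          rw [hW, eval_mul, eval_prod, Finset.prod_eq_zero hP (by simp), mul_zero]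
        have h4 : p.eval P = (P - P0) * g.eval P := by
          conv_lhs => rw [hpg]
          rw [eval_add, eval_mul, eval_mul, hWP, mul_zero, zero_add]
          simp
        rw [h3, Finset.prod_insert (by simp [hP0]), h4] at h2
        have h5 : (P - P0) * g.eval P / (P ^ A * (1 - P) ^ B * ((P - P0) * ∏ Q ∈ S.erase P, (P - Q))) =
            g.eval P / (P ^ A * (1 - P) ^ B * ∏ Q ∈ S.erase P, (P - Q)) := by
          rw [show P ^ A * (1 - P) ^ B * ((P - P0) * ∏ Q ∈ S.erase P, (P - Q)) =
            (P - P0) * (P ^ A * (1 - P) ^ B * ∏ Q ∈ S.erase P, (P - Q)) by ring]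
          exact mul_div_mul_left _ _ (sub_ne_zero.mpr hne)
        rwa [h5] at h2
      have key := ih (fun P hP => h0 P (by simp [hP])) (fun P hP => h1 P (by simp [hP])) g hg hgres
      have hs := ss_ne_zero a
      have hs1 := one_sub_ss_ne a
      have hA : ∀ t : LL k, t ≠ 0 → 1 - t ≠ 0 → (∀ Q ∈ insert P0 S, t - (Q : LL k) ≠ 0) →
          aeval t p / (t ^ A * (1 - t) ^ B * ∏ P ∈ insert P0 S, (t - (P : LL k))) =
          (c : LL k) / (t - P0) + aeval t g / (t ^ A * (1 - t) ^ B * ∏ P ∈ S, (t - (P : LL k))) := by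
        intro t ht0 ht hQ
        have hWt : aeval t W = t ^ A * (1 - t) ^ B * ∏ P ∈ S, (t - (P : LL k)) := by
          simp only [hW, map_mul, map_pow, map_sub, map_one, map_prod, aeval_X, aeval_C]
          rfl
        have hWt0 : t ^ A * (1 - t) ^ B * ∏ P ∈ S, (t - (P : LL k)) ≠ 0 := by
          refine mul_ne_zero (mul_ne_zero (pow_ne_zero _ ht0) (pow_ne_zero _ ht)) ?_
          rw [Finset.prod_ne_zero_iff]
          intro Q hQ'
          exact hQ Q (by simp [hQ'])
        have hP0t : t - (P0 : LL k) ≠ 0 := hQ P0 (by simp)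
        have : aeval t p = (c : LL k) * (t ^ A * (1 - t) ^ B * ∏ P ∈ S, (t - (P : LL k))) +
            (t - P0) * aeval t g := by
          conv_lhs => rw [hpg]
          rw [map_add, map_mul, map_mul, hWt]
          simp only [map_sub, aeval_C, aeval_X]
          rfl
        rw [this, Finset.prod_insert hP0]
        rw [show t ^ A * (1 - t) ^ B * ((t - (P0 : LL k)) * ∏ P ∈ S, (t - (P : LL k))) =
          (t - P0) * (t ^ A * (1 - t) ^ B * ∏ P ∈ S, (t - (P : LL k))) by ring]
        set D := t ^ A * (1 - t) ^ B * ∏ P ∈ S, (t - (P : LL k)) with hD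
        field_simp
      have hA1 := hA (ss k a) hs hs1 (fun Q hQ => sub_ss_ne' Q.2 (by
        simpa using h0 Q hQ))
      have hA2 := hA (1 - ss k a) hs1 (by simpa using hs) (fun Q hQ => by
        have hQ1 : ((1 - Q : Kf ({a} : Set (Fin k))) : LL k) ≠ 0 := by
          intro h
          have h2 : (1 - Q : Kf ({a} : Set (Fin k))) = 0 := by exact_mod_cast h
          exact h1 Q hQ (sub_eq_zero.mp h2).symm
        have := (inv_sub_ss (1 - Q).2 hQ1).1
        intro h
        apply this
        rw [← h]; push_cast; ring)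
      rw [sub_sub_cancel] at hA2
      have hr1 : res ((c : LL k) / (ss k a - (P0 : LL k))) = 0 := by
        have h2 := res_simple P0.2 (by simpa using hP00) c.2 hcres
        have h3 : (c : LL k) / (ss k a - (P0 : LL k)) = - ((c : LL k) * ((P0 : LL k) - ss k a)⁻¹) := by
          have hn1 := (inv_sub_ss P0.2 (by simpa using hP00)).1
          have hn2 := sub_ss_ne' P0.2 (by simpa using hP00)
          rw [div_eq_iff hn2]
          have : (ss k a - (P0 : LL k)) = (-1) * ((P0 : LL k) - ss k a) := by ring
          rw [this]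
          have h5 : ((P0 : LL k) - ss k a)⁻¹ * ((P0 : LL k) - ss k a) = 1 := inv_mul_cancel₀ hn1
          linear_combination (-(c : LL k)) * h5
        rw [h3, res_neg, h2, neg_zero]
      have hr2 : res ((c : LL k) / (1 - ss k a - (P0 : LL k))) = 0 := by
        have hQ1 : ((1 - P0 : Kf ({a} : Set (Fin k))) : LL k) ≠ 0 := by
          intro h
          have h2 : (1 - P0 : Kf ({a} : Set (Fin k))) = 0 := by exact_mod_cast h
          exact hP01 (sub_eq_zero.mp h2).symm
        have h2 := res_simple (1 - P0).2 hQ1 c.2 hcres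
        have h3 : (c : LL k) / (1 - ss k a - (P0 : LL k)) = (c : LL k) * (((1 - P0 : Kf ({a} : Set (Fin k))) : LL k) - ss k a)⁻¹ := by
          rw [div_eq_mul_inv]; push_cast; congr 2; ring
        rw [h3, h2]
      rw [hA1, hA2, res_add, res_add, hr1, hr2, zero_add, zero_add, key,
        show A + B + (S.card + 1) - 1 = A + B + S.card by omega, hc, hWc]
      push_cast
      rw [add_mul, res_add]
      have h8 : res ((c : LL k) * (-1) ^ B * (ss k a)⁻¹) = 0 := by
        rcases Nat.even_or_odd B with h | h
        · rw [h.neg_one_pow, mul_one, hcres]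
        · rw [h.neg_one_pow, mul_neg_one, neg_mul, res_neg, hcres, neg_zero]
      rw [h8, zero_add]

end Pool.Agent.Lib.MP_b6786a_co.Zeil
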