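import Mathlib

/-!
# Zeilberger's theorem for trapezoids: the partial fraction identity behind Littlewood's formula
-/

set_option autoImplicit false

namespace Pool.Agent.Lib.MP_b6786a_co.Zeil

open Finset Polynomial

theorem lwfield {F ι : Type*} [Field F] [DecidableEq ι] (S : Finset ι) (x : ι → F)
    (hx : Set.InjOn x S) (h0 : ∀ i ∈ S, x i ≠ 0) (h1 : ∀ i ∈ S, x i ≠ 1) (z : F) :
    ∏ i ∈ S, (z - x i) = ∏ i ∈ S, (1 - x i * z) -
      (1 - z) * ∑ j ∈ S, (1 + x j) *
        ∏ i ∈ S.erase j, ((1 - x i * x j) * (1 - x i * z) / (x j - x i)) := by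
  classical
  set f : F[X] := ∏ i ∈ S, (X - C (x i)) with hf
  set g : F[X] := ∏ i ∈ S, (1 - C (x i) * X) -
      (1 - X) * ∑ j ∈ S, C (1 + x j) *
        ∏ i ∈ S.erase j, (C ((1 - x i * x j) / (x j - x i)) * (1 - C (x i) * X)) with hg
  have hlin : ∀ a : F, (1 - C a * X : F[X]).natDegree ≤ 1 := fun a => by
    compute_degree
  have hdf : f.degree < ((insertNone S).card : ℕ) := by
    rw [card_insertNone]
    refine lt_of_le_of_lt (degree_le_natDegree) ?_
    refine Nat.cast_lt.mpr (Nat.lt_succ_of_le ?_)
    refine (natDegree_prod_le _ _).trans ?_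
    refine (Finset.sum_le_card_nsmul _ _ 1 fun i _ => ?_).trans (by simp)
    exact (natDegree_X_sub_C_le _)
  have hdg : g.degree < ((insertNone S).card : ℕ) := by
    rw [card_insertNone]
    refine lt_of_le_of_lt (degree_le_natDegree) ?_
    refine Nat.cast_lt.mpr (Nat.lt_succ_of_le ?_)
    have q1 : (∏ i ∈ S, (1 - C (x i) * X) : F[X]).natDegree ≤ S.card := by
      refine (natDegree_prod_le _ _).trans ?_
      refine (Finset.sum_le_card_nsmul _ _ 1 fun i _ => hlin _).trans (by simp)
    refine (natDegree_sub_le_of_le q1 (n := S.card) ?_).trans (by simp)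
    · by_cases hS : S.card = 0
      · rw [Finset.card_eq_zero] at hS
        simp [hS]
      · refine natDegree_mul_le.trans ?_
        have e1 : (1 - X : F[X]).natDegree ≤ 1 := by compute_degree
        have e2 : (∑ j ∈ S, C (1 + x j) *
            ∏ i ∈ S.erase j, (C ((1 - x i * x j) / (x j - x i)) * (1 - C (x i) * X))).natDegree ≤
            S.card - 1 := by
          refine natDegree_sum_le_of_forall_le _ _ fun j hj => ?_
          refine (natDegree_C_mul_le _ _).trans ((natDegree_prod_le _ _).trans ?_)
          refine (Finset.sum_le_card_nsmul _ _ 1 fun i _ => ?_).trans ?_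
          · exact (natDegree_C_mul_le _ _).trans (hlin _)
          · rw [Finset.card_erase_of_mem hj]; simp
        omega
  have key : f = g := by
    refine Polynomial.eq_of_degrees_lt_of_eval_index_eq (insertNone S)
      (v := fun o => o.elim 1 fun i => (x i)⁻¹) ?_ hdf hdg ?_
    · rintro (_ | i) hi (_ | j) hj hij
      · rfl
      · simp only [Option.elim] at hij
        exact absurd (inv_eq_one.mp hij.symm) (h1 j (by simpa using hj))
      · simp only [Option.elim] at hij
        exact absurd (inv_eq_one.mp hij) (h1 i (by simpa using hi))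
      · simp only [Option.elim] at hij
        rw [hx (by simpa using hi) (by simpa using hj) (inv_injective hij)]
    · rintro (_ | j) hj
      · simp [hf, hg, eval_prod]
      · have hjS : j ∈ S := by simpa using hj
        have hj0 := h0 j hjS
        simp only [hf, hg, Option.elim, eval_prod, eval_sub, eval_X, eval_C, eval_mul, eval_one,
          eval_finsetSum]
        have e1 : ∏ i ∈ S, (1 - x i * (x j)⁻¹) = 0 :=
          Finset.prod_eq_zero hjS (by rw [mul_inv_cancel₀ hj0, sub_self])
        have e2 : ∑ k ∈ S, (1 + x k) * ∏ i ∈ S.erase k,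
            ((1 - x i * x k) / (x k - x i) * (1 - x i * (x j)⁻¹)) =
            (1 + x j) * ∏ i ∈ S.erase j,
            ((1 - x i * x j) / (x j - x i) * (1 - x i * (x j)⁻¹)) := by
          refine Finset.sum_eq_single_of_mem j hjS fun k hk hkj => ?_
          rw [Finset.prod_eq_zero (Finset.mem_erase.mpr ⟨Ne.symm hkj, hjS⟩), mul_zero]
          rw [mul_inv_cancel₀ hj0, sub_self, mul_zero]
        rw [e1, e2, ← Finset.mul_prod_erase S _ hjS]
        have e3 : ∏ i ∈ S.erase j, ((1 - x i * x j) / (x j - x i) * (1 - x i * (x j)⁻¹)) =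
            ∏ i ∈ S.erase j, ((x j)⁻¹ - x i) := by
          refine Finset.prod_congr rfl fun i hi => ?_
          have hne : x j - x i ≠ 0 := by
            rw [sub_ne_zero]
            intro h
            exact (Finset.mem_erase.mp hi).1 (hx hjS (Finset.mem_erase.mp hi).2 h).symm
          field_simp
        rw [e3]
        field_simp
        ring
  have h2 := congrArg (eval z) key
  simp only [hf, hg, eval_prod, eval_sub, eval_X, eval_C, eval_mul, eval_one,
    eval_finsetSum] at h2
  rw [h2]
  congr 2
  refine Finset.sum_congr rfl fun j _ => ?_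
  congr 1
  exact Finset.prod_congr rfl fun i _ => by ring

end Pool.Agent.Lib.MP_b6786a_co.Zeil
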