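import Pool.Agent.Lib.MP_b6786a_co.Zeil.Basic

/-!
# The Littlewood coefficient

The coefficient of `∏ X_i ^ p_{π i}` (`p` strictly increasing) in the power series
`∏_{i<j}(X_j - X_i) / (∏ (1-X_i) ∏_{i<j} (1 - X_i X_j))` is the sign of `π`.

The proof inserts the variables in the order of increasing exponents; the new variable `Z` is
split off by partial fractions, and only the pole `Z = 1` contributes.
-/

set_option autoImplicit false

namespace Pool.Agent.Lib.MP_b6786a_co.Zeil

open Finset Function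

section LwField

open Polynomial in
theorem lw_field {F ι : Type*} [Field F] [DecidableEq ι] (S : Finset ι) (x : ι → F)
    (hinj : ∀ i ∈ S, ∀ j ∈ S, x i = x j → i = j) (h0 : ∀ i ∈ S, x i ≠ 0)
    (h1 : ∀ i ∈ S, x i ≠ 1) (z : F) :
    ∏ i ∈ S, (z - x i) = ∏ i ∈ S, (1 - x i * z) -
      (1 - z) * ∑ j ∈ S, (1 + x j) * ∏ i ∈ S.erase j,
        ((1 - x i * x j) / (x j - x i) * (1 - x i * z)) := by
  classical
  have hdeg1 : ∀ T : Finset ι, ∀ f : ι → F[X], (∀ i ∈ T, (f i).natDegree ≤ 1) →
      (∏ i ∈ T, f i).natDegree ≤ #T := by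
    intro T f hf
    refine (Polynomial.natDegree_prod_le _ _).trans ?_
    calc ∑ i ∈ T, (f i).natDegree ≤ ∑ i ∈ T, 1 := sum_le_sum hf
      _ = #T := by simp
  have hlin : ∀ a b : F, (C a - C b * X : F[X]).natDegree ≤ 1 := by
    intro a b
    refine (Polynomial.natDegree_sub_le _ _).trans (max_le ?_ ?_)
    · simp
    · exact (Polynomial.natDegree_C_mul_le _ _).trans Polynomial.natDegree_X_le
  let P : F[X] := ∏ i ∈ S, (X - C (x i))
  let Q : F[X] := ∏ i ∈ S, (C 1 - C (x i) * X) -
      (1 - X) * ∑ j ∈ S, C (1 + x j) * ∏ i ∈ S.erase j,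
        (C ((1 - x i * x j) / (x j - x i)) * (C 1 - C (x i) * X))
  let N : Finset F := insert 1 (S.image fun i => (x i)⁻¹)
  have hN : #N = #S + 1 := by
    rw [card_insert_of_notMem, card_image_of_injOn]
    · intro i hi j hj hij
      exact hinj i hi j hj (inv_injective hij)
    · intro h
      rw [mem_image] at h
      obtain ⟨i, hi, h⟩ := h
      exact h1 i hi (inv_eq_one.1 h)
  have hP : P.natDegree ≤ #S := by
    apply hdeg1
    intro i _
    exact (Polynomial.natDegree_X_sub_C_le _)
  have hQ : Q.natDegree ≤ #S := by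
    refine (Polynomial.natDegree_sub_le _ _).trans (max_le ?_ ?_)
    · exact hdeg1 S _ fun i _ => hlin _ _
    · rw [mul_sum]
      apply Polynomial.natDegree_sum_le_of_forall_le
      intro j hj
      refine Polynomial.natDegree_mul_le.trans ?_
      have h2 : (1 - X : F[X]).natDegree ≤ 1 := by
        have := hlin 1 1
        simpa using this
      have h3 : (C (1 + x j) * ∏ i ∈ S.erase j,
        (C ((1 - x i * x j) / (x j - x i)) * (C 1 - C (x i) * X))).natDegree ≤ #(S.erase j) := by
        refine (Polynomial.natDegree_C_mul_le _ _).trans ?_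
        apply hdeg1
        intro i _
        exact (Polynomial.natDegree_C_mul_le _ _).trans (hlin _ _)
      have h4 := card_erase_add_one hj
      omega
  have hPQ : P = Q := by
    apply Polynomial.eq_of_degrees_lt_of_eval_finset_eq N
    · refine lt_of_le_of_lt Polynomial.degree_le_natDegree ?_
      rw [hN]
      exact_mod_cast Nat.lt_succ_of_le hP
    · refine lt_of_le_of_lt Polynomial.degree_le_natDegree ?_
      rw [hN]
      exact_mod_cast Nat.lt_succ_of_le hQ
    · intro y hy
      rw [mem_insert, mem_image] at hy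
      simp only [P, Q, eval_prod, eval_sub, eval_mul, eval_finsetSum, eval_X, eval_C, eval_one]
      rcases hy with rfl | ⟨l, hl, rfl⟩
      · simp
      · have hx0 := h0 l hl
        have hq : ∏ i ∈ S, (1 - x i * (x l)⁻¹) = 0 :=
          prod_eq_zero hl (by rw [mul_inv_cancel₀ hx0, sub_self])
        rw [hq, zero_sub, sum_eq_single_of_mem l hl]
        · rw [← mul_prod_erase S (fun i => (x l)⁻¹ - x i) hl]
          have h5 : ∀ i ∈ S.erase l, (1 - x i * x l) / (x l - x i) * (1 - x i * (x l)⁻¹) =
              (x l)⁻¹ - x i := by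
            intro i hi
            have h6 : x l - x i ≠ 0 := by
              intro h
              exact (ne_of_mem_erase hi) (hinj i (mem_of_mem_erase hi) l hl (sub_eq_zero.1 h).symm)
            field_simp
          rw [prod_congr rfl h5]
          field_simp
          ring
        · intro j hj hjl
          rw [prod_eq_zero (i := l) (mem_erase.2 ⟨hjl.symm, hl⟩), mul_zero]
          rw [mul_inv_cancel₀ hx0, sub_self, mul_zero]
  have := congrArg (Polynomial.eval z) hPQ
  simpa only [P, Q, eval_prod, eval_sub, eval_mul, eval_finsetSum, eval_X, eval_C, eval_one]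
    using this

end LwField

section LwPair

variable {k : ℕ}

/-- product over the pairs `i < j` of a finset -/
def lwPair {R : Type*} [CommMonoid R] (S : Finset (Fin k)) (f : Fin k → Fin k → R) : R :=
  ∏ i ∈ S, ∏ j ∈ S.filter (i < ·), f i j

theorem lwPair_insert {R : Type*} [CommMonoid R] (S : Finset (Fin k)) (f : Fin k → Fin k → R)
    (z : Fin k) (hz : z ∉ S) :
    lwPair (insert z S) f = lwPair S f * ∏ i ∈ S, (if i < z then f i z else f z i) := by
  unfold lwPair
  rw [prod_insert hz]
  have h1 : ∏ j ∈ (insert z S).filter (z < ·), f z j = ∏ i ∈ S, if z < i then f z i else 1 := by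
    rw [filter_insert, if_neg (lt_irrefl z), prod_filter]
  have h2 : ∀ i ∈ S, ∏ j ∈ (insert z S).filter (i < ·), f i j =
      (if i < z then f i z else 1) * ∏ j ∈ S.filter (i < ·), f i j := by
    intro i _
    rw [filter_insert]
    split_ifs with h
    · rw [prod_insert]
      simp [hz]
    · rw [one_mul]
  rw [h1, prod_congr rfl h2, prod_mul_distrib, ← mul_assoc, ← prod_mul_distrib, mul_comm]
  congr 1
  apply prod_congr rfl
  intro i hi
  have hne : i ≠ z := by rintro rfl; exact hz hi
  rcases lt_or_gt_of_ne hne with h | h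
  · rw [if_neg (not_lt.2 h.le), if_pos h, if_pos h, one_mul]
  · rw [if_pos h, if_neg (not_lt.2 h.le), if_neg (not_lt.2 h.le), mul_one]

theorem lwPair_univ {R : Type*} [CommMonoid R] (f : Fin k → Fin k → R) :
    lwPair univ f = ∏ i, ∏ j ∈ Ioi i, f i j := by
  unfold lwPair
  apply prod_congr rfl
  intro i _
  apply prod_congr _ (fun _ _ => rfl)
  ext j
  simp

/-- The Vandermonde product of a subset. -/
noncomputable def lwV (S : Finset (Fin k)) : PS k := lwPair S fun i j => XX k j - XX k i

/-- The product of `1 - X_i X_j`. -/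
noncomputable def lwD (S : Finset (Fin k)) : PS k := lwPair S fun i j => 1 - XX k i * XX k j

/-- The product of `1 - X_i`. -/
noncomputable def lwA (S : Finset (Fin k)) : PS k := ∏ i ∈ S, (1 - XX k i)

/-- The sign factor. -/
noncomputable def lwc (S : Finset (Fin k)) (z : Fin k) : PS k :=
  ∏ i ∈ S, (if i < z then 1 else -1)

theorem lwV_insert (S : Finset (Fin k)) (z : Fin k) (hz : z ∉ S) :
    lwV (insert z S) = lwV S * (lwc S z * ∏ i ∈ S, (XX k z - XX k i)) := by
  unfold lwV lwc
  rw [lwPair_insert _ _ _ hz, ← prod_mul_distrib]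
  congr 1
  apply prod_congr rfl
  intro i _
  split_ifs
  · rw [one_mul]
  · ring

theorem lwD_insert (S : Finset (Fin k)) (z : Fin k) (hz : z ∉ S) :
    lwD (insert z S) = lwD S * ∏ i ∈ S, (1 - XX k i * XX k z) := by
  unfold lwD
  rw [lwPair_insert _ _ _ hz]
  congr 1
  apply prod_congr rfl
  intro i _
  split_ifs
  · rfl
  · ring

/-- The cofactor of `∏ (X_j - X_i)` in the Vandermonde product. -/
noncomputable def lww (S : Finset (Fin k)) (j : Fin k) : PS k :=
  lwV (S.erase j) * lwc (S.erase j) j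

theorem lwV_eq (S : Finset (Fin k)) (j : Fin k) (hj : j ∈ S) :
    lwV S = lww S j * ∏ i ∈ S.erase j, (XX k j - XX k i) := by
  unfold lww
  conv_lhs => rw [← insert_erase hj, lwV_insert _ _ (notMem_erase j S)]
  rw [mul_assoc]

theorem lw_XX_injective : Injective (XX k) := by
  intro i j h
  exact MvPowerSeries.X_inj.1 h

theorem lw_XX_ne_one (i : Fin k) : XX k i ≠ 1 := by
  intro h
  have := congrArg (MvPowerSeries.constantCoeff) h
  simp at this

theorem lw_XX_ne_zero (i : Fin k) : XX k i ≠ 0 := by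
  intro h
  have := congrArg (MvPowerSeries.coeff (Finsupp.single i 1)) h
  simp [MvPowerSeries.coeff_X] at this

theorem lw_identity (S : Finset (Fin k)) (z : Fin k) :
    lwV S * ∏ i ∈ S, (XX k z - XX k i) = lwV S * ∏ i ∈ S, (1 - XX k i * XX k z) -
      (1 - XX k z) * ∑ j ∈ S, (1 + XX k j) * lww S j * ∏ i ∈ S.erase j,
        ((1 - XX k i * XX k j) * (1 - XX k i * XX k z)) := by
  let K := FractionRing (PS k)
  have hinj : Injective (algebraMap (PS k) K) := IsFractionRing.injective (PS k) K
  apply hinj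
  let x : Fin k → K := fun i => algebraMap (PS k) K (XX k i)
  have hx : ∀ i j : Fin k, x i = x j → i = j := fun i j h => lw_XX_injective (hinj h)
  have h := lw_field S x (fun i _ j _ h => hx i j h)
    (fun i _ h => lw_XX_ne_zero i (hinj (by rw [map_zero]; exact h)))
    (fun i _ h => lw_XX_ne_one i (hinj (by rw [map_one]; exact h))) (x z)
  simp only [map_sub, map_mul, map_sum, map_prod, map_one, map_add]
  change algebraMap (PS k) K (lwV S) * ∏ i ∈ S, (x z - x i) =
    algebraMap (PS k) K (lwV S) * ∏ i ∈ S, (1 - x i * x z) -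
      (1 - x z) * ∑ j ∈ S, (1 + x j) * algebraMap (PS k) K (lww S j) * ∏ i ∈ S.erase j,
        ((1 - x i * x j) * (1 - x i * x z))
  rw [h, mul_sub, mul_left_comm, mul_sum]
  congr 2
  apply sum_congr rfl
  intro j hj
  have h2 : algebraMap (PS k) K (lwV S) =
      algebraMap (PS k) K (lww S j) * ∏ i ∈ S.erase j, (x j - x i) := by
    rw [lwV_eq S j hj, map_mul, map_prod]
    simp only [map_sub]
    rfl
  rw [h2]
  have h3 : (∏ i ∈ S.erase j, (x j - x i)) *
      (∏ i ∈ S.erase j, (1 - x i * x j) / (x j - x i) * (1 - x i * x z)) =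
      ∏ i ∈ S.erase j, ((1 - x i * x j) * (1 - x i * x z)) := by
    rw [← prod_mul_distrib]
    apply prod_congr rfl
    intro i hi
    have h6 : x j - x i ≠ 0 := by
      intro h
      exact (ne_of_mem_erase hi) (hx _ _ (sub_eq_zero.1 h).symm)
    rw [← mul_assoc, mul_div_cancel₀ _ h6]
  rw [← h3]
  ring

end LwPair

section LwFree

variable {k : ℕ}

/-- The series not involving the variable `z`. -/
def lwFree (z : Fin k) : Subring (PS k) where
  carrier := {φ | ∀ n : Fin k →₀ ℕ, 0 < n z → MvPowerSeries.coeff n φ = 0}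
  mul_mem' := by
    classical
    intro a b ha hb n hn
    rw [MvPowerSeries.coeff_mul]
    apply sum_eq_zero
    intro x hx
    rw [HasAntidiagonal.mem_antidiagonal] at hx
    have h1 : x.1 z + x.2 z = n z := by rw [← hx]; rfl
    rcases Nat.eq_zero_or_pos (x.1 z) with h | h
    · rw [hb x.2 (by omega), mul_zero]
    · rw [ha x.1 h, zero_mul]
  one_mem' := by
    classical
    intro n hn
    rw [MvPowerSeries.coeff_one, if_neg]
    rintro rfl
    simp at hn
  add_mem' := by
    intro a b ha hb n hn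
    rw [map_add, ha n hn, hb n hn, add_zero]
  zero_mem' := by
    intro n _
    simp
  neg_mem' := by
    intro a ha n hn
    rw [map_neg, ha n hn, neg_zero]

theorem lwFree_mem_iff {z : Fin k} {φ : PS k} :
    φ ∈ lwFree z ↔ ∀ n : Fin k →₀ ℕ, 0 < n z → MvPowerSeries.coeff n φ = 0 := Iff.rfl

theorem lwFree_XX_mem {z i : Fin k} (h : i ≠ z) : XX k i ∈ lwFree z := by
  classical
  rw [lwFree_mem_iff]
  intro n hn
  rw [MvPowerSeries.coeff_X, if_neg]
  rintro rfl
  rw [Finsupp.single_apply, if_neg h] at hn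
  exact lt_irrefl _ hn

theorem lwFree_inv_mem {z : Fin k} {φ : PS k} (h : φ ∈ lwFree z) : φ⁻¹ ∈ lwFree z := by
  classical
  rw [lwFree_mem_iff]
  intro n
  induction n using WellFoundedLT.induction with
  | _ n ih =>
    intro hn
    rw [MvPowerSeries.coeff_inv, if_neg (by rintro rfl; simp at hn)]
    rw [sum_eq_zero, mul_zero]
    intro x hx
    split_ifs with hlt
    · rw [HasAntidiagonal.mem_antidiagonal] at hx
      have h1 : x.1 z + x.2 z = n z := by rw [← hx]; rfl
      rcases Nat.eq_zero_or_pos (x.1 z) with h2 | h2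
      · rw [ih x.2 hlt (by omega), mul_zero]
      · rw [h x.1 h2, zero_mul]
    · rfl

theorem lw_X_def (i : Fin k) : XX k i = MvPowerSeries.monomial (Finsupp.single i 1) 1 := rfl

theorem lw_coeff_geom {z : Fin k} {ψ φ : PS k} (hψ : ψ ∈ lwFree z)
    (hφ : φ = ψ + φ * XX k z) (n : Fin k →₀ ℕ) :
    MvPowerSeries.coeff n φ = MvPowerSeries.coeff (n.erase z) ψ := by
  classical
  induction h : n z generalizing n with
  | zero =>
    have h1 : n.erase z = n := by
      ext i
      rw [Finsupp.erase_apply]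
      split_ifs with hi
      · rw [hi, h]
      · rfl
    rw [h1, hφ, map_add]
    have h2 : MvPowerSeries.coeff n (φ * XX k z) = 0 := by
      have := MvPowerSeries.X_pow_dvd_iff (σ := Fin k) (R := ℚ) (s := z) (n := 1)
        (φ := φ * XX k z)
      exact this.1 (by rw [pow_one]; exact Dvd.intro_left _ rfl) n (by omega)
    rw [h2, add_zero]
  | succ m ih =>
    obtain ⟨n', rfl⟩ : ∃ n' : Fin k →₀ ℕ, n = n' + Finsupp.single z 1 := by
      refine ⟨n - Finsupp.single z 1, ?_⟩
      rw [tsub_add_cancel_of_le]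
      intro i
      rw [Finsupp.single_apply]
      split_ifs with hi
      · rw [← hi]; omega
      · exact Nat.zero_le _
    have h3 : n' z = m := by simpa using h
    rw [hφ, map_add, hψ _ (by omega), zero_add]
    have h4 : MvPowerSeries.coeff (n' + Finsupp.single z 1) (φ * XX k z) =
        MvPowerSeries.coeff n' φ := by
      rw [lw_X_def, MvPowerSeries.coeff_add_mul_monomial, mul_one]
    rw [h4, ih n' h3]
    congr 2
    ext i
    rw [Finsupp.erase_apply, Finsupp.erase_apply]
    split_ifs with hi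
    · rfl
    · simp [Ne.symm hi]

theorem lw_coeff_pole {z j : Fin k} (hj : j ≠ z) {ψ φ : PS k} (hψ : ψ ∈ lwFree z)
    (hφ : φ = ψ + φ * (XX k j * XX k z)) (n : Fin k →₀ ℕ) (hn : n j < n z) :
    MvPowerSeries.coeff n φ = 0 := by
  classical
  induction h : n j generalizing n with
  | zero =>
    rw [hφ, map_add, hψ n (by omega), zero_add]
    have := MvPowerSeries.X_pow_dvd_iff (σ := Fin k) (R := ℚ) (s := j) (n := 1)
      (φ := φ * (XX k j * XX k z))
    exact this.1 ⟨φ * XX k z, by ring⟩ n (by omega)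
  | succ m ih =>
    obtain ⟨n', rfl⟩ : ∃ n' : Fin k →₀ ℕ,
        n = n' + (Finsupp.single j 1 + Finsupp.single z 1) := by
      refine ⟨n - (Finsupp.single j 1 + Finsupp.single z 1), ?_⟩
      rw [tsub_add_cancel_of_le]
      intro i
      rw [Finsupp.add_apply, Finsupp.single_apply, Finsupp.single_apply]
      split_ifs with h1 h2 h2
      · exact absurd (h1.trans h2.symm) hj
      · rw [← h1]; omega
      · rw [← h2]; omega
      · exact Nat.zero_le _
    have h3 : n' j = m := by
      simpa [Finsupp.single_apply, hj, Ne.symm hj] using h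
    have h5 : n' j < n' z := by
      simpa [Finsupp.single_apply, hj, Ne.symm hj] using hn
    rw [hφ, map_add, hψ _ (by omega), zero_add]
    have h4 : MvPowerSeries.coeff (n' + (Finsupp.single j 1 + Finsupp.single z 1))
        (φ * (XX k j * XX k z)) = MvPowerSeries.coeff n' φ := by
      rw [lw_X_def, lw_X_def, MvPowerSeries.monomial_mul_monomial,
        MvPowerSeries.coeff_add_mul_monomial, mul_one, mul_one]
    rw [h4, ih n' h5 h3]

end LwFree

section LwMain

variable {k : ℕ}

/-- The Littlewood series of a subset of the variables. -/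
noncomputable def lwS (S : Finset (Fin k)) : PS k := lwV S * (lwA S * lwD S)⁻¹

theorem lw_prod_inv (s : Finset (Fin k)) (f : Fin k → PS k) :
    (∏ i ∈ s, f i)⁻¹ = ∏ i ∈ s, (f i)⁻¹ := by
  induction s using Finset.induction with
  | empty => simp
  | insert i s hi ih =>
    rw [prod_insert hi, prod_insert hi, MvPowerSeries.mul_inv_rev, ih, mul_comm]

theorem lw_pair_mem {z : Fin k} (S : Finset (Fin k)) (f : Fin k → Fin k → PS k)
    (h : ∀ i ∈ S, ∀ j ∈ S, f i j ∈ lwFree z) : lwPair S f ∈ lwFree z := by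
  unfold lwPair
  apply Subring.prod_mem
  intro i hi
  apply Subring.prod_mem
  intro j hj
  exact h i hi j (mem_of_mem_filter _ hj)

theorem lwc_mem {z : Fin k} (S : Finset (Fin k)) (j : Fin k) : lwc S j ∈ lwFree z := by
  unfold lwc
  apply Subring.prod_mem
  intro i _
  split_ifs
  · exact Subring.one_mem _
  · exact Subring.neg_mem _ (Subring.one_mem _)

theorem lwV_mem {z : Fin k} {S : Finset (Fin k)} (hz : z ∉ S) : lwV S ∈ lwFree z := by
  apply lw_pair_mem
  intro i hi j hj
  exact Subring.sub_mem _ (lwFree_XX_mem (fun h => hz (h ▸ hj)))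
    (lwFree_XX_mem (fun h => hz (h ▸ hi)))

theorem lwD_mem {z : Fin k} {S : Finset (Fin k)} (hz : z ∉ S) : lwD S ∈ lwFree z := by
  apply lw_pair_mem
  intro i hi j hj
  exact Subring.sub_mem _ (Subring.one_mem _) (Subring.mul_mem _
    (lwFree_XX_mem (fun h => hz (h ▸ hi))) (lwFree_XX_mem (fun h => hz (h ▸ hj))))

theorem lwA_mem {z : Fin k} {S : Finset (Fin k)} (hz : z ∉ S) : lwA S ∈ lwFree z := by
  apply Subring.prod_mem
  intro i hi
  exact Subring.sub_mem _ (Subring.one_mem _) (lwFree_XX_mem (fun h => hz (h ▸ hi)))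

theorem lwS_mem {z : Fin k} {S : Finset (Fin k)} (hz : z ∉ S) : lwS S ∈ lwFree z :=
  Subring.mul_mem _ (lwV_mem hz) (lwFree_inv_mem (Subring.mul_mem _ (lwA_mem hz) (lwD_mem hz)))

/-- The residue part. -/
noncomputable def lwt (S : Finset (Fin k)) (j : Fin k) : PS k :=
  (lwA S * lwD S)⁻¹ * ((1 + XX k j) * lww S j * ∏ i ∈ S.erase j, (1 - XX k i * XX k j))

theorem lwt_mem {z : Fin k} {S : Finset (Fin k)} (hz : z ∉ S) {j : Fin k} (hj : j ∈ S) :
    lwt S j ∈ lwFree z := by
  have hjz : j ≠ z := fun h => hz (h ▸ hj)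
  have hz' : z ∉ S.erase j := fun h => hz (mem_of_mem_erase h)
  refine Subring.mul_mem _ (lwFree_inv_mem (Subring.mul_mem _ (lwA_mem hz) (lwD_mem hz)))
    (Subring.mul_mem _ (Subring.mul_mem _ (Subring.add_mem _ (Subring.one_mem _)
      (lwFree_XX_mem hjz)) (Subring.mul_mem _ (lwV_mem hz') (lwc_mem _ _))) ?_)
  apply Subring.prod_mem
  intro i hi
  exact Subring.sub_mem _ (Subring.one_mem _) (Subring.mul_mem _
    (lwFree_XX_mem (fun h => hz' (h ▸ hi))) (lwFree_XX_mem hjz))

theorem lwS_insert (S : Finset (Fin k)) (z : Fin k) (hz : z ∉ S) :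
    lwS (insert z S) = lwc S z * (lwS S * (1 - XX k z)⁻¹ -
      ∑ j ∈ S, lwt S j * (1 - XX k j * XX k z)⁻¹) := by
  have hc0 : ∀ i : Fin k, MvPowerSeries.constantCoeff (1 - XX k i * XX k z) ≠ 0 := by
    intro i
    simp
  have hc1 : MvPowerSeries.constantCoeff (1 - XX k z) ≠ 0 := by simp
  set B : PS k := (lwA S * lwD S)⁻¹ with hB
  set P : PS k := ∏ i ∈ S, (1 - XX k i * XX k z)⁻¹ with hP
  set I : PS k := (1 - XX k z)⁻¹ with hI
  have hI1 : (1 - XX k z) * I = 1 := MvPowerSeries.mul_inv_cancel _ hc1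
  have hP1 : (∏ i ∈ S, (1 - XX k i * XX k z)) * P = 1 := by
    rw [hP, ← prod_mul_distrib]
    exact prod_eq_one fun i _ => MvPowerSeries.mul_inv_cancel _ (hc0 i)
  have h1 : lwS (insert z S) = lwc S z * (lwV S * ∏ i ∈ S, (XX k z - XX k i)) * (I * B * P) := by
    unfold lwS
    rw [lwV_insert _ _ hz, lwD_insert _ _ hz]
    have h2 : lwA (insert z S) = (1 - XX k z) * lwA S := by
      unfold lwA
      rw [prod_insert hz]
    rw [h2]
    have h3 : (1 - XX k z) * lwA S * (lwD S * ∏ i ∈ S, (1 - XX k i * XX k z)) =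
        ((1 - XX k z) * (lwA S * lwD S)) * ∏ i ∈ S, (1 - XX k i * XX k z) := by ring
    rw [h3, MvPowerSeries.mul_inv_rev, MvPowerSeries.mul_inv_rev, lw_prod_inv]
    ring
  rw [h1, lw_identity S z]
  have h4 : ∀ j ∈ S, (∏ i ∈ S.erase j, (1 - XX k i * XX k z)) * P = (1 - XX k j * XX k z)⁻¹ := by
    intro j hj
    rw [hP, ← mul_prod_erase S _ hj, mul_left_comm, ← prod_mul_distrib,
      prod_eq_one fun i _ => MvPowerSeries.mul_inv_cancel _ (hc0 i), mul_one]
  have h5 : (∑ j ∈ S, (1 + XX k j) * lww S j * ∏ i ∈ S.erase j,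
      ((1 - XX k i * XX k j) * (1 - XX k i * XX k z))) * (B * P) =
      ∑ j ∈ S, lwt S j * (1 - XX k j * XX k z)⁻¹ := by
    rw [sum_mul]
    apply sum_congr rfl
    intro j hj
    rw [← h4 j hj, prod_mul_distrib, lwt]
    ring
  rw [← h5]
  have h6 : lwS S = lwV S * B := rfl
  rw [h6]
  linear_combination (lwc S z * lwV S * I * B) * hP1 -
    (lwc S z * (∑ j ∈ S, (1 + XX k j) * lww S j * ∏ i ∈ S.erase j,
      ((1 - XX k i * XX k j) * (1 - XX k i * XX k z))) * B * P) * hI1

theorem lwc_eq (S : Finset (Fin k)) (z : Fin k) :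
    lwc S z = MvPowerSeries.C (∏ i ∈ S, (if i < z then (1 : ℚ) else -1)) := by
  unfold lwc
  rw [map_prod]
  apply prod_congr rfl
  intro i _
  split_ifs
  · simp
  · simp

theorem lw_coeff_main (n : Fin k →₀ ℕ) (S : Finset (Fin k)) :
    (∀ i ∈ S, ∀ j ∈ S, n i = n j → i = j) →
    MvPowerSeries.coeff (n.filter (· ∈ S)) (lwS S) =
      lwPair S (fun i j => if n i < n j then (1 : ℚ) else -1) := by
  classical
  induction S using Finset.induction_on_max_value (fun i => n i) with
  | empty =>
    intro _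
    have h1 : n.filter (· ∈ (∅ : Finset (Fin k))) = 0 := by
      ext i
      simp
    rw [h1]
    simp [lwS, lwV, lwA, lwD, lwPair]
  | insert z S hz hmax ih =>
    intro hinj
    have hinj' : ∀ i ∈ S, ∀ j ∈ S, n i = n j → i = j := fun i hi j hj h =>
      hinj i (mem_insert_of_mem hi) j (mem_insert_of_mem hj) h
    have hlt : ∀ i ∈ S, n i < n z := by
      intro i hi
      refine lt_of_le_of_ne (hmax i hi) ?_
      intro h
      exact hz (hinj i (mem_insert_of_mem hi) z (mem_insert_self _ _) h ▸ hi)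
    rw [lwS_insert S z hz, lwc_eq, MvPowerSeries.coeff_C_mul, map_sub, map_sum]
    set m : Fin k →₀ ℕ := n.filter (· ∈ insert z S) with hm
    have hmS : ∀ i ∈ insert z S, m i = n i := fun i hi => Finsupp.filter_apply_pos _ _ hi
    have hme : m.erase z = n.filter (· ∈ S) := by
      ext i
      rw [Finsupp.erase_apply, hm, Finsupp.filter_apply, Finsupp.filter_apply]
      by_cases hi : i = z
      · subst hi
        rw [if_pos rfl, if_neg hz]
      · rw [if_neg hi]
        simp [mem_insert, hi]
    have e1 : MvPowerSeries.coeff m (lwS S * (1 - XX k z)⁻¹) =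
        lwPair S (fun i j => if n i < n j then (1 : ℚ) else -1) := by
      rw [lw_coeff_geom (z := z) (lwS_mem hz) _ m, hme, ih hinj']
      have h2 : (1 - XX k z)⁻¹ * (1 - XX k z) = 1 :=
        MvPowerSeries.inv_mul_cancel _ (by simp)
      linear_combination lwS S * h2
    have e2 : ∀ j ∈ S, MvPowerSeries.coeff m (lwt S j * (1 - XX k j * XX k z)⁻¹) = 0 := by
      intro j hj
      have hjz : j ≠ z := fun h => hz (h ▸ hj)
      apply lw_coeff_pole hjz (lwt_mem hz hj) _ m
      · rw [hmS j (mem_insert_of_mem hj), hmS z (mem_insert_self _ _)]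
        exact hlt j hj
      · have h2 : (1 - XX k j * XX k z)⁻¹ * (1 - XX k j * XX k z) = 1 :=
          MvPowerSeries.inv_mul_cancel _ (by simp)
        linear_combination lwt S j * h2
    rw [e1, sum_eq_zero e2, sub_zero, lwPair_insert S _ z hz, mul_comm]
    congr 1
    apply prod_congr rfl
    intro i hi
    rw [if_pos (hlt i hi), if_neg (not_lt.2 (hlt i hi).le)]

end LwMain

theorem coeff_LW {k : ℕ} (p : Fin k → ℕ) (hp : StrictMono p) (π : Equiv.Perm (Fin k)) :
    MvPowerSeries.coeff (Finsupp.equivFunOnFinite.symm fun i => p (π i)) (LW k) =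
      ((Equiv.Perm.sign π : ℤ) : ℚ) := by
  classical
  have h := lw_coeff_main (Finsupp.equivFunOnFinite.symm fun i => p (π i)) univ
    (fun i _ j _ h => π.injective (hp.injective h))
  have h1 : (Finsupp.equivFunOnFinite.symm fun i => p (π i)).filter
      (· ∈ (univ : Finset (Fin k))) = Finsupp.equivFunOnFinite.symm fun i => p (π i) := by
    ext i
    simp
  have h2 : lwS (univ : Finset (Fin k)) = LW k := by
    unfold lwS LW lwV lwD lwA
    rw [lwPair_univ, lwPair_univ]
  rw [h1, h2, lwPair_univ] at h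
  rw [h, Equiv.Perm.sign_eq_prod_prod_Ioi]
  simp only [Units.coe_prod, Int.cast_prod, Finsupp.coe_equivFunOnFinite_symm, hp.lt_iff_lt]
  apply prod_congr rfl
  intro i _
  apply prod_congr rfl
  intro j _
  split_ifs <;> simp

end Pool.Agent.Lib.MP_b6786a_co.Zeil
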