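import Pool.Agent.Lib.MP_b6786a_co.Zeil.Basic2

/-!
# Reflection: general lemmas
-/

set_option autoImplicit false

namespace Pool.Agent.Lib.MP_b6786a_co.Zeil

open Finset Function

/-! ### products over pairs -/

section PP

variable {F : Type*} [CommRing F] {k : ℕ}

/-- product over the pairs `p < q` in `U` -/
def PP (f : Fin k → Fin k → F) (U : Finset (Fin k)) : F :=
  ∏ p ∈ U, ∏ q ∈ U.filter (p < ·), f p q

theorem PP_univ (f : Fin k → Fin k → F) : PP f univ = ∏ p, ∏ q ∈ Ioi p, f p q := by
  unfold PP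
  refine Finset.prod_congr rfl fun p _ => Finset.prod_congr ?_ fun _ _ => rfl
  ext q; simp

theorem PP_erase (f : Fin k → Fin k → F) (U : Finset (Fin k)) {i : Fin k} (hi : i ∈ U) :
    PP f U = (∏ l ∈ U.erase i, if i < l then f i l else f l i) * PP f (U.erase i) := by
  unfold PP
  rw [← Finset.mul_prod_erase U _ hi]
  have h1 : ∏ q ∈ U.filter (i < ·), f i q = ∏ q ∈ U.erase i, if i < q then f i q else 1 := by
    rw [← Finset.prod_filter]
    refine Finset.prod_congr ?_ fun _ _ => rfl
    ext q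
    simp only [Finset.mem_filter, Finset.mem_erase]
    constructor
    · rintro ⟨h1, h2⟩; exact ⟨⟨h2.ne', h1⟩, h2⟩
    · rintro ⟨⟨_, h1⟩, h2⟩; exact ⟨h1, h2⟩
  have h2 : ∀ p ∈ U.erase i, ∏ q ∈ U.filter (p < ·), f p q =
      (if p < i then f p i else 1) * ∏ q ∈ (U.erase i).filter (p < ·), f p q := by
    intro p hp
    split_ifs with h
    · have hi' : i ∈ U.filter (p < ·) := by simp [hi, h]
      rw [← Finset.mul_prod_erase _ _ hi']
      congr 1
      refine Finset.prod_congr ?_ fun _ _ => rfl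
      ext q; simp only [Finset.mem_filter, Finset.mem_erase]; tauto
    · rw [one_mul]
      refine Finset.prod_congr ?_ fun _ _ => rfl
      ext q; simp only [Finset.mem_filter, Finset.mem_erase]
      constructor
      · rintro ⟨h1, h2⟩
        refine ⟨⟨?_, h1⟩, h2⟩
        rintro rfl; exact h h2
      · rintro ⟨⟨_, h1⟩, h2⟩; exact ⟨h1, h2⟩
  rw [h1, Finset.prod_congr rfl h2, Finset.prod_mul_distrib, ← mul_assoc, ← Finset.prod_mul_distrib]
  congr 1
  refine Finset.prod_congr rfl fun l hl => ?_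
  have hne : l ≠ i := (Finset.mem_erase.mp hl).1
  rcases lt_or_gt_of_ne hne with h | h
  · rw [if_neg (not_lt.mpr h.le), if_pos h, if_neg (not_lt.mpr h.le), one_mul]
  · rw [if_pos h, if_neg (not_lt.mpr h.le), if_pos h, mul_one]

theorem PP_congr {f g : Fin k → Fin k → F} {U : Finset (Fin k)}
    (h : ∀ p ∈ U, ∀ q ∈ U, f p q = g p q) : PP f U = PP g U := by
  unfold PP
  refine Finset.prod_congr rfl fun p hp => Finset.prod_congr rfl fun q hq => ?_
  exact h p hp q (Finset.mem_filter.mp hq).1

end PP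

/-! ### polynomial functions -/

section IsPoly

variable {L : Type*} [Field L] {K : Subfield L} {D D' : ℕ} {f g : L → L}

open Polynomial

namespace IsPoly

theorem mono (hf : IsPoly K D f) (h : D ≤ D') : IsPoly K D' f := by
  obtain ⟨p, hp, hf⟩ := hf
  exact ⟨p, hp.trans h, hf⟩

theorem congr (hf : IsPoly K D f) (h : ∀ t, g t = f t) : IsPoly K D g := by
  obtain ⟨p, hp, hf⟩ := hf
  exact ⟨p, hp, fun t => (h t).trans (hf t)⟩

theorem const {c : L} (hc : c ∈ K) : IsPoly K 0 (fun _ => c) :=
  ⟨C ⟨c, hc⟩, by simp, fun t => by rw [aeval_C]; rfl⟩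

theorem id : IsPoly K 1 (fun t => t) := ⟨X, natDegree_X_le, fun t => by simp⟩

theorem add (hf : IsPoly K D f) (hg : IsPoly K D g) : IsPoly K D (fun t => f t + g t) := by
  obtain ⟨p, hp, hf⟩ := hf
  obtain ⟨q, hq, hg⟩ := hg
  exact ⟨p + q, (natDegree_add_le _ _).trans (max_le hp hq), fun t => by simp only [hf, hg, map_add]⟩

theorem neg (hf : IsPoly K D f) : IsPoly K D (fun t => - f t) := by
  obtain ⟨p, hp, hf⟩ := hf
  exact ⟨-p, by rwa [natDegree_neg], fun t => by simp only [hf, map_neg]⟩

theorem sub (hf : IsPoly K D f) (hg : IsPoly K D g) : IsPoly K D (fun t => f t - g t) :=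
  (hf.add hg.neg).congr fun t => by ring

theorem mul (hf : IsPoly K D f) (hg : IsPoly K D' g) : IsPoly K (D + D') (fun t => f t * g t) := by
  obtain ⟨p, hp, hf⟩ := hf
  obtain ⟨q, hq, hg⟩ := hg
  exact ⟨p * q, natDegree_mul_le.trans (add_le_add hp hq), fun t => by simp only [hf, hg, map_mul]⟩

theorem pow (hf : IsPoly K D f) (n : ℕ) : IsPoly K (n * D) (fun t => f t ^ n) := by
  obtain ⟨p, hp, hf⟩ := hf
  exact ⟨p ^ n, natDegree_pow_le.trans (Nat.mul_le_mul_left n hp), fun t => by simp only [hf, map_pow]⟩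

theorem prod {ι : Type*} (s : Finset ι) (F : ι → L → L) (h : ∀ i ∈ s, IsPoly K D (F i)) :
    IsPoly K (s.card * D) (fun t => ∏ i ∈ s, F i t) := by
  classical
  induction s using Finset.induction_on with
  | empty => simpa using const (K := K) K.one_mem
  | insert i s hi ih =>
      refine (((h i (by simp)).mul (ih fun j hj => h j (by simp [hj]))).mono ?_).congr ?_
      · rw [Finset.card_insert_of_notMem hi]; nlinarith
      · intro t; rw [Finset.prod_insert hi]

theorem sum {ι : Type*} (s : Finset ι) (F : ι → L → L) (h : ∀ i ∈ s, IsPoly K D (F i)) :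
    IsPoly K D (fun t => ∑ i ∈ s, F i t) := by
  classical
  induction s using Finset.induction_on with
  | empty => simpa using (const (K := K) K.zero_mem).mono (Nat.zero_le D)
  | insert i s hi ih =>
      refine ((h i (by simp)).add (ih fun j hj => h j (by simp [hj]))).congr ?_
      intro t; rw [Finset.sum_insert hi]

end IsPoly

theorem gg_mem {k j : ℕ} {x : L} (hx : x ∈ K) : gg k j x ∈ K := by
  unfold gg
  exact K.mul_mem (K.pow_mem (K.sub_mem K.one_mem hx) _) (K.pow_mem hx _)

theorem uu_mem {x : L} (hx : x ∈ K) : uu x ∈ K := by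
  unfold uu
  exact K.mul_mem hx (K.sub_mem K.one_mem hx)

theorem isPoly_uu : IsPoly K 2 (fun t : L => uu t) := by
  unfold uu
  exact (IsPoly.id.mul (((IsPoly.const K.one_mem).mono (Nat.zero_le 1)).sub IsPoly.id)).congr
    fun t => rfl

theorem isPoly_gg {k : ℕ} {j : ℕ} (hj : j < k) : IsPoly K (3 * (k - 1)) (fun t : L => gg k j (uu t)) := by
  unfold gg
  have h1 : IsPoly K 2 (fun t : L => 1 - uu t) :=
    ((IsPoly.const K.one_mem).mono (Nat.zero_le 2)).sub isPoly_uu
  refine ((h1.pow (3 * (j / 2))).mul (isPoly_uu.pow (k - 1 - j))).mono ?_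
  have := Nat.div_mul_le_self j 2
  omega

theorem isPoly_DD {k : ℕ} (y : Fin k → L) (i : Fin k) (hy : ∀ l, l ≠ i → y l ∈ K) :
    IsPoly K (3 * (k - 1)) (fun t => DD (fun d => uu (update y i t d))) := by
  classical
  unfold DD
  simp only [Matrix.det_apply]
  refine IsPoly.sum _ _ fun σ _ => ?_
  have h0 : ∀ t : L, ∏ c, (Matrix.of fun i_1 j : Fin k => gg k (j : ℕ) (uu (update y i t i_1))) (σ c) c =
      gg k ((σ⁻¹ i : Fin k) : ℕ) (uu t) * ∏ c ∈ univ.erase (σ⁻¹ i), gg k (c : ℕ) (uu (y (σ c))) := by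
    intro t
    rw [← Finset.mul_prod_erase univ _ (Finset.mem_univ (σ⁻¹ i))]
    congr 1
    · simp [Matrix.of_apply]
    · refine Finset.prod_congr rfl fun c hc => ?_
      rw [Matrix.of_apply, update_of_ne]
      intro h
      apply (Finset.mem_erase.mp hc).1
      rw [← h]; simp
  have h1 : IsPoly K (3 * (k - 1)) (fun t : L => gg k ((σ⁻¹ i : Fin k) : ℕ) (uu t) *
      ∏ c ∈ univ.erase (σ⁻¹ i), gg k (c : ℕ) (uu (y (σ c)))) := by
    refine ((isPoly_gg (σ⁻¹ i).2).mul (IsPoly.const (K.prod_mem fun c hc => ?_))).mono (by simp)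
    refine gg_mem (uu_mem (hy _ ?_))
    intro h
    apply (Finset.mem_erase.mp hc).1
    rw [← h]; simp
  rcases Int.units_eq_one_or (Equiv.Perm.sign σ) with h | h
  · refine h1.congr fun t => ?_
    rw [h, one_smul, h0]
  · refine h1.neg.congr fun t => ?_
    rw [h, h0, Units.neg_smul, one_smul]

theorem isPoly_VV {k : ℕ} (y : Fin k → L) (i : Fin k) (hy : ∀ l, l ≠ i → y l ∈ K) :
    IsPoly K (2 * (k - 1)) (fun t => VV (fun d => uu (update y i t d))) := by
  classical
  have h0 : ∀ t : L, VV (fun d => uu (update y i t d)) =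
      (∏ l ∈ univ.erase i, if i < l then uu t - uu (y l) else uu (y l) - uu t) *
        PP (fun p q => uu (y p) - uu (y q)) (univ.erase i) := by
    intro t
    unfold VV
    rw [← PP_univ (fun p q => uu (update y i t p) - uu (update y i t q)),
      PP_erase _ _ (Finset.mem_univ i)]
    congr 1
    · refine Finset.prod_congr rfl fun l hl => ?_
      rw [update_self, update_of_ne (Finset.mem_erase.mp hl).1]
    · refine PP_congr fun p hp q hq => ?_
      rw [update_of_ne (Finset.mem_erase.mp hp).1, update_of_ne (Finset.mem_erase.mp hq).1]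
  refine IsPoly.congr ?_ h0
  refine ((IsPoly.prod (D := 2) (univ.erase i) _ fun l hl => ?_).mul (IsPoly.const ?_)).mono
    (D := (univ.erase i).card * 2 + 0) ?_
  · have hl' := hy l (Finset.mem_erase.mp hl).1
    have h2 : IsPoly K 2 (fun _ : L => uu (y l)) := (IsPoly.const (uu_mem hl')).mono (Nat.zero_le 2)
    split_ifs
    · exact isPoly_uu.sub h2
    · exact h2.sub isPoly_uu
  · unfold PP
    refine K.prod_mem fun p hp => K.prod_mem fun q hq => K.sub_mem (uu_mem (hy p ?_)) (uu_mem (hy q ?_))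
    · exact (Finset.mem_erase.mp hp).1
    · exact (Finset.mem_erase.mp (Finset.mem_filter.mp hq).1).1
  · rw [Finset.card_erase_of_mem (Finset.mem_univ i), Finset.card_univ, Fintype.card_fin]
    omega

end IsPoly

/-! ### the reflection lemma for families of poles -/

variable {k : ℕ}

open Polynomial Classical in
theorem reflect {ι : Type*} [Fintype ι] [DecidableEq ι] (a : Fin k) (P : ι → LL k)
    (hP : ∀ i, P i ∈ Kf ({a} : Set (Fin k))) (hinj : Function.Injective P) (h0 : ∀ i, P i ≠ 0)
    (h1 : ∀ i, P i ≠ 1) (A B D : ℕ) (f : LL k → LL k) (hf : IsPoly (Kf ({a} : Set (Fin k))) D f)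
    (hD : D + 2 ≤ A + B + Fintype.card ι)
    (hR : ∀ i, res (f (P i) / (P i ^ A * (1 - P i) ^ B * ∏ j ∈ univ.erase i, (P i - P j)) *
      (ss k a)⁻¹) = 0) :
    res (f (ss k a) / (ss k a ^ A * (1 - ss k a) ^ B * ∏ i, (ss k a - P i))) =
      res (f (1 - ss k a) / ((1 - ss k a) ^ A * (ss k a) ^ B * ∏ i, (1 - ss k a - P i))) := by
  obtain ⟨p, hpd, hpf⟩ := hf
  set P' : ι → Kf ({a} : Set (Fin k)) := fun i => ⟨P i, hP i⟩ with hP'
  have hinj' : Function.Injective P' := fun i j h => hinj (by simpa [hP'] using congrArg Subtype.val h)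
  set S : Finset (Kf ({a} : Set (Fin k))) := univ.image P' with hS
  have hcard : S.card = Fintype.card ι := by
    rw [hS, Finset.card_image_of_injective _ hinj', Finset.card_univ]
  have hpdeg : p.degree < (A + B + S.card : ℕ) := by
    refine degree_le_natDegree.trans_lt ?_
    rw [hcard]
    exact_mod_cast (by omega : p.natDegree < A + B + Fintype.card ι)
  have key := refl_core a S A B (by
      intro Q hQ
      obtain ⟨i, -, rfl⟩ := Finset.mem_image.mp hQ
      intro h; exact h0 i (by simpa [hP'] using congrArg Subtype.val h))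
    (by
      intro Q hQ
      obtain ⟨i, -, rfl⟩ := Finset.mem_image.mp hQ
      intro h; exact h1 i (by simpa [hP'] using congrArg Subtype.val h)) p hpdeg (by
      intro Q hQ
      obtain ⟨i, -, rfl⟩ := Finset.mem_image.mp hQ
      have h2 := hR i
      have h3 : ((p.eval (P' i) : Kf ({a} : Set (Fin k))) : LL k) = f (P i) := by
        rw [hpf]
        have := Polynomial.aeval_algebraMap_apply (LL k) (P' i) p
        rw [Polynomial.coe_aeval_eq_eval] at this
        exact this.symm
      have h4 : (univ.image P').erase (P' i) = (univ.erase i).image P' := by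
        rw [Finset.image_erase hinj']
      have h5 : ∏ Q ∈ S.erase (P' i), (P' i - Q) = ∏ j ∈ univ.erase i, (P' i - P' j) := by
        rw [hS, h4, Finset.prod_image (fun x _ y _ h => hinj' h)]
      rw [h5]
      push_cast
      rw [h3]
      exact h2)
  have hcoef : p.coeff (A + B + S.card - 1) = 0 := by
    apply coeff_eq_zero_of_natDegree_lt
    rw [hcard]; omega
  rw [hcoef] at key
  simp only [ZeroMemClass.coe_zero, zero_mul, res_zero, mul_zero] at key
  rw [← hpf, ← hpf] at key
  have h6 : ∀ t : LL k, ∏ Q ∈ S, (t - (Q : LL k)) = ∏ i, (t - P i) := by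
    intro t
    rw [hS, Finset.prod_image (fun x _ y _ h => hinj' h)]
  rw [h6, h6] at key
  exact sub_eq_zero.mp key

end Pool.Agent.Lib.MP_b6786a_co.Zeil
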