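import Pool.Agent.Lib.MP_b6786a_co.Zeil.Refl

/-!
# Reflection invariance of the Gog integrand: preparations
-/

set_option autoImplicit false

namespace Pool.Agent.Lib.MP_b6786a_co.Zeil

open Finset Function

section pole

variable {k : ℕ}

theorem pole_res {a b : Fin k} (hab : a ≠ b) (β0 : Bool) {ι : Type*} (s : Finset ι)
    (α β γ δ : ι → LL k)
    (h : ∀ l ∈ s, α l ∈ Kf ({a, b} : Set (Fin k)) ∧ β l ∈ Kf ({a, b} : Set (Fin k)) ∧
      γ l ∈ Kf ({a, b} : Set (Fin k)) ∧ δ l ∈ Kf ({a, b} : Set (Fin k)))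
    (C μ ν : LL k) (hC : C ∈ Kf ({a, b} : Set (Fin k))) (hμ : μ ∈ Kf ({a, b} : Set (Fin k)))
    (hν : ν ∈ Kf ({a, b} : Set (Fin k))) (E F : ℕ) (hEF : E + 2 * s.card + 6 ≤ F) :
    res (C * (μ + ν * sg β0 (ss k b)) * (1 + sg β0 (ss k b) ^ 3) * sg β0 (ss k b) ^ E *
      ((1 - sg β0 (ss k b))⁻¹) ^ F *
      (∏ l ∈ s, ((α l + β l * sg β0 (ss k b)) * (γ l + δ l * sg β0 (ss k b)))) *
      (ss k a)⁻¹) = 0 := by
  have hsa : (ss k a)⁻¹ ∈ Kf ({b} : Set (Fin k)) :=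
    (Kf {b}).inv_mem (ss_mem_Kf (by simpa using hab))
  have hb : b ∈ ({a, b} : Set (Fin k)) := by simp
  cases β0 with
  | false =>
      have hz : Pge b 0 (sg false (ss k b)) := by simpa [sg] using Pge_ss b b
      have hzi : Pge b 0 (1 - sg false (ss k b))⁻¹ := by simpa [sg] using Pge_inv_one_sub_ss b b
      refine res_of_Pge (a := b) (c := 0) ?_ le_rfl
      refine Pge.mul0 ?_ (Pge.of_Kf hsa rfl)
      refine Pge.mul0 ?_ (Pge.prod0 _ _ fun l hl => ?_)
      · refine Pge.mul0 ?_ (hzi.pow0 F)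
        refine Pge.mul0 ?_ (hz.pow0 E)
        refine Pge.mul0 ?_ (Pge.one.add (hz.pow0 3))
        refine Pge.mul0 (Pge.of_Kf hC hb) ((Pge.of_Kf hμ hb).add ((Pge.of_Kf hν hb).mul0 hz))
      · obtain ⟨h1, h2, h3, h4⟩ := h l hl
        exact ((Pge.of_Kf h1 hb).add ((Pge.of_Kf h2 hb).mul0 hz)).mul0
          ((Pge.of_Kf h3 hb).add ((Pge.of_Kf h4 hb).mul0 hz))
  | true =>
      have hz : Ple b 1 (sg true (ss k b)) := by
        have : Ple b 1 (1 - ss k b) := ((Ple.one).mono (by norm_num)).sub (Ple_ss b b)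
        simpa [sg] using this
      have hzi : Ple b (-1) (1 - sg true (ss k b))⁻¹ := by
        have h1 : (1 - sg true (ss k b)) = ss k b := by simp [sg]
        rw [h1]; exact Ple_ss_inv b
      have h1 : Ple b 1 (μ + ν * sg true (ss k b)) :=
        ((Ple.of_Kf hμ hb).mono (by norm_num)).add (((Ple.of_Kf hν hb).mul hz).mono (by norm_num))
      have h2 : Ple b 3 (1 + sg true (ss k b) ^ 3) :=
        (Ple.one.mono (by norm_num)).add ((hz.pow 3).mono (by norm_num))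
      have h3 := Ple.prod (a := b) (c := 2) s
        (fun l => (α l + β l * sg true (ss k b)) * (γ l + δ l * sg true (ss k b))) (fun l hl => by
          obtain ⟨h1, h2, h3, h4⟩ := h l hl
          have e1 : Ple b 1 (α l + β l * sg true (ss k b)) :=
            ((Ple.of_Kf h1 hb).mono (by norm_num)).add (((Ple.of_Kf h2 hb).mul hz).mono (by norm_num))
          have e2 : Ple b 1 (γ l + δ l * sg true (ss k b)) :=
            ((Ple.of_Kf h3 hb).mono (by norm_num)).add (((Ple.of_Kf h4 hb).mul hz).mono (by norm_num))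
          exact (e1.mul e2).mono (by norm_num))
      refine res_of_Ple (a := b) ((((((((Ple.of_Kf hC hb).mul h1).mul h2).mul (hz.pow E)).mul
        (hzi.pow F)).mul h3).mul (Ple.of_Kf hsa rfl))) ?_
      have : (E : ℤ) + 2 * s.card + 6 ≤ F := by exact_mod_cast hEF
      linarith

end pole

section alg

variable {F : Type*} [Field F]

theorem algG_pow {z : F} (hz : z ≠ 0) (N : ℕ) :
    (1 - z⁻¹) ^ N = (-1) ^ N * (1 - z) ^ N / z ^ N := by
  rw [← mul_pow, ← div_pow]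
  congr 1
  field_simp
  ring

theorem algG_E {z : F} (hz : z ≠ 0) {E m1 K2 M : ℕ} (h : E + (m1 + 3 + K2) = M) :
    z ^ E = z ^ M / (z ^ m1 * z ^ 3 * z ^ K2) := by
  rw [← pow_add, ← pow_add, eq_div_iff (pow_ne_zero _ hz), ← pow_add, h]

theorem algG_F {x : F} (hx : x ≠ 0) {F' m N : ℕ} (h : F' + (1 + m) = 2 * N) :
    (x⁻¹) ^ F' = x * x ^ m / (x ^ N * x ^ N) := by
  rw [inv_pow, inv_eq_one_div, div_eq_div_iff (pow_ne_zero _ hx)
      (mul_ne_zero (pow_ne_zero _ hx) (pow_ne_zero _ hx)), ← pow_add, one_mul, ← pow_succ',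
      ← pow_add]
  congr 1; omega

/-- case `i < j`, `y_j = z` -/
theorem algG_I0 (z w C cst Q : F) (hz : z ≠ 0) (hz1 : 1 - z ≠ 0) (hw : w ≠ 0)
    (N m1 m2 K2 E F' : ℕ) (hE : E + (m1 + 3 + K2) = N + m2) (hF : F' + (1 + 0) = 2 * N) :
    C * ((1 - z) * (1 + z ^ 3) / z ^ 2) * (Q / z ^ K2) * (1 - 2 * z⁻¹) * (z⁻¹) ^ m1 *
      (w * ((uu z)⁻¹) ^ N * z ^ m2 * cst) / ((z⁻¹) ^ N * (1 - z⁻¹) ^ N * w) =
    C * cst * (-1) ^ N * (-2 + 1 * z) * (1 + z ^ 3) * z ^ E * ((1 - z)⁻¹) ^ F' * Q := by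
  have h1 := algG_pow hz N
  have h2 := algG_E hz hE
  have h3 := algG_F hz1 hF
  have h4 : ((uu z)⁻¹) ^ N = 1 / (z ^ N * (1 - z) ^ N) := by
    unfold uu; rw [inv_pow, mul_pow, one_div]
  have h5 : ((-1 : F) ^ N) ≠ 0 := pow_ne_zero _ (by norm_num)
  have h6 : ((-1 : F) ^ N) * (-1) ^ N = 1 := by rw [← mul_pow]; norm_num
  rw [h1, h2, h3, h4, pow_add, inv_pow, inv_pow]
  generalize (-1 : F) ^ N = s at *
  field_simp
  linear_combination (-(C * Q * cst * (z - 2) * (1 + z ^ 3))) * h6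

/-- case `i < j`, `y_j = 1 - z` -/
theorem algG_I1 (z w C cst Q : F) (hz : z ≠ 0) (hz1 : 1 - z ≠ 0) (hw : w ≠ 0)
    (N m1 m2 K2 E F' : ℕ) (hE : E + (m1 + 3 + K2) = N) (hF : F' + (1 + m2) = 2 * N) :
    C * ((1 - z) * (1 + z ^ 3) / z ^ 2) * (Q / z ^ K2) * (1 - 2 * z⁻¹) * (z⁻¹) ^ m1 *
      ((-w) * ((uu z)⁻¹) ^ N * (1 - z) ^ m2 * cst) / ((z⁻¹) ^ N * (1 - z⁻¹) ^ N * w) =
    C * cst * (-(-1) ^ N) * (-2 + 1 * z) * (1 + z ^ 3) * z ^ E * ((1 - z)⁻¹) ^ F' * Q := by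
  have h1 := algG_pow hz N
  have h2 := algG_E hz hE
  have h3 := algG_F hz1 hF
  have h4 : ((uu z)⁻¹) ^ N = 1 / (z ^ N * (1 - z) ^ N) := by
    unfold uu; rw [inv_pow, mul_pow, one_div]
  have h5 : ((-1 : F) ^ N) ≠ 0 := pow_ne_zero _ (by norm_num)
  have h6 : ((-1 : F) ^ N) * (-1) ^ N = 1 := by rw [← mul_pow]; norm_num
  rw [h1, h2, h3, h4, inv_pow, inv_pow]
  generalize (-1 : F) ^ N = s at *
  field_simp
  linear_combination (C * Q * cst * (z - 2) * (1 + z ^ 3)) * h6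

/-- case `j < i`, `z = 1/y`, pole at `t = z` -/
theorem algG_II0 (y w C cst Q : F) (hy : y ≠ 0) (hy1 : 1 - y ≠ 0) (hw : w ≠ 0)
    (N m1 m2 K2 E F' : ℕ) (hE : E + (m1 + 4 + K2) = N + m2) (hF : F' + (1 + 0) = 2 * N) :
    C * ((1 - y⁻¹) * (1 + y⁻¹ ^ 3) / y⁻¹ ^ 2) * (Q / y ^ K2) * w * (y⁻¹) ^ m1 *
      ((1 - 2 * y) * ((uu y)⁻¹) ^ N * y ^ m2 * cst) /
        ((y⁻¹) ^ N * (1 - y⁻¹) ^ N * (-y ^ 2 * -w)) =
    C * cst * (-(-1) ^ N) * (1 + (-2) * y) * (1 + y ^ 3) * y ^ E * ((1 - y)⁻¹) ^ F' * Q := by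
  have h1 := algG_pow hy N
  have h2 : y ^ E = y ^ (N + m2) / (y ^ m1 * y ^ 4 * y ^ K2) := by
    rw [← pow_add, ← pow_add, eq_div_iff (pow_ne_zero _ hy), ← pow_add, hE]
  have h3 := algG_F hy1 hF
  have h4 : ((uu y)⁻¹) ^ N = 1 / (y ^ N * (1 - y) ^ N) := by
    unfold uu; rw [inv_pow, mul_pow, one_div]
  have h5 : ((-1 : F) ^ N) ≠ 0 := pow_ne_zero _ (by norm_num)
  have h6 : ((-1 : F) ^ N) * (-1) ^ N = 1 := by rw [← mul_pow]; norm_num
  rw [h1, h2, h3, h4, pow_add, inv_pow y N, inv_pow y m1]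
  generalize (-1 : F) ^ N = s at *
  field_simp
  linear_combination (C * cst * Q * (1 - 2 * y) * (1 + y ^ 3) * (1 - y)) * h6

/-- case `j < i`, `z = 1/y`, pole at `t = 1 - z` -/
theorem algG_II1 (y w C cst Q : F) (hy : y ≠ 0) (hy1 : 1 - y ≠ 0) (hw : w ≠ 0)
    (N m1 m2 K2 E F' : ℕ) (hE : E + (m1 + 4 + K2) = N + m2) (hF : F' + (1 + m1) = 2 * N) :
    C * ((1 - y⁻¹) * (1 + y⁻¹ ^ 3) / y⁻¹ ^ 2) * (Q / y ^ K2) * (-w) * (1 - y⁻¹) ^ m1 *
      ((1 - 2 * y) * ((uu y)⁻¹) ^ N * y ^ m2 * cst) /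
        ((1 - y⁻¹) ^ N * (y⁻¹) ^ N * (-y ^ 2 * w)) =
    C * cst * (-(-1) ^ N * (-1) ^ m1) * (1 + (-2) * y) * (1 + y ^ 3) * y ^ E *
      ((1 - y)⁻¹) ^ F' * Q := by
  have h1 := algG_pow hy N
  have h1' := algG_pow hy m1
  have h2 : y ^ E = y ^ (N + m2) / (y ^ m1 * y ^ 4 * y ^ K2) := by
    rw [← pow_add, ← pow_add, eq_div_iff (pow_ne_zero _ hy), ← pow_add, hE]
  have h3 := algG_F hy1 hF
  have h4 : ((uu y)⁻¹) ^ N = 1 / (y ^ N * (1 - y) ^ N) := by
    unfold uu; rw [inv_pow, mul_pow, one_div]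
  have h5 : ((-1 : F) ^ N) ≠ 0 := pow_ne_zero _ (by norm_num)
  have h6 : ((-1 : F) ^ N) * (-1) ^ N = 1 := by rw [← mul_pow]; norm_num
  rw [h1, h1', h2, h3, h4, pow_add, inv_pow y N]
  generalize (-1 : F) ^ N = s at *
  generalize (-1 : F) ^ m1 = s1 at *
  field_simp
  linear_combination (C * cst * Q * s1 * (1 - 2 * y) * (1 + y ^ 3) * (1 - y)) * h6

end alg

section cst

variable {F : Type*} [Field F] {k : ℕ}

/-- the factors of `Φ_G` belonging to the variables in `U`, except for the determinant -/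
noncomputable def cstG (N : ℕ) (y : Fin k → F) (U : Finset (Fin k)) : F :=
  (∏ d ∈ U, (1 - 2 * y d)) * (∏ d ∈ U, ((uu (y d))⁻¹) ^ N) * (∏ d ∈ U, y d ^ (k - (d : ℕ))) /
    PP (fun p q => 1 - y p + y p ^ 2 * uu (y q)) U

theorem cstG_erase (N : ℕ) (y : Fin k → F) (U : Finset (Fin k)) {i : Fin k} (hi : i ∈ U) :
    cstG N y U = (1 - 2 * y i) * ((uu (y i))⁻¹) ^ N * (y i) ^ (k - (i : ℕ)) *
      cstG N y (U.erase i) / ∏ l ∈ U.erase i, kap y i l := by
  unfold cstG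
  rw [PP_erase _ _ hi, ← Finset.mul_prod_erase U (fun d => 1 - 2 * y d) hi,
    ← Finset.mul_prod_erase U (fun d => ((uu (y d))⁻¹) ^ N) hi,
    ← Finset.mul_prod_erase U (fun d => y d ^ (k - (d : ℕ))) hi]
  have : ∏ l ∈ U.erase i, kap y i l = ∏ l ∈ U.erase i, if i < l then 1 - y i + y i ^ 2 * uu (y l)
      else 1 - y l + y l ^ 2 * uu (y i) := rfl
  rw [this]
  rw [mul_div_assoc', div_div]
  congr 1 <;> ring

theorem cstG_congr (N : ℕ) {y y' : Fin k → F} {U : Finset (Fin k)} (h : ∀ d ∈ U, y d = y' d) :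
    cstG N y U = cstG N y' U := by
  unfold cstG
  rw [Finset.prod_congr rfl fun d hd => by rw [h d hd],
    Finset.prod_congr rfl (fun d hd => by rw [h d hd] : ∀ d ∈ U, ((uu (y d))⁻¹) ^ N = ((uu (y' d))⁻¹) ^ N),
    Finset.prod_congr rfl (fun d hd => by rw [h d hd] : ∀ d ∈ U, y d ^ (k - (d : ℕ)) = y' d ^ (k - (d : ℕ))),
    PP_congr (f := fun p q => 1 - y p + y p ^ 2 * uu (y q))
      (g := fun p q => 1 - y' p + y' p ^ 2 * uu (y' q)) (fun p hp q hq => by
        simp only [h p hp, h q hq])]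

theorem cstG_mem (N : ℕ) {y : Fin k → F} {U : Finset (Fin k)} {K : Subfield F}
    (h : ∀ d ∈ U, y d ∈ K) : cstG N y U ∈ K := by
  unfold cstG PP
  refine K.div_mem (K.mul_mem (K.mul_mem ?_ ?_) ?_) ?_
  · exact K.prod_mem fun d hd => K.sub_mem K.one_mem (K.mul_mem (ofNat_mem K 2) (h d hd))
  · exact K.prod_mem fun d hd => K.pow_mem (K.inv_mem (uu_mem (h d hd))) _
  · exact K.prod_mem fun d hd => K.pow_mem (h d hd) _
  · refine K.prod_mem fun p hp => K.prod_mem fun q hq => ?_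
    have hq' := (Finset.mem_filter.mp hq).1
    exact K.add_mem (K.sub_mem K.one_mem (h p hp)) (K.mul_mem (K.pow_mem (h p hp) 2) (uu_mem (h q hq')))

theorem PhiG_eq (N : ℕ) (y : Fin k → F) :
    PhiG N y = DD (fun d => uu (y d)) * cstG N y univ := by
  unfold PhiG KG cstG
  rw [PP_univ]
  ring

theorem kap_update (y : Fin k → F) {i l : Fin k} (hl : l ≠ i) (t : F) :
    kap (update y i t) i l =
      if i < l then 1 - t + t ^ 2 * uu (y l) else 1 - y l + y l ^ 2 * uu t := by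
  unfold kap
  rw [update_self, update_of_ne hl]

theorem kap_update' (y : Fin k → F) {i j l : Fin k} (hj : j ≠ i) (hl : l ≠ i) (t : F) :
    kap (update y i t) j l = kap y j l := by
  unfold kap
  rw [update_of_ne hj, update_of_ne hl]

theorem PhiG_update (N : ℕ) (y : Fin k → F) (i : Fin k) (t : F) :
    PhiG N (update y i t) = (DD (fun d => uu (update y i t d)) * (1 - 2 * t) * t ^ (k - (i : ℕ)) *
      cstG N y (univ.erase i)) / (t ^ N * (1 - t) ^ N * ∏ l ∈ univ.erase i,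
        kap (update y i t) i l) := by
  rw [PhiG_eq, cstG_erase N _ univ (Finset.mem_univ i), update_self,
    cstG_congr N (U := univ.erase i) (y := update y i t) (y' := y) (fun d hd =>
      update_of_ne (Finset.mem_erase.mp hd).1 _ _)]
  have : ((uu t)⁻¹) ^ N = 1 / (t ^ N * (1 - t) ^ N) := by
    unfold uu
    rw [inv_pow, mul_pow, one_div]
  rw [this]
  ring

end cst

/-! ### the roots -/

section rho

variable {F : Type*} [Field F] {k : ℕ}

/-- the roots of `kap (update y i t) i l` as a function of `t` -/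
noncomputable def rho (i : Fin k) (y : Fin k → F) (l : Fin k) (b : Bool) : F :=
  if b then (if i < l then (1 - y l)⁻¹ else 1 - (y l)⁻¹) else (y l)⁻¹

/-- its leading coefficient -/
def cR (i : Fin k) (y : Fin k → F) (l : Fin k) : F := if i < l then uu (y l) else -(y l) ^ 2

theorem kap_factor (y : Fin k → F) {i l : Fin k} (hl : l ≠ i) (hy0 : y l ≠ 0)
    (hy1 : 1 - y l ≠ 0) (t : F) :
    kap (update y i t) i l =
      cR i y l * ((t - rho i y l false) * (t - rho i y l true)) := by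
  rw [kap_update y hl t]
  unfold cR rho uu
  by_cases h : i < l
  · simp only [if_pos h, Bool.false_eq_true, if_false, if_true]
    field_simp
    ring
  · simp only [if_neg h, Bool.false_eq_true, if_false, if_true]
    field_simp
    ring

end rho

section yyfacts

variable {k : ℕ}

theorem ss_notMem (b : Fin k) : ss k b ∉ Kf ({b} : Set (Fin k)) := by
  intro h
  have := h (ee k b) (by rw [ss_coeff_self]; exact one_ne_zero) b rfl
  rw [ex_ee, if_pos rfl] at this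
  omega

theorem sg_mem {F : Type*} [Field F] {K : Subfield F} {x : F} (hx : x ∈ K) (ε : Bool) : sg ε x ∈ K := by
  unfold sg
  split_ifs
  · exact K.sub_mem K.one_mem hx
  · exact hx

theorem sg_sg {F : Type*} [CommRing F] (ε : Bool) (x : F) : sg ε (sg ε x) = x := by
  unfold sg; split_ifs <;> ring

theorem sg_mem_iff {F : Type*} [Field F] {K : Subfield F} {x : F} (ε : Bool) : sg ε x ∈ K ↔ x ∈ K := by
  refine ⟨fun h => ?_, fun h => sg_mem h ε⟩
  have := sg_mem h ε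
  rwa [sg_sg] at this

theorem yy_mem (π : Equiv.Perm (Fin k)) (ε : Fin k → Bool) {A : Set (Fin k)} {l : Fin k}
    (h : π l ∉ A) : yy π ε l ∈ Kf A := sg_mem (ss_mem_Kf h) _

theorem yy_notMem (π : Equiv.Perm (Fin k)) (ε : Fin k → Bool) (l : Fin k) :
    yy π ε l ∉ Kf ({π l} : Set (Fin k)) := fun h => ss_notMem _ ((sg_mem_iff _).mp h)

theorem inv_mem_iff' {F : Type*} [Field F] {K : Subfield F} {x : F} : x⁻¹ ∈ K ↔ x ∈ K :=
  ⟨fun h => by simpa using K.inv_mem h, fun h => K.inv_mem h⟩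

theorem one_sub_mem_iff {F : Type*} [Field F] {K : Subfield F} {x : F} : 1 - x ∈ K ↔ x ∈ K :=
  ⟨fun h => by simpa using K.sub_mem K.one_mem h, fun h => K.sub_mem K.one_mem h⟩

theorem rho_mem_iff {F : Type*} [Field F] {K : Subfield F} {i : Fin k} {y : Fin k → F} {l : Fin k} {b : Bool} :
    rho i y l b ∈ K ↔ y l ∈ K := by
  unfold rho
  split_ifs
  · rw [inv_mem_iff', one_sub_mem_iff]
  · rw [one_sub_mem_iff, inv_mem_iff']
  · rw [inv_mem_iff']

end yyfacts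

/-! ### the reflection lemma with pairs of poles -/

section reflect2

variable {k : ℕ}

open Classical in
theorem reflect2 (a : Fin k) (J : Finset (Fin k)) (ρ : Fin k → Bool → LL k) (c : Fin k → LL k)
    (φ : Fin k → LL k → LL k)
    (hφ : ∀ l ∈ J, ∀ t, φ l t = c l * ((t - ρ l false) * (t - ρ l true)))
    (hcK : ∀ l ∈ J, c l ∈ Kf ({a} : Set (Fin k))) (hc0 : ∀ l ∈ J, c l ≠ 0)
    (hρK : ∀ l ∈ J, ∀ b, ρ l b ∈ Kf ({a} : Set (Fin k)))
    (hinj : ∀ l ∈ J, ∀ l' ∈ J, ∀ b b', ρ l b = ρ l' b' → l = l' ∧ b = b')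
    (h0 : ∀ l ∈ J, ∀ b, ρ l b ≠ 0) (h1 : ∀ l ∈ J, ∀ b, ρ l b ≠ 1)
    (N D : ℕ) (f : LL k → LL k) (hf : IsPoly (Kf ({a} : Set (Fin k))) D f)
    (hD : D + 2 ≤ 2 * N + 2 * J.card)
    (hR : ∀ j ∈ J, ∀ b, res (f (ρ j b) / (ρ j b ^ N * (1 - ρ j b) ^ N *
      (c j * (ρ j b - ρ j (!b))) * ∏ l ∈ J.erase j, φ l (ρ j b)) * (ss k a)⁻¹) = 0) :
    res (f (ss k a) / (ss k a ^ N * (1 - ss k a) ^ N * ∏ l ∈ J, φ l (ss k a))) =
      res (f (1 - ss k a) / ((1 - ss k a) ^ N * (1 - (1 - ss k a)) ^ N *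
        ∏ l ∈ J, φ l (1 - ss k a))) := by
  set ι := {x : Fin k × Bool // x ∈ J ×ˢ (univ : Finset Bool)} with hι
  set P : ι → LL k := fun x => ρ x.1.1 x.1.2 with hP
  have hmem : ∀ x : ι, x.1.1 ∈ J := fun x => (Finset.mem_product.mp x.2).1
  have hcprod : (∏ l ∈ J, c l) ≠ 0 := Finset.prod_ne_zero_iff.mpr hc0
  have hcprodK : (∏ l ∈ J, c l) ∈ Kf ({a} : Set (Fin k)) := (Kf {a}).prod_mem hcK
  have hprod : ∀ t : LL k, (∏ l ∈ J, c l) * ∏ x : ι, (t - P x) = ∏ l ∈ J, φ l t := by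
    intro t
    have e1 : ∏ x : ι, (t - P x) = ∏ x ∈ J ×ˢ (univ : Finset Bool), (t - ρ x.1 x.2) := by
      exact Finset.prod_coe_sort (J ×ˢ (univ : Finset Bool)) (fun x => t - ρ x.1 x.2)
    rw [e1, Finset.prod_product, ← Finset.prod_mul_distrib]
    refine Finset.prod_congr rfl fun l hl => ?_
    rw [Fintype.prod_bool, hφ l hl]
    ring
  have hcard : Fintype.card ι = 2 * J.card := by
    have : Fintype.card ι = (J ×ˢ (univ : Finset Bool)).card := Fintype.card_coe _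
    rw [this, Finset.card_product]
    simp [mul_comm]
  have key := reflect a P (fun x => hρK _ (hmem x) _)
    (fun x x' h => by
      obtain ⟨e1, e2⟩ := hinj _ (hmem x) _ (hmem x') _ _ h
      exact Subtype.ext (Prod.ext e1 e2))
    (fun x => h0 _ (hmem x) _) (fun x => h1 _ (hmem x) _) N N D
    (fun t => f t * (∏ l ∈ J, c l)⁻¹)
    ((hf.mul (IsPoly.const ((Kf {a}).inv_mem hcprodK))).mono (by simp)) (by rw [hcard]; omega)
    (by
      rintro ⟨⟨j, b⟩, hx⟩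
      have hj : j ∈ J := (Finset.mem_product.mp hx).1
      have h2 := hR j hj b
      have e2 : ∏ x' ∈ univ.erase (⟨(j, b), hx⟩ : ι), (P ⟨(j, b), hx⟩ - P x') =
          (ρ j b - ρ j (!b)) * ∏ l ∈ J.erase j, ((ρ j b - ρ l false) * (ρ j b - ρ l true)) := by
        have e3 : ∏ x' ∈ univ.erase (⟨(j, b), hx⟩ : ι), (P ⟨(j, b), hx⟩ - P x') =
            ∏ x' ∈ (J ×ˢ (univ : Finset Bool)).erase (j, b), (ρ j b - ρ x'.1 x'.2) := by
          refine Finset.prod_bij (fun x' _ => x'.1) ?_ ?_ ?_ ?_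
          · intro x' hx'
            rw [Finset.mem_erase] at hx' ⊢
            exact ⟨fun h => hx'.1 (Subtype.ext h), x'.2⟩
          · intro x1 _ x2 _ h; exact Subtype.ext h
          · intro x' hx'
            rw [Finset.mem_erase] at hx'
            refine ⟨⟨x', hx'.2⟩, ?_, rfl⟩
            rw [Finset.mem_erase]
            exact ⟨fun h => hx'.1 (congrArg Subtype.val h), Finset.mem_univ _⟩
          · intro x' _; rfl
        have e4 : (J ×ˢ (univ : Finset Bool)).erase (j, b) =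
            insert (j, !b) ((J.erase j) ×ˢ (univ : Finset Bool)) := by
          ext ⟨l, b'⟩
          simp only [Finset.mem_erase, Finset.mem_product, Finset.mem_insert, Finset.mem_univ,
            and_true, ne_eq, Prod.mk.injEq]
          constructor
          · rintro ⟨h3, h4⟩
            by_cases h5 : l = j
            · left
              refine ⟨h5, ?_⟩
              have : ¬ b' = b := fun h6 => h3 ⟨h5, h6⟩
              cases b <;> cases b' <;> simp_all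
            · right; exact ⟨h5, h4⟩
          · rintro (⟨rfl, rfl⟩ | ⟨h5, h4⟩)
            · exact ⟨by cases b <;> simp, hj⟩
            · exact ⟨fun h => h5 h.1, h4⟩
        rw [e3, e4, Finset.prod_insert (by simp), Finset.prod_product]
        congr 1
        refine Finset.prod_congr rfl fun l _ => ?_
        rw [Fintype.prod_bool, mul_comm]
      have e5 : ∏ l ∈ J.erase j, φ l (ρ j b) = (∏ l ∈ J.erase j, c l) *
          ∏ l ∈ J.erase j, ((ρ j b - ρ l false) * (ρ j b - ρ l true)) := by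
        rw [← Finset.prod_mul_distrib]
        exact Finset.prod_congr rfl fun l hl => hφ l (Finset.mem_erase.mp hl).2 _
      have e6 : (∏ l ∈ J, c l) = c j * ∏ l ∈ J.erase j, c l := (Finset.mul_prod_erase J c hj).symm
      rw [e2]
      rw [e5] at h2
      convert h2 using 3
      change f (ρ j b) * (∏ l ∈ J, c l)⁻¹ / (ρ j b ^ N * (1 - ρ j b) ^ N * _) = _
      rw [e6, ← div_eq_mul_inv, div_div]
      congr 1
      ring)
  have e7 : ∀ t : LL k, f t * (∏ l ∈ J, c l)⁻¹ / (t ^ N * (1 - t) ^ N * ∏ x : ι, (t - P x)) =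
      f t / (t ^ N * (1 - t) ^ N * ∏ l ∈ J, φ l t) := by
    intro t
    rw [← hprod, ← div_eq_mul_inv, div_div]
    congr 1
    ring
  have e8 := e7 (1 - ss k a)
  rw [sub_sub_cancel] at e8
  rw [sub_sub_cancel, ← e8, ← e7]
  exact key

end reflect2

end Pool.Agent.Lib.MP_b6786a_co.Zeil
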