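import Pool.Agent.Lib.MP_b6786a_co.Zeil.Basic

/-!
# Zeilberger's theorem for trapezoids: the transfer identity
-/

set_option autoImplicit false

namespace Pool.Agent.Lib.MP_b6786a_co.Zeil

open Finset Function

/-- The exchange relations. -/
def TransferEx {k : ℕ} (g : (Fin k → ℤ) → ℚ) : Prop :=
  ∀ (x : Fin k → ℤ) (d e : Fin k), (d : ℕ) + 1 = e → ∀ a : ℤ,
    g (update (update x d (a - 1)) e a) - g (update (update x d a) e a) +
      g (update (update x d a) e (a + 1)) = 0

theorem TransferEx.cons {k : ℕ} {g : (Fin (k + 1) → ℤ) → ℚ} (h : TransferEx g) (a : ℤ) :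
    TransferEx (fun t : Fin k → ℤ => g (Fin.cons a t)) := by
  intro t d e hde b
  have := h (Fin.cons a t : Fin (k + 1) → ℤ) d.succ e.succ (by simp [hde]) b
  simpa only [← Fin.cons_update] using this

theorem TransferEx.two {k : ℕ} {g : (Fin (k + 2) → ℤ) → ℚ} (h : TransferEx g) (a : ℤ)
    (t : Fin k → ℤ) :
    g (Fin.cons (a - 1) (Fin.cons a t : Fin (k + 1) → ℤ)) -
      g (Fin.cons a (Fin.cons a t : Fin (k + 1) → ℤ)) +
      g (Fin.cons a (Fin.cons (a + 1) t : Fin (k + 1) → ℤ)) = 0 := by
  have := h (Fin.cons a (Fin.cons a t : Fin (k + 1) → ℤ) : Fin (k + 2) → ℤ) 0 (Fin.succ 0)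
    (by simp) a
  simpa only [Fin.update_cons_zero, ← Fin.cons_update] using this

/-- sums over subsets of `Fin (k + 1)` -/
theorem transfer_sum_finset {k : ℕ} (φ : Finset (Fin (k + 1)) → ℚ) :
    ∑ T, φ T = ∑ T : Finset (Fin k), φ (T.map (Fin.succEmb k)) +
      ∑ T : Finset (Fin k), φ (insert 0 (T.map (Fin.succEmb k))) := by
  rw [← Finset.sum_filter_not_add_sum_filter univ (fun T : Finset (Fin (k + 1)) => 0 ∈ T)]
  congr 1
  · refine Finset.sum_nbij' (fun T => T.preimage Fin.succ (Fin.succ_injective k).injOn)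
      (fun T => T.map (Fin.succEmb k)) ?_ ?_ ?_ ?_ ?_
    · intro T _; simp
    · intro T _; simp
    · intro T hT
      ext i
      refine Fin.cases ?_ (fun i => ?_) i
      · simpa using hT
      · simp
    · intro T _
      ext i
      simp
    · intro T hT
      congr 1
      ext i
      refine Fin.cases ?_ (fun i => ?_) i
      · simpa using hT
      · simp
  · refine Finset.sum_nbij' (fun T => T.preimage Fin.succ (Fin.succ_injective k).injOn)
      (fun T => insert 0 (T.map (Fin.succEmb k))) ?_ ?_ ?_ ?_ ?_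
    · intro T _; simp
    · intro T _; simp
    · intro T hT
      ext i
      refine Fin.cases ?_ (fun i => ?_) i
      · simpa using hT
      · simp
    · intro T _
      ext i
      simp
    · intro T hT
      congr 1
      ext i
      refine Fin.cases ?_ (fun i => ?_) i
      · simpa using hT
      · simp

theorem dF_cons {k : ℕ} (g : (Fin (k + 1) → ℤ) → ℚ) (a : ℤ) (t : Fin k → ℤ) :
    dF g (Fin.cons a t) = dF (fun t => g (Fin.cons a t)) t -
      dF (fun t => g (Fin.cons (a + 1) t)) t := by
  unfold dF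
  rw [transfer_sum_finset, sub_eq_add_neg, ← Finset.sum_neg_distrib]
  congr 1
  · refine Finset.sum_congr rfl fun T _ => ?_
    rw [Finset.card_map]
    congr 2
    funext i
    refine Fin.cases ?_ (fun i => ?_) i
    · simp
    · simp
  · refine Finset.sum_congr rfl fun T _ => ?_
    have h0 : (0 : Fin (k + 1)) ∉ T.map (Fin.succEmb k) := by simp
    rw [Finset.card_insert_of_notMem h0, Finset.card_map, pow_succ, mul_neg_one, neg_mul]
    congr 3
    funext i
    refine Fin.cases ?_ (fun i => ?_) i
    · simp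
    · simp

theorem dF_sub {k : ℕ} (g h : (Fin k → ℤ) → ℚ) (t : Fin k → ℤ) :
    dF (fun x => g x - h x) t = dF g t - dF h t := by
  unfold dF
  rw [← Finset.sum_sub_distrib]
  exact Finset.sum_congr rfl fun T _ => by ring

/-- the nested sums -/
noncomputable def TT : (k : ℕ) → ℤ → (Fin k → ℤ) → ((Fin k → ℤ) → ℚ) → ℚ
  | 0, _, l, g => g l
  | k + 1, b, l, g => ∑ a ∈ Icc (l 0 - 1) b,
      TT k (min a (l 0)) (Fin.tail l) (fun t => g (Fin.cons a t))

theorem TT_sub {k : ℕ} (b : ℤ) (l : Fin k → ℤ) (g h : (Fin k → ℤ) → ℚ) :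
    TT k b l (fun x => g x - h x) = TT k b l g - TT k b l h := by
  induction k generalizing b with
  | zero => rfl
  | succ k ih =>
    simp only [TT]
    rw [← Finset.sum_sub_distrib]
    exact Finset.sum_congr rfl fun a _ => ih _ _ _ _

theorem TT_zero {k : ℕ} (b : ℤ) (l : Fin k → ℤ) : TT k b l (fun _ => 0) = 0 := by
  induction k generalizing b with
  | zero => rfl
  | succ k ih =>
    simp only [TT]
    exact Finset.sum_eq_zero fun a _ => ih _ _

/-- one step of the nested sums of differences -/
theorem TT_succ {k : ℕ} (b : ℤ) (l : Fin (k + 1) → ℤ) (g : (Fin (k + 1) → ℤ) → ℚ) :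
    TT (k + 1) b l (dF g) = ∑ a ∈ Icc (l 0 - 1) b,
      (TT k (min a (l 0)) (Fin.tail l) (dF fun t => g (Fin.cons a t)) -
        TT k (min a (l 0)) (Fin.tail l) (dF fun t => g (Fin.cons (a + 1) t))) := by
  simp only [TT]
  refine Finset.sum_congr rfl fun a _ => ?_
  rw [← TT_sub]
  congr 1
  funext t
  exact dF_cons g a t

theorem dF_zero' (g : (Fin 0 → ℤ) → ℚ) (x : Fin 0 → ℤ) : dF g x = g x := by
  unfold dF
  rw [Fintype.sum_eq_single ∅ (fun T hT => absurd (Subsingleton.elim T ∅) hT)]
  simp only [card_empty, pow_zero, one_mul]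
  congr 1
  funext i
  exact i.elim0

theorem transfer_tele (G : ℤ → ℚ) (m b : ℤ) (h : m - 1 ≤ b) :
    ∑ a ∈ Icc m b, (G a - G (a + 1)) = G m - G (b + 1) := by
  induction b, h using Int.leInduction with
  | base => rw [Finset.Icc_eq_empty (by omega), Finset.sum_empty, sub_add_cancel, sub_self]
  | succ b hb ih =>
    have e : Icc m (b + 1) = insert (b + 1) (Icc m b) := by
      ext x
      simp only [mem_Icc, mem_insert]
      omega
    rw [e, Finset.sum_insert (by simp), ih]
    ring

theorem TT_main {k : ℕ} : ∀ (b : ℤ) (l : Fin (k + 1) → ℤ) (g : (Fin (k + 1) → ℤ) → ℚ),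
    Antitone l → l 0 - 1 ≤ b → TransferEx g →
    TT (k + 1) b l (dF g) = g (fun d => l d - 1) -
      TT k (l 0) (Fin.tail l) (dF fun t => g (Fin.cons (b + 1) t)) := by
  induction k with
  | zero =>
    intro b l g _ hb _
    rw [TT_succ]
    simp only [TT, dF_zero']
    rw [transfer_tele (fun a => g (Fin.cons a (Fin.tail l))) _ _ (by omega)]
    congr 2
    funext i
    exact Fin.cases rfl (fun j => j.elim0) i
  | succ k ih =>
    intro b l g hl hb hg
    have hl1 : Antitone (Fin.tail l) := fun i j hij => hl (Fin.succ_le_succ_iff.mpr hij)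
    have h10 : Fin.tail l 0 ≤ l 0 := hl (Fin.zero_le _)
    have hcons : ∀ x : ℤ, g (fun d => l d - 1) = g (Fin.cons (l 0 - 1) (fun d => Fin.tail l d - 1)) := by
      intro x
      congr 1
      funext i
      refine Fin.cases ?_ (fun i => ?_) i
      · simp
      · simp [Fin.tail]
    -- the case `b = l 0 - 1`
    have base : TT (k + 2) (l 0 - 1) l (dF g) = g (fun d => l d - 1) -
        TT (k + 1) (l 0) (Fin.tail l) (dF fun t => g (Fin.cons (l 0) t)) := by
      rw [TT_succ, Finset.Icc_self, Finset.sum_singleton, min_eq_left (by omega),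
        sub_add_cancel, ih (l 0 - 1) _ _ hl1 (by omega) (hg.cons _),
        ih (l 0 - 1) _ _ hl1 (by omega) (hg.cons _),
        ih (l 0) _ _ hl1 (by omega) (hg.cons _), sub_add_cancel, hcons 0]
      have h2 : (fun t : Fin k → ℤ => g (Fin.cons (l 0 - 1) (Fin.cons (l 0) t : Fin (k + 1) → ℤ))) =
          fun t => g (Fin.cons (l 0) (Fin.cons (l 0) t : Fin (k + 1) → ℤ)) -
            g (Fin.cons (l 0) (Fin.cons (l 0 + 1) t : Fin (k + 1) → ℤ)) := by
        funext t
        have := hg.two (l 0) t
        linarith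
      have h3 : TT k (Fin.tail l 0) (Fin.tail (Fin.tail l))
            (dF fun t : Fin k → ℤ => g (Fin.cons (l 0 - 1) (Fin.cons (l 0) t : Fin (k + 1) → ℤ))) =
          TT k (Fin.tail l 0) (Fin.tail (Fin.tail l))
            (dF fun t : Fin k → ℤ => g (Fin.cons (l 0) (Fin.cons (l 0) t : Fin (k + 1) → ℤ))) -
          TT k (Fin.tail l 0) (Fin.tail (Fin.tail l))
            (dF fun t : Fin k → ℤ =>
              g (Fin.cons (l 0) (Fin.cons (l 0 + 1) t : Fin (k + 1) → ℤ))) := by
        rw [h2, ← TT_sub]
        congr 1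
        funext t
        exact dF_sub _ _ t
      rw [h3]
      ring
    have hsplit : Icc (l 0 - 1) b = insert (l 0 - 1) (Icc (l 0) b) := by
      ext x
      simp only [mem_Icc, mem_insert]
      omega
    rw [TT_succ, hsplit, Finset.sum_insert (by simp)]
    have h4 := TT_succ (l 0 - 1) l g
    rw [Finset.Icc_self, Finset.sum_singleton] at h4
    rw [← h4, base]
    have h5 : ∑ a ∈ Icc (l 0) b,
        (TT (k + 1) (min a (l 0)) (Fin.tail l) (dF fun t => g (Fin.cons a t)) -
          TT (k + 1) (min a (l 0)) (Fin.tail l) (dF fun t => g (Fin.cons (a + 1) t))) =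
        ∑ a ∈ Icc (l 0) b,
        (TT (k + 1) (l 0) (Fin.tail l) (dF fun t => g (Fin.cons a t)) -
          TT (k + 1) (l 0) (Fin.tail l) (dF fun t => g (Fin.cons (a + 1) t))) := by
      refine Finset.sum_congr rfl fun a ha => ?_
      rw [min_eq_right (mem_Icc.mp ha).1]
    rw [h5, transfer_tele (fun a => TT (k + 1) (l 0) (Fin.tail l)
      (dF fun t => g (Fin.cons a t))) _ _ hb]
    ring

/-- The set of admissible `l'`. -/
def TSet {k : ℕ} (b : ℤ) (l : Fin k → ℤ) (l' : Fin k → ℤ) : Prop :=
  (∀ d, l d - 1 ≤ l' d ∧ l' d ≤ b) ∧ Antitone l' ∧ ∀ d e : Fin k, (d : ℕ) + 1 = e → l' e ≤ l d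

theorem TSet_succ {k : ℕ} (b : ℤ) (l : Fin (k + 1) → ℤ) (a : ℤ) (t : Fin k → ℤ) :
    TSet b l (Fin.cons a t) ↔ (l 0 - 1 ≤ a ∧ a ≤ b) ∧ TSet (min a (l 0)) (Fin.tail l) t := by
  constructor
  · rintro ⟨h1, h2, h3⟩
    refine ⟨by simpa using h1 0, fun d => ⟨by simpa [Fin.tail] using (h1 d.succ).1, ?_⟩, ?_, ?_⟩
    · refine le_min (by simpa using h2 (Fin.zero_le d.succ)) ?_
      cases k with
      | zero => exact d.elim0
      | succ k =>
        have h4 := h3 0 (Fin.succ 0) (by simp)
        have h5 := h2 (Fin.succ_le_succ_iff.mpr (Fin.zero_le d))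
        simp only [Fin.cons_succ] at h4 h5
        exact h5.trans h4
    · intro i j hij
      simpa using h2 (Fin.succ_le_succ_iff.mpr hij)
    · intro d e hde
      simpa [Fin.tail] using h3 d.succ e.succ (by simp [hde])
  · rintro ⟨⟨h0, h0'⟩, h1, h2, h3⟩
    refine ⟨?_, ?_, ?_⟩
    · intro d
      refine Fin.cases ?_ (fun d => ?_) d
      · rw [Fin.cons_zero]
        exact ⟨h0, h0'⟩
      · have := h1 d
        simp only [Fin.tail] at this
        simp only [Fin.cons_succ]
        omega
    · intro i j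
      refine Fin.cases ?_ (fun i => ?_) i
      · refine Fin.cases ?_ (fun j => ?_) j
        · intro _; exact le_refl _
        · intro _
          have := h1 j
          simp only [Fin.cons_succ, Fin.cons_zero]
          omega
      · refine Fin.cases ?_ (fun j => ?_) j
        · intro hij
          exact absurd hij (by simp)
        · intro hij
          simp only [Fin.cons_succ]
          exact h2 (Fin.succ_le_succ_iff.mp hij)
    · intro d e
      refine Fin.cases ?_ (fun e => ?_) e
      · intro h; simp at h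
      · refine Fin.cases ?_ (fun d => ?_) d
        · intro h
          have := h1 e
          simp only [Fin.cons_succ]
          omega
        · intro h
          simp only [Fin.cons_succ]
          exact h3 d e (by simpa using h)

open Classical in
/-- The nested sum as a sum over a finite set. -/
theorem TT_eq_sum {k : ℕ} : ∀ (b : ℤ) (l : Fin k → ℤ) (g : (Fin k → ℤ) → ℚ) (c B : ℤ),
    (∀ d, c ≤ l d - 1) → b ≤ B →
    TT k b l g = ∑ l' ∈ (Fintype.piFinset fun _ : Fin k => Icc c B).filter (TSet b l), g l' := by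
  induction k with
  | zero =>
    intro b l g c B _ _
    have h1 : ((Fintype.piFinset fun _ : Fin 0 => Icc c B).filter (TSet b l)) = {l} := by
      ext x
      simp only [mem_filter, Fintype.mem_piFinset, mem_singleton]
      constructor
      · intro _; exact Subsingleton.elim _ _
      · rintro rfl
        exact ⟨fun i => i.elim0, fun i => i.elim0, fun i => i.elim0, fun i => i.elim0⟩
    rw [h1, Finset.sum_singleton]
    rfl
  | succ k ih =>
    intro b l g c B hc hB
    simp only [TT]
    rw [Finset.sum_congr rfl (fun a ha => ih (min a (l 0)) (Fin.tail l)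
      (fun t => g (Fin.cons a t)) c B (fun d => hc d.succ)
      ((min_le_left _ _).trans ((mem_Icc.mp ha).2.trans hB)))]
    rw [Finset.sum_sigma']
    refine Finset.sum_nbij' (fun p => (Fin.cons p.1 p.2 : Fin (k + 1) → ℤ))
      (fun l' => ⟨l' 0, Fin.tail l'⟩) ?_ ?_ ?_ ?_ ?_
    · rintro ⟨a, t⟩ hp
      simp only [mem_sigma, mem_Icc, mem_filter, Fintype.mem_piFinset] at hp ⊢
      refine ⟨fun i => ?_, (TSet_succ b l a t).mpr ⟨hp.1, hp.2.2⟩⟩
      refine Fin.cases ?_ (fun i => ?_) i
      · have := hc 0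
        simp only [Fin.cons_zero]
        omega
      · simpa using hp.2.1 i
    · intro l' hl'
      simp only [mem_sigma, mem_Icc, mem_filter, Fintype.mem_piFinset] at hl' ⊢
      have h2 := hl'.2
      rw [← Fin.cons_self_tail l'] at h2
      have h3 := (TSet_succ b l _ _).mp h2
      exact ⟨h3.1, fun i => hl'.1 i.succ, h3.2⟩
    · rintro ⟨a, t⟩ _
      simp
    · intro l' _
      exact Fin.cons_self_tail l'
    · rintro ⟨a, t⟩ _
      rfl

open Classical in
theorem transfer {k : ℕ} (hk : 0 < k) (m : ℕ) (f : (Fin k → ℤ) → ℚ)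
    (h1 : ∀ x, (∃ d : Fin k, (m : ℤ) + (d : ℕ) < x d) → f x = 0)
    (h2 : ∀ (x : Fin k → ℤ) (d e : Fin k), (d : ℕ) + 1 = e → ∀ a : ℤ,
      f (update (update x d (a - 1)) e a) - f (update (update x d a) e a) +
        f (update (update x d a) e (a + 1)) = 0)
    (h3 : ∀ x : Fin k → ℤ, (∀ d, -1 ≤ x d) → x ⟨k - 1, by omega⟩ = -1 → dF f x = 0)
    (l : Fin k → ℕ) (hl : Antitone l) :
    ∑ l' ∈ (Fintype.piFinset fun _ : Fin k => range (m + 1)).filter (stepG l),
        dF f (fun d => (l' d : ℤ)) = f (fun d => (l d : ℤ) - 1) := by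
  obtain ⟨k, rfl⟩ : ∃ k', k = k' + 1 := ⟨k - 1, by omega⟩
  set L : Fin (k + 1) → ℤ := fun d => (l d : ℤ) with hL
  have hLa : Antitone L := fun i j hij => by
    simp only [hL]
    exact_mod_cast hl hij
  -- the sum as a nested sum
  have e1 : ∑ l' ∈ (Fintype.piFinset fun _ : Fin (k + 1) => range (m + 1)).filter (stepG l),
        dF f (fun d => (l' d : ℤ)) = TT (k + 1) m L (dF f) := by
    rw [TT_eq_sum m L (dF f) (-1) m (fun d => by simp only [hL]; omega) le_rfl]
    rw [← Finset.sum_filter_of_ne (p := fun l' : Fin (k + 1) → ℤ => ∀ d, 0 ≤ l' d)]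
    · refine Finset.sum_nbij' (fun l' d => (l' d : ℤ)) (fun l' d => (l' d).toNat) ?_ ?_ ?_ ?_ ?_
      · intro l' hl'
        simp only [mem_filter, Fintype.mem_piFinset, mem_range, mem_Icc] at hl' ⊢
        obtain ⟨g1, g2, g3, g4⟩ := hl'
        refine ⟨⟨fun d => ?_, fun d => ?_, fun i j hij => Int.ofNat_le.mpr (g2 hij),
          fun d e hde => ?_⟩, fun d => by positivity⟩
        · have := g1 d
          omega
        · have := g1 d
          have := g3 d
          simp only [hL]
          omega
        · have := g4 d e hde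
          simp only [hL]
          omega
      · intro l' hl'
        simp only [mem_filter, Fintype.mem_piFinset, mem_range, mem_Icc] at hl' ⊢
        obtain ⟨⟨g1, g2, g3, g4⟩, g5⟩ := hl'
        refine ⟨fun d => ?_, fun i j hij => ?_, fun d => ?_, fun d e hde => ?_⟩
        · have := g1 d
          omega
        · have := g3 hij
          simp only
          omega
        · have h6 := g2 d
          simp only [hL] at h6 ⊢
          omega
        · have := g4 d e hde
          simp only [hL] at this ⊢
          omega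
      · intro l' _
        funext d
        simp
      · intro l' hl'
        simp only [mem_filter] at hl'
        funext d
        exact Int.toNat_of_nonneg (hl'.2 d)
      · intro l' _
        rfl
    · intro l' hl' hne
      simp only [mem_filter, Fintype.mem_piFinset, mem_Icc] at hl'
      obtain ⟨g1, g2, g3, g4⟩ := hl'
      by_contra hcon
      push Not at hcon
      obtain ⟨d, hd⟩ := hcon
      refine hne (h3 l' (fun d => (g1 d).1) ?_)
      have h4 : d ≤ ⟨k + 1 - 1, by omega⟩ := Fin.mk_le_mk.mpr (by omega)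
      have h5 := g3 h4
      have h6 := (g1 ⟨k + 1 - 1, by omega⟩).1
      omega
  rw [e1]
  by_cases hm : L 0 - 1 ≤ m
  · rw [TT_main m L f hLa hm h2]
    have e2 : (fun t : Fin k → ℤ => f (Fin.cons ((m : ℤ) + 1) t)) = fun _ => 0 := by
      funext t
      exact h1 _ ⟨0, by simp⟩
    rw [e2]
    have e3 : dF (fun _ : Fin k → ℤ => (0 : ℚ)) = fun _ => 0 := by
      funext t
      simp [dF]
    rw [e3, TT_zero, sub_zero]
  · rw [h1 (fun d => (l d : ℤ) - 1) ⟨0, by simp only [hL] at hm; simp; omega⟩]
    simp only [TT]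
    rw [Finset.Icc_eq_empty (by omega), Finset.sum_empty]

end Pool.Agent.Lib.MP_b6786a_co.Zeil
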